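import Pool.Agent.Lib_MP_36b788c.Unit

/-!
# The weight of a pair: shift, potentials, second moments

`α = exp(-(a/8))`.

PROOF.
* `wpr_shift`: termwise, `α^{dist x z} ≤ e^{(a/8) dist x y} α^{dist y z}` because `dist y z ≤ dist x y + dist x z` (`dist_tri`, `dist_comm`); `α^n = exp(-(a/8) n)`.
* `V_le_wpr`: the term `z` of the sum in `wpr … y` is `ofReal (α^{dist y z}) (V1 z + V2 z)`; multiply by `e^{(a/8) dist z y}`.
* `potGe_mono`: `k^{M' + s' dist} ≤ k^{M + s dist}` (`0 < k ≤ 1`, `Real.rpow_le_rpow_of_exponent_ge`).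
* `pot_of_wpr`: `V_i(z) ≤ e^{(a/8) dist z y} K ≤ exp((1/16)(M + 2 a dist z y))`, `potGe_of_V` with `a' = 1/16`, `s0 = 2a`, then `potGe_mono`.
* `wpr_l2`: Minkowski in `L²(μ restricted to E)` over `z` and over `i = 1, 2` (`ENNReal.lintegral_Lp_add_le`, induction on the finset), `(∫ V_i(H) z²)^{1/2} ≤ ofReal κ' V_i(G) z + ofReal CV`; sum: `κ' wpr(G) x + 2 CV Σ_z α^{dist x z}`.
-/

open MeasureTheory ProbabilityTheory
open scoped ENNReal

namespace DynG

open Dyn DynC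

variable {d L : ℕ}

private theorem FWpr_exp_pow (a : ℝ) (n : ℕ) :
    Real.exp (-(a / 8)) ^ n = Real.exp (-(a / 8) * n) := by
  rw [← Real.exp_nat_mul]
  congr 1
  ring

private theorem FWpr_wpr {V : Type} [NormedAddCommGroup V] (k q s α : ℝ)
    (G : (boxS d L → V) × (boxS d L → V)) (x : boxS d L) :
    wpr (boxNet d L) k q s α G.1 G.2 x =
      ∑ z, ENNReal.ofReal (α ^ (boxNet d L).dist x z) * (V1 k q s G z + V2 k q s G z) := rfl

theorem wpr_shift {V : Type} [NormedAddCommGroup V] (k q s a : ℝ) (ha : 0 ≤ a)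
    (G G' : boxS d L → V) (x y : boxS d L) :
    wpr (boxNet d L) k q s (Real.exp (-(a / 8))) G G' x ≤
      ENNReal.ofReal (Real.exp (a / 8 * (boxNet d L).dist x y)) *
        wpr (boxNet d L) k q s (Real.exp (-(a / 8))) G G' y := by
  unfold wpr
  rw [Finset.mul_sum]
  refine Finset.sum_le_sum fun z _ => ?_
  rw [← mul_assoc, ← ENNReal.ofReal_mul (Real.exp_pos _).le]
  refine mul_le_mul_left (ENNReal.ofReal_le_ofReal ?_) _
  rw [FWpr_exp_pow, FWpr_exp_pow, ← Real.exp_add]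
  refine Real.exp_le_exp.2 ?_
  have h1 : (boxNet d L).dist y z ≤ (boxNet d L).dist x y + (boxNet d L).dist x z := by
    have h2 := (boxNet d L).dist_tri y x z
    rw [(boxNet d L).dist_comm y x] at h2
    exact h2
  have h3 : (((boxNet d L).dist y z : ℕ) : ℝ) ≤
      (((boxNet d L).dist x y : ℕ) : ℝ) + (((boxNet d L).dist x z : ℕ) : ℝ) := by
    exact_mod_cast h1
  nlinarith [mul_le_mul_of_nonneg_left h3 (by positivity : (0 : ℝ) ≤ a / 8)]

theorem V_le_wpr {V : Type} [NormedAddCommGroup V] (k q s a : ℝ)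
    (G : (boxS d L → V) × (boxS d L → V)) (z y : boxS d L) :
    V1 k q s G z ≤ ENNReal.ofReal (Real.exp (a / 8 * (boxNet d L).dist z y)) *
        wpr (boxNet d L) k q s (Real.exp (-(a / 8))) G.1 G.2 y ∧
      V2 k q s G z ≤ ENNReal.ofReal (Real.exp (a / 8 * (boxNet d L).dist z y)) *
        wpr (boxNet d L) k q s (Real.exp (-(a / 8))) G.1 G.2 y := by
  have h1 : ENNReal.ofReal (Real.exp (-(a / 8)) ^ (boxNet d L).dist y z) *
      (V1 k q s G z + V2 k q s G z) ≤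
        wpr (boxNet d L) k q s (Real.exp (-(a / 8))) G.1 G.2 y := by
    rw [FWpr_wpr]
    exact Finset.single_le_sum (f := fun z => ENNReal.ofReal
      (Real.exp (-(a / 8)) ^ (boxNet d L).dist y z) * (V1 k q s G z + V2 k q s G z))
      (fun _ _ => zero_le) (Finset.mem_univ z)
  have h2 : V1 k q s G z + V2 k q s G z ≤
      ENNReal.ofReal (Real.exp (a / 8 * (boxNet d L).dist z y)) *
        wpr (boxNet d L) k q s (Real.exp (-(a / 8))) G.1 G.2 y := by
    refine le_trans (le_of_eq ?_) (mul_le_mul_right h1 _)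
    rw [← mul_assoc, ← ENNReal.ofReal_mul (Real.exp_pos _).le, FWpr_exp_pow, ← Real.exp_add,
      (boxNet d L).dist_comm z y]
    rw [show a / 8 * (((boxNet d L).dist y z : ℕ) : ℝ) +
      -(a / 8) * (((boxNet d L).dist y z : ℕ) : ℝ) = 0 by ring, Real.exp_zero,
      ENNReal.ofReal_one, one_mul]
  exact ⟨le_self_add.trans h2, le_add_self.trans h2⟩

theorem potGe_mono {k q M M' s s' : ℝ} (hk : 0 < k) (hk1 : k < 1) (hM : M ≤ M') (hs : s ≤ s')
    (u t : boxS d L → ℝ) (y : boxS d L) (h : PotGe k q u t M s y) : PotGe k q u t M' s' y := by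
  intro v
  obtain ⟨z, hz⟩ := h v
  refine ⟨z, le_trans ?_ hz⟩
  refine Real.rpow_le_rpow_of_exponent_ge hk hk1.le ?_
  have h1 : s * (((boxNet d L).dist v y : ℕ) : ℝ) ≤ s' * (((boxNet d L).dist v y : ℕ) : ℝ) :=
    mul_le_mul_of_nonneg_right hs (Nat.cast_nonneg _)
  linarith

theorem pot_of_wpr {V : Type} [NormedAddCommGroup V] {k q a K M s1 : ℝ} (hk : 0 < k) (hk1 : k < 1)
    (ha : 0 < a) (hK : 1 ≤ K) (hM : Real.log K ≤ M / 16) (hs1 : 2 * a ≤ s1)
    (G : (boxS d L → V) × (boxS d L → V)) (y : boxS d L)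
    (hw : wpr (boxNet d L) k q (1 / 16 / ell k) (Real.exp (-(a / 8))) G.1 G.2 y <
      ENNReal.ofReal K) :
    PotGe k q (nrm G.1) (fun v => nrm G.1 v + nrm G.2 v) M s1 y ∧
      PotGe k q (nrm G.2) (fun v => nrm G.1 v + nrm G.2 v) M s1 y := by
  have hK0 : 0 < K := lt_of_lt_of_le one_pos hK
  have key : ∀ v : boxS d L, ENNReal.ofReal (Real.exp (a / 8 * (boxNet d L).dist v y)) *
      wpr (boxNet d L) k q (1 / 16 / ell k) (Real.exp (-(a / 8))) G.1 G.2 y ≤
        ENNReal.ofReal (Real.exp (1 / 16 * (M + 2 * a * (boxNet d L).dist v y))) := by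
    intro v
    refine le_trans (mul_le_mul_right hw.le _) ?_
    rw [← ENNReal.ofReal_mul (Real.exp_pos _).le]
    refine ENNReal.ofReal_le_ofReal ?_
    have h1 : K ≤ Real.exp (M / 16) := by
      rw [← Real.exp_log hK0]
      exact Real.exp_le_exp.2 hM
    calc Real.exp (a / 8 * (boxNet d L).dist v y) * K
        ≤ Real.exp (a / 8 * (boxNet d L).dist v y) * Real.exp (M / 16) :=
          mul_le_mul_of_nonneg_left h1 (Real.exp_pos _).le
      _ = Real.exp (1 / 16 * (M + 2 * a * (boxNet d L).dist v y)) := by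
          rw [← Real.exp_add]
          congr 1
          ring
  constructor
  · refine potGe_mono hk hk1 le_rfl hs1 _ _ y (potGe_of_V (a' := 1 / 16) (s0 := 2 * a) hk hk1
      (by norm_num) _ _ y fun v => ?_)
    exact ((V_le_wpr k q (1 / 16 / ell k) a G v y).1).trans (key v)
  · refine potGe_mono hk hk1 le_rfl hs1 _ _ y (potGe_of_V (a' := 1 / 16) (s0 := 2 * a) hk hk1
      (by norm_num) _ _ y fun v => ?_)
    exact ((V_le_wpr k q (1 / 16 / ell k) a G v y).2).trans (key v)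

/-- Minkowski for finite sums -/
private theorem FWpr_mink {J Ω : Type} [MeasurableSpace Ω] (T : Finset J) (μ : Measure Ω)
    (v : J → Ω → ℝ≥0∞) (hv : ∀ j, Measurable (v j)) :
    (∫⁻ ω, (∑ j ∈ T, v j ω) ^ (2 : ℝ) ∂μ) ^ (1 / 2 : ℝ) ≤
      ∑ j ∈ T, (∫⁻ ω, v j ω ^ (2 : ℝ) ∂μ) ^ (1 / 2 : ℝ) := by
  classical
  induction T using Finset.induction_on with
  | empty =>
    simp only [Finset.sum_empty, ENNReal.zero_rpow_of_pos (show (0 : ℝ) < 2 by norm_num),
      lintegral_zero]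
    rw [ENNReal.zero_rpow_of_pos (by norm_num)]
  | insert j T hj ih =>
    rw [Finset.sum_insert hj]
    have h1 := ENNReal.lintegral_Lp_add_le (μ := μ) (f := v j) (g := fun ω => ∑ i ∈ T, v i ω)
      (hv j).aemeasurable (Finset.measurable_fun_sum _ fun i _ => hv i).aemeasurable
      (show (1 : ℝ) ≤ 2 by norm_num)
    refine le_trans (le_of_eq ?_) (le_trans h1 (add_le_add_right ih _))
    congr 1
    refine lintegral_congr fun ω => ?_
    rw [Finset.sum_insert hj]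
    rfl

private theorem FWpr_mink_w {J Ω : Type} [MeasurableSpace Ω] (T : Finset J) (μ : Measure Ω)
    (w : J → ℝ≥0∞) (v : J → Ω → ℝ≥0∞) (hv : ∀ j, Measurable (v j)) :
    (∫⁻ ω, (∑ j ∈ T, w j * v j ω) ^ (2 : ℝ) ∂μ) ^ (1 / 2 : ℝ) ≤
      ∑ j ∈ T, w j * (∫⁻ ω, v j ω ^ (2 : ℝ) ∂μ) ^ (1 / 2 : ℝ) := by
  refine le_trans (FWpr_mink T μ (fun j ω => w j * v j ω) fun j => (hv j).const_mul _) ?_
  refine le_of_eq (Finset.sum_congr rfl fun j _ => ?_)
  have h1 : ∀ ω, (w j * v j ω) ^ (2 : ℝ) = w j ^ (2 : ℝ) * v j ω ^ (2 : ℝ) := fun ω =>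
    ENNReal.mul_rpow_of_nonneg _ _ (by norm_num)
  simp only [h1]
  rw [lintegral_const_mul _ ((hv j).pow_const 2), ENNReal.mul_rpow_of_nonneg _ _ (by norm_num),
    ← ENNReal.rpow_mul, show (2 : ℝ) * (1 / 2) = 1 by norm_num, ENNReal.rpow_one]

theorem wpr_l2 {V : Type} [NormedAddCommGroup V] [InnerProductSpace ℝ V] [MeasurableSpace V]
    [BorelSpace V] [SecondCountableTopology V] {Ω : Type} [MeasurableSpace Ω] (μ : Measure Ω)
    (E : Set Ω) (hE : MeasurableSet E)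
    (H : Ω → (boxS d L → V) × (boxS d L → V)) (hH : Measurable H) (k q s a κ' CV cd : ℝ)
    (hκ : 0 ≤ κ') (hCV : 0 ≤ CV)
    (hcd : ∀ x : boxS d L, ∑ z, Real.exp (-(a / 8)) ^ (boxNet d L).dist x z ≤ cd)
    (G : (boxS d L → V) × (boxS d L → V))
    (hV : ∀ z, ∫⁻ ω in E, V1 k q s (H ω) z ^ 2 ∂μ ≤
        (ENNReal.ofReal κ' * V1 k q s G z + ENNReal.ofReal CV) ^ 2 ∧
      ∫⁻ ω in E, V2 k q s (H ω) z ^ 2 ∂μ ≤
        (ENNReal.ofReal κ' * V2 k q s G z + ENNReal.ofReal CV) ^ 2) (x : boxS d L) :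
    (∫⁻ ω in E, wpr (boxNet d L) k q s (Real.exp (-(a / 8))) (H ω).1 (H ω).2 x ^ 2 ∂μ) ^
        (1 / 2 : ℝ) ≤
      ENNReal.ofReal κ' * wpr (boxNet d L) k q s (Real.exp (-(a / 8))) G.1 G.2 x +
        ENNReal.ofReal (2 * CV * cd) := by
  have hm1 : ∀ z, Measurable fun ω => V1 k q s (H ω) z := fun z => (measurable_V k q s z).1.comp hH
  have hm2 : ∀ z, Measurable fun ω => V2 k q s (H ω) z := fun z => (measurable_V k q s z).2.comp hH
  have h4 : ∀ v : Ω → ℝ≥0∞, ∫⁻ ω in E, v ω ^ (2 : ℝ) ∂μ = ∫⁻ ω in E, v ω ^ 2 ∂μ := by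
    intro v
    refine lintegral_congr fun ω => ?_
    rw [← ENNReal.rpow_natCast]
    norm_num
  have hroot : ∀ (v c : ℝ≥0∞), v ≤ c ^ 2 → v ^ (1 / 2 : ℝ) ≤ c := by
    intro v c h
    refine le_trans (ENNReal.rpow_le_rpow h (by norm_num)) (le_of_eq ?_)
    rw [← ENNReal.rpow_natCast, ← ENNReal.rpow_mul]
    norm_num
  have hz : ∀ z, (∫⁻ ω in E, (V1 k q s (H ω) z + V2 k q s (H ω) z) ^ (2 : ℝ) ∂μ) ^ (1 / 2 : ℝ) ≤
      ENNReal.ofReal κ' * (V1 k q s G z + V2 k q s G z) + ENNReal.ofReal (2 * CV) := by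
    intro z
    have h2 := ENNReal.lintegral_Lp_add_le (μ := μ.restrict E) (f := fun ω => V1 k q s (H ω) z)
      (g := fun ω => V2 k q s (H ω) z) (hm1 z).aemeasurable (hm2 z).aemeasurable
      (show (1 : ℝ) ≤ 2 by norm_num)
    refine le_trans h2 ?_
    rw [h4, h4]
    refine (add_le_add (hroot _ _ (hV z).1) (hroot _ _ (hV z).2)).trans (le_of_eq ?_)
    rw [show (2 : ℝ) * CV = CV + CV by ring, ENNReal.ofReal_add hCV hCV, mul_add]
    ring
  rw [← h4]
  simp only [FWpr_wpr]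
  refine le_trans (FWpr_mink_w Finset.univ (μ.restrict E)
    (fun z => ENNReal.ofReal (Real.exp (-(a / 8)) ^ (boxNet d L).dist x z))
    (fun z ω => V1 k q s (H ω) z + V2 k q s (H ω) z) (fun z => (hm1 z).add (hm2 z))) ?_
  refine le_trans (Finset.sum_le_sum fun z _ => mul_le_mul_right (hz z) _) ?_
  rw [Finset.mul_sum]
  have h5 : ∀ z, ENNReal.ofReal (Real.exp (-(a / 8)) ^ (boxNet d L).dist x z) *
      (ENNReal.ofReal κ' * (V1 k q s G z + V2 k q s G z) + ENNReal.ofReal (2 * CV)) =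
      ENNReal.ofReal κ' * (ENNReal.ofReal (Real.exp (-(a / 8)) ^ (boxNet d L).dist x z) *
        (V1 k q s G z + V2 k q s G z)) +
      ENNReal.ofReal (2 * CV) *
        ENNReal.ofReal (Real.exp (-(a / 8)) ^ (boxNet d L).dist x z) := by
    intro z
    ring
  rw [Finset.sum_congr rfl fun z _ => h5 z, Finset.sum_add_distrib]
  refine add_le_add_right ?_ _
  rw [← Finset.mul_sum, ← ENNReal.ofReal_sum_of_nonneg
    (fun z _ => pow_nonneg (Real.exp_pos _).le _), ← ENNReal.ofReal_mul (by positivity)]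
  exact ENNReal.ofReal_le_ofReal (mul_le_mul_of_nonneg_left (hcd x) (by positivity))

end DynG
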