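import Pool.Agent.Lib_MP_36b788c.Obe2
import Pool.Agent.Lib_MP_36b788c.Sm3
import Pool.Agent.Lib_MP_36b788c.Mom1

/-!
# Difference of the semigroup at two configurations

PROOF of `pn_pair`. By `tr_marg` and `integral_map`, `F.Pn h L n f G.1 = ∫ f((tr n).1)`, `F.Pn h L n f G.2 = ∫ f((tr n).2)` (`PI (S.mu L)`; `measurable_tr`, `measurable_traj`, `f` bounded measurable, so integrable), so
`‖Pn f G.1 - Pn f G.2‖ ≤ ∫ ‖f (tr n).1 - f (tr n).2‖` (`norm_integral_le_lintegral_norm` / `enorm_integral_le_lintegral_enorm`), `= ∫_{alv} + ∫_{alv^c}`. On `alv` use `tele` pointwise (for all `ω`), on `alv^c` `‖f - f'‖ ≤ 2`.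
`∫⁻ Σ_x = Σ_x ∫⁻` (measurable: `measurable_V`, `measurable_tr`), and
`ofReal (2 card ε (1 + 2Σ)) = ofReal (2 card ε) (1 + 2 ofReal Σ)`; the integral of the additive term over `alv` is at most the integral over the whole space (probability measure).
-/

open MeasureTheory ProbabilityTheory
open scoped ENNReal

namespace DynG

open Dyn DynC

variable {d : ℕ}

theorem measurable_wpr {V : Type} [NormedAddCommGroup V] [InnerProductSpace ℝ V]
    [MeasurableSpace V] [BorelSpace V] [SecondCountableTopology V] {L : ℕ} (k q s α : ℝ)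
    (x : boxS d L) :
    Measurable (fun G : (boxS d L → V) × (boxS d L → V) =>
      wpr (boxNet d L) k q s α G.1 G.2 x) := by
  unfold wpr
  refine Finset.measurable_fun_sum _ fun z _ => Measurable.const_mul (Measurable.add ?_ ?_) _
  · exact (measurable_V k q s z).1
  · exact (measurable_V k q s z).2

theorem pn_pair {F : Fam d} {β k : ℝ} (S : PSys F β k) (h : ℝ) (L n : ℕ) (q s α θ : ℝ)
    (hk : 0 < k) (hk1 : k < 1) (hq : 1 ≤ q) (hs : 0 < s) (hqs : q * s ≤ 1) (hα : 0 ≤ α)
    (hθ : 0 < θ) (A : boxS d L → ℝ) (hA : ∀ x, 0 ≤ A x) (ε : ℝ) (he : 0 ≤ ε)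
    (f : (boxS d L → F.V) → ℂ) (hm : Measurable f) (hb : ∀ G, ‖f G‖ ≤ 1)
    (hf : Cls (boxNet d L) k q s α θ A ε f) (G : (boxS d L → F.V) × (boxS d L → F.V)) :
    ENNReal.ofReal ‖F.Pn h L n f G.1 - F.Pn h L n f G.2‖ ≤
      ∑ x, ENNReal.ofReal (4 * A x) * ∫⁻ ω in S.alv h L G n,
          ENNReal.ofReal (‖(S.tr h L G ω n).1 x - (S.tr h L G ω n).2 x‖ ^ θ) *
            wpr (boxNet d L) k q s α (S.tr h L G ω n).1 (S.tr h L G ω n).2 x ∂(PI (S.mu L)) +
        (ENNReal.ofReal (2 * (Fintype.card (boxS d L)) * ε) *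
          (1 + 2 * ∫⁻ ω, ENNReal.ofReal (∑ x, (‖(S.tr h L G ω n).1 x‖ +
            ‖(S.tr h L G ω n).2 x‖)) ∂(PI (S.mu L))) + 2 * PI (S.mu L) (S.alv h L G n)ᶜ) := by
  have hX : Measurable (fun ω => S.tr h L G ω n) :=
    (measurable_tr S h L n).comp (measurable_const.prodMk measurable_id)
  have hX1 : Measurable (fun ω => (S.tr h L G ω n).1) := measurable_fst.comp hX
  have hX2 : Measurable (fun ω => (S.tr h L G ω n).2) := measurable_snd.comp hX
  have hY1 : Measurable (fun ω => traj (F.st h L) G.1 ω n) :=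
    (measurable_traj _ (F.mst h L) n).comp (measurable_const.prodMk measurable_id)
  have hY2 : Measurable (fun ω => traj (F.st h L) G.2 ω n) :=
    (measurable_traj _ (F.mst h L) n).comp (measurable_const.prodMk measurable_id)
  have e1 : F.Pn h L n f G.1 = ∫ ω, f (S.tr h L G ω n).1 ∂(PI (S.mu L)) := by
    unfold Fam.Pn
    rw [← integral_map (φ := fun ω => traj (F.st h L) G.1 ω n) hY1.aemeasurable
      hm.aestronglyMeasurable, ← (tr_marg S h L G n).1,
      integral_map hX1.aemeasurable hm.aestronglyMeasurable]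
  have e2 : F.Pn h L n f G.2 = ∫ ω, f (S.tr h L G ω n).2 ∂(PI (S.mu L)) := by
    unfold Fam.Pn
    rw [← integral_map (φ := fun ω => traj (F.st h L) G.2 ω n) hY2.aemeasurable
      hm.aestronglyMeasurable, ← (tr_marg S h L G n).2,
      integral_map hX2.aemeasurable hm.aestronglyMeasurable]
  have i1 : Integrable (fun ω => f (S.tr h L G ω n).1) (PI (S.mu L)) :=
    Integrable.of_bound (hm.comp hX1).aestronglyMeasurable 1 (Filter.Eventually.of_forall fun _ => hb _)
  have i2 : Integrable (fun ω => f (S.tr h L G ω n).2) (PI (S.mu L)) :=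
    Integrable.of_bound (hm.comp hX2).aestronglyMeasurable 1 (Filter.Eventually.of_forall fun _ => hb _)
  have hal : MeasurableSet (S.alv h L G n) := measurableSet_alv S h L G n
  have hD : ∀ x, Measurable (fun ω => ENNReal.ofReal
      (‖(S.tr h L G ω n).1 x - (S.tr h L G ω n).2 x‖ ^ θ)) := by
    intro x
    have h1 : Measurable (fun ω => (S.tr h L G ω n).1 x - (S.tr h L G ω n).2 x) :=
      ((measurable_pi_apply x).comp hX1).sub ((measurable_pi_apply x).comp hX2)
    exact (h1.norm.pow_const θ).ennreal_ofReal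
  have hW : ∀ x, Measurable (fun ω =>
      wpr (boxNet d L) k q s α (S.tr h L G ω n).1 (S.tr h L G ω n).2 x) := fun x =>
    (measurable_wpr k q s α x).comp hX
  have hDW : ∀ x, Measurable (fun ω => ENNReal.ofReal
      (‖(S.tr h L G ω n).1 x - (S.tr h L G ω n).2 x‖ ^ θ) *
        wpr (boxNet d L) k q s α (S.tr h L G ω n).1 (S.tr h L G ω n).2 x) := fun x =>
    (hD x).mul (hW x)
  have hS : Measurable (fun ω => ENNReal.ofReal (∑ x, (‖(S.tr h L G ω n).1 x‖ +
            ‖(S.tr h L G ω n).2 x‖))) := by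
    refine Measurable.ennreal_ofReal (Finset.measurable_fun_sum _ fun x _ => ?_)
    exact (((measurable_pi_apply x).comp hX1).norm).add (((measurable_pi_apply x).comp hX2).norm)
  have hcard : (0 : ℝ) ≤ 2 * (Fintype.card (boxS d L)) * ε := by positivity
  have hmain : ∀ ω, ENNReal.ofReal ‖f (S.tr h L G ω n).1 - f (S.tr h L G ω n).2‖ ≤
      ∑ x, ENNReal.ofReal (4 * A x) * (ENNReal.ofReal
          (‖(S.tr h L G ω n).1 x - (S.tr h L G ω n).2 x‖ ^ θ) *
            wpr (boxNet d L) k q s α (S.tr h L G ω n).1 (S.tr h L G ω n).2 x) +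
        ENNReal.ofReal (2 * (Fintype.card (boxS d L)) * ε) *
          (1 + 2 * ENNReal.ofReal (∑ x, (‖(S.tr h L G ω n).1 x‖ +
            ‖(S.tr h L G ω n).2 x‖))) := by
    intro ω
    refine (tele k q s α θ hk hk1 hq hs hqs hα hθ A hA ε he f hf _ _).trans (le_of_eq ?_)
    have hsum : (0 : ℝ) ≤ ∑ x, (‖(S.tr h L G ω n).1 x‖ + ‖(S.tr h L G ω n).2 x‖) :=
      Finset.sum_nonneg fun x _ => add_nonneg (norm_nonneg _) (norm_nonneg _)
    congr 1
    · refine Finset.sum_congr rfl fun x _ => ?_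
      rw [ENNReal.ofReal_mul (mul_nonneg (by norm_num) (hA x)), mul_assoc]
    · rw [ENNReal.ofReal_mul hcard, ENNReal.ofReal_add zero_le_one (by positivity),
        ENNReal.ofReal_mul (by norm_num : (0:ℝ) ≤ 2), ENNReal.ofReal_one, ENNReal.ofReal_ofNat]
  have htwo : ∀ ω, ENNReal.ofReal ‖f (S.tr h L G ω n).1 - f (S.tr h L G ω n).2‖ ≤ 2 := by
    intro ω
    have : ‖f (S.tr h L G ω n).1 - f (S.tr h L G ω n).2‖ ≤ 2 := by
      refine (norm_sub_le _ _).trans ?_
      have h1 := hb (S.tr h L G ω n).1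
      have h2 := hb (S.tr h L G ω n).2
      linarith
    calc ENNReal.ofReal ‖f (S.tr h L G ω n).1 - f (S.tr h L G ω n).2‖ ≤ ENNReal.ofReal 2 :=
          ENNReal.ofReal_le_ofReal this
      _ = 2 := ENNReal.ofReal_ofNat 2
  have hone : PI (S.mu L) (S.alv h L G n) ≤ 1 := prob_le_one
  rw [e1, e2, ← integral_sub i1 i2, ofReal_norm]
  refine (enorm_integral_le_lintegral_enorm _).trans ?_
  simp_rw [← ofReal_norm]
  rw [← lintegral_add_compl _ hal]
  have hA1 : ∫⁻ ω in S.alv h L G n, ENNReal.ofReal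
      ‖f (S.tr h L G ω n).1 - f (S.tr h L G ω n).2‖ ∂(PI (S.mu L)) ≤
      ∑ x, ENNReal.ofReal (4 * A x) * ∫⁻ ω in S.alv h L G n,
          ENNReal.ofReal (‖(S.tr h L G ω n).1 x - (S.tr h L G ω n).2 x‖ ^ θ) *
            wpr (boxNet d L) k q s α (S.tr h L G ω n).1 (S.tr h L G ω n).2 x ∂(PI (S.mu L)) +
        ENNReal.ofReal (2 * (Fintype.card (boxS d L)) * ε) *
          (1 + 2 * ∫⁻ ω, ENNReal.ofReal (∑ x, (‖(S.tr h L G ω n).1 x‖ +
            ‖(S.tr h L G ω n).2 x‖)) ∂(PI (S.mu L))) := by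
    refine (lintegral_mono fun ω => hmain ω).trans ?_
    rw [lintegral_add_left (Finset.measurable_fun_sum _ fun x _ => (hDW x).const_mul _)]
    refine add_le_add (le_of_eq ?_) ?_
    · rw [lintegral_finsetSum _ fun x _ => (hDW x).const_mul _]
      exact Finset.sum_congr rfl fun x _ => lintegral_const_mul _ (hDW x)
    · have h5 : Measurable (fun ω => (1 : ℝ≥0∞) + 2 * ENNReal.ofReal
          (∑ x, (‖(S.tr h L G ω n).1 x‖ + ‖(S.tr h L G ω n).2 x‖))) :=
        measurable_const.add (hS.const_mul _)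
      rw [lintegral_const_mul _ h5]
      gcongr
      rw [lintegral_add_left measurable_const, lintegral_const_mul _ hS]
      refine add_le_add ?_ ?_
      · simpa using hone
      · gcongr
        exact Measure.restrict_le_self
  have hA2 : ∫⁻ ω in (S.alv h L G n)ᶜ, ENNReal.ofReal
      ‖f (S.tr h L G ω n).1 - f (S.tr h L G ω n).2‖ ∂(PI (S.mu L)) ≤
      2 * PI (S.mu L) (S.alv h L G n)ᶜ := by
    refine (lintegral_mono fun ω => htwo ω).trans (le_of_eq ?_)
    rw [lintegral_const, Measure.restrict_apply_univ]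
  refine (add_le_add hA1 hA2).trans (le_of_eq ?_)
  rw [add_assoc]

end DynG
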