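import Pool.Agent.Lib_MP_36b788g.Win3

/-!
# Staying regular over a long time

PROOF of `stay3`. `σ ≤ 1/16` of `win3`, `ε0` for `R`. `x = (n-n1)h/(0.9σell) ≥ (ell/8)/(0.9ell/16) ≥ 2.2`, `J = ⌈x⌉₊`, window starts `t_i = n1+⌊i(n-n1)/J⌋`, `i = 0..J`, `t_J = n`: the real length of each window is in
`[(n-n1)h/J-h, (n-n1)h/J+h]`, `(n-n1)h/J ≤ 0.9σell` and `≥ 0.9σell·x/(x+1) ≥ 0.6σell`; so all lengths are in `[σell/2, σell+1]` (`h` small). `J ≤ 20(T+1)/σ`: bounded.
At each `t_i` (`t_ih ≥ 1`): `caps_prob`: on `alv t_i` outside probability `k^c`: `Caps ε0`. By induction on `i`: outside probability `(i+1)·2k^{c}` on `alv n ∩ {LowG at n1}`: `LowG` at `t_i` and `RegG` at all `j ∈ [n1,t_i]`: Markov property at `t_i`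
(`lintegral_glue t_i`, `traj_glue_le`, `traj_glue_add`), `win3` for the state at `t_i`.
-/

open MeasureTheory ProbabilityTheory
open scoped ENNReal

namespace DynG

open Dyn DynS DynC

/-! ### windows -/

private theorem Stay3_win (m : ℕ) (h s : ℝ) (hh : 0 < h) (hs : 0 < s) (hm : 2 * (9 / 10 * s) ≤ m * h)
    (_hh1 : h ≤ 1) (hh2 : h ≤ s / 10) :
    ∃ (J : ℕ) (t : ℕ → ℕ), 0 < J ∧ (J : ℝ) ≤ m * h / (9 / 10 * s) + 1 ∧ t 0 = 0 ∧ t J = m ∧
      ∀ i, i < J → ∃ l : ℕ, t (i + 1) = t i + l ∧ s / 2 ≤ l * h ∧ (l : ℝ) * h ≤ s + 1 := by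
  have h9 : 0 < 9 / 10 * s := by positivity
  set x : ℝ := m * h / (9 / 10 * s) with hx_def
  have hx2 : 2 ≤ x := by
    rw [hx_def, le_div_iff₀ h9]
    exact hm
  have hxm : x * (9 / 10 * s) = m * h := by
    rw [hx_def]
    field_simp
  have hJ1 : x ≤ (⌈x⌉₊ : ℝ) := Nat.le_ceil x
  have hJ2 : (⌈x⌉₊ : ℝ) < x + 1 := Nat.ceil_lt_add_one (by linarith)
  set J := ⌈x⌉₊ with hJ_def
  have hJ0 : (0 : ℝ) < J := by linarith
  have hJ0' : 0 < J := by exact_mod_cast hJ0
  refine ⟨J, fun i => i * m / J, hJ0', hJ2.le, by simp, by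
    show J * m / J = m
    exact Nat.mul_div_cancel_left m hJ0', ?_⟩
  intro i _
  have hle : i * m / J ≤ (i + 1) * m / J := Nat.div_le_div_right (Nat.mul_le_mul_right m (Nat.le_succ i))
  obtain ⟨l, hl⟩ := Nat.exists_eq_add_of_le hle
  refine ⟨l, hl, ?_⟩
  have a1 : ((i * m / J : ℕ) : ℝ) ≤ (i * m : ℝ) / J := by
    have := Nat.cast_div_le (α := ℝ) (m := i * m) (n := J)
    push_cast at this
    exact this
  have a2 : (i * m : ℝ) / J < ((i * m / J : ℕ) : ℝ) + 1 := by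
    rw [div_lt_iff₀ hJ0]
    have h1 : i * m < (i * m / J + 1) * J := by
      have := Nat.lt_div_mul_add (a := i * m) hJ0'
      linarith
    exact_mod_cast h1
  have b1 : (((i + 1) * m / J : ℕ) : ℝ) ≤ ((i + 1) * m : ℝ) / J := by
    have := Nat.cast_div_le (α := ℝ) (m := (i + 1) * m) (n := J)
    push_cast at this
    exact this
  have b2 : ((i + 1) * m : ℝ) / J < (((i + 1) * m / J : ℕ) : ℝ) + 1 := by
    rw [div_lt_iff₀ hJ0]
    have h1 : (i + 1) * m < ((i + 1) * m / J + 1) * J := by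
      have := Nat.lt_div_mul_add (a := (i + 1) * m) hJ0'
      linarith
    exact_mod_cast h1
  have hlr : (((i + 1) * m / J : ℕ) : ℝ) = ((i * m / J : ℕ) : ℝ) + l := by
    rw [hl]
    push_cast
    ring
  have hadd : ((i + 1) * m : ℝ) / J = (i * m : ℝ) / J + m / J := by
    field_simp
  have l1 : (l : ℝ) ≤ m / J + 1 := by linarith
  have l2 : (m : ℝ) / J - 1 ≤ l := by linarith
  have hmJ : (m : ℝ) / J * h = x / J * (9 / 10 * s) := by
    rw [div_mul_eq_mul_div, ← hxm]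
    ring
  have hxJ : x / J ≤ 1 := (div_le_one hJ0).2 hJ1
  have hxJ' : 2 / 3 ≤ x / J := by
    rw [le_div_iff₀ hJ0]
    linarith
  constructor
  · have c1 : ((m : ℝ) / J - 1) * h ≤ l * h := mul_le_mul_of_nonneg_right l2 hh.le
    have c2 : 2 / 3 * (9 / 10 * s) ≤ x / J * (9 / 10 * s) := mul_le_mul_of_nonneg_right hxJ' h9.le
    nlinarith
  · have c1 : (l : ℝ) * h ≤ ((m : ℝ) / J + 1) * h := mul_le_mul_of_nonneg_right l1 hh.le
    have c2 : x / J * (9 / 10 * s) ≤ 1 * (9 / 10 * s) := mul_le_mul_of_nonneg_right hxJ h9.le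
    nlinarith

/-- if every window is good then everything is good -/
private theorem Stay3_cover (Lo Re : ℕ → Prop) (J : ℕ) (t : ℕ → ℕ) (hJ : 0 < J)
    (hstep : ∀ i, i < J → ∃ l : ℕ, t (i + 1) = t i + l) (h0 : Lo (t 0))
    (hw : ∀ i, i < J → Lo (t i) → Lo (t (i + 1)) ∧ ∀ j, t i ≤ j → j ≤ t (i + 1) → Re j) :
    ∀ j, t 0 ≤ j → j ≤ t J → Re j := by
  have key : ∀ i, i < J → Lo (t (i + 1)) ∧ ∀ j, t 0 ≤ j → j ≤ t (i + 1) → Re j := by
    intro i
    induction i with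
    | zero =>
      intro hi
      exact hw 0 hi h0
    | succ i ih =>
      intro hi
      obtain ⟨h1, h2⟩ := ih (by omega)
      obtain ⟨h3, h4⟩ := hw (i + 1) hi h1
      refine ⟨h3, fun j hj1 hj2 => ?_⟩
      rcases le_total j (t (i + 1)) with h5 | h5
      · exact h2 j hj1 h5
      · exact h4 j h5 hj2
  obtain ⟨J', rfl⟩ := Nat.exists_eq_succ_of_ne_zero hJ.ne'
  exact (key J' (Nat.lt_succ_self J')).2

/-! ### measurability -/

private theorem Stay3_imp {Ω : Type} [MeasurableSpace Ω] (p : Prop) (q : Ω → Prop)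
    (h : MeasurableSet {ω | q ω}) : MeasurableSet {ω | p → q ω} := by
  by_cases hp : p
  · simpa [hp] using h
  · simp [hp]

private theorem Stay3_all {Ω A : Type} [Countable A] [MeasurableSpace Ω] (q : A → Ω → Prop)
    (h : ∀ a, MeasurableSet {ω | q a ω}) : MeasurableSet {ω | ∀ a, q a ω} := by
  rw [Set.ofPred_forall]
  exact MeasurableSet.iInter h

section meas
variable {d L : ℕ} {V : Type} [NormedAddCommGroup V] [MeasurableSpace V] [BorelSpace V]

private theorem Stay3_u1 (x : boxS d L) :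
    Measurable fun G : (boxS d L → V) × (boxS d L → V) => ‖G.1 x‖ :=
  ((measurable_pi_apply x).comp measurable_fst).norm

private theorem Stay3_u2 (x : boxS d L) :
    Measurable fun G : (boxS d L → V) × (boxS d L → V) => ‖G.2 x‖ :=
  ((measurable_pi_apply x).comp measurable_snd).norm

private theorem Stay3_mLow (k : ℝ) (y : boxS d L) (R : ℕ) :
    MeasurableSet {G : (boxS d L → V) × (boxS d L → V) | LowG k y R G} := by
  unfold LowG
  refine Stay3_all _ fun x => Stay3_imp _ _ ?_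
  exact (measurableSet_le measurable_const (Stay3_u1 x)).inter
    (measurableSet_le measurable_const (Stay3_u2 x))

private theorem Stay3_mReg (k : ℝ) (y : boxS d L) (R : ℕ) :
    MeasurableSet {G : (boxS d L → V) × (boxS d L → V) | RegG k y R G} := by
  unfold RegG
  refine MeasurableSet.inter (Stay3_all _ fun x => Stay3_imp _ _ ?_)
    (Stay3_all _ fun x => Stay3_imp _ _ ?_)
  · exact (measurableSet_le measurable_const (Stay3_u1 x)).inter
      (measurableSet_le measurable_const (Stay3_u2 x))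
  · exact (measurableSet_le (Stay3_u1 x) measurable_const).inter
      (measurableSet_le (Stay3_u2 x) measurable_const)

private theorem Stay3_mCap (k : ℝ) (y : boxS d L) (ε0 : ℝ) :
    MeasurableSet {G : (boxS d L → V) × (boxS d L → V) |
      Caps k (fun v => ‖G.1 v‖ + ‖G.2 v‖) ε0 y} := by
  unfold Caps
  exact Stay3_all _ fun x => measurableSet_le ((Stay3_u1 x).add (Stay3_u2 x)) measurable_const

end meas

section step
variable {d : ℕ} {F : Fam d} {β k : ℝ}

/-- one window -/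
private theorem Stay3_step (S : PSys F β k) (h : ℝ) (L : ℕ)
    (G : (boxS d L → F.V) × (boxS d L → F.V)) (y : boxS d L) (R : ℕ) (ε0 : ℝ) (t m : ℕ)
    (p1 p2 : ℝ≥0∞)
    (H1 : PI (S.mu L) (S.alv h L G t ∩ {ω | ¬ Caps k (fun v => ‖(S.tr h L G ω t).1 v‖ +
      ‖(S.tr h L G ω t).2 v‖) ε0 y}) ≤ p1)
    (H2 : ∀ G' : (boxS d L → F.V) × (boxS d L → F.V), LowG k y R G' →
      Caps k (fun v => ‖G'.1 v‖ + ‖G'.2 v‖) ε0 y →
      PI (S.mu L) {ω | (∀ j, j < m → ∀ x, ω j x ∈ S.gd h) ∧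
        ¬ (LowG k y R (S.tr h L G' ω m) ∧ ∀ j, j ≤ m → RegG k y R (S.tr h L G' ω j))} ≤ p2) :
    PI (S.mu L) (S.alv h L G (t + m) ∩ {ω | LowG k y R (S.tr h L G ω t) ∧
      ¬ (LowG k y R (S.tr h L G ω (t + m)) ∧ ∀ j, j ≤ m → RegG k y R (S.tr h L G ω (t + j)))}) ≤
      p1 + p2 := by
  set B : Set (ℕ → boxS d L → S.Ωp) := {ω | (∀ j, j < m → ∀ x, ω (t + j) x ∈ S.gd h) ∧
    (LowG k y R (S.tr h L G ω t) ∧
      Caps k (fun v => ‖(S.tr h L G ω t).1 v‖ + ‖(S.tr h L G ω t).2 v‖) ε0 y) ∧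
      ¬ (LowG k y R (S.tr h L G ω (t + m)) ∧ ∀ j, j ≤ m → RegG k y R (S.tr h L G ω (t + j)))}
    with hB_def
  have hmtr : ∀ j, Measurable fun ω : ℕ → boxS d L → S.Ωp => S.tr h L G ω j := fun j =>
    (measurable_tr S h L j).comp (measurable_const.prodMk measurable_id)
  have hB : MeasurableSet B := by
    refine MeasurableSet.inter (Stay3_all _ fun j => Stay3_imp _ _ (Stay3_all _ fun x => ?_))
      (MeasurableSet.inter (MeasurableSet.inter ?_ ?_) (MeasurableSet.compl (MeasurableSet.inter ?_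
        (Stay3_all _ fun j => Stay3_imp _ _ ?_))))
    · exact (S.mgd h).preimage ((measurable_pi_apply x).comp (measurable_pi_apply (t + j)))
    · exact (Stay3_mLow k y R).preimage (hmtr t)
    · exact (Stay3_mCap k y ε0).preimage (hmtr t)
    · exact (Stay3_mLow k y R).preimage (hmtr (t + m))
    · exact (Stay3_mReg k y R).preimage (hmtr (t + j))
  have hPB : PI (S.mu L) B ≤ p2 := by
    rw [← lintegral_indicator_one hB, lintegral_glue t _ (measurable_one.indicator hB)]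
    have hin : ∀ a : ℕ → boxS d L → S.Ωp,
        ∫⁻ b, B.indicator (1 : (ℕ → boxS d L → S.Ωp) → ℝ≥0∞) (glue t a b) ∂(PI (S.mu L)) ≤ p2 := by
      intro a
      have h1 : (fun b => B.indicator (1 : (ℕ → boxS d L → S.Ωp) → ℝ≥0∞) (glue t a b)) =
          ({b | glue t a b ∈ B}).indicator 1 := by
        funext b
        by_cases hb : glue t a b ∈ B
        · rw [Set.indicator_of_mem hb, Set.indicator_of_mem (show b ∈ {b | glue t a b ∈ B} from hb)]
          rfl
        · rw [Set.indicator_of_notMem hb,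
            Set.indicator_of_notMem (show b ∉ {b | glue t a b ∈ B} from hb)]
      have h2 : MeasurableSet {b | glue t a b ∈ B} :=
        hB.preimage ((measurable_glue t).comp (measurable_const.prodMk measurable_id))
      rw [h1, lintegral_indicator_one h2]
      have g1 : ∀ b, S.tr h L G (glue t a b) t = S.tr h L G a t := fun b =>
        traj_glue_le (S.st h L) G t a b t le_rfl
      have g2 : ∀ b j, S.tr h L G (glue t a b) (t + j) = S.tr h L (S.tr h L G a t) b j := fun b j =>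
        traj_glue_add (S.st h L) G t a b j
      have g3 : ∀ (b : ℕ → boxS d L → S.Ωp) j, glue t a b (t + j) = b j := by
        intro b j
        unfold glue
        rw [if_neg (by omega)]
        congr 1
        omega
      by_cases hc : LowG k y R (S.tr h L G a t) ∧
          Caps k (fun v => ‖(S.tr h L G a t).1 v‖ + ‖(S.tr h L G a t).2 v‖) ε0 y
      · refine (measure_mono ?_).trans (H2 (S.tr h L G a t) hc.1 hc.2)
        rintro b ⟨b1, _, b3⟩
        refine ⟨fun j hj x => ?_, ?_⟩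
        · have := b1 j hj x
          rwa [g3] at this
        · simpa only [g2] using b3
      · have h3 : {b | glue t a b ∈ B} = ∅ := by
          ext b
          simp only [Set.mem_ofPred_eq, Set.mem_empty_iff_false, iff_false]
          rintro ⟨_, b2, _⟩
          rw [g1] at b2
          exact hc b2
        rw [h3, measure_empty]
        exact bot_le
    calc ∫⁻ a, ∫⁻ b, B.indicator 1 (glue t a b) ∂(PI (S.mu L)) ∂(PI (S.mu L))
        ≤ ∫⁻ _a, p2 ∂(PI (S.mu L)) := lintegral_mono hin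
      _ = p2 := by simp
  refine (measure_mono (t := (S.alv h L G t ∩ {ω | ¬ Caps k (fun v => ‖(S.tr h L G ω t).1 v‖ +
      ‖(S.tr h L G ω t).2 v‖) ε0 y}) ∪ B) ?_).trans ((measure_union_le _ _).trans (add_le_add H1 hPB))
  rintro ω ⟨⟨w1, w2⟩, w3, w4⟩
  by_cases hc : Caps k (fun v => ‖(S.tr h L G ω t).1 v‖ + ‖(S.tr h L G ω t).2 v‖) ε0 y
  · right
    exact ⟨fun j hj x => w1 (t + j) (by omega) x, ⟨w3, hc⟩, w4⟩
  · left
    exact ⟨⟨fun j hj x => w1 j (by omega) x, fun j hj x => w2 j (by omega) x⟩, hc⟩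

private theorem Stay3_alv_mono (S : PSys F β k) (h : ℝ) (L : ℕ)
    (G : (boxS d L → F.V) × (boxS d L → F.V)) {n m : ℕ} (hnm : n ≤ m) :
    S.alv h L G m ⊆ S.alv h L G n := by
  rintro ω ⟨w1, w2⟩
  exact ⟨fun j hj x => w1 j (by omega) x, fun j hj x => w2 j (by omega) x⟩

/-- all windows -/
private theorem Stay3_core (S : PSys F β k) (h : ℝ) (L : ℕ)
    (G : (boxS d L → F.V) × (boxS d L → F.V)) (y : boxS d L) (R : ℕ) (ε0 : ℝ) (n1 n J : ℕ)
    (t : ℕ → ℕ) (p1 p2 : ℝ≥0∞) (hJ : 0 < J) (ht0 : t 0 = 0) (htJ : n1 + t J = n)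
    (H : ∀ i, i < J → ∃ l : ℕ, t (i + 1) = t i + l ∧
      PI (S.mu L) (S.alv h L G (n1 + t i) ∩ {ω | ¬ Caps k (fun v =>
        ‖(S.tr h L G ω (n1 + t i)).1 v‖ + ‖(S.tr h L G ω (n1 + t i)).2 v‖) ε0 y}) ≤ p1 ∧
      ∀ G' : (boxS d L → F.V) × (boxS d L → F.V), LowG k y R G' →
      Caps k (fun v => ‖G'.1 v‖ + ‖G'.2 v‖) ε0 y →
      PI (S.mu L) {ω | (∀ j, j < l → ∀ x, ω j x ∈ S.gd h) ∧
        ¬ (LowG k y R (S.tr h L G' ω l) ∧ ∀ j, j ≤ l → RegG k y R (S.tr h L G' ω j))} ≤ p2) :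
    PI (S.mu L) (S.alv h L G n ∩ {ω | LowG k y R (S.tr h L G ω n1) ∧
      ∃ j, n1 ≤ j ∧ j ≤ n ∧ ¬ RegG k y R (S.tr h L G ω j)}) ≤ J * (p1 + p2) := by
  have hmono : ∀ i, i < J → n1 + t (i + 1) ≤ n := by
    intro i hi
    obtain ⟨r, hr⟩ := Nat.exists_eq_add_of_le hi
    have h1 : ∀ s, i + 1 + s ≤ J → t (i + 1) ≤ t (i + 1 + s) := by
      intro s
      induction s with
      | zero => intro _; exact le_rfl
      | succ s ih =>
        intro hs
        obtain ⟨l, hl, -⟩ := H (i + 1 + s) (by omega)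
        have h2 := ih (by omega)
        have h3 : t (i + 1 + (s + 1)) = t (i + 1 + s) + l := hl
        omega
    have h2 := h1 r (by omega)
    rw [show i + 1 + r = J by omega] at h2
    omega
  have hsub : (S.alv h L G n ∩ {ω | LowG k y R (S.tr h L G ω n1) ∧
      ∃ j, n1 ≤ j ∧ j ≤ n ∧ ¬ RegG k y R (S.tr h L G ω j)}) ⊆
      ⋃ i ∈ Finset.range J, (S.alv h L G (n1 + t (i + 1)) ∩
        {ω | LowG k y R (S.tr h L G ω (n1 + t i)) ∧
          ¬ (LowG k y R (S.tr h L G ω (n1 + t (i + 1))) ∧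
            ∀ j, n1 + t i ≤ j → j ≤ n1 + t (i + 1) → RegG k y R (S.tr h L G ω j))}) := by
    rintro ω ⟨w1, w2, j, hj1, hj2, hj3⟩
    by_contra hcon
    simp only [Set.mem_iUnion, Finset.mem_range, not_exists] at hcon
    refine hj3 (Stay3_cover (fun j => LowG k y R (S.tr h L G ω j))
      (fun j => RegG k y R (S.tr h L G ω j)) J (fun i => n1 + t i) hJ ?_ ?_ ?_ j ?_ ?_)
    · intro i hi
      obtain ⟨l, hl, -⟩ := H i hi
      exact ⟨l, by simp only [hl]; omega⟩
    · simp only [ht0]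
      exact w2
    · intro i hi hlo
      by_contra hc
      exact hcon i hi ⟨Stay3_alv_mono S h L G (hmono i hi) w1, hlo, hc⟩
    · simp only [ht0]
      exact hj1
    · simp only [htJ]
      exact hj2
  refine (measure_mono hsub).trans ((measure_biUnion_finset_le _ _).trans ?_)
  calc ∑ i ∈ Finset.range J, PI (S.mu L) (S.alv h L G (n1 + t (i + 1)) ∩
        {ω | LowG k y R (S.tr h L G ω (n1 + t i)) ∧
          ¬ (LowG k y R (S.tr h L G ω (n1 + t (i + 1))) ∧
            ∀ j, n1 + t i ≤ j → j ≤ n1 + t (i + 1) → RegG k y R (S.tr h L G ω j))})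
      ≤ ∑ _i ∈ Finset.range J, (p1 + p2) := by
        refine Finset.sum_le_sum fun i hi => ?_
        obtain ⟨l, hl, h1, h2⟩ := H i (Finset.mem_range.1 hi)
        have h3 := Stay3_step S h L G y R ε0 (n1 + t i) l p1 p2 h1 h2
        refine (measure_mono ?_).trans h3
        rw [hl, ← add_assoc]
        rintro ω ⟨w1, w2, w3⟩
        refine ⟨w1, w2, fun hc => w3 ⟨hc.1, fun j hj1 hj2 => ?_⟩⟩
        obtain ⟨r, rfl⟩ := Nat.exists_eq_add_of_le hj1
        exact hc.2 r (by omega)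
    _ = J * (p1 + p2) := by
        rw [Finset.sum_const, Finset.card_range, nsmul_eq_mul]

end step

/-- smallness of `k` -/
private theorem Stay3_small (T σ c : ℝ) (hc : 0 < c) :
    ∃ k0 : ℝ, 0 < k0 ∧ k0 < 1 ∧ ∀ k, 0 < k → k < k0 →
      1 ≤ ell k ∧ ((T + 1) / (9 / 10 * σ) + 1) * (2 * k ^ c) ≤ k ^ (c / 2) := by
  have t1 : Filter.Tendsto (fun y : ℝ => ((T + 1) / (9 / 10 * σ) + 1) * (2 * Real.exp (-(y * (c / 2)))))
      Filter.atTop (nhds (((T + 1) / (9 / 10 * σ) + 1) * (2 * 0))) := by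
    refine ((Real.tendsto_exp_neg_atTop_nhds_zero.comp ?_).const_mul 2).const_mul _
    exact Filter.tendsto_id.atTop_mul_const (by positivity)
  simp only [mul_zero] at t1
  obtain ⟨Y, hY⟩ := Filter.eventually_atTop.1 ((Filter.eventually_ge_atTop (1 : ℝ)).and
    (t1.eventually_le_const zero_lt_one))
  refine ⟨min (Real.exp (-Y)) (1 / 2), by positivity, by
    exact lt_of_le_of_lt (min_le_right _ _) (by norm_num), ?_⟩
  intro k hk hkk
  have hkY : k < Real.exp (-Y) := lt_of_lt_of_le hkk (min_le_left _ _)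
  have hell : Y ≤ ell k := by
    unfold ell
    rw [one_div, Real.log_inv]
    have h1 := Real.log_lt_log hk hkY
    rw [Real.log_exp] at h1
    linarith
  obtain ⟨h1, h2⟩ := hY (ell k) hell
  refine ⟨h1, ?_⟩
  have h3 : Real.exp (-(ell k * (c / 2))) = k ^ (c / 2) := by
    unfold ell
    rw [Real.rpow_def_of_pos hk, one_div, Real.log_inv]
    congr 1
    ring
  rw [h3] at h2
  have h4 : k ^ c = k ^ (c / 2) * k ^ (c / 2) := by
    rw [← Real.rpow_add hk]
    congr 1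
    ring
  have h5 : 0 < k ^ (c / 2) := Real.rpow_pos_of_pos hk _
  calc ((T + 1) / (9 / 10 * σ) + 1) * (2 * k ^ c)
      = ((T + 1) / (9 / 10 * σ) + 1) * (2 * k ^ (c / 2)) * k ^ (c / 2) := by rw [h4]; ring
    _ ≤ 1 * k ^ (c / 2) := mul_le_mul_of_nonneg_right h2 h5.le
    _ = _ := one_mul _

theorem stay3 (N d : ℕ) (hN : 3 ≤ N) (β : ℝ) (hβ : 0 < β) (T : ℝ) (R : ℕ) (hT : 1 ≤ T) :
    ∃ c k0 : ℝ, 0 < c ∧ 0 < k0 ∧ k0 < 1 ∧
    ∀ k, 0 < k → k < k0 → ∀ (S : PSys (Fam1 N d β k) β k), BNoise N S.ν S.b S.gd →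
    ∀ L : ℕ, ∃ h0 : ℝ, 0 < h0 ∧ ∀ h, 0 < h → h < h0 →
    ∀ (G : (boxS d L → E N) × (boxS d L → E N)) (y : boxS d L) (n1 n : ℕ), 1 ≤ n1 * h →
      n1 ≤ n → ell k / 8 ≤ ((n - n1 : ℕ) : ℝ) * h → n * h ≤ T * ell k + 1 →
        PI (S.mu L) (S.alv h L G n ∩ {ω | LowG k y R (S.tr h L G ω n1) ∧
          ∃ j, n1 ≤ j ∧ j ≤ n ∧ ¬ RegG k y R (S.tr h L G ω j)}) ≤ ENNReal.ofReal (k ^ c) := by
  obtain ⟨σ, hσ, hσ16, HW⟩ := win3 N d hN β hβ
  obtain ⟨ε0, c2, k2, hε0, hc2, hk2, hk21, HW⟩ := HW R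
  obtain ⟨c1, k1, hc1, hk1, hk11, HC⟩ := caps_prob N d β hβ ε0 hε0
  have hcm : 0 < min c1 c2 := lt_min hc1 hc2
  obtain ⟨k3, hk3, hk31, HK⟩ := Stay3_small T σ (min c1 c2) hcm
  refine ⟨min c1 c2 / 2, min k1 (min k2 k3), by positivity, by positivity,
    lt_of_le_of_lt (min_le_left _ _) hk11, ?_⟩
  intro k hk hkk S hB L
  have hkk1 : k < k1 := lt_of_lt_of_le hkk (min_le_left _ _)
  have hkk2 : k < k2 := lt_of_lt_of_le hkk ((min_le_right _ _).trans (min_le_left _ _))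
  have hkk3 : k < k3 := lt_of_lt_of_le hkk ((min_le_right _ _).trans (min_le_right _ _))
  have hk1' : k < 1 := hkk1.trans hk11
  obtain ⟨hl1, hsm⟩ := HK k hk hkk3
  have hl : 0 < ell k := by linarith
  obtain ⟨h1, hh1, HC⟩ := HC (Fam1 N d β k) k S hk hkk1 hB L
  obtain ⟨h2, hh2, HW⟩ := HW k hk hkk2 S hB L
  have hσl : 0 < σ * ell k := by positivity
  refine ⟨min (min h1 h2) (min 1 (σ * ell k / 10)), by positivity, ?_⟩
  intro h hh hhh G y n1 n hn1 hnn hτ hn
  have g1 : h < h1 := lt_of_lt_of_le hhh ((min_le_left _ _).trans (min_le_left _ _))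
  have g2 : h < h2 := lt_of_lt_of_le hhh ((min_le_left _ _).trans (min_le_right _ _))
  have g3 : h ≤ 1 := (lt_of_lt_of_le hhh ((min_le_right _ _).trans (min_le_left _ _))).le
  have g4 : h ≤ σ * ell k / 10 :=
    (lt_of_lt_of_le hhh ((min_le_right _ _).trans (min_le_right _ _))).le
  obtain ⟨m, rfl⟩ := Nat.exists_eq_add_of_le hnn
  rw [Nat.add_sub_cancel_left] at hτ
  push_cast at hn
  have hσ16' : σ * ell k ≤ 1 / 16 * ell k := mul_le_mul_of_nonneg_right hσ16 hl.le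
  obtain ⟨J, t, hJ, hJ2, ht0, htJ, hw⟩ := Stay3_win m h (σ * ell k) hh hσl (by linarith) g3 g4
  have hbd : (J : ℝ) ≤ (T + 1) / (9 / 10 * σ) + 1 := by
    refine hJ2.trans (add_le_add ?_ le_rfl)
    rw [div_le_div_iff₀ (by positivity) (by positivity)]
    have e1 : (m : ℝ) * h ≤ T * ell k + 1 := by
      have : 0 ≤ (n1 : ℝ) * h := by positivity
      linarith
    have e2 : (m : ℝ) * h ≤ (T + 1) * ell k := by linarith
    calc (m : ℝ) * h * (9 / 10 * σ) ≤ (T + 1) * ell k * (9 / 10 * σ) :=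
          mul_le_mul_of_nonneg_right e2 (by positivity)
      _ = (T + 1) * (9 / 10 * (σ * ell k)) := by ring
  have hkc : ∀ c' : ℝ, min c1 c2 ≤ c' → k ^ c' ≤ k ^ (min c1 c2) := fun c' hc' =>
    Real.rpow_le_rpow_of_exponent_ge hk hk1'.le hc'
  have hfin := Stay3_core S h L G y R ε0 n1 (n1 + m) J t (ENNReal.ofReal (k ^ (min c1 c2)))
    (ENNReal.ofReal (k ^ (min c1 c2))) hJ ht0 (by rw [htJ]) ?_
  · refine hfin.trans ?_
    have hkp : 0 < k ^ (min c1 c2) := Real.rpow_pos_of_pos hk _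
    rw [← ENNReal.ofReal_add hkp.le hkp.le, ← ENNReal.ofReal_natCast, ← ENNReal.ofReal_mul
      (Nat.cast_nonneg J)]
    refine ENNReal.ofReal_le_ofReal ?_
    calc (J : ℝ) * (k ^ (min c1 c2) + k ^ (min c1 c2))
        ≤ ((T + 1) / (9 / 10 * σ) + 1) * (k ^ (min c1 c2) + k ^ (min c1 c2)) :=
          mul_le_mul_of_nonneg_right hbd (by positivity)
      _ = ((T + 1) / (9 / 10 * σ) + 1) * (2 * k ^ (min c1 c2)) := by ring
      _ ≤ _ := hsm
  · intro i hi
    obtain ⟨l, hl0, hl2, hl3⟩ := hw i hi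
    refine ⟨l, hl0, ?_, ?_⟩
    · refine (HC h hh g1 G (n1 + t i) ?_ y).trans (ENNReal.ofReal_le_ofReal (hkc _ (min_le_left _ _)))
      push_cast
      have : 0 ≤ (t i : ℝ) * h := by positivity
      linarith
    · intro G' hlow hcap
      exact (HW h hh g2 G' y hlow hcap l hl2 hl3).trans
        (ENNReal.ofReal_le_ofReal (hkc _ (min_le_right _ _)))

end DynG
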