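import Pool.Agent.Lib_MP_36b788c.LPPb
import Pool.Agent.Lib_MP_36b788c.Grw

/-!
# Sums over the box

PROOF.
* `cd_box`: `sum_exp_dd` (with `boxMSet d L`, whose `dd` is `(boxNet d L).dist`) for `r = a/8` and `r = 5a/8`, `cd` = the larger constant; `exp(-r)^n = exp(-(r n))`.
* `sum_near_far`: near part: the number of `y` with `dist x y ≤ Rb` is at most `(2Rb+1)^d` (`(boxMSet d L).growth`, see `Grw.lean`; `MSet` is defined in `Lib_MP_36b788c/LPPa.lean`; use `dist_comm` if the argument order requires it).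
  Far part: `dist > Rb`: `e^{-(5/8) a dist} = e^{-(a/2) dist} e^{-(a/8) dist} ≤ e^{-(a/2) Rb} e^{-(a/8) dist}`, sum `≤ e^{-(a/2) Rb} cd`.
-/

namespace DynG

open Dyn DynC

private theorem FCd_exp_pow (r : ℝ) (n : ℕ) : Real.exp (-r) ^ n = Real.exp (-(r * (n : ℝ))) := by
  rw [← Real.exp_nat_mul]
  congr 1
  ring

theorem cd_box (d : ℕ) (a : ℝ) (ha : 0 < a) : ∃ cd : ℝ, 1 ≤ cd ∧ ∀ (L : ℕ) (x : boxS d L),
    ∑ z, Real.exp (-(a / 8)) ^ (boxNet d L).dist x z ≤ cd ∧
    ∑ y, Real.exp (-(5 / 8 * a)) ^ (boxNet d L).dist x y ≤ cd := by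
  obtain ⟨C, hC1, hC⟩ := sum_exp_dd d (a / 8) (by positivity)
  obtain ⟨C', hC1', hC'⟩ := sum_exp_dd d (5 / 8 * a) (by positivity)
  refine ⟨max C C', le_max_of_le_left hC1, fun L x => ⟨?_, ?_⟩⟩
  · refine le_trans ?_ (le_max_left _ _)
    refine le_trans (le_of_eq ?_) (hC (boxS d L) (boxMSet d L) x)
    exact Finset.sum_congr rfl fun y _ => FCd_exp_pow _ _
  · refine le_trans ?_ (le_max_right _ _)
    refine le_trans (le_of_eq ?_) (hC' (boxS d L) (boxMSet d L) x)
    exact Finset.sum_congr rfl fun y _ => FCd_exp_pow _ _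

theorem sum_near_far (d L : ℕ) (a cd u v : ℝ) (ha : 0 < a) (hu : 0 ≤ u) (hv : 0 ≤ v)
    (hcd : ∀ x : boxS d L, ∑ z, Real.exp (-(a / 8)) ^ (boxNet d L).dist x z ≤ cd) (Rb : ℕ)
    (x : boxS d L) :
    ∑ y, (if (boxNet d L).dist x y ≤ Rb then u else
        v * Real.exp (-(5 / 8 * a * (boxNet d L).dist x y))) ≤
      (2 * (Rb : ℝ) + 1) ^ d * u + v * Real.exp (-(a / 2 * Rb)) * cd := by
  classical
  have h1 : ∀ y : boxS d L, (if (boxNet d L).dist x y ≤ Rb then u else
        v * Real.exp (-(5 / 8 * a * (boxNet d L).dist x y))) ≤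
      (if (boxNet d L).dist x y ≤ Rb then u else 0) +
        v * Real.exp (-(a / 2 * Rb)) * Real.exp (-(a / 8)) ^ (boxNet d L).dist x y := by
    intro y
    split_ifs with h
    · have : 0 ≤ v * Real.exp (-(a / 2 * Rb)) * Real.exp (-(a / 8)) ^ (boxNet d L).dist x y := by
        positivity
      linarith
    · rw [zero_add, FCd_exp_pow, mul_assoc v, ← Real.exp_add]
      refine mul_le_mul_of_nonneg_left (Real.exp_le_exp.mpr ?_) hv
      have h2 : (Rb : ℝ) ≤ ((boxNet d L).dist x y : ℝ) := by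
        exact_mod_cast (not_le.mp h).le
      nlinarith
  refine (Finset.sum_le_sum fun y _ => h1 y).trans ?_
  rw [Finset.sum_add_distrib]
  refine add_le_add ?_ ?_
  · rw [← Finset.sum_filter, Finset.sum_const, nsmul_eq_mul]
    refine mul_le_mul_of_nonneg_right ?_ hu
    have h3 := (boxMSet d L).growth x Rb
      (Finset.univ.filter fun y => (boxNet d L).dist x y ≤ Rb)
      (fun y hy => (Finset.mem_filter.mp hy).2)
    exact_mod_cast h3
  · rw [← Finset.mul_sum]
    exact mul_le_mul_of_nonneg_left (hcd x) (by positivity)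

end DynG
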