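import Pool.Agent.Lib_MP_36b788g.FSplit
import Pool.Agent.Lib_MP_36b788g.FCd

/-!
# The field `good` of a block

PROOF of `good_field`. `c x y = 16 CV cd (if dist x y ≤ Rb then γ^θ + √BD p^{1/4} else √BD e^{-(5/8) a dist x y})`; `Σ_y c x y ≤ 16 CV cd ((2Rb+1)^d (γ^θ + √BD p^{1/4}) + √BD e^{-(a/2) Rb} cd) ≤ 1/16 + 1/16 + 1/16` (`sum_near_far`, `hn1`, `hn2`, `hn3`).
`C` of `lin_sum` with `Sm = TB + 1`; `CL = max 1 (4 card C)`. Given `ε0`: `h0` = minimum of `1`, the one of `lin_sum`, of `exit_bd` with `ε0/2`, of `H`. Then `n = ⌈TB/h⌉₊` satisfies `n h ≤ TB + h ≤ TB + 1`.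
`pn_pair` for the pair `(G, G')`, `split3` for each `x`: `Σ_x 4 A_x · 4 CV cd (…) D0^θ = (Σ_x A_x c x y) D0^θ`. Additive part: `2 card ε (1 + 2 C Σ0) + 2 (ε0/2)(1 + Σ0) ≤ (4 card C ε + ε0)(1 + Σ0)`, `Σ0 = Σ_x(‖G x‖ + ‖G' x‖)` (`C ≥ 1`).
Finally leave `ENNReal` (`ENNReal.ofReal_le_ofReal_iff`, all terms are finite and nonnegative).
-/

open MeasureTheory ProbabilityTheory
open scoped ENNReal

namespace DynG

open Dyn DynC

variable {d L : ℕ}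

private theorem FGood_sum (d L : ℕ) (a cd CV BD p γ θ : ℝ) (ha : 0 < a) (hCV : 0 ≤ CV)
    (hcd1 : 1 ≤ cd) (hp : 0 ≤ p) (hγ : 0 ≤ γ)
    (hcd : ∀ x : boxS d L, ∑ z, Real.exp (-(a / 8)) ^ (boxNet d L).dist x z ≤ cd) (Rb : ℕ)
    (hn1 : 256 * CV * cd * (2 * (Rb : ℝ) + 1) ^ d * γ ^ θ ≤ 1)
    (hn2 : 256 * CV * cd * (2 * (Rb : ℝ) + 1) ^ d * (Real.sqrt BD * p ^ (1 / 4 : ℝ)) ≤ 1)
    (hn3 : 256 * CV * cd ^ 2 * Real.sqrt BD * Real.exp (-(a / 2 * Rb)) ≤ 1)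
    (x : boxS d L) :
    ∑ y, (16 * CV * cd * (if (boxNet d L).dist x y ≤ Rb then
        γ ^ θ + Real.sqrt BD * p ^ (1 / 4 : ℝ) else
        Real.sqrt BD * Real.exp (-(5 / 8 * a * (boxNet d L).dist x y)))) ≤ 1 / 4 := by
  have hu : 0 ≤ γ ^ θ + Real.sqrt BD * p ^ (1 / 4 : ℝ) := by positivity
  have hs := sum_near_far d L a cd (γ ^ θ + Real.sqrt BD * p ^ (1 / 4 : ℝ)) (Real.sqrt BD) ha hu
    (Real.sqrt_nonneg _) hcd Rb x
  rw [← Finset.mul_sum]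
  have h16 : 0 ≤ 16 * CV * cd := by positivity
  have h1 := mul_le_mul_of_nonneg_left hs h16
  refine h1.trans ?_
  have e : 16 * CV * cd * ((2 * (Rb : ℝ) + 1) ^ d * (γ ^ θ + Real.sqrt BD * p ^ (1 / 4 : ℝ)) +
      Real.sqrt BD * Real.exp (-(a / 2 * Rb)) * cd) =
      (256 * CV * cd * (2 * (Rb : ℝ) + 1) ^ d * γ ^ θ) / 16 +
      (256 * CV * cd * (2 * (Rb : ℝ) + 1) ^ d * (Real.sqrt BD * p ^ (1 / 4 : ℝ))) / 16 +
      (256 * CV * cd ^ 2 * Real.sqrt BD * Real.exp (-(a / 2 * Rb))) / 16 := by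
    ring
  rw [e]
  linarith

theorem good_field (N : ℕ) {F : Fam d} {β k : ℝ} (S : PSys F β k)
    (hB : BNoise N S.ν S.b S.gd) (hβ : 0 < β) (hk : 0 < k) (hk1 : k < 1)
    (q s a θ TB κ' CV K cd BD p γ : ℝ) (Rb : ℕ) (hq : 1 ≤ q) (hs : 0 < s) (hqs : q * s ≤ 1)
    (ha : 0 < a) (hθ : 0 < θ) (hTB : 0 < TB) (hκ : 0 ≤ κ')
    (hCV : 0 ≤ CV) (hK : 0 ≤ K) (hcd1 : 1 ≤ cd) (hBD : 1 ≤ BD) (hp : 0 ≤ p) (hγ : 0 ≤ γ)
    (hcd : ∀ x : boxS d L, ∑ z, Real.exp (-(a / 8)) ^ (boxNet d L).dist x z ≤ cd)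
    (hκK : κ' * K * Real.exp (a / 8 * Rb) ≤ 2 * CV * cd)
    (hn1 : 256 * CV * cd * (2 * (Rb : ℝ) + 1) ^ d * γ ^ θ ≤ 1)
    (hn2 : 256 * CV * cd * (2 * (Rb : ℝ) + 1) ^ d * (Real.sqrt BD * p ^ (1 / 4 : ℝ)) ≤ 1)
    (hn3 : 256 * CV * cd ^ 2 * Real.sqrt BD * Real.exp (-(a / 2 * Rb)) ≤ 1)
    (H : ∃ h0 : ℝ, 0 < h0 ∧ ∀ h, 0 < h → h < h0 →
      ∀ (G : (boxS d L → F.V) × (boxS d L → F.V)),
      (∀ z, ∫⁻ ω in S.alv h L G ⌈TB / h⌉₊, V1 k q s (S.tr h L G ω ⌈TB / h⌉₊) z ^ 2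
            ∂(PI (S.mu L)) ≤ (ENNReal.ofReal κ' * V1 k q s G z + ENNReal.ofReal CV) ^ 2 ∧
          ∫⁻ ω in S.alv h L G ⌈TB / h⌉₊, V2 k q s (S.tr h L G ω ⌈TB / h⌉₊) z ^ 2
            ∂(PI (S.mu L)) ≤ (ENNReal.ofReal κ' * V2 k q s G z + ENNReal.ofReal CV) ^ 2) ∧
      ∀ y : boxS d L, (∀ x, x ≠ y → G.1 x = G.2 x) →
        (∀ x, ∫⁻ ω, ENNReal.ofReal (‖(S.tr h L G ω ⌈TB / h⌉₊).1 x -
              (S.tr h L G ω ⌈TB / h⌉₊).2 x‖ ^ (2 * θ)) ∂(PI (S.mu L)) ≤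
            ENNReal.ofReal (BD * Real.exp (-(3 / 2 * a * (boxNet d L).dist x y)) *
              ‖G.1 y - G.2 y‖ ^ (2 * θ))) ∧
        (∀ x, ∫⁻ ω, ENNReal.ofReal (‖(S.tr h L G ω ⌈TB / h⌉₊).1 x -
              (S.tr h L G ω ⌈TB / h⌉₊).2 x‖ ^ (4 * θ)) ∂(PI (S.mu L)) ≤
            ENNReal.ofReal (BD ^ 2 * Real.exp (-(3 * a * (boxNet d L).dist x y)) *
              ‖G.1 y - G.2 y‖ ^ (4 * θ))) ∧
        (wpr (boxNet d L) k q s (Real.exp (-(a / 8))) G.1 G.2 y < ENNReal.ofReal K →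
          ∀ x, (boxNet d L).dist x y ≤ Rb →
          PI (S.mu L) (S.alv h L G ⌈TB / h⌉₊ ∩ {ω | γ * ‖G.1 y - G.2 y‖ <
            ‖(S.tr h L G ω ⌈TB / h⌉₊).1 x - (S.tr h L G ω ⌈TB / h⌉₊).2 x‖}) ≤
          ENNReal.ofReal p)) :
    ∃ (CL : ℝ) (c : boxS d L → boxS d L → ℝ), 1 ≤ CL ∧ (∀ x y, 0 ≤ c x y) ∧
    (∀ x, ∑ y, c x y ≤ 1 / 4) ∧ ∀ ε0 : ℝ, 0 < ε0 → ∃ h0 : ℝ, 0 < h0 ∧
    ∀ h, 0 < h → h < h0 → ∀ (A : boxS d L → ℝ) (ε : ℝ) (f : (boxS d L → F.V) → ℂ),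
      (∀ x, 0 ≤ A x) → 0 ≤ ε → Measurable f → (∀ G, ‖f G‖ ≤ 1) →
      Cls (boxNet d L) k q s (Real.exp (-(a / 8))) θ A ε f →
      ∀ (G G' : boxS d L → F.V) (y : boxS d L), (∀ x, x ≠ y → G x = G' x) →
      wpr (boxNet d L) k q s (Real.exp (-(a / 8))) G G' y < ENNReal.ofReal K →
      ‖F.Pn h L ⌈TB / h⌉₊ f G - F.Pn h L ⌈TB / h⌉₊ f G'‖ ≤
        (∑ x, A x * c x y) * ‖G y - G' y‖ ^ θ +
          (CL * ε + ε0) * (1 + ∑ x, (‖G x‖ + ‖G' x‖)) := by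
  obtain ⟨C, h1, hC1, hh1, hlin⟩ := lin_sum N hβ hk.le S hB L (TB + 1) (by linarith)
  obtain ⟨h3, hh3, hH⟩ := H
  refine ⟨max 1 (4 * (Fintype.card (boxS d L)) * C), fun x y => 16 * CV * cd *
    (if (boxNet d L).dist x y ≤ Rb then γ ^ θ + Real.sqrt BD * p ^ (1 / 4 : ℝ) else
      Real.sqrt BD * Real.exp (-(5 / 8 * a * (boxNet d L).dist x y))), le_max_left _ _, ?_, ?_, ?_⟩
  · intro x y
    have : 0 ≤ (if (boxNet d L).dist x y ≤ Rb then γ ^ θ + Real.sqrt BD * p ^ (1 / 4 : ℝ) else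
      Real.sqrt BD * Real.exp (-(5 / 8 * a * (boxNet d L).dist x y))) := by
      split_ifs <;> positivity
    positivity
  · intro x
    exact FGood_sum d L a cd CV BD p γ θ ha hCV hcd1 hp hγ hcd Rb hn1 hn2 hn3 x
  intro ε0 hε0
  obtain ⟨h2, hh2, hex⟩ := exit_bd N hβ hk.le S hB L (TB + 1) (ε0 / 2) (by linarith) (by linarith)
  refine ⟨min 1 (min h1 (min h2 h3)), by positivity, ?_⟩
  intro h hh hhh A ε f hA hε hm hb hf G G' y hGG hw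
  have hl0 : h < 1 := lt_of_lt_of_le hhh (min_le_left _ _)
  have hl1 : h < h1 := lt_of_lt_of_le hhh ((min_le_right _ _).trans (min_le_left _ _))
  have hl2 : h < h2 := lt_of_lt_of_le hhh
    ((min_le_right _ _).trans ((min_le_right _ _).trans (min_le_left _ _)))
  have hl3 : h < h3 := lt_of_lt_of_le hhh
    ((min_le_right _ _).trans ((min_le_right _ _).trans (min_le_right _ _)))
  have hn : (⌈TB / h⌉₊ : ℝ) * h ≤ TB + 1 := by
    have h5 : (⌈TB / h⌉₊ : ℝ) < TB / h + 1 := Nat.ceil_lt_add_one (by positivity)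
    have h6 := mul_le_mul_of_nonneg_right h5.le hh.le
    have h7 : (TB / h + 1) * h = TB + h := by
      field_simp
    rw [h7] at h6
    linarith
  set n := ⌈TB / h⌉₊ with hndef
  have hα : 0 ≤ Real.exp (-(a / 8)) := (Real.exp_pos _).le
  have hpair := pn_pair S h L n q s (Real.exp (-(a / 8))) θ hk hk1 hq hs hqs hα hθ A hA ε hε f hm
    hb hf (G, G')
  have hlin' := hlin h hh hl1 (G, G') n hn
  have hex' := hex h hh hl2 (G, G') n hn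
  obtain ⟨hly, hy⟩ := hH h hh hl3 (G, G')
  obtain ⟨hg2, hg4, hcore⟩ := hy y hGG
  have hcore' := hcore hw
  have hsp := split3 S h n q s a θ κ' CV K cd BD p γ Rb ha hθ hκ hCV hK hBD hp hγ hcd hκK (G, G') y
    hw hly hg2 hg4 hcore'
  simp only at hpair hlin' hex' hsp
  set T0 : ℝ := ∑ x, (‖G x‖ + ‖G' x‖) with hTd
  have hT0 : 0 ≤ T0 := Finset.sum_nonneg fun x _ => add_nonneg (norm_nonneg _) (norm_nonneg _)
  set D0 : ℝ := ‖G y - G' y‖ with hD0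
  have hD0θ : 0 ≤ D0 ^ θ := Real.rpow_nonneg (norm_nonneg _) _
  set cc : boxS d L → ℝ := fun x => (if (boxNet d L).dist x y ≤ Rb then
      γ ^ θ + Real.sqrt BD * p ^ (1 / 4 : ℝ) else
      Real.sqrt BD * Real.exp (-(5 / 8 * a * (boxNet d L).dist x y))) with hcc
  have hcc0 : ∀ x, 0 ≤ cc x := fun x => by
    simp only [hcc]
    split_ifs <;> positivity
  set cb : ℝ := (Fintype.card (boxS d L) : ℝ) with hcb
  have hcb0 : 0 ≤ cb := Nat.cast_nonneg _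
  have hcd0 : 0 ≤ cd := zero_le_one.trans hcd1
  have hC0 : 0 ≤ C := zero_le_one.trans hC1
  -- the main term
  have hA1 : ∑ x, ENNReal.ofReal (4 * A x) * ∫⁻ ω in S.alv h L (G, G') n,
          ENNReal.ofReal (‖(S.tr h L (G, G') ω n).1 x - (S.tr h L (G, G') ω n).2 x‖ ^ θ) *
            wpr (boxNet d L) k q s (Real.exp (-(a / 8))) (S.tr h L (G, G') ω n).1
              (S.tr h L (G, G') ω n).2 x ∂(PI (S.mu L)) ≤
      ENNReal.ofReal ((∑ x, A x * (16 * CV * cd * cc x)) * D0 ^ θ) := by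
    rw [Finset.sum_mul, ENNReal.ofReal_sum_of_nonneg (fun x _ => by
      have := hA x
      have := hcc0 x
      positivity)]
    refine Finset.sum_le_sum fun x _ => ?_
    refine (mul_le_mul_right (hsp x) _).trans (le_of_eq ?_)
    rw [← ENNReal.ofReal_mul (mul_nonneg (by norm_num) (hA x))]
    congr 1
    simp only [hcc]
    ring
  -- the additive term
  have hA2 : ENNReal.ofReal (2 * cb * ε) *
          (1 + 2 * ∫⁻ ω, ENNReal.ofReal (∑ x, (‖(S.tr h L (G, G') ω n).1 x‖ +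
            ‖(S.tr h L (G, G') ω n).2 x‖)) ∂(PI (S.mu L))) + 2 * PI (S.mu L) (S.alv h L (G, G') n)ᶜ
      ≤ ENNReal.ofReal ((max 1 (4 * cb * C) * ε + ε0) * (1 + T0)) := by
    have h8 : ENNReal.ofReal (2 * cb * ε) *
          (1 + 2 * ∫⁻ ω, ENNReal.ofReal (∑ x, (‖(S.tr h L (G, G') ω n).1 x‖ +
            ‖(S.tr h L (G, G') ω n).2 x‖)) ∂(PI (S.mu L))) ≤
        ENNReal.ofReal (2 * cb * ε * (1 + 2 * (C * T0))) := by
      have h20 : (0 : ℝ) ≤ 2 * cb * ε := by positivity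
      rw [ENNReal.ofReal_mul (q := 1 + 2 * (C * T0)) h20,
        ENNReal.ofReal_add zero_le_one (by positivity),
        ENNReal.ofReal_mul (by norm_num : (0 : ℝ) ≤ 2), ENNReal.ofReal_one, ENNReal.ofReal_ofNat]
      gcongr
    have h9 : 2 * PI (S.mu L) (S.alv h L (G, G') n)ᶜ ≤ ENNReal.ofReal (ε0 * (1 + T0)) := by
      calc 2 * PI (S.mu L) (S.alv h L (G, G') n)ᶜ ≤ 2 * ENNReal.ofReal (ε0 / 2 * (1 + T0)) := by
            gcongr
        _ = ENNReal.ofReal (ε0 * (1 + T0)) := by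
            rw [← ENNReal.ofReal_ofNat 2, ← ENNReal.ofReal_mul (by norm_num)]
            congr 1
            ring
    refine (add_le_add h8 h9).trans ?_
    rw [← ENNReal.ofReal_add (by positivity) (by positivity)]
    refine ENNReal.ofReal_le_ofReal ?_
    have h10 : 2 * cb * ε * (1 + 2 * (C * T0)) ≤ 4 * cb * C * ε * (1 + T0) := by
      have h11 : 0 ≤ cb * ε := mul_nonneg hcb0 hε
      have h12 : 2 * (1 + 2 * (C * T0)) ≤ 4 * C * (1 + T0) := by nlinarith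
      have := mul_le_mul_of_nonneg_left h12 h11
      linarith
    have h13 : 4 * cb * C * ε * (1 + T0) ≤ max 1 (4 * cb * C) * ε * (1 + T0) := by
      have := le_max_right 1 (4 * cb * C)
      gcongr
    linarith
  have hfin : ENNReal.ofReal ‖F.Pn h L n f G - F.Pn h L n f G'‖ ≤
      ENNReal.ofReal ((∑ x, A x * (16 * CV * cd * cc x)) * D0 ^ θ +
        (max 1 (4 * cb * C) * ε + ε0) * (1 + T0)) := by
    have hpos1 : 0 ≤ (∑ x, A x * (16 * CV * cd * cc x)) * D0 ^ θ := by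
      refine mul_nonneg (Finset.sum_nonneg fun x _ => ?_) hD0θ
      have := hA x
      have := hcc0 x
      positivity
    rw [ENNReal.ofReal_add hpos1 (by positivity)]
    exact hpair.trans (add_le_add hA1 hA2)
  refine (ENNReal.ofReal_le_ofReal_iff ?_).1 hfin
  refine add_nonneg (mul_nonneg (Finset.sum_nonneg fun x _ => ?_) hD0θ) (by positivity)
  have := hA x
  have := hcc0 x
  positivity

end DynG
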