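import Pool.Agent.Lib_MP_36b788c.Sm3
import Pool.Agent.Lib_MP_36b788c.Grw2

/-!
# The fields `gV` and `gD` of a block for `N ≥ 3`

PROOF.
* `gv3`: `V_sq`, `sm_multi` with `s := 2·(1/16/ell k) = 1/8/ell k` (`8 q s ≤ 1` and `C9 (s/ell + s²)(T ell + 1) ≤ C9 (1/8 + 1/64)(T+1)/ell ≤ log 2` for small `k`), `n h ≤ T ell + h ≤ T ell + 1`.
* `gd3`: `gD3` with `a` and with `2a` (`a0` half of the one of `gD3`): `2·((2a)/ell) = 4 (a/ell)`, `exp(C 2a T) = (exp(C a T))²`, `3/2·(2a) = 3a`; `n ≤ ⌈T ell/h⌉₊` gives `n h ≤ T ell + h`.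
-/

open MeasureTheory ProbabilityTheory
open scoped ENNReal

namespace DynG

open Dyn DynC

private theorem FGv_nh {T l h : ℝ} {n : ℕ} (hT : 0 ≤ T) (hl : 0 ≤ l) (hh : 0 < h) (hh1 : h ≤ 1)
    (hn : n ≤ ⌈T * l / h⌉₊) : (n : ℝ) * h ≤ T * l + 1 := by
  have h1 : (n : ℝ) ≤ T * l / h + 1 := by
    calc (n : ℝ) ≤ (⌈T * l / h⌉₊ : ℝ) := by exact_mod_cast hn
      _ ≤ T * l / h + 1 := (Nat.ceil_lt_add_one (by positivity)).le
  calc (n : ℝ) * h ≤ (T * l / h + 1) * h := by gcongr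
    _ = T * l + h := by field_simp
    _ ≤ T * l + 1 := by linarith

private theorem FGv_ell {k R : ℝ} (hk : 0 < k) (h : k < Real.exp (-R)) : R ≤ ell k := by
  unfold ell
  rw [one_div, Real.log_inv]
  have h1 : Real.log k ≤ -R := by
    rw [← Real.log_exp (-R)]
    exact Real.log_le_log hk h.le
  linarith

private theorem FGv_two {C9 T l : ℝ} {nh : ℝ} (hC : 0 < C9) (hT : 1 ≤ T) (hl1 : 1 ≤ l)
    (hl : C9 * (T + 1) / Real.log 2 ≤ l) (hnh : nh ≤ T * l + 1) :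
    Real.exp (C9 * ((2 * (1 / 16 / l)) / l + (2 * (1 / 16 / l)) ^ 2) * nh) ≤ 2 := by
  have hl0 : 0 < l := by linarith
  have hlog : 0 < Real.log 2 := Real.log_pos (by norm_num)
  have h1 : (2 * (1 / 16 / l)) / l + (2 * (1 / 16 / l)) ^ 2 = 9 / 64 / l ^ 2 := by
    field_simp
    norm_num
  have h2 : nh ≤ (T + 1) * l := by nlinarith
  have h3 : C9 * (9 / 64 / l ^ 2) * nh ≤ Real.log 2 := by
    have h4 : C9 * (9 / 64 / l ^ 2) * nh ≤ C9 * (9 / 64 / l ^ 2) * ((T + 1) * l) := by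
      gcongr
    have h5 : C9 * (9 / 64 / l ^ 2) * ((T + 1) * l) = 9 / 64 * (C9 * (T + 1) / l) := by
      field_simp
    have h6 : C9 * (T + 1) / l ≤ Real.log 2 := by
      rw [div_le_iff₀ hlog] at hl
      rw [div_le_iff₀ hl0]
      linarith
    have h7 : 0 ≤ C9 * (T + 1) / l := by positivity
    linarith
  rw [h1]
  calc Real.exp (C9 * (9 / 64 / l ^ 2) * nh) ≤ Real.exp (Real.log 2) := Real.exp_le_exp.2 h3
    _ = 2 := Real.exp_log (by norm_num)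

theorem gv3 (N d : ℕ) (β : ℝ) (hN : 2 ≤ N) (hβ : 0 < β) : ∃ q0 : ℝ, 1 ≤ q0 ∧
    ∀ q, q0 ≤ q → ∀ T : ℝ, 1 ≤ T → ∃ k0 : ℝ, 0 < k0 ∧ k0 < 1 ∧
    ∀ (F : Fam d) (k : ℝ) (S : PSys F β k), 0 < k → k < k0 → BNoise N S.ν S.b S.gd →
    ∃ h0 : ℝ, 0 < h0 ∧ ∀ h, 0 < h → h < h0 → ∀ (L : ℕ) (G : (boxS d L → F.V) × (boxS d L → F.V))
      (n : ℕ), n ≤ ⌈T * ell k / h⌉₊ → ∀ x : boxS d L,
      ∫⁻ ω in S.alv h L G n, V1 k q (1 / 16 / ell k) (S.tr h L G ω n) x ^ 2 ∂(PI (S.mu L))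
          ≤ ENNReal.ofReal 2 * V1 k q (1 / 16 / ell k) G x ^ 2 ∧
      ∫⁻ ω in S.alv h L G n, V2 k q (1 / 16 / ell k) (S.tr h L G ω n) x ^ 2 ∂(PI (S.mu L))
          ≤ ENNReal.ofReal 2 * V2 k q (1 / 16 / ell k) G x ^ 2 := by
  obtain ⟨q0, hq0, H⟩ := sm_multi N d β hN hβ
  refine ⟨q0, hq0, ?_⟩
  intro q hq T hT
  obtain ⟨C9, k0, hC9, hk0, hk01, H1⟩ := H q hq
  have hlog : 0 < Real.log 2 := Real.log_pos (by norm_num)
  have hq1 : 1 ≤ q := hq0.trans hq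
  have hR : 0 ≤ C9 * (T + 1) / Real.log 2 := by positivity
  refine ⟨min k0 (Real.exp (-(q + C9 * (T + 1) / Real.log 2))),
    lt_min hk0 (Real.exp_pos _), lt_of_le_of_lt (min_le_left _ _) hk01, ?_⟩
  intro F k S hk hkk hB
  have hkk0 : k < k0 := lt_of_lt_of_le hkk (min_le_left _ _)
  have hell : q + C9 * (T + 1) / Real.log 2 ≤ ell k :=
    FGv_ell hk (lt_of_lt_of_le hkk (min_le_right _ _))
  have hell1 : 1 ≤ ell k := by linarith
  have hell0 : 0 < ell k := by linarith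
  have hs : 0 < 2 * (1 / 16 / ell k) := by positivity
  have hqs : 8 * q * (2 * (1 / 16 / ell k)) ≤ 1 := by
    have h1 : 8 * q * (2 * (1 / 16 / ell k)) = q / ell k := by
      field_simp
      norm_num
    rw [h1, div_le_one hell0]
    linarith
  obtain ⟨h0, hh0, H2⟩ := H1 F k S hk hkk0 hB (2 * (1 / 16 / ell k)) hs hqs
  refine ⟨min h0 1, lt_min hh0 one_pos, ?_⟩
  intro h hh hhh L G n hn x
  have hhh0 : h < h0 := lt_of_lt_of_le hhh (min_le_left _ _)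
  have hh1 : h ≤ 1 := (lt_of_lt_of_le hhh (min_le_right _ _)).le
  have hnh : (n : ℝ) * h ≤ T * ell k + 1 := FGv_nh (by linarith) hell0.le hh hh1 hn
  have hexp := FGv_two (nh := (n : ℝ) * h) hC9 hT hell1 (by linarith) hnh
  have H3 := H2 h hh hhh0 L G n x
  constructor
  · simp only [(V_sq k q (1 / 16 / ell k) _ x).1]
    refine H3.1.trans ?_
    gcongr
  · simp only [(V_sq k q (1 / 16 / ell k) _ x).2]
    refine H3.2.trans ?_
    gcongr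

theorem gd3 (N d : ℕ) (β : ℝ) (hβ : 0 < β) : ∃ C a0 : ℝ, 0 < C ∧ 0 < a0 ∧ ∀ T : ℝ, 1 ≤ T →
    ∃ k0 : ℝ, 0 < k0 ∧ k0 < 1 ∧ ∀ (F : Fam d) (k : ℝ) (S : PSys F β k), 0 < k → k < k0 →
    BNoise N S.ν S.b S.gd → ∀ a, 0 < a → a ≤ a0 →
    ∃ h0 : ℝ, 0 < h0 ∧ ∀ h, 0 < h → h < h0 → ∀ L,
    ∀ (G : (boxS d L → F.V) × (boxS d L → F.V)) (y : boxS d L), (∀ x, x ≠ y → G.1 x = G.2 x) →
    ∀ n : ℕ, n ≤ ⌈T * ell k / h⌉₊ → ∀ x,
      ∫⁻ ω, ENNReal.ofReal (‖(S.tr h L G ω n).1 x - (S.tr h L G ω n).2 x‖ ^ (2 * (a / ell k)))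
          ∂(PI (S.mu L)) ≤
        ENNReal.ofReal (Real.exp (C * a * T) * Real.exp (-(3 / 2 * a * (boxNet d L).dist x y)) *
          ‖G.1 y - G.2 y‖ ^ (2 * (a / ell k))) ∧
      ∫⁻ ω, ENNReal.ofReal (‖(S.tr h L G ω n).1 x - (S.tr h L G ω n).2 x‖ ^ (4 * (a / ell k)))
          ∂(PI (S.mu L)) ≤
        ENNReal.ofReal (Real.exp (C * a * T) ^ 2 *
          Real.exp (-(3 * a * (boxNet d L).dist x y)) *
          ‖G.1 y - G.2 y‖ ^ (4 * (a / ell k))) := by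
  obtain ⟨C, a0, hC, ha0, H⟩ := gD3 N d β hβ
  refine ⟨C, a0 / 2, hC, by positivity, ?_⟩
  intro T hT
  obtain ⟨k0, hk0, hk01, H1⟩ := H T hT
  refine ⟨k0, hk0, hk01, ?_⟩
  intro F k S hk hkk hB a ha haa
  obtain ⟨h1, hh1, H2⟩ := H1 F k S hk hkk hB a ha (by linarith)
  obtain ⟨h2, hh2, H3⟩ := H1 F k S hk hkk hB (2 * a) (by linarith) (by linarith)
  have hell0 : 0 ≤ ell k := by
    unfold ell
    refine Real.log_nonneg ?_
    rw [le_div_iff₀ hk]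
    linarith
  refine ⟨min (min h1 h2) 1, lt_min (lt_min hh1 hh2) one_pos, ?_⟩
  intro h hh hhh L G y hG n hn x
  have e1 : h < h1 := lt_of_lt_of_le hhh ((min_le_left _ _).trans (min_le_left _ _))
  have e2 : h < h2 := lt_of_lt_of_le hhh ((min_le_left _ _).trans (min_le_right _ _))
  have e3 : h ≤ 1 := (lt_of_lt_of_le hhh (min_le_right _ _)).le
  have hnh : (n : ℝ) * h ≤ T * ell k + 1 := FGv_nh (by linarith) hell0 hh e3 hn
  refine ⟨H2 h hh e1 L G y hG n hnh x, ?_⟩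
  have H4 := H3 h hh e2 L G y hG n hnh x
  have r1 : 2 * (2 * a / ell k) = 4 * (a / ell k) := by ring
  have r2 : Real.exp (C * (2 * a) * T) = Real.exp (C * a * T) ^ 2 := by
    rw [← Real.exp_nat_mul]
    congr 1
    push_cast
    ring
  have r3 : 3 / 2 * (2 * a) * ((boxNet d L).dist x y : ℝ) = 3 * a * ((boxNet d L).dist x y : ℝ) := by
    ring
  rw [r1, r2, r3] at H4
  exact H4

end DynG
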