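import Pool.Agent.Lib_MP_36b788g.PS3
import Pool.Agent.Lib_MP_36b788s.Zpow
import Pool.Agent.Lib_MP_36b788.Trunc

/-!
# The scalar noise of `PS3` is a `BNoise`

`ζ ~ stdGaussian (E N)`, `b = log‖e1+√hζ‖`, `γ = stdGaussian`, `ν = nuT N h = γ.map (ζ ↦ if ‖ζ‖ ≤ h^{-1/8} then ζ else 0)`.

PROOF.
* `bdd`: the third condition in `gdE`.
* For `h < 1/1000`: `gdE hN h = {√h‖ζ‖ ≤ h^{3/8}} = {‖ζ‖ ≤ h^{-1/8}}`: `√h‖ζ‖ ≤ h^{3/8} ≤ 1/10` (`LogZ_ell`) implies `9/10 ≤ ‖e1+√hζ‖` and `|log(1+x)| ≤ 2|x|` for `|x| ≤ 1/2`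
  (`x = ‖e1+√hζ‖ - 1`, `|x| ≤ √h‖ζ‖`). (`gdE_eq`)
* `gd_nuT`: for `φ ≥ 0` measurable: `∫⁻_{gdE}φ dγ + φ(0)γ(gdEᶜ) = ∫⁻φ dν` (`lintegral_map`, split into `‖ζ‖ ≤ h^{-1/8}` and its complement), in particular
  `∫⁻_{gdE}φ(Qζ)dγ ≤ ∫⁻φ dν` for an isometry `Q` (`γ.map Q = γ`, `‖Qζ‖ = ‖ζ‖`).
* `tail`: `γ{‖ζ‖ > h^{-1/8}} ≤ h^{4}E‖ζ‖^{32} ≤ h³` for `h` small (Markov for the power `32`; `tailG_le` gives only `h²`, so repeat its proof with the power `32`;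
  moments of the Gaussian are finite: see `Trunc.lean`).
* `mgf`, uniform in `|r| ≤ rm`: `F_r(t) = (1+t)^{r/2}-1-(r/2)t-(r(r-2)/8)t²` satisfies `|F_r t| ≤ K|t|³` for `|t| ≤ 1/2` with `K = K(rm)` (Taylor, third derivative
  `(r/2)(r/2-1)(r/2-2)(1+t)^{r/2-3}`, bounded by a constant depending on `rm` only). `taylor_t N hN 0 0 K` (same `C, h0` for all `r`): `|∫F_r(ζ²-1)dν| ≤ Ch^{9/8}`; `taylor_t` with
  `(a,b) = (1,0)`, `F t = t` and `(0,1)`, `F t = t²`: `∫t = Nh+O(h^{9/8})`, `∫t² = 4h+O(h^{9/8})`. So `∫‖e1+√hζ‖^r dν = 1+((r/2)N+r(r-2)/2)h+O(h^{9/8}) = 1+(λr+r²/2)h+O(h^{9/8})`,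
  `λ = (N-2)/2 = lamN N`, uniformly in `|r| ≤ rm`; `e^{rb} = ‖e1+√hζ‖^r` on `gdE`; `gd_nuT`: `∫_{gdE}e^{rb}dγ = ∫‖·‖^r dν - γ(gdEᶜ)` (`φ(0) = 1`), error `≤ h³`.
  `Ch^{1/8}+h² ≤ ε` for small `h`. (`ν` is an `IsNoise`: `nuT_noise`.)
* `mgf2`: `e^{2b} ≤ ‖e1+√hζ‖²+1_{e1+√hζ=0}` and the exceptional set is `γ`-null (a point; `N ≥ 1`; or: `e^{2b} = ‖·‖²` unless the vector is zero, `stdGaussian` has no atoms);
  `∫‖e1+√hζ‖²dγ = 1+hN`: `C = N`.
-/

open MeasureTheory ProbabilityTheory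
open scoped ENNReal

namespace DynC

open Dyn DynS

variable {N : ℕ}

private theorem BNoise3_nz (hN : 3 ≤ N) {h : ℝ} (hh : 0 < h) (hh1 : h < 1 / 1000) {ζ : E N}
    (hζ : Real.sqrt h * ‖ζ‖ ≤ h ^ (3 / 8 : ℝ)) :
    9 / 10 ≤ ‖e1v hN + Real.sqrt h • ζ‖ ∧ |bE hN h ζ| ≤ 2 * h ^ (3 / 8 : ℝ) := by
  obtain ⟨hl0, hl1, -, -, -⟩ := LogZ_ell hh hh1
  have h1 : |‖e1v hN + Real.sqrt h • ζ‖ - 1| ≤ h ^ (3 / 8 : ℝ) := by
    have h2 := abs_norm_sub_norm_le (e1v hN + Real.sqrt h • ζ) (e1v hN)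
    rw [e1v_norm, add_sub_cancel_left, norm_smul, Real.norm_eq_abs,
      abs_of_nonneg (Real.sqrt_nonneg h)] at h2
    exact h2.trans hζ
  rw [abs_le] at h1
  have hz : 9 / 10 ≤ ‖e1v hN + Real.sqrt h • ζ‖ := by linarith [h1.1]
  have hz0 : 0 < ‖e1v hN + Real.sqrt h • ζ‖ := by linarith
  refine ⟨hz, ?_⟩
  unfold bE
  rw [abs_le]
  constructor
  · have h2 := Real.one_sub_inv_le_log_of_pos hz0
    have h3 : 1 - ‖e1v hN + Real.sqrt h • ζ‖⁻¹ =
        (‖e1v hN + Real.sqrt h • ζ‖ - 1) / ‖e1v hN + Real.sqrt h • ζ‖ := by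
      field_simp
    rw [h3] at h2
    refine le_trans ?_ h2
    rw [le_div_iff₀ hz0]
    nlinarith [h1.1]
  · have h2 := Real.log_le_sub_one_of_pos hz0
    linarith [h1.2]

theorem gdE_eq (hN : 3 ≤ N) {h : ℝ} (hh : 0 < h) (hh1 : h < 1 / 1000) :
    gdE hN h = {ζ : E N | Real.sqrt h * ‖ζ‖ ≤ h ^ (3 / 8 : ℝ)} := by
  ext ζ
  constructor
  · intro hζ
    exact hζ.2.1
  · intro hζ
    obtain ⟨h1, h2⟩ := BNoise3_nz hN hh hh1 hζ
    refine ⟨?_, hζ, h2⟩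
    intro h0
    rw [h0, norm_zero] at h1
    norm_num at h1

private theorem BNoise3_mem (hN : 3 ≤ N) {h : ℝ} (hh : 0 < h) (hh1 : h < 1 / 1000) (ζ : E N) :
    ζ ∈ gdE hN h ↔ ‖ζ‖ ≤ h ^ (-(1 / 8) : ℝ) := by
  rw [gdE_eq hN hh hh1]
  have hs : 0 < Real.sqrt h := Real.sqrt_pos.2 hh
  have e1 : Real.sqrt h * h ^ (-(1 / 8) : ℝ) = h ^ (3 / 8 : ℝ) := by
    rw [Real.sqrt_eq_rpow, ← Real.rpow_add hh]
    norm_num
  constructor
  · intro hζ
    have hζ' : Real.sqrt h * ‖ζ‖ ≤ h ^ (3 / 8 : ℝ) := hζ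
    rw [← e1] at hζ'
    exact le_of_mul_le_mul_left hζ' hs
  · intro hζ
    change Real.sqrt h * ‖ζ‖ ≤ h ^ (3 / 8 : ℝ)
    rw [← e1]
    exact mul_le_mul_of_nonneg_left hζ hs.le

private theorem BNoise3_split (hN : 3 ≤ N) {h : ℝ} (hh : 0 < h) (hh1 : h < 1 / 1000)
    {φ : E N → ℝ≥0∞} (hφ : Measurable φ) :
    ∫⁻ ξ, φ ξ ∂(nuT N h) = ∫⁻ ζ in gdE hN h, φ ζ ∂(stdGaussian (E N)) +
      φ 0 * stdGaussian (E N) (gdE hN h)ᶜ := by
  classical
  unfold nuT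
  have hm : Measurable (fun ξ : E N => if ‖ξ‖ ≤ h ^ (-(1 / 8) : ℝ) then ξ else 0) :=
    Measurable.ite (measurableSet_le measurable_norm measurable_const) measurable_id
      measurable_const
  have hm' := hφ.comp hm
  rw [lintegral_map hφ (by convert hm)]
  rw [← lintegral_add_compl _ (measurable_gdE hN h)]
  congr 1
  · refine setLIntegral_congr_fun (measurable_gdE hN h) fun ζ hζ => ?_
    have h1 := (BNoise3_mem hN hh hh1 ζ).1 hζ
    simp only [if_pos h1]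
  · rw [← setLIntegral_const]
    refine setLIntegral_congr_fun (measurable_gdE hN h).compl fun ζ hζ => ?_
    have h1 : ¬ ‖ζ‖ ≤ h ^ (-(1 / 8) : ℝ) := fun h2 => hζ ((BNoise3_mem hN hh hh1 ζ).2 h2)
    simp only [if_neg h1]

theorem gd_nuT (hN : 3 ≤ N) {h : ℝ} (hh : 0 < h) (hh1 : h < 1 / 1000) {φ : E N → ℝ≥0∞}
    (hφ : Measurable φ) (Q : E N ≃ₗᵢ[ℝ] E N) :
    ∫⁻ ζ in gdE hN h, φ (Q ζ) ∂(stdGaussian (E N)) ≤ ∫⁻ ξ, φ ξ ∂(nuT N h) := by
  have hQm : Measurable (Q : E N → E N) := Q.continuous.measurable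
  have e1 : ∫⁻ ζ in gdE hN h, φ (Q ζ) ∂(stdGaussian (E N)) =
      ∫⁻ ζ in gdE hN h, φ ζ ∂(stdGaussian (E N)) := by
    rw [← lintegral_indicator (measurable_gdE hN h), ← lintegral_indicator (measurable_gdE hN h)]
    conv_rhs => rw [← stdGaussian_map Q]
    rw [lintegral_map (hφ.indicator (measurable_gdE hN h)) hQm]
    refine lintegral_congr fun ζ => ?_
    by_cases hζ : ζ ∈ gdE hN h
    · have h2 : Q ζ ∈ gdE hN h := by
        rw [BNoise3_mem hN hh hh1, LinearIsometryEquiv.norm_map]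
        exact (BNoise3_mem hN hh hh1 ζ).1 hζ
      rw [Set.indicator_of_mem hζ, Set.indicator_of_mem h2]
    · have h2 : Q ζ ∉ gdE hN h := by
        rw [BNoise3_mem hN hh hh1, LinearIsometryEquiv.norm_map]
        exact fun h3 => hζ ((BNoise3_mem hN hh hh1 ζ).2 h3)
      rw [Set.indicator_of_notMem hζ, Set.indicator_of_notMem h2]
  rw [e1, BNoise3_split hN hh hh1 hφ]
  exact le_self_add

private theorem BNoise3_gpow (N n : ℕ) :
    Integrable (fun ξ : E N => ‖ξ‖ ^ n) (stdGaussian (E N)) := by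
  have h := (IsGaussian.memLp_id (stdGaussian (E N)) (n : ENNReal) (by simp)).integrable_norm_pow'
  exact h

private theorem BNoise3_tail (hN : 3 ≤ N) : ∃ h0 : ℝ, 0 < h0 ∧ h0 ≤ 1 / 1000 ∧
    ∀ h, 0 < h → h < h0 → stdGaussian (E N) (gdE hN h)ᶜ ≤ ENNReal.ofReal (h ^ 3) := by
  set M := ∫ ξ : E N, ‖ξ‖ ^ 32 ∂(stdGaussian (E N)) with hM
  have hM0 : 0 ≤ M := integral_nonneg fun ξ => by positivity
  refine ⟨min (1 / 1000) (1 / (M + 1)), lt_min (by norm_num) (by positivity), min_le_left _ _,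
    fun h hh hlt => ?_⟩
  have hlt1 : h < 1 / 1000 := hlt.trans_le (min_le_left _ _)
  have hlt2 : h < 1 / (M + 1) := hlt.trans_le (min_le_right _ _)
  have hsub : (gdE hN h)ᶜ ⊆ {ξ : E N | (h ^ 4)⁻¹ ≤ ‖ξ‖ ^ 32} := by
    intro ζ hζ
    have h1 : ¬ ‖ζ‖ ≤ h ^ (-(1 / 8) : ℝ) := fun h2 => hζ ((BNoise3_mem hN hh hlt1 ζ).2 h2)
    rw [not_le] at h1
    change (h ^ 4)⁻¹ ≤ ‖ζ‖ ^ 32
    have h3 : (h ^ (-(1 / 8) : ℝ)) ^ 32 = (h ^ 4)⁻¹ := by
      rw [← Real.rpow_natCast, ← Real.rpow_mul hh.le, ← Real.rpow_natCast h 4,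
        ← Real.rpow_neg hh.le]
      norm_num
    rw [← h3]
    exact pow_le_pow_left₀ (Real.rpow_pos_of_pos hh _).le h1.le 32
  have h2 := mul_meas_ge_le_integral_of_nonneg (μ := stdGaussian (E N))
    (f := fun ξ : E N => ‖ξ‖ ^ 32) (Filter.Eventually.of_forall fun ξ => by positivity)
    (BNoise3_gpow N 32) ((h ^ 4)⁻¹)
  rw [← hM] at h2
  have h4 : (stdGaussian (E N)).real {ξ : E N | (h ^ 4)⁻¹ ≤ ‖ξ‖ ^ 32} ≤ h ^ 3 := by
    have h5 : 0 < h ^ 4 := by positivity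
    have h6 : (stdGaussian (E N)).real {ξ : E N | (h ^ 4)⁻¹ ≤ ‖ξ‖ ^ 32} ≤ h ^ 4 * M := by
      calc _ = h ^ 4 * ((h ^ 4)⁻¹ * (stdGaussian (E N)).real {ξ : E N | (h ^ 4)⁻¹ ≤ ‖ξ‖ ^ 32}) := by
            rw [← mul_assoc, mul_inv_cancel₀ h5.ne', one_mul]
        _ ≤ h ^ 4 * M := mul_le_mul_of_nonneg_left h2 h5.le
    have h7 : h * (M + 1) ≤ 1 := by
      rw [lt_div_iff₀ (by positivity)] at hlt2
      exact hlt2.le
    have h8 : h ^ 4 * M = h ^ 3 * (h * M) := by ring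
    have h9 : h * M ≤ 1 := by nlinarith
    have h10 : 0 ≤ h ^ 3 := by positivity
    rw [h8] at h6
    nlinarith
  calc stdGaussian (E N) (gdE hN h)ᶜ ≤ stdGaussian (E N) {ξ : E N | (h ^ 4)⁻¹ ≤ ‖ξ‖ ^ 32} :=
        measure_mono hsub
    _ = ENNReal.ofReal ((stdGaussian (E N)).real {ξ : E N | (h ^ 4)⁻¹ ≤ ‖ξ‖ ^ 32}) :=
        by rw [ofReal_measureReal]
    _ ≤ ENNReal.ofReal (h ^ 3) := ENNReal.ofReal_le_ofReal h4

/-- powers of numbers between `1/2` and `3/2` -/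
private theorem BNoise3_rpow_le {u : ℝ} (h1 : 1 / 2 ≤ u) (h2 : u ≤ 3 / 2) (r : ℝ) :
    u ^ r ≤ 2 ^ |r| := by
  have hu : 0 < u := by linarith
  have hlog : |Real.log u| ≤ Real.log 2 := by
    rw [abs_le]
    constructor
    · have := Real.log_le_log (by norm_num : (0 : ℝ) < 1 / 2) h1
      rw [one_div, Real.log_inv] at this
      exact this
    · exact Real.log_le_log hu (by linarith)
  rw [Real.rpow_def_of_pos hu, Real.rpow_def_of_pos (by norm_num : (0 : ℝ) < 2)]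
  apply Real.exp_le_exp.2
  calc Real.log u * r ≤ |Real.log u * r| := le_abs_self _
    _ = |Real.log u| * |r| := abs_mul _ _
    _ ≤ Real.log 2 * |r| := mul_le_mul_of_nonneg_right hlog (abs_nonneg r)

/-- one step of the Taylor estimate -/
private theorem BNoise3_mv {g g' : ℝ → ℝ} {K : ℝ} {n : ℕ} (hK : 0 ≤ K) (h0 : g 0 = 0)
    (hd : ∀ x : ℝ, |x| ≤ 1 / 2 → HasDerivAt g (g' x) x)
    (hb : ∀ x : ℝ, |x| ≤ 1 / 2 → |g' x| ≤ K * |x| ^ n) :
    ∀ x : ℝ, |x| ≤ 1 / 2 → |g x| ≤ K * |x| ^ (n + 1) := by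
  intro x hx
  have key := Convex.norm_image_sub_le_of_norm_hasDerivWithin_le (f := g) (f' := g')
    (s := Set.Icc (-|x|) |x|) (C := K * |x| ^ n) (x := 0) (y := x)
    (fun y hy => (hd y ((abs_le.2 hy).trans hx)).hasDerivWithinAt)
    (fun y hy => by
      rw [Real.norm_eq_abs]
      refine (hb y ((abs_le.2 hy).trans hx)).trans ?_
      exact mul_le_mul_of_nonneg_left (pow_le_pow_left₀ (abs_nonneg y) (abs_le.2 hy) n) hK)
    (convex_Icc _ _) ⟨by linarith [abs_nonneg x], abs_nonneg x⟩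
    ⟨neg_abs_le x, le_abs_self x⟩
  rw [h0, sub_zero, sub_zero, Real.norm_eq_abs, Real.norm_eq_abs] at key
  rw [pow_succ, ← mul_assoc]
  exact key

/-- second order expansion of a power -/
private theorem BNoise3_taylor (s : ℝ) : ∀ t : ℝ, |t| ≤ 1 / 2 →
    |(1 + t) ^ s - 1 - s * t - s * (s - 1) / 2 * t ^ 2| ≤
      |s * (s - 1) * (s - 2)| * 2 ^ |s - 3| * |t| ^ 3 := by
  set K : ℝ := |s * (s - 1) * (s - 2)| * 2 ^ |s - 3| with hKdef
  have hK : 0 ≤ K := by positivity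
  have hder : ∀ (r : ℝ) (x : ℝ), |x| ≤ 1 / 2 →
      HasDerivAt (fun t : ℝ => (1 + t) ^ r) (r * (1 + x) ^ (r - 1)) x := by
    intro r x hx
    have hx1 := (abs_le.1 hx).1
    have h1 : HasDerivAt (fun t : ℝ => 1 + t) 1 x := (hasDerivAt_id x).const_add 1
    have h2 := h1.rpow_const (p := r) (Or.inl (by linarith : (1 + x : ℝ) ≠ 0) )
    refine h2.congr_deriv ?_
    ring
  have s3 : ∀ x : ℝ, |x| ≤ 1 / 2 → |s * (s - 1) * ((s - 2) * (1 + x) ^ (s - 2 - 1))| ≤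
      K * |x| ^ 0 := by
    intro x hx
    have hx1 := abs_le.1 hx
    have hp : 0 < 1 + x := by linarith [hx1.1]
    have e1 : s * (s - 1) * ((s - 2) * (1 + x) ^ (s - 2 - 1)) =
        (s * (s - 1) * (s - 2)) * (1 + x) ^ (s - 3) := by
      rw [show s - 2 - 1 = s - 3 by ring]
      ring
    rw [e1, abs_mul, abs_of_pos (Real.rpow_pos_of_pos hp _), pow_zero, mul_one, hKdef]
    exact mul_le_mul_of_nonneg_left (BNoise3_rpow_le (by linarith [hx1.1])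
      (by linarith [hx1.2]) _) (abs_nonneg _)
  have s2 : ∀ x : ℝ, |x| ≤ 1 / 2 → |s * (s - 1) * ((1 + x) ^ (s - 2) - 1)| ≤ K * |x| ^ 1 := by
    refine BNoise3_mv (g := fun x => s * (s - 1) * ((1 + x) ^ (s - 2) - 1)) hK ?_ ?_ s3
    · simp
    · intro x hx
      exact ((hder (s - 2) x hx).sub_const 1).const_mul (s * (s - 1))
  have s1 : ∀ x : ℝ, |x| ≤ 1 / 2 →
      |s * ((1 + x) ^ (s - 1) - 1 - (s - 1) * x)| ≤ K * |x| ^ 2 := by
    refine BNoise3_mv (g := fun x => s * ((1 + x) ^ (s - 1) - 1 - (s - 1) * x)) hK ?_ ?_ s2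
    · simp
    · intro x hx
      have h1 := (((hder (s - 1) x hx).sub_const 1).sub
        ((hasDerivAt_id x).const_mul (s - 1))).const_mul s
      refine h1.congr_deriv ?_
      rw [show s - 1 - 1 = s - 2 by ring]
      ring
  refine BNoise3_mv (g := fun t => (1 + t) ^ s - 1 - s * t - s * (s - 1) / 2 * t ^ 2) hK ?_ ?_ s1
  · simp
  · intro x hx
    have h1 := ((((hder s x hx).sub_const 1).sub ((hasDerivAt_id x).const_mul s))).sub
      (((hasDerivAt_id x).pow 2).const_mul (s * (s - 1) / 2))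
    refine h1.congr_deriv ?_
    simp only [id]
    ring

private theorem BNoise3_K {rm r : ℝ} (hrm : 0 < rm) (hr : |r| ≤ rm) :
    |r / 2 * (r / 2 - 1) * (r / 2 - 2)| * 2 ^ |r / 2 - 3| ≤ (rm + 2) ^ 3 * 2 ^ (rm + 3) := by
  have hr' := abs_le.1 hr
  have h0 : |r / 2| ≤ rm + 2 := by rw [abs_le]; constructor <;> linarith
  have h1 : |r / 2 - 1| ≤ rm + 2 := by rw [abs_le]; constructor <;> linarith
  have h2 : |r / 2 - 2| ≤ rm + 2 := by rw [abs_le]; constructor <;> linarith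
  have h3 : |r / 2 - 3| ≤ rm + 3 := by rw [abs_le]; constructor <;> linarith
  have h4 : |r / 2 * (r / 2 - 1) * (r / 2 - 2)| ≤ (rm + 2) ^ 3 := by
    rw [abs_mul, abs_mul]
    calc |r / 2| * |r / 2 - 1| * |r / 2 - 2| ≤ (rm + 2) * (rm + 2) * (rm + 2) := by gcongr
      _ = (rm + 2) ^ 3 := by ring
  have h5 : (2 : ℝ) ^ |r / 2 - 3| ≤ 2 ^ (rm + 3) :=
    Real.rpow_le_rpow_of_exponent_le (by norm_num) h3
  gcongr

/-- power moments, uniform in the exponent -/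
private theorem BNoise3_pow (N : ℕ) (hN : 1 ≤ N) (rm : ℝ) (hrm : 0 < rm) :
    ∃ C h0 : ℝ, 0 < C ∧ 0 < h0 ∧ ∀ (h : ℝ) (ν : Measure (E N)), 0 < h → h < h0 → IsNoise h ν →
      ∀ e : E N, ‖e‖ = 1 → ∀ r : ℝ, |r| ≤ rm →
        |∫ ξ, ‖e + Real.sqrt h • ξ‖ ^ r ∂ν - 1 - (lamN N * r + r ^ 2 / 2) * h| ≤
          C * h ^ (9 / 8 : ℝ) := by
  obtain ⟨C0, h0, hC0, hh0, key0⟩ := taylor_t N hN 0 0 ((rm + 2) ^ 3 * 2 ^ (rm + 3))
    (by positivity)
  obtain ⟨C1, h1, hC1, hh1, key1⟩ := taylor_t N hN 1 0 0 le_rfl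
  obtain ⟨C2, h2, hC2, hh2, key2⟩ := taylor_t N hN 0 1 0 le_rfl
  refine ⟨C0 + (rm + 1) * C1 + (rm + 1) ^ 2 * C2, min (min h0 h1) (min h2 (1 / 1000)),
    by positivity, lt_min (lt_min hh0 hh1) (lt_min hh2 (by norm_num)), ?_⟩
  intro h ν hh hlt hν e he r hr
  have l0 : h < h0 := hlt.trans_le ((min_le_left _ _).trans (min_le_left _ _))
  have l1 : h < h1 := hlt.trans_le ((min_le_left _ _).trans (min_le_right _ _))
  have l2 : h < h2 := hlt.trans_le ((min_le_right _ _).trans (min_le_left _ _))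
  have l3 : h < 1 / 1000 := hlt.trans_le ((min_le_right _ _).trans (min_le_right _ _))
  have hp := hν.prob
  have hm : Measurable fun t : ℝ => (1 + t) ^ (r / 2) - 1 - r / 2 * t -
      r / 2 * (r / 2 - 1) / 2 * t ^ 2 := by
    have := (measurable_const.add measurable_id : Measurable fun t : ℝ => 1 + t).pow_const (r / 2)
    fun_prop
  have k0 := key0 h ν hh l0 hν e he (fun t : ℝ => (1 + t) ^ (r / 2) - 1 - r / 2 * t -
      r / 2 * (r / 2 - 1) / 2 * t ^ 2) hm (fun t ht => by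
    rw [zero_mul, zero_mul, sub_zero, sub_zero]
    exact (BNoise3_taylor (r / 2) t ht).trans
      (mul_le_mul_of_nonneg_right (BNoise3_K hrm hr) (by positivity)))
  have k1 := key1 h ν hh l1 hν e he (fun t => t) measurable_id (fun t _ => by
    simp)
  have k2 := key2 h ν hh l2 hν e he (fun t => t ^ 2) (measurable_id.pow_const 2) (fun t _ => by
    simp)
  have hc : Continuous fun ξ : E N => ‖e + Real.sqrt h • ξ‖ ^ 2 - 1 := by fun_prop
  have hb : ∀ᵐ ξ ∂ν, |‖e + Real.sqrt h • ξ‖ ^ 2 - 1| ≤ 1 := by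
    filter_upwards [noise_ae hh l3 hν] with ξ hξ
    obtain ⟨a1, a2⟩ := hξ.2 e he
    rw [abs_le]
    constructor <;> nlinarith
  have i1 : Integrable (fun ξ : E N => ‖e + Real.sqrt h • ξ‖ ^ 2 - 1) ν := by
    refine Integrable.of_bound hc.aestronglyMeasurable 1 ?_
    filter_upwards [hb] with ξ hξ
    rw [Real.norm_eq_abs]
    exact hξ
  have i2 : Integrable (fun ξ : E N => (‖e + Real.sqrt h • ξ‖ ^ 2 - 1) ^ 2) ν := by
    refine Integrable.of_bound (hc.pow 2).aestronglyMeasurable 1 ?_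
    filter_upwards [hb] with ξ hξ
    rw [Real.norm_eq_abs, abs_pow]
    exact pow_le_one₀ (abs_nonneg _) hξ
  have i0 : Integrable (fun ξ : E N => ‖e + Real.sqrt h • ξ‖ ^ r) ν :=
    zeta_pow_int hh l3 hν r he
  have e0 : ∫ ξ, ((1 + (‖e + Real.sqrt h • ξ‖ ^ 2 - 1)) ^ (r / 2) - 1 -
      r / 2 * (‖e + Real.sqrt h • ξ‖ ^ 2 - 1) -
      r / 2 * (r / 2 - 1) / 2 * (‖e + Real.sqrt h • ξ‖ ^ 2 - 1) ^ 2) ∂ν =
      ∫ ξ, ‖e + Real.sqrt h • ξ‖ ^ r ∂ν - 1 - r / 2 * ∫ ξ, (‖e + Real.sqrt h • ξ‖ ^ 2 - 1) ∂ν -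
        r / 2 * (r / 2 - 1) / 2 * ∫ ξ, (‖e + Real.sqrt h • ξ‖ ^ 2 - 1) ^ 2 ∂ν := by
    have e2 : ∀ ξ : E N, (1 + (‖e + Real.sqrt h • ξ‖ ^ 2 - 1)) ^ (r / 2) =
        ‖e + Real.sqrt h • ξ‖ ^ r := by
      intro ξ
      have hz : (0 : ℝ) ≤ ‖e + Real.sqrt h • ξ‖ := norm_nonneg _
      rw [show (1 : ℝ) + (‖e + Real.sqrt h • ξ‖ ^ 2 - 1) = ‖e + Real.sqrt h • ξ‖ ^ (2 : ℝ) by
        rw [Real.rpow_two]; ring, ← Real.rpow_mul hz]
      congr 1
      ring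
    simp only [e2]
    have j0 : Integrable (fun ξ : E N => ‖e + Real.sqrt h • ξ‖ ^ r - 1) ν :=
      i0.sub (integrable_const 1)
    have j1 : Integrable (fun ξ : E N => ‖e + Real.sqrt h • ξ‖ ^ r - 1 -
        r / 2 * (‖e + Real.sqrt h • ξ‖ ^ 2 - 1)) ν := j0.sub (i1.const_mul _)
    rw [integral_sub j1 (i2.const_mul _), integral_sub j0 (i1.const_mul _),
      integral_sub i0 (integrable_const 1), integral_const, probReal_univ, one_smul,
      integral_const_mul, integral_const_mul]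
  rw [e0] at k0
  set I0 := ∫ ξ, ‖e + Real.sqrt h • ξ‖ ^ r ∂ν with hI0
  set I1 := ∫ ξ, (‖e + Real.sqrt h • ξ‖ ^ 2 - 1) ∂ν with hI1
  set I2 := ∫ ξ, (‖e + Real.sqrt h • ξ‖ ^ 2 - 1) ^ 2 ∂ν with hI2
  have hid : I0 - 1 - (lamN N * r + r ^ 2 / 2) * h =
      (I0 - 1 - r / 2 * I1 - r / 2 * (r / 2 - 1) / 2 * I2 - (0 * (N : ℝ) + 4 * 0) * h) +
        r / 2 * (I1 - (1 * (N : ℝ) + 4 * 0) * h) +
        r / 2 * (r / 2 - 1) / 2 * (I2 - (0 * (N : ℝ) + 4 * 1) * h) := by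
    unfold lamN
    ring
  rw [hid]
  have hr' := abs_le.1 hr
  have hq : 0 < h ^ (9 / 8 : ℝ) := Real.rpow_pos_of_pos hh _
  have b1 : |r / 2 * (I1 - (1 * (N : ℝ) + 4 * 0) * h)| ≤ (rm + 1) * C1 * h ^ (9 / 8 : ℝ) := by
    rw [abs_mul, mul_assoc]
    have h0 : |r / 2| ≤ rm + 1 := by rw [abs_le]; constructor <;> linarith
    exact mul_le_mul h0 k1 (abs_nonneg _) (by linarith)
  have b2 : |r / 2 * (r / 2 - 1) / 2 * (I2 - (0 * (N : ℝ) + 4 * 1) * h)| ≤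
      (rm + 1) ^ 2 * C2 * h ^ (9 / 8 : ℝ) := by
    rw [abs_mul, mul_assoc]
    have h0 : |r / 2 * (r / 2 - 1) / 2| ≤ (rm + 1) ^ 2 := by
      rw [abs_div, abs_mul, abs_of_pos (by norm_num : (0 : ℝ) < 2)]
      have h1 : |r / 2| ≤ rm + 1 := by rw [abs_le]; constructor <;> linarith
      have h2 : |r / 2 - 1| ≤ rm + 1 := by rw [abs_le]; constructor <;> linarith
      have h3 : |r / 2| * |r / 2 - 1| ≤ (rm + 1) * (rm + 1) :=
        mul_le_mul h1 h2 (abs_nonneg _) (by linarith)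
      have h4 : 0 ≤ |r / 2| * |r / 2 - 1| := by positivity
      nlinarith
    exact mul_le_mul h0 k2 (abs_nonneg _) (by positivity)
  have c1 := abs_add_le ((I0 - 1 - r / 2 * I1 - r / 2 * (r / 2 - 1) / 2 * I2 -
      (0 * (N : ℝ) + 4 * 0) * h) + r / 2 * (I1 - (1 * (N : ℝ) + 4 * 0) * h))
      (r / 2 * (r / 2 - 1) / 2 * (I2 - (0 * (N : ℝ) + 4 * 1) * h))
  have c2 := abs_add_le (I0 - 1 - r / 2 * I1 - r / 2 * (r / 2 - 1) / 2 * I2 -
      (0 * (N : ℝ) + 4 * 0) * h) (r / 2 * (I1 - (1 * (N : ℝ) + 4 * 0) * h))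
  linarith

/-- comparison of the integral on good noise with the truncated noise -/
private theorem BNoise3_mgf (hN : 3 ≤ N) (rm ε : ℝ) (hrm : 0 < rm) (hε : 0 < ε) :
    ∃ h0 : ℝ, 0 < h0 ∧ ∀ h, 0 < h → h < h0 → ∀ r, |r| ≤ rm →
    ∫⁻ a in gdE hN h, ENNReal.ofReal (Real.exp (r * bE hN h a)) ∂(stdGaussian (E N)) ≤
      ENNReal.ofReal (1 + (lamN N * r + r ^ 2 / 2 + ε) * h) ∧
    ENNReal.ofReal (1 + (lamN N * r + r ^ 2 / 2 - ε) * h) ≤
      ∫⁻ a in gdE hN h, ENNReal.ofReal (Real.exp (r * bE hN h a)) ∂(stdGaussian (E N)) := by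
  obtain ⟨C, h1, hC, hh1, key⟩ := BNoise3_pow N (by omega) rm hrm
  obtain ⟨h2, hh2, hh2', ht⟩ := BNoise3_tail hN
  obtain ⟨h3, hh3, hT⟩ := nuT_noise N (by omega)
  have hε2 : 0 < ε / (2 * (C + 1)) := by positivity
  refine ⟨min (min h1 h2) (min h3 (min ((ε / (2 * (C + 1))) ^ 8) (ε / 2))),
    lt_min (lt_min hh1 hh2) (lt_min hh3 (lt_min (by positivity) (by positivity))), ?_⟩
  intro h hh hlt r hr
  have l1 : h < h1 := hlt.trans_le ((min_le_left _ _).trans (min_le_left _ _))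
  have l2 : h < h2 := hlt.trans_le ((min_le_left _ _).trans (min_le_right _ _))
  have l3 : h < h3 := hlt.trans_le ((min_le_right _ _).trans (min_le_left _ _))
  have l4' : h < min ((ε / (2 * (C + 1))) ^ 8) (ε / 2) :=
    hlt.trans_le ((min_le_right _ _).trans (min_le_right _ _))
  have l4 : h < (ε / (2 * (C + 1))) ^ 8 := l4'.trans_le (min_le_left _ _)
  have l5 : h < ε / 2 := l4'.trans_le (min_le_right _ _)
  have l6 : h < 1 / 1000 := l2.trans_le hh2'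
  have hν := hT h hh l3
  have hp := hν.prob
  have k := abs_le.1 (key h (nuT N h) hh l1 hν (e1v hN) (e1v_norm hN) r hr)
  have hcm : Measurable fun ξ : E N => ‖e1v hN + Real.sqrt h • ξ‖ :=
    (by fun_prop : Continuous fun ξ : E N => ‖e1v hN + Real.sqrt h • ξ‖).measurable
  have hφ : Measurable fun ξ : E N => ENNReal.ofReal (‖e1v hN + Real.sqrt h • ξ‖ ^ r) :=
    (hcm.pow_const r).ennreal_ofReal
  have hs := BNoise3_split hN hh l6 hφ
  have e0 : ENNReal.ofReal (‖e1v hN + Real.sqrt h • (0 : E N)‖ ^ r) = 1 := by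
    rw [smul_zero, add_zero, e1v_norm, Real.one_rpow, ENNReal.ofReal_one]
  have e1 : ∫⁻ ξ, ENNReal.ofReal (‖e1v hN + Real.sqrt h • ξ‖ ^ r) ∂(nuT N h) =
      ENNReal.ofReal (∫ ξ, ‖e1v hN + Real.sqrt h • ξ‖ ^ r ∂(nuT N h)) :=
    (ofReal_integral_eq_lintegral_ofReal (zeta_pow_int hh l6 hν r (e1v_norm hN))
      (Filter.Eventually.of_forall fun ξ => Real.rpow_nonneg (norm_nonneg _) _)).symm
  have e2 : ∫⁻ ζ in gdE hN h, ENNReal.ofReal (‖e1v hN + Real.sqrt h • ζ‖ ^ r)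
        ∂(stdGaussian (E N)) =
      ∫⁻ ζ in gdE hN h, ENNReal.ofReal (Real.exp (r * bE hN h ζ)) ∂(stdGaussian (E N)) := by
    refine setLIntegral_congr_fun (measurable_gdE hN h) fun ζ hζ => ?_
    have h0 : 0 < ‖e1v hN + Real.sqrt h • ζ‖ := norm_pos_iff.2 hζ.1
    rw [Real.rpow_def_of_pos h0, mul_comm]
    rfl
  rw [e0, e1, e2, one_mul] at hs
  have hq : 0 < h ^ (1 / 8 : ℝ) := Real.rpow_pos_of_pos hh _
  have h98 : h ^ (9 / 8 : ℝ) = h * h ^ (1 / 8 : ℝ) := by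
    rw [show (9 / 8 : ℝ) = 1 + 1 / 8 by norm_num, Real.rpow_add hh, Real.rpow_one]
  have h18 : h ^ (1 / 8 : ℝ) ≤ ε / (2 * (C + 1)) := by
    have := Real.rpow_le_rpow hh.le l4.le (by norm_num : (0 : ℝ) ≤ 1 / 8)
    refine this.trans (le_of_eq ?_)
    rw [← Real.rpow_natCast, ← Real.rpow_mul hε2.le]
    norm_num
  have hCe : C * h ^ (9 / 8 : ℝ) ≤ ε / 2 * h := by
    rw [h98]
    have h7 : (C + 1) * h ^ (1 / 8 : ℝ) ≤ ε / 2 := by
      calc (C + 1) * h ^ (1 / 8 : ℝ) ≤ (C + 1) * (ε / (2 * (C + 1))) :=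
            mul_le_mul_of_nonneg_left h18 (by linarith)
        _ = ε / 2 := by field_simp
    have h8 : C * h ^ (1 / 8 : ℝ) ≤ ε / 2 := by nlinarith
    calc C * (h * h ^ (1 / 8 : ℝ)) = (C * h ^ (1 / 8 : ℝ)) * h := by ring
      _ ≤ ε / 2 * h := mul_le_mul_of_nonneg_right h8 hh.le
  have hh3' : h ^ 3 ≤ ε / 2 * h := by
    have h9 : h ^ 3 = h * h * h := by ring
    have h10 : h * h ≤ ε / 2 := by nlinarith
    rw [h9]
    exact mul_le_mul_of_nonneg_right h10 hh.le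
  constructor
  · calc ∫⁻ a in gdE hN h, ENNReal.ofReal (Real.exp (r * bE hN h a)) ∂(stdGaussian (E N))
        ≤ ENNReal.ofReal (∫ ξ, ‖e1v hN + Real.sqrt h • ξ‖ ^ r ∂(nuT N h)) := by
          rw [hs]
          exact le_self_add
      _ ≤ _ := by
          refine ENNReal.ofReal_le_ofReal ?_
          have := k.2
          nlinarith
  · have hA : ENNReal.ofReal (∫ ξ, ‖e1v hN + Real.sqrt h • ξ‖ ^ r ∂(nuT N h)) ≤
        ∫⁻ a in gdE hN h, ENNReal.ofReal (Real.exp (r * bE hN h a)) ∂(stdGaussian (E N)) +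
          ENNReal.ofReal (h ^ 3) := by
      rw [hs]
      exact add_le_add le_rfl (ht h hh l2)
    have hB : ENNReal.ofReal (∫ ξ, ‖e1v hN + Real.sqrt h • ξ‖ ^ r ∂(nuT N h) - h ^ 3) ≤
        ∫⁻ a in gdE hN h, ENNReal.ofReal (Real.exp (r * bE hN h a)) ∂(stdGaussian (E N)) := by
      rw [ENNReal.ofReal_sub _ (by positivity)]
      exact tsub_le_iff_right.2 hA
    refine le_trans (ENNReal.ofReal_le_ofReal ?_) hB
    have := k.1
    nlinarith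

private theorem BNoise3_mgf2 (hN : 3 ≤ N) : ∃ C h0 : ℝ, 0 < C ∧ 0 < h0 ∧ ∀ h, 0 < h → h < h0 →
    ∫⁻ a, ENNReal.ofReal (Real.exp (2 * bE hN h a)) ∂(stdGaussian (E N)) ≤
      ENNReal.ofReal (1 + C * h) := by
  obtain ⟨h2, hh2, hh2', ht⟩ := BNoise3_tail hN
  refine ⟨N + 1, h2, by positivity, hh2, fun h hh hlt => ?_⟩
  have l6 : h < 1 / 1000 := hlt.trans_le hh2'
  have hc : Continuous fun ξ : E N => ‖e1v hN + Real.sqrt h • ξ‖ := by fun_prop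
  have hpt : ∀ a : E N, ENNReal.ofReal (Real.exp (2 * bE hN h a)) ≤
      ENNReal.ofReal (‖e1v hN + Real.sqrt h • a‖ ^ 2) +
        (gdE hN h)ᶜ.indicator (fun _ => (1 : ℝ≥0∞)) a := by
    intro a
    rcases eq_or_ne (e1v hN + Real.sqrt h • a) 0 with h0 | h0
    · have h1 : a ∈ (gdE hN h)ᶜ := fun h2 => h2.1 h0
      rw [Set.indicator_of_mem h1]
      unfold bE
      rw [h0, norm_zero, Real.log_zero, mul_zero, Real.exp_zero, ENNReal.ofReal_one]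
      exact le_add_self
    · have h1 : 0 < ‖e1v hN + Real.sqrt h • a‖ := norm_pos_iff.2 h0
      have h3 : Real.exp (2 * bE hN h a) = ‖e1v hN + Real.sqrt h • a‖ ^ 2 := by
        unfold bE
        rw [two_mul, Real.exp_add, Real.exp_log h1, sq]
      rw [h3]
      exact le_self_add
  have hint : Integrable (fun ξ : E N => inner ℝ (e1v hN) ξ) (stdGaussian (E N)) := by
    have h1 := BNoise3_gpow N 1
    refine h1.mono' (by fun_prop : Continuous fun ξ : E N => inner ℝ (e1v hN) ξ).aestronglyMeasurable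
      (Filter.Eventually.of_forall fun ξ => ?_)
    have h3 := abs_real_inner_le_norm (e1v hN) ξ
    rw [e1v_norm, one_mul] at h3
    rw [Real.norm_eq_abs, pow_one]
    exact h3
  have hmean : ∫ ξ : E N, inner ℝ (e1v hN) ξ ∂(stdGaussian (E N)) = 0 := by
    have := integral_strongDual_stdGaussian (E := E N) (innerSL ℝ (e1v hN))
    simpa using this
  have heq : ∀ ξ : E N, ‖e1v hN + Real.sqrt h • ξ‖ ^ 2 =
      1 + 2 * Real.sqrt h * inner ℝ (e1v hN) ξ + h * ‖ξ‖ ^ 2 := by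
    intro ξ
    rw [norm_add_sq_real, e1v_norm, inner_smul_right, norm_smul, mul_pow, Real.norm_eq_abs, sq_abs,
      Real.sq_sqrt hh.le]
    ring
  have i2 := BNoise3_gpow N 2
  have hI : Integrable (fun ξ : E N => ‖e1v hN + Real.sqrt h • ξ‖ ^ 2) (stdGaussian (E N)) := by
    simp only [heq]
    exact ((integrable_const 1).add (hint.const_mul _)).add (i2.const_mul _)
  have hval : ∫ ξ : E N, ‖e1v hN + Real.sqrt h • ξ‖ ^ 2 ∂(stdGaussian (E N)) ≤ 1 + N * h := by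
    simp only [heq]
    have j1 : Integrable (fun ξ : E N => 1 + 2 * Real.sqrt h * inner ℝ (e1v hN) ξ)
        (stdGaussian (E N)) := (integrable_const 1).add (hint.const_mul _)
    rw [integral_add j1 (i2.const_mul _),
      integral_add (integrable_const 1) (hint.const_mul _), integral_const, probReal_univ,
      one_smul, integral_const_mul, integral_const_mul, hmean, mul_zero, add_zero]
    have := (gauss_noise2 N).mom
    nlinarith
  calc ∫⁻ a, ENNReal.ofReal (Real.exp (2 * bE hN h a)) ∂(stdGaussian (E N))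
      ≤ ∫⁻ a, (ENNReal.ofReal (‖e1v hN + Real.sqrt h • a‖ ^ 2) +
        (gdE hN h)ᶜ.indicator (fun _ => (1 : ℝ≥0∞)) a) ∂(stdGaussian (E N)) := lintegral_mono hpt
    _ = ∫⁻ a, ENNReal.ofReal (‖e1v hN + Real.sqrt h • a‖ ^ 2) ∂(stdGaussian (E N)) +
        stdGaussian (E N) (gdE hN h)ᶜ := by
        rw [lintegral_add_left (hc.measurable.pow_const 2).ennreal_ofReal,
          lintegral_indicator_const (measurable_gdE hN h).compl, one_mul]
    _ ≤ ENNReal.ofReal (1 + N * h) + ENNReal.ofReal (h ^ 3) := by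
        refine add_le_add ?_ (ht h hh hlt)
        rw [← ofReal_integral_eq_lintegral_ofReal hI
          (Filter.Eventually.of_forall fun ξ => by positivity)]
        exact ENNReal.ofReal_le_ofReal hval
    _ = ENNReal.ofReal (1 + N * h + h ^ 3) := by
        rw [← ENNReal.ofReal_add (by positivity) (by positivity)]
    _ ≤ ENNReal.ofReal (1 + (N + 1) * h) := by
        refine ENNReal.ofReal_le_ofReal ?_
        have h9 : h ^ 3 = h * h * h := by ring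
        have h10 : h * h ≤ 1 := by nlinarith
        have h11 : h * h * h ≤ 1 * h := mul_le_mul_of_nonneg_right h10 hh.le
        linarith

theorem bnoise3 (hN : 3 ≤ N) : BNoise N (stdGaussian (E N)) (bE hN) (gdE hN) where
  bdd := fun _ _ _ _ ha => ha.2.2
  tail := by
    obtain ⟨h0, hh0, -, ht⟩ := BNoise3_tail hN
    exact ⟨h0, hh0, ht⟩
  mgf := fun rm ε hrm hε => BNoise3_mgf hN rm ε hrm hε
  mgf2 := BNoise3_mgf2 hN

end DynC
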