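import Pool.Agent.Lib_MP_36b788c.BFam
import Pool.Agent.Lib_MP_36b788s.Rot2

/-!
# The pair system for `N ≥ 3`

Common noise `ζ`, frames: the unit vector `e1` is carried by `fr1` to the direction of the first component and by `fr2` to
the direction of the second one (`fr2 = (rotation direction 1 → direction 2) ∘ fr1`). `b = log ‖e1 + √h ζ‖`.
A zero component gets the direction `e1`.
-/

open MeasureTheory ProbabilityTheory
open scoped ENNReal

namespace DynC

open Dyn DynS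

noncomputable section

variable {N d : ℕ}

/-- first unit vector -/
def e1v (hN : 3 ≤ N) : E N := EuclideanSpace.single (⟨0, by omega⟩ : Fin N) (1 : ℝ)

open Classical in
/-- direction, `e1` for the zero vector -/
def unv (hN : 3 ≤ N) (g : E N) : E N := if g = 0 then e1v hN else uni g

/-- frame of the first component -/
def fr1 (hN : 3 ≤ N) (g : E N) : E N ≃ₗᵢ[ℝ] E N := rotQ (e1v hN) (unv hN g)

/-- frame of the second component -/
def fr2 (hN : 3 ≤ N) (g g' : E N) : E N ≃ₗᵢ[ℝ] E N := (fr1 hN g).trans (rotQ (unv hN g) (unv hN g'))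

/-- scalar noise -/
def bE (hN : 3 ≤ N) (h : ℝ) (ζ : E N) : ℝ := Real.log ‖e1v hN + Real.sqrt h • ζ‖

/-- good noise -/
def gdE (hN : 3 ≤ N) (h : ℝ) : Set (E N) :=
  {ζ | e1v hN + Real.sqrt h • ζ ≠ 0 ∧ Real.sqrt h * ‖ζ‖ ≤ h ^ (3 / 8 : ℝ) ∧
    |bE hN h ζ| ≤ 2 * h ^ (3 / 8 : ℝ)}

/-- pair step -/
def st3 (hN : 3 ≤ N) (β k h : ℝ) (L : ℕ) (G : (boxS d L → E N) × (boxS d L → E N))
    (ζ : boxS d L → E N) : (boxS d L → E N) × (boxS d L → E N) :=
  (stp (boxNet d L) β h k G.1 (fun x => fr1 hN (G.1 x) (ζ x)),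
    stp (boxNet d L) β h k G.2 (fun x => fr2 hN (G.1 x) (G.2 x) (ζ x)))

theorem e1v_norm (hN : 3 ≤ N) : ‖e1v hN‖ = 1 := by
  unfold e1v
  simp

theorem unv_norm (hN : 3 ≤ N) (g : E N) : ‖unv hN g‖ = 1 := by
  unfold unv
  split_ifs with hg
  · exact e1v_norm hN
  · exact uni_norm hg

theorem unv_smul (hN : 3 ≤ N) (g : E N) : ‖g‖ • unv hN g = g := by
  unfold unv
  split_ifs with hg
  · rw [hg, norm_zero, zero_smul]
  · have : ‖g‖ ≠ 0 := norm_ne_zero_iff.mpr hg
    unfold uni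
    rw [smul_smul, mul_one_div_cancel this, one_smul]

theorem fr1_map (hN : 3 ≤ N) (g : E N) : fr1 hN g (e1v hN) = unv hN g :=
  rotQ_map (e1v_norm hN) (unv_norm hN g)

theorem fr2_map (hN : 3 ≤ N) (g g' : E N) : fr2 hN g g' (e1v hN) = unv hN g' := by
  change rotQ (unv hN g) (unv hN g') (fr1 hN g (e1v hN)) = _
  rw [fr1_map]
  exact rotQ_map (unv_norm hN g) (unv_norm hN g')

/-- value of the hat step in terms of the common vector -/
theorem hat_frame (hN : 3 ≤ N) (β h : ℝ) (g : E N) (Q : E N ≃ₗᵢ[ℝ] E N)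
    (hQ : Q (e1v hN) = unv hN g) (ζ : E N) :
    hat β h g (Q ζ) = JV β h (‖g‖ • Q (e1v hN + Real.sqrt h • ζ)) := by
  have h1 : g + (Real.sqrt h * ‖g‖) • Q ζ = ‖g‖ • Q (e1v hN + Real.sqrt h • ζ) := by
    rw [map_add, map_smul, hQ, smul_add, unv_smul, smul_smul, mul_comm]
  change J β h (g + (Real.sqrt h * ‖g‖) • Q ζ) = _
  rw [h1]
  rfl

private theorem PS3_bexp (hN : 3 ≤ N) (h : ℝ) (ζ : E N) :
    ‖e1v hN + Real.sqrt h • ζ‖ ≤ Real.exp (bE hN h ζ) := by
  unfold bE
  rcases eq_or_ne (e1v hN + Real.sqrt h • ζ) 0 with h0 | h0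
  · rw [h0, norm_zero]
    exact (Real.exp_pos _).le
  · rw [Real.exp_log (norm_pos_iff.mpr h0)]

private theorem PS3_bexp' (hN : 3 ≤ N) (h : ℝ) {ζ : E N} (hζ : ζ ∈ gdE hN h) :
    ‖e1v hN + Real.sqrt h • ζ‖ = Real.exp (bE hN h ζ) := by
  unfold bE
  rw [Real.exp_log (norm_pos_iff.mpr hζ.1)]

theorem measurable_unv (hN : 3 ≤ N) : Measurable (unv hN : E N → E N) := by
  classical
  unfold unv
  exact Measurable.ite (measurableSet_singleton (0 : E N)) measurable_const measurable_uni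

theorem measurable_fr1 (hN : 3 ≤ N) : Measurable (fun q : E N × E N => fr1 hN q.1 q.2) := by
  have h1 : Measurable (fun q : E N × E N => ((e1v hN, unv hN q.1), q.2)) := by
    exact (measurable_const.prodMk ((measurable_unv hN).comp measurable_fst)).prodMk measurable_snd
  have h2 : Measurable (fun q : E N × E N => rotQ (e1v hN) (unv hN q.1) q.2) := by
    have h3 := measurable_rotQ.comp h1
    exact h3
  exact h2

theorem measurable_fr2 (hN : 3 ≤ N) :
    Measurable (fun q : (E N × E N) × E N => fr2 hN q.1.1 q.1.2 q.2) := by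
  have a0 : Measurable (fun q : (E N × E N) × E N => (q.1.1, q.2)) :=
    (measurable_fst.comp measurable_fst).prodMk measurable_snd
  have h0 : Measurable (fun q : (E N × E N) × E N => fr1 hN q.1.1 q.2) := by
    have h3 := (measurable_fr1 hN).comp a0
    exact h3
  have a1 : Measurable (fun q : (E N × E N) × E N => unv hN q.1.1) :=
    (measurable_unv hN).comp (measurable_fst.comp measurable_fst)
  have a2 : Measurable (fun q : (E N × E N) × E N => unv hN q.1.2) :=
    (measurable_unv hN).comp (measurable_snd.comp measurable_fst)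
  have h1 : Measurable (fun q : (E N × E N) × E N =>
      ((unv hN q.1.1, unv hN q.1.2), fr1 hN q.1.1 q.2)) := (a1.prodMk a2).prodMk h0
  have h2 : Measurable (fun q : (E N × E N) × E N =>
      rotQ (unv hN q.1.1) (unv hN q.1.2) (fr1 hN q.1.1 q.2)) := by
    have h3 := measurable_rotQ.comp h1
    exact h3
  exact h2

theorem measurable_bE (hN : 3 ≤ N) (h : ℝ) : Measurable (bE hN h) := by
  unfold bE
  have h1 : Measurable (fun ζ : E N => ‖e1v hN + Real.sqrt h • ζ‖) := by fun_prop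
  exact Real.measurable_log.comp h1

theorem measurable_gdE (hN : 3 ≤ N) (h : ℝ) : MeasurableSet (gdE hN h) := by
  have h1 : Measurable (fun ζ : E N => e1v hN + Real.sqrt h • ζ) := by fun_prop
  have s1 : MeasurableSet {ζ : E N | e1v hN + Real.sqrt h • ζ ≠ 0} :=
    (h1 (measurableSet_singleton (0 : E N))).compl
  have h2 : Measurable (fun ζ : E N => Real.sqrt h * ‖ζ‖) := by fun_prop
  have s2 : MeasurableSet {ζ : E N | Real.sqrt h * ‖ζ‖ ≤ h ^ (3 / 8 : ℝ)} :=
    measurableSet_le h2 measurable_const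
  have h3 : Measurable (fun ζ : E N => |bE hN h ζ|) := (measurable_bE hN h).abs
  have s3 : MeasurableSet {ζ : E N | |bE hN h ζ| ≤ 2 * h ^ (3 / 8 : ℝ)} :=
    measurableSet_le h3 measurable_const
  exact s1.inter (s2.inter s3)

private theorem PS3_iso (L : E N ≃ₗᵢ[ℝ] E N) : (stdGaussian (E N)).map L = stdGaussian (E N) :=
  stdGaussian_map L

theorem measurable_st3 (hN : 3 ≤ N) (β k h : ℝ) (L : ℕ) :
    Measurable fun p : ((boxS d L → E N) × (boxS d L → E N)) × (boxS d L → E N) =>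
      st3 hN β k h L p.1 p.2 := by
  have p1 : ∀ x : boxS d L,
      Measurable fun p : ((boxS d L → E N) × (boxS d L → E N)) × (boxS d L → E N) => p.1.1 x :=
    fun x => (measurable_pi_apply x).comp (measurable_fst.comp measurable_fst)
  have p2 : ∀ x : boxS d L,
      Measurable fun p : ((boxS d L → E N) × (boxS d L → E N)) × (boxS d L → E N) => p.1.2 x :=
    fun x => (measurable_pi_apply x).comp (measurable_snd.comp measurable_fst)
  have p3 : ∀ x : boxS d L,
      Measurable fun p : ((boxS d L → E N) × (boxS d L → E N)) × (boxS d L → E N) => p.2 x :=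
    fun x => (measurable_pi_apply x).comp measurable_snd
  have m1 : Measurable fun p : ((boxS d L → E N) × (boxS d L → E N)) × (boxS d L → E N) =>
      (fun x => fr1 hN (p.1.1 x) (p.2 x)) := by
    refine measurable_pi_lambda _ fun x => ?_
    have h3 := (measurable_fr1 hN).comp ((p1 x).prodMk (p3 x))
    exact h3
  have m2 : Measurable fun p : ((boxS d L → E N) × (boxS d L → E N)) × (boxS d L → E N) =>
      (fun x => fr2 hN (p.1.1 x) (p.1.2 x) (p.2 x)) := by
    refine measurable_pi_lambda _ fun x => ?_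
    have h3 := (measurable_fr2 hN).comp (((p1 x).prodMk (p2 x)).prodMk (p3 x))
    exact h3
  have q1 : Measurable fun p : ((boxS d L → E N) × (boxS d L → E N)) × (boxS d L → E N) =>
      (p.1.1, fun x => fr1 hN (p.1.1 x) (p.2 x)) := (measurable_fst.comp measurable_fst).prodMk m1
  have q2 : Measurable fun p : ((boxS d L → E N) × (boxS d L → E N)) × (boxS d L → E N) =>
      (p.1.2, fun x => fr2 hN (p.1.1 x) (p.1.2 x) (p.2 x)) :=
    (measurable_snd.comp measurable_fst).prodMk m2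
  have r1 := (measurable_stp N d β k h L).comp q1
  have r2 := (measurable_stp N d β k h L).comp q2
  have r3 := r1.prodMk r2
  exact r3

private theorem PS3_marg (β k h : ℝ) (L : ℕ) (g : boxS d L → E N)
    (Q : boxS d L → (E N ≃ₗᵢ[ℝ] E N)) :
    (Measure.pi (fun _ : boxS d L => stdGaussian (E N))).map
        (fun ω => stp (boxNet d L) β h k g (fun x => Q x (ω x))) =
      (Measure.pi (fun _ : boxS d L => stdGaussian (E N))).map
        (fun ξ => stp (boxNet d L) β h k g ξ) := by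
  have hst0 : Measurable (fun ξ : boxS d L → E N => (g, ξ)) :=
    measurable_const.prodMk measurable_id
  have hst1 := (measurable_stp N d β k h L).comp hst0
  have hst : Measurable (fun ξ : boxS d L → E N => stp (boxNet d L) β h k g ξ) := hst1
  have hp : MeasurePreserving (fun ω : boxS d L → E N => fun x => Q x (ω x))
      (Measure.pi (fun _ : boxS d L => stdGaussian (E N)))
      (Measure.pi (fun _ : boxS d L => stdGaussian (E N))) := by
    refine measurePreserving_pi _ _ fun x => ?_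
    exact ⟨(Q x).continuous.measurable, PS3_iso (Q x)⟩
  have h1 : (fun ω : boxS d L → E N => stp (boxNet d L) β h k g (fun x => Q x (ω x))) =
      (fun ξ => stp (boxNet d L) β h k g ξ) ∘ (fun ω => fun x => Q x (ω x)) := rfl
  rw [h1, ← Measure.map_map hst hp.measurable, hp.map_eq]

private theorem PS3_coup {L : ℕ} (net : Net (boxS d L) d) (G : boxS d L → E N) (x : boxS d L) :
    ‖coupV net G x‖ ≤ cpl net (nrm G) x := by
  unfold coupV cpl nrm
  refine (norm_sub_le _ _).trans ?_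
  refine add_le_add (norm_sum_le _ _) ?_
  rw [norm_smul, Real.norm_of_nonneg (Nat.cast_nonneg _)]

private theorem PS3_coup_sub {L : ℕ} (net : Net (boxS d L) d) (G G' : boxS d L → E N) (x : boxS d L) :
    coupV net G x - coupV net G' x = coupV net (fun y => G y - G' y) x := by
  unfold coupV
  rw [Finset.sum_sub_distrib, smul_sub]
  abel

private theorem PS3_u (hN : 3 ≤ N) {β k h : ℝ} (hβ : 0 < β) (hk : 0 ≤ k) (hh : 0 < h) (L : ℕ)
    (g ω : boxS d L → E N) (Q : boxS d L → (E N ≃ₗᵢ[ℝ] E N))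
    (hQ : ∀ x, Q x (e1v hN) = unv hN (g x)) (x : boxS d L) :
    nrm (stp (boxNet d L) β h k g (fun x => Q x (ω x))) x ≤
      Real.exp (bE hN h (ω x)) * nrm g x + k * h * cpl (boxNet d L) (nrm g) x := by
  have hc : ‖(k * h) • coupV (boxNet d L) g x‖ ≤ k * h * cpl (boxNet d L) (nrm g) x := by
    rw [norm_smul, Real.norm_of_nonneg (mul_nonneg hk hh.le)]
    exact mul_le_mul_of_nonneg_left (PS3_coup _ _ _) (mul_nonneg hk hh.le)
  have h1 : ‖hat β h (g x) (Q x (ω x))‖ ≤ Real.exp (bE hN h (ω x)) * nrm g x := by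
    rw [hat_frame hN β h (g x) (Q x) (hQ x), norm_JV hβ hh.le]
    refine (psi_le hβ hh.le (norm_nonneg _)).trans ?_
    rw [norm_smul, norm_norm, LinearIsometryEquiv.norm_map, mul_comm]
    exact mul_le_mul_of_nonneg_right (PS3_bexp hN h (ω x)) (norm_nonneg _)
  exact (norm_add_le _ _).trans (add_le_add h1 hc)

private theorem PS3_q (hN : 3 ≤ N) {β k h : ℝ} (hβ : 0 < β) (hk : 0 ≤ k) (hh : 0 < h) (L : ℕ)
    (g ω : boxS d L → E N) (Q : boxS d L → (E N ≃ₗᵢ[ℝ] E N))
    (hQ : ∀ x, Q x (e1v hN) = unv hN (g x)) (hω : ∀ x, ω x ∈ gdE hN h) :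
    QStep (boxNet d L) β h k (fun x => bE hN h (ω x)) (nrm g)
      (nrm (stp (boxNet d L) β h k g (fun x => Q x (ω x)))) := by
  have hc : ∀ x, ‖(k * h) • coupV (boxNet d L) g x‖ ≤ k * h * cpl (boxNet d L) (nrm g) x := by
    intro x
    rw [norm_smul, Real.norm_of_nonneg (mul_nonneg hk hh.le)]
    exact mul_le_mul_of_nonneg_left (PS3_coup _ _ _) (mul_nonneg hk hh.le)
  have hJ : ∀ x, ‖hat β h (g x) (Q x (ω x))‖ = psi β h (Real.exp (bE hN h (ω x)) * nrm g x) := by
    intro x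
    rw [hat_frame hN β h (g x) (Q x) (hQ x), norm_JV hβ hh.le, norm_smul, norm_norm,
      LinearIsometryEquiv.norm_map, PS3_bexp' hN h (hω x), mul_comm]
    rfl
  refine ⟨fun x => norm_nonneg _, fun x => norm_nonneg _, fun x => ?_, fun x => ?_⟩
  · change ‖hat β h (g x) (Q x (ω x)) + (k * h) • coupV (boxNet d L) g x‖ ≤ _
    refine (norm_add_le _ _).trans ?_
    rw [hJ]
    exact add_le_add le_rfl (hc x)
  · change _ ≤ ‖hat β h (g x) (Q x (ω x)) + (k * h) • coupV (boxNet d L) g x‖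
    have h1 := norm_sub_le (hat β h (g x) (Q x (ω x)) +
      (k * h) • coupV (boxNet d L) g x) ((k * h) • coupV (boxNet d L) g x)
    rw [add_sub_cancel_right, hJ] at h1
    have h2 := hc x
    linarith

/-- the rotated pair of vectors is at most `‖v‖` times the distance -/
private theorem PS3_dist (hN : 3 ≤ N) (g g' v : E N) :
    ‖‖g‖ • fr1 hN g v - ‖g'‖ • fr2 hN g g' v‖ ≤ ‖v‖ * ‖g - g'‖ := by
  set w := fr1 hN g v with hw
  have hwv : ‖w‖ = ‖v‖ := LinearIsometryEquiv.norm_map _ _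
  have h2 : fr2 hN g g' v = rotQ (unv hN g) (unv hN g') w := rfl
  rw [h2, ← hwv]
  set Q := rotQ (unv hN g) (unv hN g') with hQ
  have hQw : ‖Q w‖ = ‖w‖ := LinearIsometryEquiv.norm_map _ _
  have hc := rotQ_cos_le (unv_norm hN g) (unv_norm hN g') w
  rw [← hQ] at hc
  have e1 : ‖‖g‖ • w - ‖g'‖ • Q w‖ ^ 2 = ‖g‖ ^ 2 * ‖w‖ ^ 2 - 2 * (‖g‖ * ‖g'‖ * inner ℝ w (Q w)) +
      ‖g'‖ ^ 2 * ‖w‖ ^ 2 := by
    rw [norm_sub_sq_real, norm_smul, norm_smul, norm_norm, norm_norm, hQw,
      real_inner_smul_left, real_inner_smul_right]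
    ring
  have e2 : ‖g - g'‖ ^ 2 = ‖g‖ ^ 2 - 2 * (‖g‖ * ‖g'‖ * inner ℝ (unv hN g) (unv hN g')) +
      ‖g'‖ ^ 2 := by
    conv_lhs => rw [← unv_smul hN g, ← unv_smul hN g']
    rw [norm_sub_sq_real, norm_smul, norm_smul, norm_norm, norm_norm, unv_norm, unv_norm,
      real_inner_smul_left, real_inner_smul_right]
    ring
  have h3 : ‖‖g‖ • w - ‖g'‖ • Q w‖ ^ 2 ≤ (‖w‖ * ‖g - g'‖) ^ 2 := by
    rw [mul_pow, e1, e2]
    have h4 : 0 ≤ ‖g‖ * ‖g'‖ := by positivity
    have h5 := mul_le_mul_of_nonneg_left hc h4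
    nlinarith
  exact (sq_le_sq₀ (norm_nonneg _) (by positivity)).mp h3

private theorem PS3_d (hN : 3 ≤ N) {β k h : ℝ} (hβ : 0 < β) (hk : 0 ≤ k) (hh : 0 < h) (L : ℕ)
    (G : (boxS d L → E N) × (boxS d L → E N)) (ω : boxS d L → E N) :
    DStep (boxNet d L) h k (fun x => bE hN h (ω x)) (dif G.1 G.2)
      (dif (st3 hN β k h L G ω).1 (st3 hN β k h L G ω).2) := by
  refine ⟨fun x => norm_nonneg _, fun x => norm_nonneg _, fun x => ?_⟩
  change ‖(hat β h (G.1 x) (fr1 hN (G.1 x) (ω x)) + (k * h) • coupV (boxNet d L) G.1 x) -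
    (hat β h (G.2 x) (fr2 hN (G.1 x) (G.2 x) (ω x)) + (k * h) • coupV (boxNet d L) G.2 x)‖ ≤ _
  have h1 : (hat β h (G.1 x) (fr1 hN (G.1 x) (ω x)) + (k * h) • coupV (boxNet d L) G.1 x) -
    (hat β h (G.2 x) (fr2 hN (G.1 x) (G.2 x) (ω x)) + (k * h) • coupV (boxNet d L) G.2 x) =
      (hat β h (G.1 x) (fr1 hN (G.1 x) (ω x)) - hat β h (G.2 x) (fr2 hN (G.1 x) (G.2 x) (ω x))) +
      (k * h) • coupV (boxNet d L) (fun y => G.1 y - G.2 y) x := by
    rw [← PS3_coup_sub, smul_sub]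
    abel
  rw [h1]
  refine (norm_add_le _ _).trans (add_le_add ?_ ?_)
  · rw [hat_frame hN β h (G.1 x) (fr1 hN (G.1 x)) (fr1_map hN _),
      hat_frame hN β h (G.2 x) (fr2 hN (G.1 x) (G.2 x)) (fr2_map hN _ _)]
    refine (JV_nonexp hβ hh.le _ _).trans ?_
    refine (PS3_dist hN _ _ _).trans ?_
    exact mul_le_mul_of_nonneg_right (PS3_bexp hN h (ω x)) (norm_nonneg _)
  · rw [norm_smul, Real.norm_of_nonneg (mul_nonneg hk hh.le)]
    exact mul_le_mul_of_nonneg_left (PS3_coup _ _ _) (mul_nonneg hk hh.le)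

/-- pair system for `N ≥ 3` -/
def PS3 (N d : ℕ) (hN : 3 ≤ N) (β k : ℝ) (hβ : 0 < β) (hk : 0 ≤ k) :
    PSys (Fam1 N d β k) β k where
  Ωp := E N
  ν := stdGaussian (E N)
  b := bE hN
  gd := gdE hN
  st := fun h L G ζ => st3 hN β k h L G ζ
  mst := fun h L => measurable_st3 hN β k h L
  mb := measurable_bE hN
  mgd := measurable_gdE hN
  marg1 := fun h L G => PS3_marg β k h L G.1 (fun x => fr1 hN (G.1 x))
  marg2 := fun h L G => PS3_marg β k h L G.2 (fun x => fr2 hN (G.1 x) (G.2 x))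
  q1 := fun _ L G ω hh hω => PS3_q hN hβ hk hh L G.1 ω (fun x => fr1 hN (G.1 x))
    (fun _ => fr1_map hN _) hω
  q2 := fun _ L G ω hh hω => PS3_q hN hβ hk hh L G.2 ω (fun x => fr2 hN (G.1 x) (G.2 x))
    (fun _ => fr2_map hN _ _) hω
  u1 := fun _ L G ω hh x => PS3_u hN hβ hk hh L G.1 ω (fun x => fr1 hN (G.1 x))
    (fun _ => fr1_map hN _) x
  u2 := fun _ L G ω hh x => PS3_u hN hβ hk hh L G.2 ω (fun x => fr2 hN (G.1 x) (G.2 x))
    (fun _ => fr2_map hN _ _) x
  dd := fun _ L G ω hh => PS3_d hN hβ hk hh L G ω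

end

end DynC
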