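import Pool.Agent.Lib_MP_36b788c.LYit
import Pool.Agent.Lib_MP_36b788c.LYr
import Pool.Agent.Lib_MP_36b788c.ME3
import Pool.Agent.Lib_MP_36b788g.PS3
import Pool.Agent.Lib_MP_36b788g.BNoise3

/-!
# The field `ly` of a block for `N ≥ 3`

PROOF.
* `ly3`. `q0` = maximum of those of `mest3`, `ly_red`, `ly_iter`. Given `q`: `T0 = 40`, `B1, c1` from `ly_iter`. `ly_red` with `a := 1/8`, `T0 = 40`, `Ls = 0` for the systems `S k hk = PS3 …` (hypotheses from `mest3` with `a := 1/8` and `bnoise3`) gives `Ca`, and for the exchanged systems `(PS3 …).swap` (same `ν, b, gd`) gives `Ca'`. `ly_iter` for both with `a := 1/8` and `max Ca Ca'`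
  (weaken `Ca ≤ max`). `ts N k = ell k` for `N ≥ 3`. `V1 k q (1/16/ell) ² = V1 k q (2·(1/16/ell)) = V1 k q (1/8/ell)` (`V_sq`). So `∫ V1² ≤ ofReal (B1 e^{-(c1/8) T}) V1² + ofReal (8 B1 Ca) ≤ (ofReal κ' V1 + ofReal CV)²` with `κ' = √B1 e^{-(c1/16) T}`, `CV = max 1 √(8 B1 Ca)`: `B = √B1`, `c = c1/16`.
  Second component: apply it to the exchanged system at `G.swap` (`swap_tr`, `swap_alv`, `swap_V`; `S.swap.mu = S.mu`).
-/

open MeasureTheory ProbabilityTheory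
open scoped ENNReal

namespace DynG

open Dyn DynC

private theorem FLy_sq (B1 c1 Ca T CV : ℝ) (hB : 0 ≤ B1) (hCV : 0 ≤ CV)
    (h : B1 * Ca / (1 / 8) ≤ CV ^ 2) (v : ℝ≥0∞) :
    ENNReal.ofReal (B1 * Real.exp (-(c1 * (1 / 8) * T))) * v ^ 2 +
        ENNReal.ofReal (B1 * Ca / (1 / 8)) ≤
      (ENNReal.ofReal (Real.sqrt B1 * Real.exp (-(c1 / 16 * T))) * v + ENNReal.ofReal CV) ^ 2 := by
  have e1 : B1 * Real.exp (-(c1 * (1 / 8) * T)) =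
      (Real.sqrt B1 * Real.exp (-(c1 / 16 * T))) ^ 2 := by
    rw [mul_pow, Real.sq_sqrt hB, ← Real.exp_nat_mul]
    congr 2
    push_cast
    ring
  have e2 : ENNReal.ofReal (B1 * Real.exp (-(c1 * (1 / 8) * T))) * v ^ 2 =
      (ENNReal.ofReal (Real.sqrt B1 * Real.exp (-(c1 / 16 * T))) * v) ^ 2 := by
    rw [e1, ENNReal.ofReal_pow (by positivity), mul_pow]
  have e3 : ENNReal.ofReal (B1 * Ca / (1 / 8)) ≤ ENNReal.ofReal CV ^ 2 := by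
    rw [← ENNReal.ofReal_pow hCV]
    exact ENNReal.ofReal_le_ofReal h
  rw [e2]
  refine (add_le_add le_rfl e3).trans ?_
  rw [add_sq]
  exact add_le_add le_self_add le_rfl

/-- one component, any pair system on the family -/
private theorem FLy_one {N d : ℕ} {β q B1 c1 Ca CV T : ℝ} (hN : 3 ≤ N) (hB1 : 0 ≤ B1)
    (hCV : 0 ≤ CV) (hC : B1 * Ca / (1 / 8) ≤ CV ^ 2)
    (S : ∀ k, 0 < k → PSys (Fam1 N d β k) β k)
    (H : ∃ k0 : ℝ, 0 < k0 ∧ k0 < 1 ∧ ∀ (k : ℝ) (hk : 0 < k), k < k0 →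
      ∀ L : ℕ, 0 ≤ L → ∃ h0 : ℝ, 0 < h0 ∧ ∀ h, 0 < h → h < h0 →
      ∀ (G : (boxS d L → (Fam1 N d β k).V) × (boxS d L → (Fam1 N d β k).V)) (x : boxS d L),
        ∫⁻ ω in (S k hk).alv h L G ⌈T * ts N k / h⌉₊,
            V1 k q ((1 / 8) / ell k) ((S k hk).tr h L G ω ⌈T * ts N k / h⌉₊) x
            ∂(PI ((S k hk).mu L)) ≤
          ENNReal.ofReal (B1 * Real.exp (-(c1 * (1 / 8) * T))) * V1 k q ((1 / 8) / ell k) G x +
            ENNReal.ofReal (B1 * Ca / (1 / 8))) :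
    ∃ k0 : ℝ, 0 < k0 ∧ k0 < 1 ∧ ∀ (k : ℝ) (hk : 0 < k), k < k0 → ∀ L : ℕ,
    ∃ h0 : ℝ, 0 < h0 ∧ ∀ h, 0 < h → h < h0 →
    ∀ (G : (boxS d L → (Fam1 N d β k).V) × (boxS d L → (Fam1 N d β k).V)) (x : boxS d L),
      ∫⁻ ω in (S k hk).alv h L G ⌈T * ell k / h⌉₊,
          V1 k q (1 / 16 / ell k) ((S k hk).tr h L G ω ⌈T * ell k / h⌉₊) x ^ 2
          ∂(PI ((S k hk).mu L)) ≤
        (ENNReal.ofReal (Real.sqrt B1 * Real.exp (-(c1 / 16 * T))) * V1 k q (1 / 16 / ell k) G x +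
          ENNReal.ofReal CV) ^ 2 := by
  obtain ⟨k0, hk0, hk01, H⟩ := H
  refine ⟨k0, hk0, hk01, fun k hk hkk L => ?_⟩
  obtain ⟨h0, hh0, H⟩ := H k hk hkk L (Nat.zero_le L)
  refine ⟨h0, hh0, fun h hh hlt G x => ?_⟩
  have H2 := H h hh hlt G x
  have hts : ts N k = ell k := by
    unfold ts
    rw [if_neg (by omega)]
  rw [hts] at H2
  have hs : 2 * (1 / 16 / ell k) = (1 / 8) / ell k := by ring
  have e : ∀ G' : (boxS d L → (Fam1 N d β k).V) × (boxS d L → (Fam1 N d β k).V),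
      V1 k q (1 / 16 / ell k) G' x ^ 2 = V1 k q ((1 / 8) / ell k) G' x := by
    intro G'
    rw [(V_sq k q (1 / 16 / ell k) G' x).1, hs]
  have e2 : ∫⁻ ω in (S k hk).alv h L G ⌈T * ell k / h⌉₊,
          V1 k q (1 / 16 / ell k) ((S k hk).tr h L G ω ⌈T * ell k / h⌉₊) x ^ 2
          ∂(PI ((S k hk).mu L)) =
      ∫⁻ ω in (S k hk).alv h L G ⌈T * ell k / h⌉₊,
          V1 k q ((1 / 8) / ell k) ((S k hk).tr h L G ω ⌈T * ell k / h⌉₊) x
          ∂(PI ((S k hk).mu L)) := by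
    refine lintegral_congr fun ω => ?_
    exact e _
  rw [e2]
  refine H2.trans ?_
  rw [← e G]
  exact FLy_sq B1 c1 Ca T CV hB1 hCV hC _

/-- back from the exchanged system -/
private theorem FLy_two {d : ℕ} {F : Fam d} {β k : ℝ} (S : PSys F β k) (h : ℝ) (L n : ℕ)
    (q s : ℝ) (A B : ℝ≥0∞) (G : (boxS d L → F.V) × (boxS d L → F.V)) (x : boxS d L)
    (K : ∫⁻ ω in S.swap.alv h L G.swap n, V1 k q s (S.swap.tr h L G.swap ω n) x ^ 2
        ∂(PI (S.swap.mu L)) ≤ (A * V1 k q s G.swap x + B) ^ 2) :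
    ∫⁻ ω in S.alv h L G n, V2 k q s (S.tr h L G ω n) x ^ 2 ∂(PI (S.mu L)) ≤
      (A * V2 k q s G x + B) ^ 2 := by
  rw [swap_alv, Prod.swap_swap, (swap_V k q s G x).1] at K
  have e : ∀ ω : ℕ → boxS d L → S.Ωp,
      V1 k q s (S.swap.tr h L G.swap ω n) x = V2 k q s (S.tr h L G ω n) x := by
    intro ω
    rw [swap_tr, Prod.swap_swap]
    exact (swap_V k q s _ x).1
  have e2 : ∫⁻ ω in S.alv h L G n, V1 k q s (S.swap.tr h L G.swap ω n) x ^ 2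
        ∂(PI (S.swap.mu L)) =
      ∫⁻ ω in S.alv h L G n, V2 k q s (S.tr h L G ω n) x ^ 2 ∂(PI (S.mu L)) := by
    refine lintegral_congr fun ω => ?_
    rw [e ω]
  exact e2.symm.le.trans K

theorem ly3 (N d : ℕ) (hN : 3 ≤ N) (β : ℝ) (hβ : 0 < β) : ∃ q0 : ℝ, 1 ≤ q0 ∧
    ∀ q, q0 ≤ q → ∃ B c CV : ℝ, 1 ≤ B ∧ 0 < c ∧ 1 ≤ CV ∧ ∀ T : ℝ, 80 ≤ T →
    ∃ k0 : ℝ, 0 < k0 ∧ k0 < 1 ∧ ∀ (k : ℝ) (hk : 0 < k), k < k0 → ∀ L : ℕ,
    ∃ h0 : ℝ, 0 < h0 ∧ ∀ h, 0 < h → h < h0 →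
    ∀ (G : (boxS d L → E N) × (boxS d L → E N)) (x : boxS d L),
      ∫⁻ ω in (PS3 N d hN β k hβ hk.le).alv h L G ⌈T * ell k / h⌉₊,
          V1 k q (1 / 16 / ell k)
            ((PS3 N d hN β k hβ hk.le).tr h L G ω ⌈T * ell k / h⌉₊) x ^ 2
          ∂(PI ((PS3 N d hN β k hβ hk.le).mu L)) ≤
        (ENNReal.ofReal (B * Real.exp (-(c * T))) * V1 k q (1 / 16 / ell k) G x +
          ENNReal.ofReal CV) ^ 2 ∧
      ∫⁻ ω in (PS3 N d hN β k hβ hk.le).alv h L G ⌈T * ell k / h⌉₊,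
          V2 k q (1 / 16 / ell k)
            ((PS3 N d hN β k hβ hk.le).tr h L G ω ⌈T * ell k / h⌉₊) x ^ 2
          ∂(PI ((PS3 N d hN β k hβ hk.le).mu L)) ≤
        (ENNReal.ofReal (B * Real.exp (-(c * T))) * V2 k q (1 / 16 / ell k) G x +
          ENNReal.ofReal CV) ^ 2 := by
  obtain ⟨q1, hq1, H1⟩ := mest3 N d β hN hβ
  obtain ⟨q2, hq2, H2⟩ := ly_red N d β (by omega) hβ
  obtain ⟨q3, hq3, H3⟩ := ly_iter N d β (by omega) hβ
  refine ⟨max q1 (max q2 q3), le_max_of_le_left hq1, fun q hq => ?_⟩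
  have l1 : q1 ≤ q := (le_max_left _ _).trans hq
  have l2 : q2 ≤ q := ((le_max_left _ _).trans (le_max_right _ _)).trans hq
  have l3 : q3 ≤ q := ((le_max_right _ _).trans (le_max_right _ _)).trans hq
  obtain ⟨B1, c1, hB1, hc1, H3⟩ := H3 q l3 40 (by norm_num)
  set S : ∀ k, 0 < k → PSys (Fam1 N d β k) β k := fun k hk => PS3 N d hN β k hβ hk.le with hS
  have hBN : ∀ k hk, BNoise N (S k hk).ν (S k hk).b (S k hk).gd := fun k hk => bnoise3 hN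
  have hBN' : ∀ k hk, BNoise N (S k hk).swap.ν (S k hk).swap.b (S k hk).swap.gd :=
    fun k hk => bnoise3 hN
  have hM := H1 q l1 (1 / 8) (by norm_num) le_rfl S hBN
  have hM' := H1 q l1 (1 / 8) (by norm_num) le_rfl (fun k hk => (S k hk).swap) hBN'
  obtain ⟨Ca, ka, hCa, hka, hka1, R⟩ := H2 q l2 (1 / 8) 40 0 (by norm_num) le_rfl (by norm_num)
    (fun k => Fam1 N d β k) S hBN (by
      intro M hM1
      obtain ⟨M0, Md, ε0, k0, hε0, hk0, hk01, h⟩ := hM M hM1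
      exact ⟨M0, Md, ε0, k0, hε0, hk0, hk01, fun k hk hkk L _ => h k hk hkk L⟩)
  obtain ⟨Ca', ka', hCa', hka', hka1', R'⟩ := H2 q l2 (1 / 8) 40 0 (by norm_num) le_rfl
    (by norm_num) (fun k => Fam1 N d β k) (fun k hk => (S k hk).swap) hBN' (by
      intro M hM1
      obtain ⟨M0, Md, ε0, k0, hε0, hk0, hk01, h⟩ := hM' M hM1
      exact ⟨M0, Md, ε0, k0, hε0, hk0, hk01, fun k hk hkk L _ => h k hk hkk L⟩)
  have hB0 : (0 : ℝ) ≤ B1 := by linarith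
  set CV : ℝ := max 1 (max (Real.sqrt (B1 * Ca / (1 / 8))) (Real.sqrt (B1 * Ca' / (1 / 8))))
    with hCVdef
  have hCV : 1 ≤ CV := le_max_left _ _
  have hCV0 : 0 ≤ CV := by linarith
  have hC1 : B1 * Ca / (1 / 8) ≤ CV ^ 2 := by
    have h1 : Real.sqrt (B1 * Ca / (1 / 8)) ≤ CV :=
      (le_max_left _ _).trans (le_max_right _ _)
    exact (Real.sqrt_le_left hCV0).1 h1
  have hC2 : B1 * Ca' / (1 / 8) ≤ CV ^ 2 := by
    have h1 : Real.sqrt (B1 * Ca' / (1 / 8)) ≤ CV :=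
      (le_max_right _ _).trans (le_max_right _ _)
    exact (Real.sqrt_le_left hCV0).1 h1
  refine ⟨Real.sqrt B1, c1 / 16, CV, ?_, by positivity, hCV, fun T hT => ?_⟩
  · rw [Real.one_le_sqrt]
    exact hB1
  have I1 := H3 (1 / 8) Ca 0 (by norm_num) le_rfl hCa.le (fun k => Fam1 N d β k) S hBN
    ⟨ka, hka, hka1, R⟩ T (by linarith)
  have I2 := H3 (1 / 8) Ca' 0 (by norm_num) le_rfl hCa'.le (fun k => Fam1 N d β k)
    (fun k hk => (S k hk).swap) hBN' ⟨ka', hka', hka1', R'⟩ T (by linarith)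
  obtain ⟨k0, hk0, hk01, J1⟩ := FLy_one hN hB0 hCV0 hC1 S I1
  obtain ⟨k0', hk0', hk01', J2⟩ := FLy_one hN hB0 hCV0 hC2 (fun k hk => (S k hk).swap) I2
  refine ⟨min k0 k0', lt_min hk0 hk0', (min_le_left _ _).trans_lt hk01, fun k hk hkk L => ?_⟩
  obtain ⟨h0, hh0, J1⟩ := J1 k hk (hkk.trans_le (min_le_left _ _)) L
  obtain ⟨h0', hh0', J2⟩ := J2 k hk (hkk.trans_le (min_le_right _ _)) L
  refine ⟨min h0 h0', lt_min hh0 hh0', fun h hh hlt G x => ⟨?_, ?_⟩⟩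
  · exact J1 h hh (hlt.trans_le (min_le_left _ _)) G x
  · have K := J2 h hh (hlt.trans_le (min_le_right _ _)) G.swap x
    exact FLy_two (S k hk) h L _ q _ _ _ G x K

end DynG
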