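import Pool.Agent.Lib_MP_36b788g.FNum
import Pool.Agent.Lib_MP_36b788g.FGood
import Pool.Agent.Lib_MP_36b788g.FLy
import Pool.Agent.Lib_MP_36b788g.FGv
import Pool.Agent.Lib_MP_36b788g.Core3
import Pool.Agent.Lib_MP_36b788c.Obe3c
import Pool.Agent.Lib_MP_36b788c.Mom2
import Pool.Agent.Lib_MP_36b788c.BLink1

/-!
# Mixing for `N ≥ 3` and small `k > 0`

PROOF of `large_N3`. `q` = maximum of `1` and the `q0` of `gc3_core`, `ly3`, `gv3`. `s1, c5, C5` of `gc3_core`; `B, c, CV` of `ly3` at `q`; `CD, a0` of `gd3`. `a = min (a0/2) (s1/2) (c/CD) (c5/(16 C5 CD)) …` (`≤ 1`). `cd` of `cd_box`. `fin_num` gives `T, M, K, Rb`. `gc3_core` at `q, M, T, Rb` gives `cc, k0`.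
For `k` small: `S = PS3 N d hN β k hβ hk.le`, `s = 1/16/ell k`, `θ = a/ell k`, `TB = T ell k`, `BD = exp(CD a T)` (`√BD = exp(CD a T/2)`), `BV = 2`, `κ' = B exp(-(c T))`, `Ls = 0`, `p = k^cc`, `γ = k^(c5 T - C5 M)`, `γ^θ = exp(-(a (c5 T - C5 M)))`.
Conditions on `k`: `ell k ≥ max 1 q …` (`4 q s ≤ 1`, `θ ≤ 1/2`), `k^(1/4) 2^(q-1) ≤ 1` (`V_one_pair`), `256 CV cd (2Rb+1)^d √BD k^(cc/4) ≤ 1`, all `k0`.
Fields of `Blk`: `exit` = `exit_bd`, `sum` = `lin_sum`, `gD` = `gd3` (restricting the integral to `alv` decreases it), `gV` = `gv3`, `ly` = `ly3`, `good` = `good_field` with `pot_of_wpr` and `gc3_core` for `n = ⌈T ell/h⌉₊` (`T ell ≤ n h ≤ T ell + h`), `hcd` = `cd_box`, `num` from `fin_num`: `8 √BD CV cd²/K = 1/8`, `4 √BD κ' cd ≤ 1/8`.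
`k^(-s) = e^{1/16} ≤ 11/10`. `mom_unif`, `mix_of_blk`, `link1`. Finally `k1` = half of the minimum of the bounds.
-/

open MeasureTheory ProbabilityTheory
open scoped ENNReal

namespace DynG

open Dyn DynC

private theorem Fin3_rpow_small (C ε : ℝ) (hC : 0 < C) (hε : 0 < ε) : ∃ k1 : ℝ, 0 < k1 ∧
    ∀ k, 0 < k → k ≤ k1 → C * k ^ ε ≤ 1 := by
  refine ⟨(1 / C) ^ (1 / ε), Real.rpow_pos_of_pos (by positivity) _, fun k hk hk1 => ?_⟩
  have h1 : k ^ ε ≤ ((1 / C) ^ (1 / ε)) ^ ε := Real.rpow_le_rpow hk.le hk1 hε.le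
  rw [← Real.rpow_mul (by positivity), one_div_mul_cancel hε.ne', Real.rpow_one] at h1
  calc C * k ^ ε ≤ C * (1 / C) := mul_le_mul_of_nonneg_left h1 hC.le
    _ = 1 := by field_simp

private theorem Fin3_ell_large (X : ℝ) : ∃ k1 : ℝ, 0 < k1 ∧ ∀ k, 0 < k → k ≤ k1 → X ≤ ell k := by
  refine ⟨Real.exp (-X), Real.exp_pos _, fun k hk hk1 => ?_⟩
  unfold ell
  rw [one_div, Real.log_inv]
  have h1 : Real.log k ≤ -X := by
    rw [← Real.log_exp (-X)]
    exact Real.log_le_log hk hk1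
  linarith

private theorem Fin3_rpow_theta (k a X : ℝ) (hk : 0 < k) (hl : 0 < ell k) :
    (k ^ X) ^ (a / ell k) = Real.exp (-(a * X)) := by
  rw [← Real.rpow_mul hk.le, Real.rpow_def_of_pos hk]
  congr 1
  have h1 : Real.log k = -ell k := by
    unfold ell
    rw [one_div, Real.log_inv, neg_neg]
  rw [h1]
  field_simp

theorem blk3 (N d : ℕ) (hN : 3 ≤ N) (β : ℝ) (hβ : 0 < β) : ∃ q a T BV cd K CD B c CV k1 : ℝ,
    0 < k1 ∧ k1 < 1 ∧ ∀ (k : ℝ) (hk : 0 < k), k ≤ k1 →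
    Blk (PS3 N d hN β k hβ hk.le) q (1 / 16 / ell k) a (a / ell k) (T * ell k)
      (Real.exp (CD * a * T)) BV (B * Real.exp (-(c * T))) CV K cd 0 := by
  obtain ⟨qG, s1, c5, C5, hqG, hs1, hc5, hC5, HG⟩ := gc3_core N d hN β hβ
  obtain ⟨qL, hqL, HL⟩ := ly3 N d hN β hβ
  obtain ⟨qV, hqV, HV⟩ := gv3 N d β (by omega) hβ
  obtain ⟨q, hq1, hqG', hqL', hqV'⟩ : ∃ q : ℝ, 1 ≤ q ∧ qG ≤ q ∧ qL ≤ q ∧ qV ≤ q :=
    ⟨max qG (max qL qV), hqG.trans (le_max_left _ _), le_max_left _ _,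
      (le_max_left _ _).trans (le_max_right _ _), (le_max_right _ _).trans (le_max_right _ _)⟩
  obtain ⟨B, c, CV, hB, hc, hCV, HL⟩ := HL q hqL'
  obtain ⟨CD, a0, hCD, ha0, HD⟩ := gd3 N d β hβ
  obtain ⟨a, ha, haa, has, hac, hac5⟩ : ∃ a : ℝ, 0 < a ∧ a ≤ a0 ∧ 2 * a ≤ s1 ∧ CD * a ≤ c ∧
      16 * C5 * CD * a ≤ c5 := by
    refine ⟨min (min a0 (s1 / 2)) (min (c / CD) (c5 / (16 * C5 * CD))), ?_, ?_, ?_, ?_, ?_⟩
    · refine lt_min (lt_min ha0 (by positivity)) (lt_min (by positivity) (by positivity))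
    · exact (min_le_left _ _).trans (min_le_left _ _)
    · have := (min_le_left (min a0 (s1 / 2)) (min (c / CD) (c5 / (16 * C5 * CD)))).trans
        (min_le_right _ _)
      linarith
    · have := (min_le_right (min a0 (s1 / 2)) (min (c / CD) (c5 / (16 * C5 * CD)))).trans
        (min_le_left _ _)
      rw [le_div_iff₀ hCD] at this
      linarith
    · have := (min_le_right (min a0 (s1 / 2)) (min (c / CD) (c5 / (16 * C5 * CD)))).trans
        (min_le_right _ _)
      rw [le_div_iff₀ (by positivity)] at this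
      linarith
  obtain ⟨cd, hcd1, hcd⟩ := cd_box d a ha
  obtain ⟨T, M, K, Rb, hT, hM, hK, hKe, hKM, n3, n4, n5, n6⟩ :=
    fin_num d CD c c5 C5 a B cd CV hCD hc hc5 hC5 ha hac hac5 hB hcd1 hCV
  obtain ⟨cc, kG, hcc, hkG, hkG1, HG⟩ := HG q hqG' M T Rb hM (by linarith)
  obtain ⟨kL, hkL, hkL1, HL⟩ := HL T hT
  obtain ⟨kV, hkV, hkV1, HV⟩ := HV q hqV' T (by linarith)
  obtain ⟨kD, hkD, hkD1, HD⟩ := HD T (by linarith)
  obtain ⟨kE, hkE, HE⟩ := Fin3_ell_large (max 1 (max q (2 * a)))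
  obtain ⟨kQ, hkQ, HQ⟩ := Fin3_rpow_small ((2 : ℝ) ^ (q - 1)) (1 / 4) (by positivity) (by norm_num)
  obtain ⟨kP, hkP, HP⟩ := Fin3_rpow_small
    (256 * CV * cd * (2 * (Rb : ℝ) + 1) ^ d * Real.exp (CD * a * T / 2)) (cc / 4)
    (by positivity) (by positivity)
  have hbn : ∀ (k : ℝ) (hk : 0 < k), BNoise N (PS3 N d hN β k hβ hk.le).ν
      (PS3 N d hN β k hβ hk.le).b (PS3 N d hN β k hβ hk.le).gd := fun k hk => bnoise3 hN
  refine ⟨q, a, T, 2, cd, K, CD, B, c, CV,
    min (min (kG / 2) (min (kL / 2) (kV / 2))) (min (min (kD / 2) kE) (min kQ kP)), ?_, ?_, ?_⟩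
  · refine lt_min (lt_min (by positivity) (lt_min (by positivity) (by positivity)))
      (lt_min (lt_min (by positivity) hkE) (lt_min hkQ hkP))
  · refine lt_of_le_of_lt ((min_le_left _ _).trans (min_le_left _ _)) ?_
    linarith
  intro k hk hkk
  have e1 := hkk.trans ((min_le_left _ _).trans (min_le_left _ _))
  have e2 := hkk.trans ((min_le_left _ _).trans ((min_le_right _ _).trans (min_le_left _ _)))
  have e3 := hkk.trans ((min_le_left _ _).trans ((min_le_right _ _).trans (min_le_right _ _)))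
  have e4 := hkk.trans ((min_le_right _ _).trans ((min_le_left _ _).trans (min_le_left _ _)))
  have e5 := hkk.trans ((min_le_right _ _).trans ((min_le_left _ _).trans (min_le_right _ _)))
  have e6 := hkk.trans ((min_le_right _ _).trans ((min_le_right _ _).trans (min_le_left _ _)))
  have e7 := hkk.trans ((min_le_right _ _).trans ((min_le_right _ _).trans (min_le_right _ _)))
  have hkG' : k < kG := by linarith
  have hkL' : k < kL := by linarith
  have hkV' : k < kV := by linarith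
  have hkD' : k < kD := by linarith
  have hk1 : k < 1 := by linarith
  have hE := HE k hk e5
  have hE1 : 1 ≤ ell k := (le_max_left _ _).trans hE
  have hEq : q ≤ ell k := (le_max_left _ _).trans ((le_max_right _ _).trans hE)
  have hEa : 2 * a ≤ ell k := (le_max_right _ _).trans ((le_max_right _ _).trans hE)
  have hl : 0 < ell k := by linarith
  have hQ := HQ k hk e6
  have hP := HP k hk e7
  have hs : 0 < 1 / 16 / ell k := by positivity
  have hθ : 0 < a / ell k := by positivity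
  have hTB : 0 < T * ell k := by positivity
  have hqs : 4 * q * (1 / 16 / ell k) ≤ 1 := by
    have : 4 * q * (1 / 16 / ell k) = (q / 4) / ell k := by ring
    rw [this, div_le_one hl]
    linarith
  have hsq : Real.sqrt (Real.exp (CD * a * T)) = Real.exp (CD * a * T / 2) := by
    rw [Real.sqrt_eq_iff_mul_self_eq (Real.exp_pos _).le (Real.exp_pos _).le, ← Real.exp_add]
    congr 1
    ring
  have hBD : 1 ≤ Real.exp (CD * a * T) := Real.one_le_exp (by positivity)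
  have hκ : 0 ≤ B * Real.exp (-(c * T)) := by positivity
  have hnh : ∀ h : ℝ, 0 < h → h < 1 → T * ell k ≤ (⌈T * ell k / h⌉₊ : ℝ) * h ∧
      (⌈T * ell k / h⌉₊ : ℝ) * h ≤ T * ell k + 1 := by
    intro h hh hh1
    have a1 : T * ell k / h ≤ (⌈T * ell k / h⌉₊ : ℝ) := Nat.le_ceil _
    have a2 : (⌈T * ell k / h⌉₊ : ℝ) < T * ell k / h + 1 := Nat.ceil_lt_add_one (by positivity)
    constructor
    · rw [div_le_iff₀ hh] at a1
      exact a1
    · have a3 := mul_le_mul_of_nonneg_right a2.le hh.le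
      have a4 : (T * ell k / h + 1) * h = T * ell k + h := by field_simp
      linarith
  refine
    { hk := hk
      hk1 := hk1
      hβ := hβ
      hq := hq1
      hs := hs
      hqs := hqs
      ha := ha
      hθ := hθ
      hθ1 := ?_
      hTB := hTB
      hBD := hBD
      hBV := by norm_num
      hκ := hκ
      hCV := by linarith
      hK := by linarith
      vone := ?_
      exit := ?_
      sum := ?_
      gD := ?_
      gV := ?_
      ly := ?_
      good := ?_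
      hcd := hcd
      num := ?_ }
  · rw [div_le_iff₀ hl]
    linarith
  · intro L G x
    refine V_one_pair hk hk1 hq1 hs ?_ G x
    linarith
  · intro L Sm ε0 hSm hε
    exact exit_bd N hβ hk.le _ (hbn k hk) L Sm ε0 hSm hε
  · intro L Sm hSm
    exact lin_sum N hβ hk.le _ (hbn k hk) L Sm hSm
  · intro L _
    obtain ⟨h0, hh0, H⟩ := HD _ k (PS3 N d hN β k hβ hk.le) hk hkD' (hbn k hk) a ha haa
    refine ⟨h0, hh0, fun h hh hh1 G y hy n hn x => ?_⟩
    exact (setLIntegral_le_lintegral _ _).trans (H h hh hh1 L G y hy n hn x).1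
  · intro L _
    obtain ⟨h0, hh0, H⟩ := HV _ k (PS3 N d hN β k hβ hk.le) hk hkV' (hbn k hk)
    exact ⟨h0, hh0, fun h hh hh1 G n hn x => H h hh hh1 L G n hn x⟩
  · intro L _
    exact HL k hk hkL' L
  · intro L _
    refine good_field N (PS3 N d hN β k hβ hk.le) (hbn k hk) hβ hk hk1 q (1 / 16 / ell k) a
      (a / ell k) (T * ell k) (B * Real.exp (-(c * T))) CV K cd (Real.exp (CD * a * T)) (k ^ cc)
      (k ^ (c5 * T - C5 * M)) Rb hq1 hs (by linarith) ha hθ hTB hκ (by linarith) (by linarith)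
      hcd1 hBD (Real.rpow_nonneg hk.le _) (Real.rpow_nonneg hk.le _) (fun x => (hcd L x).1)
      n3 ?_ ?_ ?_ ?_
    · rw [Fin3_rpow_theta k a _ hk hl]
      exact n5
    · rw [hsq, ← Real.rpow_mul hk.le]
      have : cc * (1 / 4) = cc / 4 := by ring
      rw [this]
      calc 256 * CV * cd * (2 * (Rb : ℝ) + 1) ^ d *
            (Real.exp (CD * a * T / 2) * k ^ (cc / 4)) =
          256 * CV * cd * (2 * (Rb : ℝ) + 1) ^ d * Real.exp (CD * a * T / 2) * k ^ (cc / 4) := by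
            ring
        _ ≤ 1 := hP
    · rw [hsq]
      exact n4
    · obtain ⟨hL0, hhL0, HL'⟩ := HL k hk hkL' L
      obtain ⟨hD0, hhD0, HD'⟩ := HD _ k (PS3 N d hN β k hβ hk.le) hk hkD' (hbn k hk) a ha haa
      obtain ⟨hG0, hhG0, HG'⟩ := HG k hk hkG' L
      refine ⟨min (min hL0 hD0) (min hG0 1), lt_min (lt_min hhL0 hhD0) (lt_min hhG0 one_pos), ?_⟩
      intro h hh hh1 G
      have b1 : h < hL0 := lt_of_lt_of_le hh1 ((min_le_left _ _).trans (min_le_left _ _))
      have b2 : h < hD0 := lt_of_lt_of_le hh1 ((min_le_left _ _).trans (min_le_right _ _))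
      have b3 : h < hG0 := lt_of_lt_of_le hh1 ((min_le_right _ _).trans (min_le_left _ _))
      have b4 : h < 1 := lt_of_lt_of_le hh1 ((min_le_right _ _).trans (min_le_right _ _))
      refine ⟨fun z => HL' h hh b1 G z, fun y hy => ⟨fun x => (HD' h hh b2 L G y hy _ le_rfl x).1,
        fun x => (HD' h hh b2 L G y hy _ le_rfl x).2, fun hw x hx => ?_⟩⟩
      obtain ⟨p1, p2⟩ := pot_of_wpr hk hk1 ha hK hKM has G y hw
      exact HG' h hh b3 G y hy p1 p2 _ (hnh h hh b4).1 (hnh h hh b4).2 x hx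
  · rw [hsq]
    have h1 : 4 * Real.exp (CD * a * T / 2) * (B * Real.exp (-(c * T)) + 2 * CV * cd / K) * cd =
        (32 * Real.exp (CD * a * T / 2) * cd * (B * Real.exp (-(c * T)))) / 8 +
          8 * Real.exp (CD * a * T / 2) * CV * cd ^ 2 / K := by
      ring
    rw [h1]
    have h2 : 8 * Real.exp (CD * a * T / 2) * CV * cd ^ 2 / K = 1 / 8 := by
      rw [div_eq_iff (by linarith), hKe]
      ring
    rw [h2]
    linarith

theorem large_N3 (N d : ℕ) (hN : 3 ≤ N) (hd : 1 ≤ d) (β : ℝ) (hβ : 0 < β) :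
    ∃ k1 : ℝ, 0 < k1 ∧ ∀ k, 0 < k → k ≤ k1 → DynB.ChainMix N d β k := by
  obtain ⟨q, a, T, BV, cd, K, CD, B, c, CV, k1, hk1, hk11, H⟩ := blk3 N d hN β hβ
  obtain ⟨CM, hCM, HM⟩ := mom_unif N d β hβ
  refine ⟨k1, hk1, fun k hk hkk => ?_⟩
  have hB := H k hk hkk
  have hM := HM _ k (PS3 N d hN β k hβ hk.le) hk.le (by linarith) (bnoise3 hN)
  refine link1 N d β k hβ hk (mix_of_blk hd (PS3 N d hN β k hβ hk.le) q _ a _ _ _ BV _ CV K cd CM
    0 hB hM ?_)
  have hl : 0 < ell k := by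
    unfold ell
    exact Real.log_pos (one_lt_one_div hk (by linarith))
  have h1 : Real.log k = -ell k := by
    unfold ell
    rw [one_div, Real.log_inv, neg_neg]
  rw [Real.rpow_def_of_pos hk, h1]
  have h2 : -ell k * -(1 / 16 / ell k) = 1 / 16 := by field_simp
  rw [h2]
  have h3 := Real.exp_bound_div_one_sub_of_interval' (x := 1 / 16) (by norm_num) (by norm_num)
  have h4 : (1 : ℝ) / (1 - 1 / 16) ≤ 11 / 10 := by norm_num
  linarith

end DynG
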