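import Mathlib.Analysis.SpecialFunctions.Pow.Asymptotics
import Mathlib.Analysis.SpecialFunctions.Exp
import Mathlib.Analysis.SpecialFunctions.Log.Basic
import Mathlib.Analysis.SpecialFunctions.Sqrt

/-!
# Choice of the constants of a block (`N ≥ 3`)

PROOF of `fin_num`. Put `u = log(64 CV cd²) ≥ 0`, `w = log(256 CV cd²) ≥ 0`. For given `T`: `K = 64 e^{CD a T/2} CV cd²`, `log K = CD a T/2 + u`; `M = max 1 (16 log K) ≤ 1 + 8 CD a T + 16 u`;
`Rb = ⌈CD T + (2/a) w⌉₊`, so `CD T + (2/a) w ≤ Rb ≤ CD T + (2/a) w + 1`.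
* fourth claim (`256 CV cd² e^{CD a T/2} e^{-(a/2) Rb} ≤ 1`): `256 CV cd² = e^w`, the exponent is `w + CD a T/2 - (a/2) Rb ≤ 0`.
* last claim: `32 cd B e^{CD a T/2 - c T} ≤ 32 cd B e^{-c T/2} ≤ 1` for `T` large (`CD a ≤ c`).
* third claim: it is `32 B cd e^{-cT + CD a T/2 + (a/8) Rb} ≤ 1`; the exponent is `≤ -cT + (5/8) CD a T + w/4 + a/8 ≤ -(3/8) c T + w/4 + a/8`: `T` large.
* fifth claim: `-(a(c5 T - C5 M)) ≤ -a c5 T + a C5 (1 + 16 u) + 8 C5 CD a² T ≤ -(a c5/2) T + a C5 (1 + 16 u)` (`16 C5 CD a ≤ c5`), `2 Rb + 1 ≤ 2 CD T + (4/a) w + 3 ≤ C' T` for `T ≥ 1`: `256 CV cd (C' T)^d e^{a C5(1+16u)} e^{-(a c5/2) T} → 0`.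
All three conditions hold eventually as `T → ∞` (`Filter.Tendsto`, `Filter.Eventually.and`, `.exists`), e.g. `tendsto_pow_mul_exp_neg_atTop_nhds_zero` with `T ↦ (a c5/2) T`.
-/

namespace DynG

theorem fin_num (d : ℕ) (CD c c5 C5 a B cd CV : ℝ) (hCD : 0 < CD) (hc : 0 < c) (hc5 : 0 < c5)
    (hC5 : 0 < C5) (ha : 0 < a) (h1 : CD * a ≤ c) (h2 : 16 * C5 * CD * a ≤ c5) (hB : 1 ≤ B)
    (hcd : 1 ≤ cd) (hCV : 1 ≤ CV) :
    ∃ (T M K : ℝ) (Rb : ℕ), 80 ≤ T ∧ 1 ≤ M ∧ 1 ≤ K ∧
      K = 64 * Real.exp (CD * a * T / 2) * CV * cd ^ 2 ∧ Real.log K ≤ M / 16 ∧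
      B * Real.exp (-(c * T)) * K * Real.exp (a / 8 * Rb) ≤ 2 * CV * cd ∧
      256 * CV * cd ^ 2 * Real.exp (CD * a * T / 2) * Real.exp (-(a / 2 * Rb)) ≤ 1 ∧
      256 * CV * cd * (2 * (Rb : ℝ) + 1) ^ d * Real.exp (-(a * (c5 * T - C5 * M))) ≤ 1 ∧
      32 * Real.exp (CD * a * T / 2) * cd * (B * Real.exp (-(c * T))) ≤ 1 := by
  set u : ℝ := Real.log (64 * CV * cd ^ 2) with hu
  set w : ℝ := Real.log (256 * CV * cd ^ 2) with hw
  have hcd0 : 0 < cd := by linarith
  have hCV0 : 0 < CV := by linarith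
  have hB0 : 0 < B := by linarith
  have hcd2 : 1 ≤ cd ^ 2 := one_le_pow₀ hcd
  have hCVcd : 1 ≤ CV * cd ^ 2 := by nlinarith
  have hpu : 0 < 64 * CV * cd ^ 2 := by positivity
  have hpw : 0 < 256 * CV * cd ^ 2 := by positivity
  have hu0 : 0 ≤ u := Real.log_nonneg (by nlinarith)
  have hw0 : 0 ≤ w := Real.log_nonneg (by nlinarith)
  have hexpw : Real.exp w = 256 * CV * cd ^ 2 := Real.exp_log hpw
  have hexpu : Real.exp u = 64 * CV * cd ^ 2 := Real.exp_log hpu
  set C' : ℝ := 2 * CD + 4 / a * w + 3 with hC'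
  have hC'0 : 0 < C' := by positivity
  -- the four eventual conditions
  have t2 : Filter.Tendsto (fun T : ℝ => 32 * cd * B * Real.exp (-(c / 2 * T))) Filter.atTop
      (nhds 0) := by
    have h0 : Filter.Tendsto (fun T : ℝ => Real.exp (-(c / 2 * T))) Filter.atTop (nhds 0) := by
      refine Real.tendsto_exp_neg_atTop_nhds_zero.comp ?_
      exact Filter.tendsto_id.const_mul_atTop (by positivity)
    simpa using h0.const_mul (32 * cd * B)
  have t3 : Filter.Tendsto (fun T : ℝ => 32 * B * cd * Real.exp (w / 4 + a / 8) *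
      Real.exp (-(3 / 8 * c * T))) Filter.atTop (nhds 0) := by
    have h0 : Filter.Tendsto (fun T : ℝ => Real.exp (-(3 / 8 * c * T))) Filter.atTop (nhds 0) := by
      refine Real.tendsto_exp_neg_atTop_nhds_zero.comp ?_
      exact Filter.tendsto_id.const_mul_atTop (by positivity)
    simpa using h0.const_mul (32 * B * cd * Real.exp (w / 4 + a / 8))
  have t4 : Filter.Tendsto (fun T : ℝ => 256 * CV * cd * (C' * T) ^ d *
      Real.exp (a * C5 * (1 + 16 * u)) * Real.exp (-(a * c5 / 2 * T))) Filter.atTop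
      (nhds 0) := by
    have h0 : Filter.Tendsto (fun T : ℝ => (a * c5 / 2 * T) ^ d * Real.exp (-(a * c5 / 2 * T)))
        Filter.atTop (nhds 0) := by
      refine (Real.tendsto_pow_mul_exp_neg_atTop_nhds_zero d).comp ?_
      exact Filter.tendsto_id.const_mul_atTop (by positivity)
    have h1 := h0.const_mul (256 * CV * cd * (C' / (a * c5 / 2)) ^ d *
      Real.exp (a * C5 * (1 + 16 * u)))
    rw [mul_zero] at h1
    refine h1.congr (fun T => ?_)
    have hne : a * c5 / 2 ≠ 0 := by positivity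
    have h2 : (C' * T) ^ d = (C' / (a * c5 / 2)) ^ d * (a * c5 / 2 * T) ^ d := by
      rw [← mul_pow]
      congr 1
      field_simp
    rw [h2]
    ring
  have e1 : ∀ᶠ T : ℝ in Filter.atTop, 80 ≤ T := Filter.eventually_ge_atTop 80
  have e2 := t2.eventually (ge_mem_nhds (show (0 : ℝ) < 1 by norm_num))
  have e3 := t3.eventually (ge_mem_nhds (show (0 : ℝ) < 1 by norm_num))
  have e4 := t4.eventually (ge_mem_nhds (show (0 : ℝ) < 1 by norm_num))
  obtain ⟨T, hT80, hT2, hT3, hT4⟩ := (e1.and (e2.and (e3.and e4))).exists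
  have hT0 : 0 < T := by linarith
  have hT1 : 1 ≤ T := by linarith
  have hK0 : 0 < 64 * Real.exp (CD * a * T / 2) * CV * cd ^ 2 := by positivity
  have hlogK : Real.log (64 * Real.exp (CD * a * T / 2) * CV * cd ^ 2) = CD * a * T / 2 + u := by
    have h3 : 64 * Real.exp (CD * a * T / 2) * CV * cd ^ 2 = Real.exp (CD * a * T / 2 + u) := by
      rw [Real.exp_add, hexpu]; ring
    rw [h3, Real.log_exp]
  have hCDaT : 0 ≤ CD * a * T := by positivity
  -- the bounds of `Rb`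
  have hR0 : 0 ≤ CD * T + 2 / a * w := by positivity
  have hRle : CD * T + 2 / a * w ≤ (⌈CD * T + 2 / a * w⌉₊ : ℝ) := Nat.le_ceil _
  have hRlt : (⌈CD * T + 2 / a * w⌉₊ : ℝ) < CD * T + 2 / a * w + 1 := Nat.ceil_lt_add_one hR0
  generalize ⌈CD * T + 2 / a * w⌉₊ = Rb at hRle hRlt
  have hcaT : CD * a * T ≤ c * T := mul_le_mul_of_nonneg_right h1 hT0.le
  refine ⟨T, 1 + 8 * (CD * a * T) + 16 * u, 64 * Real.exp (CD * a * T / 2) * CV * cd ^ 2, Rb,
    hT80, by linarith, ?_, rfl, ?_, ?_, ?_, ?_, ?_⟩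
  · -- `1 ≤ K`
    have h3 : 1 ≤ Real.exp (CD * a * T / 2) := Real.one_le_exp (by linarith)
    have h4 : 1 * 1 ≤ Real.exp (CD * a * T / 2) * (CV * cd ^ 2) :=
      mul_le_mul h3 hCVcd zero_le_one (by linarith)
    have h5 : 64 * Real.exp (CD * a * T / 2) * CV * cd ^ 2 =
      64 * (Real.exp (CD * a * T / 2) * (CV * cd ^ 2)) := by ring
    rw [h5]
    linarith
  · rw [hlogK]
    linarith
  · -- third claim
    have h3 : a / 8 * (Rb : ℝ) ≤ CD * a * T / 8 + w / 4 + a / 8 := by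
      have h4 : a / 8 * (Rb : ℝ) ≤ a / 8 * (CD * T + 2 / a * w + 1) :=
        mul_le_mul_of_nonneg_left hRlt.le (by positivity)
      have h5 : a / 8 * (CD * T + 2 / a * w + 1) = CD * a * T / 8 + w / 4 + a / 8 := by
        field_simp
        ring
      linarith
    have h6 : Real.exp (-(c * T)) * Real.exp (CD * a * T / 2) * Real.exp (a / 8 * Rb) ≤
        Real.exp (w / 4 + a / 8) * Real.exp (-(3 / 8 * c * T)) := by
      rw [← Real.exp_add, ← Real.exp_add, ← Real.exp_add]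
      apply Real.exp_le_exp.mpr
      linarith
    calc B * Real.exp (-(c * T)) * (64 * Real.exp (CD * a * T / 2) * CV * cd ^ 2) *
          Real.exp (a / 8 * Rb)
        = (2 * CV * cd) * (32 * B * cd * (Real.exp (-(c * T)) * Real.exp (CD * a * T / 2) *
            Real.exp (a / 8 * Rb))) := by ring
      _ ≤ (2 * CV * cd) * (32 * B * cd * (Real.exp (w / 4 + a / 8) *
            Real.exp (-(3 / 8 * c * T)))) := by
          apply mul_le_mul_of_nonneg_left _ (by positivity)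
          exact mul_le_mul_of_nonneg_left h6 (by positivity)
      _ = (2 * CV * cd) * (32 * B * cd * Real.exp (w / 4 + a / 8) *
            Real.exp (-(3 / 8 * c * T))) := by ring
      _ ≤ (2 * CV * cd) * 1 := mul_le_mul_of_nonneg_left hT3 (by positivity)
      _ = 2 * CV * cd := by ring
  · -- fourth claim
    have h3 : CD * a * T / 2 + w ≤ a / 2 * (Rb : ℝ) := by
      have h4 : a / 2 * (CD * T + 2 / a * w) ≤ a / 2 * (Rb : ℝ) :=
        mul_le_mul_of_nonneg_left hRle (by positivity)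
      have h5 : a / 2 * (CD * T + 2 / a * w) = CD * a * T / 2 + w := by
        field_simp
      linarith
    rw [← hexpw, ← Real.exp_add, ← Real.exp_add]
    rw [← Real.exp_zero]
    apply Real.exp_le_exp.mpr
    linarith
  · -- fifth claim
    have h3 : 2 * (Rb : ℝ) + 1 ≤ C' * T := by
      have h4 : 2 * (Rb : ℝ) + 1 ≤ 2 * CD * T + 4 / a * w + 3 := by
        have h5 : 2 * (CD * T + 2 / a * w + 1) = 2 * CD * T + 4 / a * w + 2 := by ring
        linarith
      have h6 : 0 ≤ 4 / a * w := by positivity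
      have h7 : 4 / a * w ≤ 4 / a * w * T := le_mul_of_one_le_right h6 hT1
      have h8 : C' * T = 2 * CD * T + 4 / a * w * T + 3 * T := by rw [hC']; ring
      linarith
    have h4 : (2 * (Rb : ℝ) + 1) ^ d ≤ (C' * T) ^ d := pow_le_pow_left₀ (by positivity) h3 d
    have h5 : Real.exp (-(a * (c5 * T - C5 * (1 + 8 * (CD * a * T) + 16 * u)))) ≤
        Real.exp (a * C5 * (1 + 16 * u)) * Real.exp (-(a * c5 / 2 * T)) := by
      rw [← Real.exp_add]
      apply Real.exp_le_exp.mpr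
      have h6 : 16 * C5 * CD * a * (a * T) ≤ c5 * (a * T) :=
        mul_le_mul_of_nonneg_right h2 (by positivity)
      nlinarith [h6]
    calc 256 * CV * cd * (2 * (Rb : ℝ) + 1) ^ d *
          Real.exp (-(a * (c5 * T - C5 * (1 + 8 * (CD * a * T) + 16 * u))))
        ≤ 256 * CV * cd * (C' * T) ^ d *
          (Real.exp (a * C5 * (1 + 16 * u)) * Real.exp (-(a * c5 / 2 * T))) := by
          apply mul_le_mul _ h5 (Real.exp_pos _).le (by positivity)
          exact mul_le_mul_of_nonneg_left h4 (by positivity)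
      _ = 256 * CV * cd * (C' * T) ^ d *
          Real.exp (a * C5 * (1 + 16 * u)) * Real.exp (-(a * c5 / 2 * T)) := by ring
      _ ≤ 1 := hT4
  · -- last claim
    have h3 : Real.exp (CD * a * T / 2) * Real.exp (-(c * T)) ≤ Real.exp (-(c / 2 * T)) := by
      rw [← Real.exp_add]
      apply Real.exp_le_exp.mpr
      linarith
    calc 32 * Real.exp (CD * a * T / 2) * cd * (B * Real.exp (-(c * T)))
        = 32 * cd * B * (Real.exp (CD * a * T / 2) * Real.exp (-(c * T))) := by ring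
      _ ≤ 32 * cd * B * Real.exp (-(c / 2 * T)) :=
          mul_le_mul_of_nonneg_left h3 (by positivity)
      _ ≤ 1 := hT2

end DynG
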