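import Pool.Agent.Lib_MP_36b788g.FWpr
import Pool.Agent.Lib_MP_36b788g.FPair

/-!
# The weighted expectation of a difference at one site

`D = ‖(tr n).1 x - (tr n).2 x‖`, `D0 = ‖G.1 y - G.2 y‖`, `w = wpr(tr n) x`, `r = dist x y`.

PROOF of `split3`. `W = (∫_{alv} w²)^{1/2} ≤ κ' wpr(G) x + 2 CV cd` (`wpr_l2`), `wpr(G) x ≤ e^{(a/8) r} K` (`wpr_shift`, `hw`), so `W ≤ κ' K e^{(a/8) r} + 2 CV cd`.
* `r > Rb`: Cauchy-Schwarz (`ENNReal.lintegral_mul_le_Lp_mul_Lq` with `2, 2`): `∫_{alv} D^θ w ≤ (∫ D^{2θ})^{1/2} W ≤ √BD e^{-(3/4) a r} D0^θ W`, and `κ' K ≤ κ' K e^{(a/8) Rb} ≤ 2 CV cd` gives `W ≤ 4 CV cd e^{(a/8) r}`; `-(3/4) + 1/8 = -5/8`.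
* `r ≤ Rb`: `W ≤ κ' K e^{(a/8) Rb} + 2 CV cd ≤ 4 CV cd`. Let `Z` be the set `{γ D0 < D}`. `∫_{alv \ Z} D^θ w ≤ (γ D0)^θ ∫_{alv} w ≤ γ^θ D0^θ W` (Cauchy-Schwarz, probability measure: `PI (S.mu L)` is a probability measure). `∫_{alv ∩ Z} D^θ w ≤ (∫_{alv ∩ Z} D^{2θ})^{1/2} W` and
  `∫_{alv ∩ Z} D^{2θ} ≤ (∫ D^{4θ})^{1/2} μ(alv ∩ Z)^{1/2} ≤ BD D0^{2θ} p^{1/2}` (`hg4`, `e^{-3ar} ≤ 1`), so the square root is `√BD D0^θ p^{1/4}`.
-/

open MeasureTheory ProbabilityTheory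
open scoped ENNReal

namespace DynG

open Dyn DynC

variable {d L : ℕ}

private theorem FSplit_cs {Ω : Type} [MeasurableSpace Ω] (ν : Measure Ω) {f g : Ω → ℝ≥0∞}
    (hf : Measurable f) (hg : Measurable g) :
    ∫⁻ ω, f ω * g ω ∂ν ≤ (∫⁻ ω, f ω ^ 2 ∂ν) ^ (1 / 2 : ℝ) * (∫⁻ ω, g ω ^ 2 ∂ν) ^ (1 / 2 : ℝ) := by
  have h := ENNReal.lintegral_mul_le_Lp_mul_Lq ν (p := 2) (q := 2)
    Real.HolderConjugate.two_two hf.aemeasurable hg.aemeasurable
  simpa [Pi.mul_apply] using h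

private theorem FSplit_int {Ω : Type} [MeasurableSpace Ω] (ν : Measure Ω) (hν : ν Set.univ ≤ 1)
    {g : Ω → ℝ≥0∞} (hg : Measurable g) :
    ∫⁻ ω, g ω ∂ν ≤ (∫⁻ ω, g ω ^ 2 ∂ν) ^ (1 / 2 : ℝ) := by
  have h := FSplit_cs ν (f := fun _ => 1) measurable_const hg
  simp only [one_mul, one_pow, lintegral_one] at h
  refine h.trans ?_
  calc (ν Set.univ) ^ (1 / 2 : ℝ) * (∫⁻ ω, g ω ^ 2 ∂ν) ^ (1 / 2 : ℝ)
      ≤ 1 * (∫⁻ ω, g ω ^ 2 ∂ν) ^ (1 / 2 : ℝ) :=
        mul_le_mul_left (ENNReal.rpow_le_one hν (by norm_num)) _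
    _ = _ := one_mul _

private theorem FSplit_sq {D θ : ℝ} (hD : 0 ≤ D) :
    ENNReal.ofReal (D ^ θ) ^ 2 = ENNReal.ofReal (D ^ (2 * θ)) := by
  rw [← ENNReal.ofReal_pow (Real.rpow_nonneg hD θ)]
  congr 1
  rw [← Real.rpow_natCast, ← Real.rpow_mul hD]
  congr 1
  push_cast
  ring

private theorem FSplit_half {X Y : ℝ} (hY : 0 ≤ Y) (hX : X = Y ^ 2) :
    ENNReal.ofReal X ^ (1 / 2 : ℝ) = ENNReal.ofReal Y := by
  subst hX
  rw [ENNReal.ofReal_rpow_of_nonneg (by positivity) (by norm_num), ← Real.sqrt_eq_rpow,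
    Real.sqrt_sq hY]

theorem split3 {F : Fam d} {β k : ℝ} (S : PSys F β k) (h : ℝ) (n : ℕ)
    (q s a θ κ' CV K cd BD p γ : ℝ) (Rb : ℕ) (ha : 0 < a) (hθ : 0 < θ) (hκ : 0 ≤ κ')
    (hCV : 0 ≤ CV) (hK : 0 ≤ K) (hBD : 1 ≤ BD) (hp : 0 ≤ p) (hγ : 0 ≤ γ)
    (hcd : ∀ x : boxS d L, ∑ z, Real.exp (-(a / 8)) ^ (boxNet d L).dist x z ≤ cd)
    (hκK : κ' * K * Real.exp (a / 8 * Rb) ≤ 2 * CV * cd)
    (G : (boxS d L → F.V) × (boxS d L → F.V)) (y : boxS d L)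
    (hw : wpr (boxNet d L) k q s (Real.exp (-(a / 8))) G.1 G.2 y < ENNReal.ofReal K)
    (hly : ∀ z, ∫⁻ ω in S.alv h L G n, V1 k q s (S.tr h L G ω n) z ^ 2 ∂(PI (S.mu L)) ≤
        (ENNReal.ofReal κ' * V1 k q s G z + ENNReal.ofReal CV) ^ 2 ∧
      ∫⁻ ω in S.alv h L G n, V2 k q s (S.tr h L G ω n) z ^ 2 ∂(PI (S.mu L)) ≤
        (ENNReal.ofReal κ' * V2 k q s G z + ENNReal.ofReal CV) ^ 2)
    (hg2 : ∀ x, ∫⁻ ω, ENNReal.ofReal (‖(S.tr h L G ω n).1 x - (S.tr h L G ω n).2 x‖ ^ (2 * θ))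
        ∂(PI (S.mu L)) ≤
      ENNReal.ofReal (BD * Real.exp (-(3 / 2 * a * (boxNet d L).dist x y)) *
        ‖G.1 y - G.2 y‖ ^ (2 * θ)))
    (hg4 : ∀ x, ∫⁻ ω, ENNReal.ofReal (‖(S.tr h L G ω n).1 x - (S.tr h L G ω n).2 x‖ ^ (4 * θ))
        ∂(PI (S.mu L)) ≤
      ENNReal.ofReal (BD ^ 2 * Real.exp (-(3 * a * (boxNet d L).dist x y)) *
        ‖G.1 y - G.2 y‖ ^ (4 * θ)))
    (hcore : ∀ x, (boxNet d L).dist x y ≤ Rb →
      PI (S.mu L) (S.alv h L G n ∩ {ω | γ * ‖G.1 y - G.2 y‖ <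
        ‖(S.tr h L G ω n).1 x - (S.tr h L G ω n).2 x‖}) ≤ ENNReal.ofReal p) (x : boxS d L) :
    ∫⁻ ω in S.alv h L G n,
        ENNReal.ofReal (‖(S.tr h L G ω n).1 x - (S.tr h L G ω n).2 x‖ ^ θ) *
          wpr (boxNet d L) k q s (Real.exp (-(a / 8))) (S.tr h L G ω n).1 (S.tr h L G ω n).2 x
        ∂(PI (S.mu L)) ≤
      ENNReal.ofReal (4 * CV * cd * (if (boxNet d L).dist x y ≤ Rb then
        γ ^ θ + Real.sqrt BD * p ^ (1 / 4 : ℝ) else
        Real.sqrt BD * Real.exp (-(5 / 8 * a * (boxNet d L).dist x y))) *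
        ‖G.1 y - G.2 y‖ ^ θ) := by
  -- notation
  set μ := PI (S.mu L) with hμ
  set E := S.alv h L G n with hE
  have hEm : MeasurableSet E := measurableSet_alv S h L G n
  have hHm : Measurable fun ω : ℕ → boxS d L → S.Ωp => S.tr h L G ω n :=
    (measurable_tr S h L n).comp (measurable_const.prodMk measurable_id :
      Measurable fun ω : ℕ → boxS d L → S.Ωp => (G, ω))
  have hDm : Measurable fun ω : ℕ → boxS d L → S.Ωp =>
      ‖(S.tr h L G ω n).1 x - (S.tr h L G ω n).2 x‖ := by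
    have h1 : Measurable fun ω : ℕ → boxS d L → S.Ωp => (S.tr h L G ω n).1 x :=
      (measurable_pi_apply x).comp (measurable_fst.comp hHm)
    have h2 : Measurable fun ω : ℕ → boxS d L → S.Ωp => (S.tr h L G ω n).2 x :=
      (measurable_pi_apply x).comp (measurable_snd.comp hHm)
    exact (h1.sub h2).norm
  have hwm : Measurable fun ω : ℕ → boxS d L → S.Ωp =>
      wpr (boxNet d L) k q s (Real.exp (-(a / 8))) (S.tr h L G ω n).1 (S.tr h L G ω n).2 x :=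
    (measurable_wpr k q s (Real.exp (-(a / 8))) x).comp hHm
  set D : (ℕ → boxS d L → S.Ωp) → ℝ := fun ω =>
    ‖(S.tr h L G ω n).1 x - (S.tr h L G ω n).2 x‖ with hD
  set w : (ℕ → boxS d L → S.Ωp) → ℝ≥0∞ := fun ω =>
    wpr (boxNet d L) k q s (Real.exp (-(a / 8))) (S.tr h L G ω n).1 (S.tr h L G ω n).2 x with hwd
  set D0 : ℝ := ‖G.1 y - G.2 y‖ with hD0
  set r : ℕ := (boxNet d L).dist x y with hr
  have hD0n : 0 ≤ D0 := norm_nonneg _
  have hDn : ∀ ω, 0 ≤ D ω := fun ω => norm_nonneg _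
  have hcd0 : 0 ≤ cd := (Finset.sum_nonneg fun z _ => by positivity).trans (hcd x)
  have hBD0 : 0 ≤ BD := zero_le_one.trans hBD
  have hfm : Measurable fun ω => ENNReal.ofReal (D ω ^ θ) :=
    (hDm.pow_const θ).ennreal_ofReal
  have hf2m : Measurable fun ω => ENNReal.ofReal (D ω ^ (2 * θ)) :=
    (hDm.pow_const (2 * θ)).ennreal_ofReal
  set W : ℝ≥0∞ := (∫⁻ ω in E, w ω ^ 2 ∂μ) ^ (1 / 2 : ℝ) with hW
  have hW1 : W ≤ ENNReal.ofReal (κ' * (Real.exp (a / 8 * r) * K) + 2 * CV * cd) := by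
    have h1 := wpr_l2 μ E hEm (fun ω => S.tr h L G ω n) hHm k q s a κ' CV cd hκ hCV hcd G hly x
    have h2 : wpr (boxNet d L) k q s (Real.exp (-(a / 8))) G.1 G.2 x ≤
        ENNReal.ofReal (Real.exp (a / 8 * r) * K) := by
      refine (wpr_shift k q s a ha.le G.1 G.2 x y).trans ?_
      rw [ENNReal.ofReal_mul (Real.exp_nonneg _)]
      exact mul_le_mul_right hw.le _
    refine h1.trans ?_
    rw [ENNReal.ofReal_add (by positivity) (by positivity), ENNReal.ofReal_mul hκ]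
    exact add_le_add (mul_le_mul_right h2 _) le_rfl
  have hprob : μ Set.univ ≤ 1 := prob_le_one
  have hrest : ∀ A : Set (ℕ → boxS d L → S.Ωp), (μ.restrict A) Set.univ ≤ 1 := fun A => by
    rw [Measure.restrict_apply_univ]; exact prob_le_one
  have hsub : ∀ A : Set (ℕ → boxS d L → S.Ωp), A ⊆ E →
      (∫⁻ ω in A, w ω ^ 2 ∂μ) ^ (1 / 2 : ℝ) ≤ W := fun A hA =>
    ENNReal.rpow_le_rpow (lintegral_mono_set hA) (by norm_num)
  by_cases hrR : r ≤ Rb
  · -- near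
    rw [if_pos hrR]
    have hW2 : W ≤ ENNReal.ofReal (4 * CV * cd) := by
      refine hW1.trans (ENNReal.ofReal_le_ofReal ?_)
      have h1 : Real.exp (a / 8 * r) ≤ Real.exp (a / 8 * Rb) := by
        refine Real.exp_le_exp.mpr (mul_le_mul_of_nonneg_left ?_ (by positivity))
        exact_mod_cast hrR
      have h2 : κ' * (Real.exp (a / 8 * r) * K) ≤ κ' * K * Real.exp (a / 8 * Rb) := by
        have := mul_le_mul_of_nonneg_left h1 (mul_nonneg hκ hK)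
        linarith
      linarith
    set Z : Set (ℕ → boxS d L → S.Ωp) := {ω | γ * D0 < D ω} with hZ
    have hZm : MeasurableSet Z := measurableSet_lt measurable_const hDm
    have hμZ : μ (E ∩ Z) ≤ ENNReal.ofReal p := hcore x hrR
    rw [← lintegral_inter_add_diff (fun ω => ENNReal.ofReal (D ω ^ θ) * w ω) E hZm]
    -- the part outside `Z`
    have hout : ∫⁻ ω in E \ Z, ENNReal.ofReal (D ω ^ θ) * w ω ∂μ ≤
        ENNReal.ofReal (γ ^ θ * D0 ^ θ) * W := by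
      have h1 : ∫⁻ ω in E \ Z, ENNReal.ofReal (D ω ^ θ) * w ω ∂μ ≤
          ∫⁻ ω in E \ Z, ENNReal.ofReal (γ ^ θ * D0 ^ θ) * w ω ∂μ := by
        refine setLIntegral_mono' (hEm.diff hZm) fun ω hω => ?_
        refine mul_le_mul_left (ENNReal.ofReal_le_ofReal ?_) _
        have h2 : D ω ≤ γ * D0 := not_lt.mp hω.2
        calc D ω ^ θ ≤ (γ * D0) ^ θ := Real.rpow_le_rpow (hDn ω) h2 hθ.le
          _ = γ ^ θ * D0 ^ θ := Real.mul_rpow hγ hD0n
      refine h1.trans ?_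
      rw [lintegral_const_mul _ hwm]
      refine mul_le_mul_right ?_ _
      exact (FSplit_int (μ.restrict (E \ Z)) (hrest _) hwm).trans (hsub _ Set.diff_subset)
    -- the part in `Z`
    have hin2 : ∫⁻ ω in E ∩ Z, ENNReal.ofReal (D ω ^ (2 * θ)) ∂μ ≤
        ENNReal.ofReal (p ^ (1 / 2 : ℝ)) * ENNReal.ofReal (BD * D0 ^ (2 * θ)) := by
      have h1 := FSplit_cs (μ.restrict (E ∩ Z)) (f := fun _ => 1) measurable_const hf2m
      simp only [one_mul, one_pow, lintegral_one, Measure.restrict_apply_univ] at h1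
      refine h1.trans (mul_le_mul' ?_ ?_)
      · refine (ENNReal.rpow_le_rpow hμZ (by norm_num)).trans ?_
        rw [ENNReal.ofReal_rpow_of_nonneg hp (by norm_num)]
      · have h2 : ∫⁻ ω in E ∩ Z, ENNReal.ofReal (D ω ^ (2 * θ)) ^ 2 ∂μ ≤
            ENNReal.ofReal (BD ^ 2 * D0 ^ (4 * θ)) := by
          calc ∫⁻ ω in E ∩ Z, ENNReal.ofReal (D ω ^ (2 * θ)) ^ 2 ∂μ
              ≤ ∫⁻ ω, ENNReal.ofReal (D ω ^ (2 * θ)) ^ 2 ∂μ := setLIntegral_le_lintegral _ _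
            _ = ∫⁻ ω, ENNReal.ofReal (D ω ^ (4 * θ)) ∂μ := by
                refine lintegral_congr fun ω => ?_
                rw [FSplit_sq (hDn ω)]
                congr 2
                ring
            _ ≤ ENNReal.ofReal (BD ^ 2 * Real.exp (-(3 * a * r)) * D0 ^ (4 * θ)) := hg4 x
            _ ≤ ENNReal.ofReal (BD ^ 2 * D0 ^ (4 * θ)) := by
                refine ENNReal.ofReal_le_ofReal ?_
                have h3 : Real.exp (-(3 * a * r)) ≤ 1 := by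
                  rw [Real.exp_le_one_iff]
                  have : (0 : ℝ) ≤ 3 * a * r := by positivity
                  linarith
                have h4 : BD ^ 2 * Real.exp (-(3 * a * r)) ≤ BD ^ 2 * 1 :=
                  mul_le_mul_of_nonneg_left h3 (by positivity)
                have h5 := mul_le_mul_of_nonneg_right h4 (Real.rpow_nonneg hD0n (4 * θ))
                linarith
        refine (ENNReal.rpow_le_rpow h2 (by norm_num)).trans ?_
        rw [FSplit_half (Y := BD * D0 ^ (2 * θ)) (by positivity) ?_]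
        rw [mul_pow, ← Real.rpow_natCast (D0 ^ (2 * θ)) 2, ← Real.rpow_mul hD0n]
        congr 2
        push_cast
        ring
    have hin : ∫⁻ ω in E ∩ Z, ENNReal.ofReal (D ω ^ θ) * w ω ∂μ ≤
        ENNReal.ofReal (Real.sqrt BD * p ^ (1 / 4 : ℝ) * D0 ^ θ) * W := by
      refine (FSplit_cs (μ.restrict (E ∩ Z)) hfm hwm).trans
        (mul_le_mul' ?_ (hsub _ Set.inter_subset_left))
      have h1 : ∫⁻ ω in E ∩ Z, ENNReal.ofReal (D ω ^ θ) ^ 2 ∂μ ≤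
          ENNReal.ofReal (p ^ (1 / 2 : ℝ) * (BD * D0 ^ (2 * θ))) := by
        rw [ENNReal.ofReal_mul (Real.rpow_nonneg hp _)]
        refine le_trans (le_of_eq ?_) hin2
        exact lintegral_congr fun ω => FSplit_sq (hDn ω)
      refine (ENNReal.rpow_le_rpow h1 (by norm_num)).trans ?_
      rw [FSplit_half (Y := Real.sqrt BD * p ^ (1 / 4 : ℝ) * D0 ^ θ) (by positivity) ?_]
      rw [mul_pow, mul_pow, Real.sq_sqrt hBD0, ← Real.rpow_natCast (D0 ^ θ) 2,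
        ← Real.rpow_mul hD0n, ← Real.rpow_natCast (p ^ (1 / 4 : ℝ)) 2, ← Real.rpow_mul hp]
      have e1 : (1 / 4 : ℝ) * ((2 : ℕ) : ℝ) = 1 / 2 := by norm_num
      have e2 : θ * ((2 : ℕ) : ℝ) = 2 * θ := by push_cast; ring
      rw [e1, e2]
      ring
    calc ∫⁻ ω in E ∩ Z, ENNReal.ofReal (D ω ^ θ) * w ω ∂μ +
          ∫⁻ ω in E \ Z, ENNReal.ofReal (D ω ^ θ) * w ω ∂μ
        ≤ ENNReal.ofReal (Real.sqrt BD * p ^ (1 / 4 : ℝ) * D0 ^ θ) * W +
          ENNReal.ofReal (γ ^ θ * D0 ^ θ) * W := add_le_add hin hout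
      _ = ENNReal.ofReal ((γ ^ θ + Real.sqrt BD * p ^ (1 / 4 : ℝ)) * D0 ^ θ) * W := by
          rw [← add_mul, ← ENNReal.ofReal_add (by positivity) (by positivity)]
          congr 2
          ring
      _ ≤ ENNReal.ofReal ((γ ^ θ + Real.sqrt BD * p ^ (1 / 4 : ℝ)) * D0 ^ θ) *
          ENNReal.ofReal (4 * CV * cd) := mul_le_mul_right hW2 _
      _ = _ := by
          rw [← ENNReal.ofReal_mul (by positivity)]
          congr 1
          ring
  · -- far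
    rw [if_neg hrR]
    have hW2 : W ≤ ENNReal.ofReal (4 * CV * cd * Real.exp (a / 8 * r)) := by
      refine hW1.trans (ENNReal.ofReal_le_ofReal ?_)
      have h0 : 1 ≤ Real.exp (a / 8 * Rb) := Real.one_le_exp (by positivity)
      have h0' : 1 ≤ Real.exp (a / 8 * r) := Real.one_le_exp (by positivity)
      have h1 : κ' * K ≤ 2 * CV * cd := by
        have := mul_le_mul_of_nonneg_left h0 (mul_nonneg hκ hK)
        linarith
      have h2 : κ' * (Real.exp (a / 8 * r) * K) ≤ 2 * CV * cd * Real.exp (a / 8 * r) := by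
        have := mul_le_mul_of_nonneg_right h1 (zero_le_one.trans h0')
        linarith
      have h3 : 2 * CV * cd ≤ 2 * CV * cd * Real.exp (a / 8 * r) :=
        le_mul_of_one_le_right (by positivity) h0'
      linarith
    have hf : (∫⁻ ω in E, ENNReal.ofReal (D ω ^ θ) ^ 2 ∂μ) ^ (1 / 2 : ℝ) ≤
        ENNReal.ofReal (Real.sqrt BD * Real.exp (-(3 / 4 * a * r)) * D0 ^ θ) := by
      have h1 : ∫⁻ ω in E, ENNReal.ofReal (D ω ^ θ) ^ 2 ∂μ ≤
          ENNReal.ofReal (BD * Real.exp (-(3 / 2 * a * r)) * D0 ^ (2 * θ)) := by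
        refine (setLIntegral_le_lintegral _ _).trans (le_trans (le_of_eq ?_) (hg2 x))
        exact lintegral_congr fun ω => FSplit_sq (hDn ω)
      refine (ENNReal.rpow_le_rpow h1 (by norm_num)).trans ?_
      rw [FSplit_half (Y := Real.sqrt BD * Real.exp (-(3 / 4 * a * r)) * D0 ^ θ)
        (by positivity) ?_]
      rw [mul_pow, mul_pow, Real.sq_sqrt hBD0, ← Real.rpow_natCast (D0 ^ θ) 2,
        ← Real.rpow_mul hD0n, ← Real.exp_nat_mul]
      have e2 : θ * ((2 : ℕ) : ℝ) = 2 * θ := by push_cast; ring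
      have e1 : ((2 : ℕ) : ℝ) * -(3 / 4 * a * r) = -(3 / 2 * a * r) := by push_cast; ring
      rw [e1, e2]
    calc ∫⁻ ω in E, ENNReal.ofReal (D ω ^ θ) * w ω ∂μ
        ≤ (∫⁻ ω in E, ENNReal.ofReal (D ω ^ θ) ^ 2 ∂μ) ^ (1 / 2 : ℝ) *
          (∫⁻ ω in E, w ω ^ 2 ∂μ) ^ (1 / 2 : ℝ) := FSplit_cs (μ.restrict E) hfm hwm
      _ ≤ ENNReal.ofReal (Real.sqrt BD * Real.exp (-(3 / 4 * a * r)) * D0 ^ θ) *
          ENNReal.ofReal (4 * CV * cd * Real.exp (a / 8 * r)) := mul_le_mul' hf hW2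
      _ = _ := by
          rw [← ENNReal.ofReal_mul (by positivity)]
          congr 1
          have e : Real.exp (-(3 / 4 * a * r)) * Real.exp (a / 8 * r) =
              Real.exp (-(5 / 8 * a * r)) := by
            rw [← Real.exp_add]; congr 1; ring
          rw [← e]
          ring

end DynG
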