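import Pool.Agent.Lib_MP_36b788g.PS3

/-!
# Chapter GC3 (good coupling for `N ≥ 3`): definitions

* `Zr g g'`: relative squared distance `‖g-g'‖²/(‖g‖‖g'‖)`.
* `mn G x`: smaller modulus of the pair at `x`.
* `chi c β C' y R G x`: contraction rate, `c min(1, mn^β)` in the ball `B = {dist x y ≤ R}`, `-C'` outside.
* `upd`: update of the weights `σ⁺(x) = min_z (σ z + h χ z + dist x z · ℓ/2)`.
* `YW y R σ G = Σ_x e^{σ x}(Zr in B, ‖G.1 x - G.2 x‖² outside)`.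
* `RegG k y R G`: moduli `≥ k^{1/4}` in `B`, `≤ k^{-1/16}` in `{dist x y ≤ R+1}`.
* `est`: extended chain (pair state, weights).
-/

open MeasureTheory ProbabilityTheory
open scoped ENNReal

namespace DynG

open Dyn DynS DynC

noncomputable section

/-- relative squared distance -/
def Zr {V : Type} [NormedAddCommGroup V] (g g' : V) : ℝ := ‖g - g'‖ ^ 2 / (‖g‖ * ‖g'‖)

/-- smaller modulus -/
def mn {V : Type} [NormedAddCommGroup V] {d L : ℕ} (G : (boxS d L → V) × (boxS d L → V))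
    (x : boxS d L) : ℝ := min ‖G.1 x‖ ‖G.2 x‖

/-- rate -/
def chi {V : Type} [NormedAddCommGroup V] {d L : ℕ} (c β C' : ℝ) (y : boxS d L) (R : ℕ)
    (G : (boxS d L → V) × (boxS d L → V)) (x : boxS d L) : ℝ :=
  if (boxNet d L).dist x y ≤ R then c * min 1 (mn G x ^ β) else -C'

/-- update of the weights -/
def upd {ι : Type} [Fintype ι] {d : ℕ} (net : Net ι d) (ℓ h : ℝ) (χ σ : ι → ℝ) (x : ι) : ℝ :=
  Finset.univ.inf' ⟨x, Finset.mem_univ x⟩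
    (fun z => σ z + h * χ z + net.dist x z * (ℓ / 2))

/-- weighted sum -/
def YW {V : Type} [NormedAddCommGroup V] {d L : ℕ} (y : boxS d L) (R : ℕ) (σ : boxS d L → ℝ)
    (G : (boxS d L → V) × (boxS d L → V)) : ℝ :=
  ∑ x, Real.exp (σ x) * (if (boxNet d L).dist x y ≤ R then Zr (G.1 x) (G.2 x)
    else ‖G.1 x - G.2 x‖ ^ 2)

/-- regular state -/
def RegG {V : Type} [NormedAddCommGroup V] {d L : ℕ} (k : ℝ) (y : boxS d L) (R : ℕ)
    (G : (boxS d L → V) × (boxS d L → V)) : Prop :=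
  (∀ x, (boxNet d L).dist x y ≤ R → k ^ (1 / 4 : ℝ) ≤ ‖G.1 x‖ ∧ k ^ (1 / 4 : ℝ) ≤ ‖G.2 x‖) ∧
    ∀ x, (boxNet d L).dist x y ≤ R + 1 →
      ‖G.1 x‖ ≤ k ^ (-(1 / 16) : ℝ) ∧ ‖G.2 x‖ ≤ k ^ (-(1 / 16) : ℝ)

/-- lower bound at a window time -/
def LowG {V : Type} [NormedAddCommGroup V] {d L : ℕ} (k : ℝ) (y : boxS d L) (R : ℕ)
    (G : (boxS d L → V) × (boxS d L → V)) : Prop :=
  ∀ x, (boxNet d L).dist x y ≤ R → k ^ (5 / 64 : ℝ) ≤ ‖G.1 x‖ ∧ k ^ (5 / 64 : ℝ) ≤ ‖G.2 x‖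

/-- one step of the extended chain -/
def est {N d : ℕ} (hN : 3 ≤ N) (c C' β k h : ℝ) (L : ℕ) (y : boxS d L) (R : ℕ)
    (s : ((boxS d L → E N) × (boxS d L → E N)) × (boxS d L → ℝ)) (ζ : boxS d L → E N) :
    ((boxS d L → E N) × (boxS d L → E N)) × (boxS d L → ℝ) :=
  (st3 hN β k h L s.1 ζ, upd (boxNet d L) (ell k) h (chi c β C' y R s.1) s.2)

/-- cut off height: identity below `y1`, constant above `y1 + 1`, concave -/
def gO (y1 Y : ℝ) : ℝ :=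
  if Y ≤ y1 then Y else if Y ≤ y1 + 1 then Y - (Y - y1) ^ 2 / 2 else y1 + 1 / 2

end

end DynG
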