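import Pool.Agent.Lib_MP_36b788g.GDefs
import Pool.Agent.Lib_MP_36b788c.Sm1

/-!
# Occupation of heights of order one, one step

`S` a pair system, `BNoise N S.ν S.b S.gd`, `N ≥ 3`, `λ = lamN N ≥ 1/2`, site `x`, `m = mn G x = min(‖G.1 x‖, ‖G.2 x‖)`, `g = gO y1`.

PROOF.
* `gO_mono`, `gO_le` (`g ≤ y1+1/2`), `gO_low` (`min Y y1 ≤ g Y`): elementary.
* `gO_inc`: `g'(Y) := 1` for `Y ≤ y1`, `1-(Y-y1)` on `[y1,y1+1]`, `0` above (`gO'`). For `|e| ≤ 1`, `Y ≤ y1-1`: `g(Y+e) = Y+e`; in general `g(Y+e) ≥ g(Y)+g'(Y)e-e²/2` (`g` is concave with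
  `g' ` `1`-Lipschitz: `g(Y+e)-g(Y)-g'(Y)e = ∫(g'(Y+s)-g'(Y))ds ≥ -e²/2`; or by cases, all pieces are quadratic).
* Good noise, `k^{1/4} ≤ m`, all neighbours and `x` have moduli `≤ k^{-1/16}`. `q1`, `q2` (`lo`) and monotonicity of `psi`: `m⁺ ≥ psi β h (e^b m) - kh·4dk^{-1/16}` and `psi_lower`: `≥ e^bm(1-h(e^bm)^β)-4dhk^{15/16}
  ≥ e^bm(1-h(2m)^β-hk^{1/2})` (`e^bm ≥ k^{1/4}/2`, `8dk^{15/16} ≤ k^{3/4}`); so `log m⁺ ≥ log m+b-a`, `a = 2h((2m)^β+k^{1/2})` (`log(1-t) ≥ -2t`, `t ≤ 1/2`, `h < h0(k)`).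
* `occ_step`: choose `y1` with `2·2^β e^{β(y1+1)} ≤ λ/8`, `θ = λ/4`. `-θg(log m⁺) ≤ -θg(y)-θg'(b-a)+θ(b²+a²)1`, `1 = 1{y > y1-1}` (for `y ≤ y1-1`, `|b-a| ≤ 1`: exact). `g'a ≤ (λ/8+2k^{1/2})h ≤ λh/4` (`g' ≠ 0` only for
  `m ≤ e^{y1+1}`), `a² ≤ h` for `h < h0(k)`. Expectation over the good noise: `exp(-θg'b+θb²1) ≤ e^{-θg'b}+4θb²1` (`b² ≤ 4h^{3/4}` small, `e^{t} ≤ 1+2t`, `e^{-θg'b} ≤ 2`), `mgf` with `r = -θg'`:
  `≤ 1+(-λθg'+θ²g'²/2+ε)h`, `b² ≤ e^b+e^{-b}-2` and `mgf` with `r = ±1`, `tail`: `E_{gd}b² ≤ (1+2ε)h+2h³ ≤ 2h`. With `θ²g'²/2 ≤ θλg'/8`, total exponent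
  `≤ h(-(5/8)θλg'+ε+9θ1+…)` and `g' ≥ 1-1`: `≤ h(-θλ/4+C21)` for `ε = θλ/8`. So `c1 = θλ/4`, `C2 = θ(10+λ)`.
-/

open MeasureTheory ProbabilityTheory
open scoped ENNReal

namespace DynG

open Dyn DynS DynC

noncomputable section

/-- derivative of `gO` -/
def gO' (y1 Y : ℝ) : ℝ := if Y ≤ y1 then 1 else if Y ≤ y1 + 1 then 1 - (Y - y1) else 0

theorem gO_mono (y1 : ℝ) : Monotone (gO y1) := by
  intro X Y h
  unfold gO
  split_ifs <;> nlinarith

theorem gO_le (y1 Y : ℝ) : gO y1 Y ≤ y1 + 1 / 2 := by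
  unfold gO
  split_ifs <;> nlinarith [sq_nonneg (Y - y1 - 1)]

theorem gO_low (y1 Y : ℝ) : min Y y1 ≤ gO y1 Y := by
  unfold gO
  split_ifs with h1 h2
  · exact min_le_left _ _
  · refine (min_le_right _ _).trans ?_
    nlinarith
  · refine (min_le_right _ _).trans ?_
    linarith

theorem measurable_gO (y1 : ℝ) : Measurable (gO y1) := by
  unfold gO
  refine Measurable.ite measurableSet_Iic measurable_id ?_
  exact Measurable.ite measurableSet_Iic (by fun_prop) measurable_const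

theorem gO_inc (y1 Y e : ℝ) : gO y1 Y + gO' y1 Y * e - e ^ 2 / 2 ≤ gO y1 (Y + e) := by
  unfold gO gO'
  split_ifs <;> nlinarith [sq_nonneg e, sq_nonneg (Y + e - y1), sq_nonneg (Y - y1),
    sq_nonneg (Y + e - y1 - 1), sq_nonneg (Y - y1 - 1)]

theorem gO_inc_low {y1 Y e : ℝ} (hY : Y ≤ y1 - 1) (he : |e| ≤ 1) :
    gO y1 (Y + e) = gO y1 Y + gO' y1 Y * e := by
  have h1 := (abs_le.mp he).2
  unfold gO gO'
  rw [if_pos (by linarith), if_pos (by linarith), if_pos (by linarith)]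
  ring

private theorem OccA_gO'_mem (y1 Y : ℝ) : 0 ≤ gO' y1 Y ∧ gO' y1 Y ≤ 1 := by
  unfold gO'
  split_ifs <;> constructor <;> linarith

private theorem OccA_k0 (d : ℕ) : ∃ k0 : ℝ, 0 < k0 ∧ k0 < 1 ∧ ∀ k, 0 < k → k < k0 →
    8 * (d : ℝ) * k ^ (3 / 16 : ℝ) ≤ 1 := by
  have h1 : (0 : ℝ) < 8 * d + 2 := by positivity
  have h2 : (1 : ℝ) / (8 * d + 2) < 1 := by
    rw [div_lt_one h1]
    have : (0 : ℝ) ≤ d := Nat.cast_nonneg d
    linarith
  refine ⟨(1 / (8 * d + 2)) ^ (16 / 3 : ℝ), Real.rpow_pos_of_pos (by positivity) _,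
    Real.rpow_lt_one (by positivity) h2 (by norm_num), fun k hk hlt => ?_⟩
  have h3 : k ^ (3 / 16 : ℝ) ≤ 1 / (8 * d + 2) := by
    have h4 := Real.rpow_le_rpow hk.le hlt.le (by norm_num : (0 : ℝ) ≤ 3 / 16)
    rw [← Real.rpow_mul (by positivity)] at h4
    norm_num at h4
    simpa using h4
  have hd : (0 : ℝ) ≤ d := Nat.cast_nonneg d
  calc 8 * (d : ℝ) * k ^ (3 / 16 : ℝ) ≤ 8 * (d : ℝ) * (1 / (8 * d + 2)) :=
        mul_le_mul_of_nonneg_left h3 (by positivity)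
    _ ≤ 1 := by
        rw [mul_one_div, div_le_one h1]
        linarith

/-- one component -/
private theorem OccA_one (d : ℕ) {β h k b m u u' c : ℝ} (hβ : 0 < β) (hh : 0 < h) (hk : 0 < k)
    (hd : 8 * (d : ℝ) * k ^ (3 / 16 : ℝ) ≤ 1) (hb1 : Real.exp b ≤ 2) (hb2 : 1 / 2 ≤ Real.exp b)
    (hm : k ^ (1 / 4 : ℝ) ≤ m) (hu : m ≤ u) (hc : c ≤ 4 * d * k ^ (-(1 / 16) : ℝ))
    (hlo : psi β h (Real.exp b * u) - k * h * c ≤ u') :
    Real.exp b * m * (1 - h * ((2 * m) ^ β + k ^ (1 / 2 : ℝ))) ≤ u' := by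
  have hk4 : 0 < k ^ (1 / 4 : ℝ) := Real.rpow_pos_of_pos hk _
  have hm0 : 0 < m := hk4.trans_le hm
  have he : 0 < Real.exp b := Real.exp_pos b
  have h1 : psi β h (Real.exp b * m) ≤ psi β h (Real.exp b * u) :=
    psi_mono hβ hh.le (mul_le_mul_of_nonneg_left hu he.le)
  have h2 := psi_lower hβ hh.le (v := Real.exp b * m) (by positivity)
  have h3 : (Real.exp b * m) ^ β ≤ (2 * m) ^ β :=
    Real.rpow_le_rpow (by positivity) (mul_le_mul_of_nonneg_right hb1 hm0.le) hβ.le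
  have h4 : k * h * c ≤ Real.exp b * m * (h * k ^ (1 / 2 : ℝ)) := by
    have e1 : k * k ^ (-(1 / 16) : ℝ) = k ^ (3 / 16 : ℝ) * (k ^ (1 / 4 : ℝ) * k ^ (1 / 2 : ℝ)) := by
      rw [← Real.rpow_add hk, ← Real.rpow_add hk]
      nth_rewrite 1 [← Real.rpow_one k]
      rw [← Real.rpow_add hk]
      norm_num
    have h5 : k * h * c ≤ h * (4 * d * (k * k ^ (-(1 / 16) : ℝ))) := by
      have := mul_le_mul_of_nonneg_left hc (by positivity : 0 ≤ k * h)
      nlinarith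
    rw [e1] at h5
    have h6 : 4 * (d : ℝ) * (k ^ (3 / 16 : ℝ) * (k ^ (1 / 4 : ℝ) * k ^ (1 / 2 : ℝ))) ≤
        1 / 2 * (k ^ (1 / 4 : ℝ) * k ^ (1 / 2 : ℝ)) := by
      have h7 : 0 ≤ k ^ (1 / 4 : ℝ) * k ^ (1 / 2 : ℝ) := by positivity
      nlinarith
    have h8 : 1 / 2 * (k ^ (1 / 4 : ℝ) * k ^ (1 / 2 : ℝ)) ≤ Real.exp b * m * k ^ (1 / 2 : ℝ) := by
      have h9 : 1 / 2 * k ^ (1 / 4 : ℝ) ≤ Real.exp b * m :=
        mul_le_mul hb2 hm hk4.le he.le
      have h10 : 0 ≤ k ^ (1 / 2 : ℝ) := by positivity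
      nlinarith
    have h11 := mul_le_mul_of_nonneg_left (h6.trans h8) hh.le
    nlinarith
  have h12 : Real.exp b * m * (h * (Real.exp b * m) ^ β) ≤ Real.exp b * m * (h * (2 * m) ^ β) :=
    mul_le_mul_of_nonneg_left (mul_le_mul_of_nonneg_left h3 hh.le) (by positivity)
  nlinarith

private theorem OccA_cpl {V : Type} [NormedAddCommGroup V] [InnerProductSpace ℝ V] {d L : ℕ}
    (G : boxS d L → V) (x : boxS d L) {B : ℝ}
    (hB : ∀ v, (boxNet d L).dist v x ≤ 1 → ‖G v‖ ≤ B) :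
    cpl (boxNet d L) (nrm G) x ≤ 4 * d * B := by
  have hx : ‖G x‖ ≤ B := hB x (by rw [(boxNet d L).dist_self]; norm_num)
  have hB0 : 0 ≤ B := (norm_nonneg _).trans hx
  unfold cpl nrm
  have h1 : ∑ y ∈ (boxNet d L).nb x, ‖G y‖ ≤ ((boxNet d L).nb x).card * B := by
    rw [← nsmul_eq_mul]
    refine Finset.sum_le_card_nsmul _ _ _ fun y hy => hB y ?_
    rw [(boxNet d L).dist_comm, (boxNet d L).dist_nb x y hy]
  have h2 : (((boxNet d L).nb x).card : ℝ) ≤ 2 * d := by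
    exact_mod_cast (boxNet d L).nb_card x
  have h3 := mul_le_mul_of_nonneg_right h2 hB0
  have h4 : ((2 * d : ℕ) : ℝ) * ‖G x‖ ≤ 2 * d * B := by
    push_cast
    exact mul_le_mul_of_nonneg_left hx (by positivity)
  linarith

private theorem OccA_h38 {h : ℝ} (hh : 0 < h) (hh1 : h ≤ 1 / 1000) : h ^ (3 / 8 : ℝ) ≤ 1 / 8 := by
  have h1 : h ^ (3 / 8 : ℝ) ≤ (1 / 256 : ℝ) ^ (3 / 8 : ℝ) :=
    Real.rpow_le_rpow hh.le (by linarith) (by norm_num)
  have h2 : (1 / 256 : ℝ) ^ (3 / 8 : ℝ) = 1 / 8 := by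
    have : (1 / 256 : ℝ) = (1 / 8 : ℝ) ^ (8 / 3 : ℝ) := by
      have e : (1 / 8 : ℝ) = (1 / 2 : ℝ) ^ (3 : ℝ) := by norm_num
      rw [e, ← Real.rpow_mul (by norm_num)]
      norm_num
    rw [this, ← Real.rpow_mul (by norm_num)]
    norm_num
  linarith

private theorem OccA_exp {b : ℝ} (hb : |b| ≤ 1 / 4) : Real.exp b ≤ 2 ∧ 1 / 2 ≤ Real.exp b := by
  obtain ⟨h1, h2⟩ := abs_le.mp hb
  constructor
  · have := Real.abs_exp_sub_one_le (x := b) (by linarith)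
    have h3 := (abs_le.mp this).2
    linarith
  · have := Real.add_one_le_exp b
    linarith

/-- pathwise lower bound of the smaller modulus -/
theorem mn_step (d : ℕ) (β : ℝ) (hβ : 0 < β) : ∃ k0 : ℝ, 0 < k0 ∧ k0 < 1 ∧
    ∀ k, 0 < k → k < k0 → ∃ h0 : ℝ, 0 < h0 ∧ h0 ≤ 1 / 1000 ∧ ∀ h, 0 < h → h < h0 →
    ∀ (F : Fam d) (S : PSys F β k) (L : ℕ) (G : (boxS d L → F.V) × (boxS d L → F.V))
      (x : boxS d L) (ω : boxS d L → S.Ωp), (∀ v, ω v ∈ S.gd h) →
      |S.b h (ω x)| ≤ 2 * h ^ (3 / 8 : ℝ) → k ^ (1 / 4 : ℝ) ≤ mn G x →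
      (∀ v, (boxNet d L).dist v x ≤ 1 → ‖G.1 v‖ ≤ k ^ (-(1 / 16) : ℝ) ∧
        ‖G.2 v‖ ≤ k ^ (-(1 / 16) : ℝ)) →
      0 < mn (S.st h L G ω) x ∧
        Real.log (mn G x) + S.b h (ω x) - 2 * h * ((2 * mn G x) ^ β + k ^ (1 / 2 : ℝ)) ≤
          Real.log (mn (S.st h L G ω) x) := by
  obtain ⟨k0, hk0, hk01, hk0d⟩ := OccA_k0 d
  refine ⟨k0, hk0, hk01, fun k hk hkk => ?_⟩
  set M : ℝ := (2 * k ^ (-(1 / 16) : ℝ)) ^ β + 1 with hM
  have hM0 : 0 < M := by positivity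
  refine ⟨min (1 / 1000) (1 / (2 * M)), by positivity, min_le_left _ _,
    fun h hh hlt F S L G x ω hω hb hm hB => ?_⟩
  have hh1 : h ≤ 1 / 1000 := (hlt.trans_le (min_le_left _ _)).le
  have hh2 : h ≤ 1 / (2 * M) := (hlt.trans_le (min_le_right _ _)).le
  set b : ℝ := S.b h (ω x) with hbd
  set m : ℝ := mn G x with hmd
  have hb4 : |b| ≤ 1 / 4 := by
    have := OccA_h38 hh hh1
    linarith
  obtain ⟨e1, e2⟩ := OccA_exp hb4
  have hm0 : 0 < m := (Real.rpow_pos_of_pos hk _).trans_le hm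
  have hxx : (boxNet d L).dist x x ≤ 1 := by
    rw [(boxNet d L).dist_self]
    norm_num
  have hmB : m ≤ k ^ (-(1 / 16) : ℝ) := (min_le_left _ _).trans (hB x hxx).1
  have c1 := OccA_cpl G.1 x (fun v hv => (hB v hv).1)
  have c2 := OccA_cpl G.2 x (fun v hv => (hB v hv).2)
  have l1 := OccA_one d hβ hh hk (hk0d k hk hkk) e1 e2 hm (min_le_left _ _) c1
    ((S.q1 h L G ω hh hω).lo x)
  have l2 := OccA_one d hβ hh hk (hk0d k hk hkk) e1 e2 hm (min_le_right _ _) c2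
    ((S.q2 h L G ω hh hω).lo x)
  set t : ℝ := h * ((2 * m) ^ β + k ^ (1 / 2 : ℝ)) with ht
  have ht0 : 0 ≤ t := by positivity
  have ht1 : t ≤ 1 / 2 := by
    have h1 : (2 * m) ^ β ≤ (2 * k ^ (-(1 / 16) : ℝ)) ^ β :=
      Real.rpow_le_rpow (by positivity) (mul_le_mul_of_nonneg_left hmB zero_le_two) hβ.le
    have h2 : k ^ (1 / 2 : ℝ) ≤ 1 := Real.rpow_le_one hk.le (hkk.trans hk01).le (by norm_num)
    have h3 : t ≤ h * M := mul_le_mul_of_nonneg_left (add_le_add h1 h2) hh.le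
    have h4 : h * M ≤ 1 / (2 * M) * M := mul_le_mul_of_nonneg_right hh2 hM0.le
    have h5 : 1 / (2 * M) * M = 1 / 2 := by field_simp
    linarith
  have hmin : Real.exp b * m * (1 - t) ≤ mn (S.st h L G ω) x := le_min l1 l2
  have hpos : 0 < Real.exp b * m * (1 - t) := by
    have : 0 < 1 - t := by linarith
    positivity
  refine ⟨hpos.trans_le hmin, ?_⟩
  have hlog := Real.log_le_log hpos hmin
  rw [Real.log_mul (by positivity) (by linarith), Real.log_mul (Real.exp_pos b).ne' hm0.ne',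
    Real.log_exp] at hlog
  have hl : -(2 * t) ≤ Real.log (1 - t) := by
    have h6 := Real.one_sub_inv_le_log_of_pos (by linarith : 0 < 1 - t)
    have h7 : 1 - (1 - t)⁻¹ = -(t / (1 - t)) := by
      have : (1 - t) ≠ 0 := by linarith
      field_simp
      ring
    have h8 : t / (1 - t) ≤ 2 * t := by
      rw [div_le_iff₀ (by linarith)]
      nlinarith
    linarith
  have h9 : 2 * h * ((2 * m) ^ β + k ^ (1 / 2 : ℝ)) = 2 * t := by
    rw [ht]
    ring
  rw [h9]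
  linarith

private theorem OccA_site {d : ℕ} {β k : ℝ} {F : Fam d} (S : PSys F β k) (h : ℝ) (L : ℕ)
    (x : boxS d L) (Φ : S.Ωp → ℝ≥0∞) (hΦ : Measurable Φ) :
    ∫⁻ ω in {ω : boxS d L → S.Ωp | ∀ v, ω v ∈ S.gd h}, Φ (ω x) ∂(S.mu L) ≤
      ∫⁻ a in S.gd h, Φ a ∂S.ν := by
  have h1 : MeasurePreserving (Function.eval x) (S.mu L) S.ν :=
    measurePreserving_eval (fun _ : boxS d L => S.ν) x
  have h2 := h1.setLIntegral_comp_preimage (S.mgd h) hΦ
  rw [← h2]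
  exact lintegral_mono_set fun ω hω => hω x

private theorem OccA_sq (b : ℝ) : b ^ 2 + 2 ≤ Real.exp b + Real.exp (-b) := by
  have e : Real.exp b + Real.exp (-b) = (2 * Real.sinh (b / 2)) ^ 2 + 2 := by
    rw [Real.sinh_eq]
    have h1 : Real.exp b = Real.exp (b / 2) * Real.exp (b / 2) := by
      rw [← Real.exp_add]
      congr 1
      ring
    have h2 : Real.exp (-b) = Real.exp (-(b / 2)) * Real.exp (-(b / 2)) := by
      rw [← Real.exp_add]
      congr 1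
      ring
    have h3 : Real.exp (b / 2) * Real.exp (-(b / 2)) = 1 := by
      rw [← Real.exp_add, add_neg_cancel, Real.exp_zero]
    rw [h1, h2]
    linear_combination 2 * h3
  rw [e]
  rcases le_total 0 b with hb | hb
  · have := Real.self_le_sinh_iff.mpr (by linarith : 0 ≤ b / 2)
    nlinarith
  · have := Real.sinh_le_self_iff.mpr (by linarith : b / 2 ≤ 0)
    nlinarith

/-- second moment of the scalar noise -/
private theorem OccA_b2 {N : ℕ} {Ω0 : Type} [MeasurableSpace Ω0] {ν : Measure Ω0}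
    [IsProbabilityMeasure ν] {b : ℝ → Ω0 → ℝ} {gd : ℝ → Set Ω0} (hb : ∀ h, Measurable (b h))
    (hg : ∀ h, MeasurableSet (gd h)) (B : BNoise N ν b gd) :
    ∃ h0 : ℝ, 0 < h0 ∧ ∀ h, 0 < h → h < h0 →
      ∫⁻ a in gd h, ENNReal.ofReal (b h a ^ 2) ∂ν ≤ ENNReal.ofReal (2 * h) := by
  obtain ⟨h1, hh1, T⟩ := B.tail
  obtain ⟨h2, hh2, M⟩ := B.mgf 1 (1 / 4) one_pos (by norm_num)
  set c : ℝ := |lamN N| + 1 with hc
  have hc0 : 0 < c := by positivity
  refine ⟨min h1 (min h2 (min (1 / 4) (1 / (2 * c)))), by positivity, fun h hh hlt => ?_⟩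
  have l1 : h < h1 := hlt.trans_le (min_le_left _ _)
  have l2 : h < h2 := hlt.trans_le ((min_le_right _ _).trans (min_le_left _ _))
  have l3 : h ≤ 1 / 4 := (hlt.trans_le ((min_le_right _ _).trans
    ((min_le_right _ _).trans (min_le_left _ _)))).le
  have l4 : h ≤ 1 / (2 * c) := (hlt.trans_le ((min_le_right _ _).trans
    ((min_le_right _ _).trans (min_le_right _ _)))).le
  have hch : c * h ≤ 1 / 2 := by
    have := mul_le_mul_of_nonneg_left l4 hc0.le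
    have e : c * (1 / (2 * c)) = 1 / 2 := by field_simp
    linarith
  have hl1 := abs_le.mp (le_refl |lamN N|)
  have E1 := (M h hh l2 1 (by norm_num)).1
  have E2 := (M h hh l2 (-1) (by norm_num)).1
  have hTl := T h hh l1
  have hone : (1 : ℝ≥0∞) ≤ ν (gd h) + ENNReal.ofReal (h ^ 3) := by
    have h3 := measure_add_measure_compl (μ := ν) (hg h)
    rw [measure_univ] at h3
    rw [← h3]
    exact add_le_add le_rfl hTl
  set A : ℝ≥0∞ := ∫⁻ a in gd h, ENNReal.ofReal (b h a ^ 2) ∂ν with hA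
  have hsum : A + 2 * ν (gd h) ≤ ENNReal.ofReal (2 + 3 / 2 * h) := by
    have e1 : A + 2 * ν (gd h) = ∫⁻ a in gd h, (ENNReal.ofReal (b h a ^ 2) + 2) ∂ν := by
      rw [lintegral_add_right _ measurable_const, setLIntegral_const]
    have e2 : ∫⁻ a in gd h, (ENNReal.ofReal (b h a ^ 2) + 2) ∂ν ≤
        ∫⁻ a in gd h, (ENNReal.ofReal (Real.exp (1 * b h a)) +
          ENNReal.ofReal (Real.exp (-1 * b h a))) ∂ν := by
      refine lintegral_mono fun a => ?_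
      have e3 : (2 : ℝ≥0∞) = ENNReal.ofReal 2 := by norm_num
      rw [e3, ← ENNReal.ofReal_add (by positivity) (by norm_num),
        ← ENNReal.ofReal_add (Real.exp_pos _).le (Real.exp_pos _).le]
      apply ENNReal.ofReal_le_ofReal
      rw [one_mul, neg_one_mul]
      exact OccA_sq _
    have m1 : Measurable (fun a => ENNReal.ofReal (Real.exp (1 * b h a))) :=
      ENNReal.measurable_ofReal.comp (Real.measurable_exp.comp ((hb h).const_mul 1))
    rw [e1]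
    refine e2.trans ?_
    rw [lintegral_add_left m1]
    refine (add_le_add E1 E2).trans ?_
    rw [← ENNReal.ofReal_add (by nlinarith) (by nlinarith)]
    apply ENNReal.ofReal_le_ofReal
    nlinarith
  have hfin : A + 2 ≤ ENNReal.ofReal (2 * h) + 2 := by
    calc A + 2 ≤ A + 2 * (ν (gd h) + ENNReal.ofReal (h ^ 3)) := by
          refine add_le_add le_rfl ?_
          calc (2 : ℝ≥0∞) = 2 * 1 := (mul_one _).symm
            _ ≤ _ := mul_le_mul' le_rfl hone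
      _ = A + 2 * ν (gd h) + 2 * ENNReal.ofReal (h ^ 3) := by ring
      _ ≤ ENNReal.ofReal (2 + 3 / 2 * h) + 2 * ENNReal.ofReal (h ^ 3) := add_le_add hsum le_rfl
      _ = ENNReal.ofReal (2 + 3 / 2 * h) + ENNReal.ofReal (2 * h ^ 3) := by
          rw [ENNReal.ofReal_mul (by norm_num : (0 : ℝ) ≤ 2)]
          norm_num
      _ = ENNReal.ofReal (2 + 3 / 2 * h + 2 * h ^ 3) :=
          (ENNReal.ofReal_add (by positivity) (by positivity)).symm
      _ ≤ ENNReal.ofReal (2 * h + 2) := by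
          apply ENNReal.ofReal_le_ofReal
          nlinarith [sq_nonneg h]
      _ = ENNReal.ofReal (2 * h) + 2 := by
          rw [ENNReal.ofReal_add (by positivity) (by norm_num)]
          norm_num
  exact (ENNReal.add_le_add_iff_right (by norm_num)).mp hfin

/-- pathwise -/
private theorem OccA_path {y1 y Z a b h lam θ : ℝ} (hθ : 0 < θ) (hθ1 : θ ≤ 1) (hb : |b| ≤ 1 / 4)
    (ha0 : 0 ≤ a) (ha1 : a ≤ 1 / 2) (hah : a ^ 2 ≤ h)
    (hga : gO' y1 y * a ≤ gO' y1 y * (lam * h / 4)) (hZ : y + b - a ≤ Z) :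
    Real.exp (-(θ * gO y1 Z)) ≤
      Real.exp (-(θ * gO y1 y) + θ * (lam * h / 4) * gO' y1 y +
        θ * h * (if y1 - 1 < y then 1 else 0)) *
        (Real.exp (-(θ * gO' y1 y) * b) + 4 * θ * (if y1 - 1 < y then 1 else 0) * b ^ 2) := by
  obtain ⟨g0, g1⟩ := OccA_gO'_mem y1 y
  obtain ⟨b1, b2⟩ := abs_le.mp hb
  set g' : ℝ := gO' y1 y with hg'
  set I : ℝ := if y1 - 1 < y then 1 else 0 with hI
  have hI0 : 0 ≤ I := by
    rw [hI]
    split_ifs <;> norm_num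
  have hI1 : I ≤ 1 := by
    rw [hI]
    split_ifs <;> norm_num
  have hb2 : b ^ 2 ≤ 1 / 16 := by nlinarith
  have h1 : gO y1 y + g' * (b - a) - I * (b ^ 2 + a ^ 2) ≤ gO y1 Z := by
    have h2 : gO y1 (y + (b - a)) ≤ gO y1 Z := gO_mono y1 (by linarith)
    by_cases hy : y1 - 1 < y
    · have h3 := gO_inc y1 y (b - a)
      have e : I = 1 := by rw [hI, if_pos hy]
      rw [e]
      nlinarith [sq_nonneg (b + a)]
    · have h3 := gO_inc_low (e := b - a) (not_lt.mp hy) (by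
        rw [abs_le]
        constructor <;> linarith)
      have e : I = 0 := by rw [hI, if_neg hy]
      rw [e]
      linarith
  have h4 : -(θ * gO y1 Z) ≤ (-(θ * gO y1 y) + θ * (lam * h / 4) * g' + θ * h * I) +
      (-(θ * g') * b + θ * I * b ^ 2) := by
    have h5 := mul_le_mul_of_nonneg_left h1 hθ.le
    have h6 := mul_le_mul_of_nonneg_left hga hθ.le
    have h7 : θ * I * a ^ 2 ≤ θ * I * h := mul_le_mul_of_nonneg_left hah (by positivity)
    nlinarith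
  refine (Real.exp_le_exp.mpr h4).trans ?_
  rw [Real.exp_add]
  refine mul_le_mul_of_nonneg_left ?_ (Real.exp_pos _).le
  rw [Real.exp_add]
  set t : ℝ := θ * I * b ^ 2 with ht
  have ht0 : 0 ≤ t := by positivity
  have ht1 : t ≤ 1 := by
    have : θ * I ≤ 1 := by nlinarith
    nlinarith
  have h8 : Real.exp t ≤ 1 + 2 * t := by
    have := Real.abs_exp_sub_one_le (x := t) (by rw [abs_of_nonneg ht0]; exact ht1)
    rw [abs_of_nonneg ht0] at this
    have := (abs_le.mp this).2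
    linarith
  have h9 : Real.exp (-(θ * g') * b) ≤ 2 := by
    refine (OccA_exp ?_).1
    rw [abs_mul, abs_neg, abs_of_nonneg (by positivity)]
    have h10 : θ * g' ≤ 1 := by nlinarith
    have := mul_le_mul h10 hb (abs_nonneg b) zero_le_one
    linarith
  have h11 : 0 < Real.exp (-(θ * g') * b) := Real.exp_pos _
  calc Real.exp (-(θ * g') * b) * Real.exp t ≤ Real.exp (-(θ * g') * b) * (1 + 2 * t) :=
        mul_le_mul_of_nonneg_left h8 h11.le
    _ = Real.exp (-(θ * g') * b) + Real.exp (-(θ * g') * b) * (2 * t) := by ring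
    _ ≤ Real.exp (-(θ * g') * b) + 2 * (2 * t) :=
        add_le_add le_rfl (mul_le_mul_of_nonneg_right h9 (by positivity))
    _ = _ := by
        rw [ht]
        ring

private theorem OccA_n1 {θ g' : ℝ} (hθ : 0 < θ) (hθ1 : θ ≤ 1) (g1 : g' ≤ 1) :
    θ * g' ≤ 1 := by
  have := mul_le_mul_of_nonneg_left g1 hθ.le
  linarith

private theorem OccA_n3 {θ g' lam h : ℝ} (hθ : 0 < θ) (hθ1 : θ ≤ 1) (g1 : g' ≤ 1)
    (hlam : 0 < lam) (hh : 0 < h) (hlamh : lam * h ≤ 1) :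
    0 ≤ 1 + (lam * (-(θ * g')) + (-(θ * g')) ^ 2 / 2 + θ * lam / 8) * h := by
  have h6 := OccA_n1 hθ hθ1 g1
  have h7 : 0 ≤ (-(θ * g')) ^ 2 / 2 := by positivity
  have h8 : 0 ≤ θ * lam / 8 := by positivity
  have h9 : lam * (θ * g') ≤ lam * 1 := mul_le_mul_of_nonneg_left h6 hlam.le
  have h5 : -lam ≤ lam * (-(θ * g')) + (-(θ * g')) ^ 2 / 2 + θ * lam / 8 := by
    have : lam * (-(θ * g')) = -(lam * (θ * g')) := by ring
    linarith
  have := mul_le_mul_of_nonneg_right h5 hh.le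
  linarith

private theorem OccA_n4 {θ g' lam I : ℝ} (hθ : 0 < θ) (hθ2 : θ ≤ lam / 4)
    (g0 : 0 ≤ g') (g1 : g' ≤ 1) (hlam : 0 < lam) (hI : I = 1 ∨ (I = 0 ∧ g' = 1)) :
    θ * (lam / 4) * g' + θ * I + (lam * (-(θ * g')) + (-(θ * g')) ^ 2 / 2 +
      θ * lam / 8) + 8 * θ * I ≤ -(θ * lam / 4) + θ * (10 + lam) * I := by
  have h5 : (-(θ * g')) ^ 2 / 2 ≤ θ * lam * g' / 8 := by
    have h6 : θ * g' * (θ * g') ≤ lam / 4 * (θ * g') := by
      refine mul_le_mul_of_nonneg_right ?_ (by positivity)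
      have : θ * g' ≤ θ * 1 := mul_le_mul_of_nonneg_left g1 hθ.le
      linarith
    have e : (-(θ * g')) ^ 2 / 2 = θ * g' * (θ * g') / 2 := by ring
    rw [e]
    linarith
  have h9 : 0 < θ * lam := by positivity
  rcases hI with e | ⟨e, e'⟩
  · rw [e]
    have h8 : 0 ≤ θ * lam * g' := by positivity
    have e1 : lam * (-(θ * g')) = -(θ * lam * g') := by ring
    have e2 : θ * (lam / 4) * g' = θ * lam * g' / 4 := by ring
    have e3 : θ * (10 + lam) * 1 = 10 * θ + θ * lam := by ring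
    rw [e1, e2, e3]
    linarith
  · rw [e'] at h5
    rw [e, e']
    linarith

theorem occ_step (N d : ℕ) (hN : 3 ≤ N) (β : ℝ) (hβ : 0 < β) : ∃ y1 θ c1 C2 k0 : ℝ, 0 < θ ∧
    θ ≤ 1 ∧ 0 < c1 ∧ 0 < C2 ∧ 0 < k0 ∧ k0 < 1 ∧ ∀ (F : Fam d) (k : ℝ) (S : PSys F β k), 0 < k →
    k < k0 → BNoise N S.ν S.b S.gd → ∃ h0 : ℝ, 0 < h0 ∧ h0 ≤ 1 / 1000 ∧ ∀ h, 0 < h → h < h0 →
    ∀ (L : ℕ) (G : (boxS d L → F.V) × (boxS d L → F.V)) (x : boxS d L),
      k ^ (1 / 4 : ℝ) ≤ mn G x →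
      (∀ v, (boxNet d L).dist v x ≤ 1 → ‖G.1 v‖ ≤ k ^ (-(1 / 16) : ℝ) ∧
        ‖G.2 v‖ ≤ k ^ (-(1 / 16) : ℝ)) →
      ∫⁻ ω in {ω | ∀ v, ω v ∈ S.gd h},
          ENNReal.ofReal (Real.exp (-(θ * gO y1 (Real.log (mn (S.st h L G ω) x))))) ∂(S.mu L) ≤
        ENNReal.ofReal (Real.exp (-(θ * gO y1 (Real.log (mn G x))) +
          h * (-c1 + C2 * (if y1 - 1 < Real.log (mn G x) then 1 else 0)))) := by
  have hlam : 1 / 2 ≤ lamN N := by
    unfold lamN
    have : (3 : ℝ) ≤ N := by exact_mod_cast hN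
    linarith
  set lam : ℝ := lamN N with hlamd
  have hlam0 : 0 < lam := by linarith
  have h2β : (0 : ℝ) < 2 ^ β := by positivity
  set y1 : ℝ := Real.log (lam / (16 * 2 ^ β)) / β - 1 with hy1
  have hy1e : (2 : ℝ) ^ β * Real.exp (β * (y1 + 1)) = lam / 16 := by
    have e1 : β * (y1 + 1) = Real.log (lam / (16 * 2 ^ β)) := by
      rw [hy1]
      field_simp
      ring
    rw [e1, Real.exp_log (by positivity)]
    field_simp
  set θ : ℝ := min 1 (lam / 4) with hθd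
  have hθ : 0 < θ := lt_min one_pos (by positivity)
  have hθ1 : θ ≤ 1 := min_le_left _ _
  have hθ2 : θ ≤ lam / 4 := min_le_right _ _
  obtain ⟨ka, hka, hka1, Hk⟩ := mn_step d β hβ
  refine ⟨y1, θ, θ * lam / 4, θ * (10 + lam), min ka ((lam / 16) ^ 2), hθ, hθ1, by positivity,
    by positivity, lt_min hka (by positivity), (min_le_left _ _).trans_lt hka1,
    fun F k S hk hkk B => ?_⟩
  have hk1 : k < 1 := (hkk.trans_le (min_le_left _ _)).trans hka1
  have hk2 : k ^ (1 / 2 : ℝ) ≤ lam / 16 := by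
    have h1 := Real.rpow_le_rpow hk.le (hkk.trans_le (min_le_right _ _)).le
      (by norm_num : (0 : ℝ) ≤ 1 / 2)
    rw [← Real.sqrt_eq_rpow, ← Real.sqrt_eq_rpow, Real.sqrt_sq (by positivity)] at h1
    rwa [← Real.sqrt_eq_rpow]
  obtain ⟨h1, hh1, hh1', H1⟩ := Hk k hk (hkk.trans_le (min_le_left _ _))
  obtain ⟨h2, hh2, H2⟩ := B.mgf 1 (θ * lam / 8) one_pos (by positivity)
  obtain ⟨h3, hh3, H3⟩ := OccA_b2 S.mb S.mgd B
  set M : ℝ := (2 * k ^ (-(1 / 16) : ℝ)) ^ β + 1 with hM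
  have hM1 : 1 ≤ M := by
    have : 0 ≤ (2 * k ^ (-(1 / 16) : ℝ)) ^ β := by positivity
    linarith
  refine ⟨min h1 (min h2 (min h3 (min (1 / (4 * M ^ 2)) (1 / (lam + 1))))), by positivity,
    (min_le_left _ _).trans hh1', fun h hh hlt L G x hm hB => ?_⟩
  have l1 : h < h1 := hlt.trans_le (min_le_left _ _)
  have l2 : h < h2 := hlt.trans_le ((min_le_right _ _).trans (min_le_left _ _))
  have l3 : h < h3 := hlt.trans_le ((min_le_right _ _).trans
    ((min_le_right _ _).trans (min_le_left _ _)))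
  have l4 : h ≤ 1 / (4 * M ^ 2) := (hlt.trans_le ((min_le_right _ _).trans
    ((min_le_right _ _).trans ((min_le_right _ _).trans (min_le_left _ _))))).le
  have l5 : h ≤ 1 / (lam + 1) := (hlt.trans_le ((min_le_right _ _).trans
    ((min_le_right _ _).trans ((min_le_right _ _).trans (min_le_right _ _))))).le
  have hh1000 : h ≤ 1 / 1000 := l1.le.trans hh1'
  set m : ℝ := mn G x with hmd
  set y : ℝ := Real.log m with hyd
  have hm0 : 0 < m := (Real.rpow_pos_of_pos hk _).trans_le hm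
  have hxx : (boxNet d L).dist x x ≤ 1 := by
    rw [(boxNet d L).dist_self]
    norm_num
  have hmB : m ≤ k ^ (-(1 / 16) : ℝ) := (min_le_left _ _).trans (hB x hxx).1
  set a : ℝ := 2 * h * ((2 * m) ^ β + k ^ (1 / 2 : ℝ)) with ha
  have ha0 : 0 ≤ a := by positivity
  have haM : a ≤ 2 * h * M := by
    have h4 : (2 * m) ^ β ≤ (2 * k ^ (-(1 / 16) : ℝ)) ^ β :=
      Real.rpow_le_rpow (by positivity) (mul_le_mul_of_nonneg_left hmB zero_le_two) hβ.le
    have h5 : k ^ (1 / 2 : ℝ) ≤ 1 := Real.rpow_le_one hk.le hk1.le (by norm_num)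
    exact mul_le_mul_of_nonneg_left (add_le_add h4 h5) (by positivity)
  have hMh : 4 * M ^ 2 * h ≤ 1 := by
    have h4 := mul_le_mul_of_nonneg_left l4 (by positivity : 0 ≤ 4 * M ^ 2)
    have h5 : 4 * M ^ 2 * (1 / (4 * M ^ 2)) = 1 := by field_simp
    linarith
  have hah : a ^ 2 ≤ h := by
    have h4 : a ^ 2 ≤ (2 * h * M) ^ 2 := pow_le_pow_left₀ ha0 haM 2
    have h5 : (2 * h * M) ^ 2 = (4 * M ^ 2 * h) * h := by ring
    have h6 := mul_le_mul_of_nonneg_right hMh hh.le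
    linarith
  have ha1 : a ≤ 1 / 2 := by
    have : a ^ 2 ≤ (1 / 2) ^ 2 := by linarith
    exact le_of_sq_le_sq this (by norm_num) |>.trans le_rfl
  have hga : gO' y1 y * a ≤ gO' y1 y * (lam * h / 4) := by
    by_cases hy : y ≤ y1 + 1
    · refine mul_le_mul_of_nonneg_left ?_ (OccA_gO'_mem y1 y).1
      have h4 : (2 * m) ^ β ≤ lam / 16 := by
        rw [← hy1e, Real.mul_rpow zero_le_two hm0.le]
        refine mul_le_mul_of_nonneg_left ?_ h2β.le
        have h5 : m ^ β = Real.exp (β * y) := by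
          rw [Real.rpow_def_of_pos hm0, mul_comm]
        rw [h5]
        exact Real.exp_le_exp.mpr (mul_le_mul_of_nonneg_left hy hβ.le)
      have h6 := mul_le_mul_of_nonneg_left (add_le_add h4 hk2) (by positivity : 0 ≤ 2 * h)
      rw [ha]
      linarith
    · have h4 : gO' y1 y = 0 := by
        unfold gO'
        rw [if_neg (by linarith), if_neg hy]
      rw [h4, zero_mul, zero_mul]
  obtain ⟨g0, g1⟩ := OccA_gO'_mem y1 y
  set g' : ℝ := gO' y1 y with hg'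
  set I : ℝ := if y1 - 1 < y then 1 else 0 with hI
  have hI0 : 0 ≤ I := by
    rw [hI]
    split_ifs <;> norm_num
  set C0 : ℝ := Real.exp (-(θ * gO y1 y) + θ * (lam * h / 4) * g' + θ * h * I) with hC0
  have hC00 : 0 < C0 := Real.exp_pos _
  have hbb : ∀ u ∈ S.gd h, |S.b h u| ≤ 2 * h ^ (3 / 8 : ℝ) := B.bdd h hh (by linarith)
  have hmPsi : Measurable fun u : S.Ωp => ENNReal.ofReal (C0 *
      (Real.exp (-(θ * g') * S.b h u) + 4 * θ * I * S.b h u ^ 2)) := by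
    refine ENNReal.measurable_ofReal.comp (Measurable.const_mul ?_ _)
    exact (Real.measurable_exp.comp ((S.mb h).const_mul _)).add
      (((S.mb h).pow_const 2).const_mul _)
  have step1 : ∫⁻ ω in {ω : boxS d L → S.Ωp | ∀ v, ω v ∈ S.gd h},
      ENNReal.ofReal (Real.exp (-(θ * gO y1 (Real.log (mn (S.st h L G ω) x))))) ∂(S.mu L) ≤
      ∫⁻ ω in {ω : boxS d L → S.Ωp | ∀ v, ω v ∈ S.gd h}, ENNReal.ofReal (C0 *
        (Real.exp (-(θ * g') * S.b h (ω x)) + 4 * θ * I * S.b h (ω x) ^ 2)) ∂(S.mu L) := by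
    refine setLIntegral_mono' ?_ fun ω hω => ?_
    · have : {ω : boxS d L → S.Ωp | ∀ v, ω v ∈ S.gd h} = Set.univ.pi fun _ => S.gd h := by
        ext ω
        simp
      rw [this]
      exact MeasurableSet.univ_pi fun _ => S.mgd h
    · apply ENNReal.ofReal_le_ofReal
      have hb := hbb _ (hω x)
      have hb4 : |S.b h (ω x)| ≤ 1 / 4 := by
        have := OccA_h38 hh hh1000
        linarith
      obtain ⟨-, hZ⟩ := H1 h hh l1 F S L G x ω hω hb hm hB
      exact OccA_path hθ hθ1 hb4 ha0 ha1 hah hga hZ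
  refine step1.trans ((OccA_site S h L x _ hmPsi).trans ?_)
  -- the site integral
  have E1 := (H2 h hh l2 (-(θ * g')) (by
    rw [abs_neg, abs_of_nonneg (by positivity)]
    exact OccA_n1 hθ hθ1 g1)).1
  have E2 := H3 h hh l3
  have hlamh : lam * h ≤ 1 := by
    have h4 := mul_le_mul_of_nonneg_left l5 hlam0.le
    have h5 : lam * (1 / (lam + 1)) ≤ 1 := by
      rw [mul_one_div, div_le_one (by linarith)]
      linarith
    linarith
  set s : ℝ := (lam * (-(θ * g')) + (-(θ * g')) ^ 2 / 2 + θ * lam / 8) * h with hs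
  have hs1 : 0 ≤ 1 + s := OccA_n3 hθ hθ1 g1 hlam0 hh hlamh
  have hint : ∫⁻ u in S.gd h, ENNReal.ofReal (C0 *
      (Real.exp (-(θ * g') * S.b h u) + 4 * θ * I * S.b h u ^ 2)) ∂S.ν ≤
      ENNReal.ofReal (C0 * (1 + s + 8 * θ * I * h)) := by
    have e1 : ∀ u : S.Ωp, ENNReal.ofReal (C0 *
        (Real.exp (-(θ * g') * S.b h u) + 4 * θ * I * S.b h u ^ 2)) =
        ENNReal.ofReal C0 * (ENNReal.ofReal (Real.exp (-(θ * g') * S.b h u)) +
          ENNReal.ofReal (4 * θ * I) * ENNReal.ofReal (S.b h u ^ 2)) := by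
      intro u
      rw [ENNReal.ofReal_mul hC00.le, ENNReal.ofReal_add (Real.exp_pos _).le (by positivity),
        ENNReal.ofReal_mul (by positivity)]
    simp only [e1]
    have m1 : Measurable fun u : S.Ωp => ENNReal.ofReal (Real.exp (-(θ * g') * S.b h u)) :=
      ENNReal.measurable_ofReal.comp (Real.measurable_exp.comp ((S.mb h).const_mul _))
    rw [lintegral_const_mul' _ _ ENNReal.ofReal_ne_top, lintegral_add_left m1,
      lintegral_const_mul' _ _ ENNReal.ofReal_ne_top]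
    refine (mul_le_mul' le_rfl (add_le_add E1 (mul_le_mul' le_rfl E2))).trans ?_
    rw [← ENNReal.ofReal_mul (by positivity), ← ENNReal.ofReal_add hs1
      (by positivity), ← ENNReal.ofReal_mul hC00.le]
    apply ENNReal.ofReal_le_ofReal
    refine mul_le_mul_of_nonneg_left (le_of_eq ?_) hC00.le
    ring
  refine hint.trans (ENNReal.ofReal_le_ofReal ?_)
  have h4 : 1 + s + 8 * θ * I * h ≤ Real.exp (s + 8 * θ * I * h) := by
    have := Real.add_one_le_exp (s + 8 * θ * I * h)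
    linarith
  refine (mul_le_mul_of_nonneg_left h4 hC00.le).trans ?_
  rw [hC0, ← Real.exp_add]
  apply Real.exp_le_exp.mpr
  -- the exponent
  have hIc : I = 1 ∨ (I = 0 ∧ g' = 1) := by
    by_cases hy : y1 - 1 < y
    · left
      rw [hI, if_pos hy]
    · right
      refine ⟨by rw [hI, if_neg hy], ?_⟩
      rw [hg']
      unfold gO'
      rw [if_pos (by linarith [not_lt.mp hy])]
  have h7 := OccA_n4 hθ hθ2 g0 g1 hlam0 hIc
  have h8 := mul_le_mul_of_nonneg_left h7 hh.le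
  rw [hs]
  linarith

end

end DynG
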