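import Pool.Agent.Lib_MP_36b788g.OccA
import Pool.Agent.Lib_MP_36b788c.Mom1

/-!
# Occupation of heights of order one, many steps

`1_j = 1{y1 - 1 < log (mn (tr j) x)}`.

PROOF.
* `occ_iter`: induction on `n` for all `G` (`lintegral_cons`, `traj` of `ζ :: ω'` at `j+1` is `traj` from the state after `ζ`): the weight of the first step is `exp(h(c1-C2·1_0))`, the set for `n+1` is
  {first noise good, `RegG` at `0`} ∩ {set for `n` after the first step}; IH, then `occ_step` (`k^{1/4} ≤ mn` and the caps for `dist v x ≤ 1` follow from `RegG k y R` and `dist x y ≤ R`).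
* `occ_prob`: `w = min(1, e^{β(y1-1)})`: `min 1 (mn^β) ≥ w·1_j`. `gO(log mn(tr n)) ≤ y1+1/2`, `-gO(log mn G x) ≤ ell/4+|y1|` (`mn G x ≥ k^{1/4}`, `gO_low`; for `n = 0` the sum is empty and
  the claim is trivial since `-C0 ell < 0`). If `Σh min(1,mn^β) < c0nh-C0ell` with `c0 = w c1/C2`, `C0 = w(θ/4+2)/C2` then `ΣC2h1_j < c1nh-(θ/4+2)ell`, so the exponent
  `-θgO+Σh(c1-C21_j) > -θ(y1+1/2)+(θ/4+2)ell`; Markov: probability `≤ exp(θ(y1+1/2)+θ|y1|+θell/4-(θ/4+2)ell) ≤ e^{C}k² ≤ k` for small `k`.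
* `occ_all`: grid of `p = ⌈1/h⌉₊` steps: `s' = p⌈s/p⌉`, `t' = p⌊t/p⌋`; if `s' ≤ t'`: the sum over `[s,t)` is at least the one over `[s',t')` (terms `≥ 0`) and `(t'-s')h ≥ (t-s)h-2ph ≥ (t-s)h-4`; otherwise
  `(t-s)h ≤ 4` and the right side is negative. With `C0` enlarged by one (`4c0 ≤ ell`) it is enough to treat grid intervals: at most `(T ell+3)²` pairs and `(2R+1)^d` sites (`boxMSet.growth`, or the
  number of points of a ball in `ℤ^d`). For a fixed pair: `lintegral_glue s'`, `traj_glue_add`, and `occ_prob` at the state at time `s'`. Total `≤ (2R+1)^d(T ell+3)²k ≤ k^{1/2}`.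
-/

open MeasureTheory ProbabilityTheory
open scoped ENNReal

namespace DynG

open Dyn DynS DynC

section OccB_abs

variable {X St : Type} [MeasurableSpace X] [MeasurableSpace St]

/-- noise sequences with good noise and regular states at the times `< n` -/
private def OccB_A {X St : Type} (f : St → X → St) (R : Set St) (g : Set X) (n : ℕ) (s : St) :
    Set (ℕ → X) :=
  {ω | ∀ j, j < n → ω j ∈ g ∧ traj f s ω j ∈ R}

private theorem OccB_A_joint (f : St → X → St) (hf : Measurable (fun p : St × X => f p.1 p.2))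
    {R : Set St} (hR : MeasurableSet R) {g : Set X} (hg : MeasurableSet g) (n : ℕ) :
    MeasurableSet {p : St × (ℕ → X) | p.2 ∈ OccB_A f R g n p.1} := by
  have e : {p : St × (ℕ → X) | p.2 ∈ OccB_A f R g n p.1} =
      ⋂ j ∈ Finset.range n, ({p : St × (ℕ → X) | p.2 j ∈ g} ∩
        {p : St × (ℕ → X) | traj f p.1 p.2 j ∈ R}) := by
    ext p
    simp only [OccB_A, Set.mem_ofPred_eq, Set.mem_inter_iff, Set.mem_iInter, Finset.mem_range]
  rw [e]
  refine Finset.measurableSet_biInter _ fun j _ => MeasurableSet.inter ?_ ?_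
  · exact ((measurable_pi_apply j).comp measurable_snd) hg
  · exact (measurable_traj f hf j) hR

private theorem OccB_A_meas (f : St → X → St) (hf : Measurable (fun p : St × X => f p.1 p.2))
    {R : Set St} (hR : MeasurableSet R) {g : Set X} (hg : MeasurableSet g) (n : ℕ) (s : St) :
    MeasurableSet (OccB_A f R g n s) :=
  (OccB_A_joint f hf hR hg n).preimage (measurable_const.prodMk measurable_id :
    Measurable fun ω : ℕ → X => (s, ω))

omit [MeasurableSpace X] [MeasurableSpace St] in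
private theorem OccB_traj_cons (f : St → X → St) (s : St) (a : X) (b : ℕ → X) (j : ℕ) :
    traj f s (fun i => Nat.casesOn i a b) (j + 1) = traj f (f s a) b j := by
  induction j with
  | zero => rfl
  | succ j ih =>
    show f (traj f s (fun i => Nat.casesOn i a b) (j + 1)) (b j) = f (traj f (f s a) b j) (b j)
    rw [ih]

omit [MeasurableSpace X] [MeasurableSpace St] in
private theorem OccB_A_cons (f : St → X → St) (R : Set St) (g : Set X) (n : ℕ) (s : St) (a : X)
    (b : ℕ → X) :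
    (fun i => Nat.casesOn i a b : ℕ → X) ∈ OccB_A f R g (n + 1) s ↔
      (a ∈ g ∧ s ∈ R) ∧ b ∈ OccB_A f R g n (f s a) := by
  constructor
  · intro h
    refine ⟨h 0 (Nat.succ_pos n), fun j hj => ?_⟩
    have h1 := h (j + 1) (by omega)
    rw [OccB_traj_cons] at h1
    exact h1
  · rintro ⟨h0, h1⟩ j hj
    cases j with
    | zero => exact h0
    | succ j =>
      rw [OccB_traj_cons]
      exact h1 j (by omega)

omit [MeasurableSpace St] in
private theorem OccB_A_glue (f : St → X → St) (R : Set St) (g : Set X) (n m : ℕ) (s : St)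
    (a b : ℕ → X) (h : glue n a b ∈ OccB_A f R g (n + m) s) :
    b ∈ OccB_A f R g m (traj f s a n) := by
  intro j hj
  have h1 := h (n + j) (by omega)
  rw [traj_glue_add] at h1
  unfold glue at h1
  rw [if_neg (by omega)] at h1
  have e : n + j - n = j := by omega
  rwa [e] at h1

private theorem OccB_iter (μ : Measure X) [IsProbabilityMeasure μ] (f : St → X → St)
    (hf : Measurable (fun p : St × X => f p.1 p.2)) {R : Set St} (hR : MeasurableSet R)
    {g : Set X} (hg : MeasurableSet g) (W Φ : St → ℝ≥0∞) (hW : Measurable W) (hΦ : Measurable Φ)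
    (hstep : ∀ s ∈ R, W s * ∫⁻ a in g, Φ (f s a) ∂μ ≤ Φ s) (n : ℕ) :
    ∀ s : St, ∫⁻ ω in OccB_A f R g n s, (∏ j ∈ Finset.range n, W (traj f s ω j)) *
      Φ (traj f s ω n) ∂(PI μ) ≤ Φ s := by
  induction n with
  | zero =>
    intro s
    refine (setLIntegral_le_lintegral _ _).trans ?_
    have : ∀ ω : ℕ → X, (∏ j ∈ Finset.range 0, W (traj f s ω j)) * Φ (traj f s ω 0) = Φ s := by
      intro ω
      rw [Finset.range_zero, Finset.prod_empty, one_mul]
      rfl
    simp_rw [this]
    simp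
  | succ n ih =>
    intro s
    have hms := OccB_A_meas f hf hR hg (n + 1) s
    have hmt : ∀ j, Measurable fun ω : ℕ → X => traj f s ω j := fun j =>
      (measurable_traj f hf j).comp (measurable_const.prodMk measurable_id)
    have hm1 : Measurable fun ω : ℕ → X => (∏ j ∈ Finset.range (n + 1), W (traj f s ω j)) *
        Φ (traj f s ω (n + 1)) :=
      (Finset.measurable_fun_prod _ fun j _ => hW.comp (hmt j)).mul (hΦ.comp (hmt (n + 1)))
    rw [← lintegral_indicator hms, lintegral_cons _ (hm1.indicator hms)]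
    by_cases hs : s ∈ R
    · have key : ∀ a : X, ∫⁻ b, (OccB_A f R g (n + 1) s).indicator
          (fun ω => (∏ j ∈ Finset.range (n + 1), W (traj f s ω j)) * Φ (traj f s ω (n + 1)))
          (fun i => Nat.casesOn i a b) ∂(PI μ) ≤ g.indicator (fun a => W s * Φ (f s a)) a := by
        intro a
        by_cases ha : a ∈ g
        · rw [Set.indicator_of_mem ha]
          have hms2 := OccB_A_meas f hf hR hg n (f s a)
          have hmt2 : ∀ j, Measurable fun ω : ℕ → X => traj f (f s a) ω j := fun j =>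
            (measurable_traj f hf j).comp (measurable_const.prodMk measurable_id)
          have hm2 : Measurable fun ω : ℕ → X => (∏ j ∈ Finset.range n, W (traj f (f s a) ω j)) *
              Φ (traj f (f s a) ω n) :=
            (Finset.measurable_fun_prod _ fun j _ => hW.comp (hmt2 j)).mul (hΦ.comp (hmt2 n))
          calc _ = ∫⁻ b, W s * (OccB_A f R g n (f s a)).indicator
                (fun ω => (∏ j ∈ Finset.range n, W (traj f (f s a) ω j)) *
                  Φ (traj f (f s a) ω n)) b ∂(PI μ) := by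
                refine lintegral_congr fun b => ?_
                by_cases hb : b ∈ OccB_A f R g n (f s a)
                · rw [Set.indicator_of_mem hb,
                    Set.indicator_of_mem ((OccB_A_cons f R g n s a b).2 ⟨⟨ha, hs⟩, hb⟩)]
                  have e1 : ∀ j, traj f s (fun i => Nat.casesOn i a b : ℕ → X) (j + 1) =
                      traj f (f s a) b j := fun j => OccB_traj_cons f s a b j
                  have e2 : ∏ j ∈ Finset.range (n + 1),
                      W (traj f s (fun i => Nat.casesOn i a b : ℕ → X) j) =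
                      (∏ j ∈ Finset.range n, W (traj f (f s a) b j)) * W s := by
                    rw [Finset.prod_range_succ']
                    congr 1
                    exact Finset.prod_congr rfl fun j _ => congrArg W (e1 j)
                  change (∏ j ∈ Finset.range (n + 1),
                      W (traj f s (fun i => Nat.casesOn i a b : ℕ → X) j)) *
                      Φ (traj f s (fun i => Nat.casesOn i a b : ℕ → X) (n + 1)) = _
                  rw [e2, e1 n]
                  ring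
                · rw [Set.indicator_of_notMem hb, mul_zero,
                    Set.indicator_of_notMem (fun hc => hb ((OccB_A_cons f R g n s a b).1 hc).2)]
            _ = W s * ∫⁻ b in OccB_A f R g n (f s a),
                (∏ j ∈ Finset.range n, W (traj f (f s a) b j)) * Φ (traj f (f s a) b n)
                  ∂(PI μ) := by
                rw [lintegral_const_mul _ (hm2.indicator hms2), lintegral_indicator hms2]
            _ ≤ W s * Φ (f s a) := by gcongr; exact ih (f s a)
        · rw [Set.indicator_of_notMem ha]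
          have : ∀ b : ℕ → X, (OccB_A f R g (n + 1) s).indicator
              (fun ω => (∏ j ∈ Finset.range (n + 1), W (traj f s ω j)) *
                Φ (traj f s ω (n + 1))) (fun i => Nat.casesOn i a b) = 0 := fun b =>
            Set.indicator_of_notMem (fun hc => ha ((OccB_A_cons f R g n s a b).1 hc).1.1) _
          simp_rw [this]
          simp
      have hm3 : Measurable fun a : X => Φ (f s a) :=
        hΦ.comp (hf.comp (measurable_const.prodMk measurable_id))
      calc _ ≤ ∫⁻ a, g.indicator (fun a => W s * Φ (f s a)) a ∂μ := lintegral_mono key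
        _ = W s * ∫⁻ a in g, Φ (f s a) ∂μ := by
            rw [lintegral_indicator hg, lintegral_const_mul _ hm3]
        _ ≤ Φ s := hstep s hs
    · have : ∀ (a : X) (b : ℕ → X), (OccB_A f R g (n + 1) s).indicator
          (fun ω => (∏ j ∈ Finset.range (n + 1), W (traj f s ω j)) *
            Φ (traj f s ω (n + 1))) (fun i => Nat.casesOn i a b) = 0 := fun a b =>
        Set.indicator_of_notMem (fun hc => hs ((OccB_A_cons f R g n s a b).1 hc).1.2) _
      simp_rw [this]
      simp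

end OccB_abs

section OccB_meas

variable {d : ℕ} {F : Fam d} {β k : ℝ}

private theorem OccB_mn (L : ℕ) (x : boxS d L) :
    Measurable fun G : (boxS d L → F.V) × (boxS d L → F.V) => mn G x := by
  unfold mn
  exact (measurable_norm.comp ((measurable_pi_apply x).comp measurable_fst)).min
    (measurable_norm.comp ((measurable_pi_apply x).comp measurable_snd))

private theorem OccB_Reg (L : ℕ) (y : boxS d L) (R : ℕ) :
    MeasurableSet {G : (boxS d L → F.V) × (boxS d L → F.V) | RegG k y R G} := by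
  have n1 : ∀ x : boxS d L, Measurable fun G : (boxS d L → F.V) × (boxS d L → F.V) => ‖G.1 x‖ :=
    fun x => measurable_norm.comp ((measurable_pi_apply x).comp measurable_fst)
  have n2 : ∀ x : boxS d L, Measurable fun G : (boxS d L → F.V) × (boxS d L → F.V) => ‖G.2 x‖ :=
    fun x => measurable_norm.comp ((measurable_pi_apply x).comp measurable_snd)
  have e : {G : (boxS d L → F.V) × (boxS d L → F.V) | RegG k y R G} =
      (⋂ x : boxS d L, {G | (boxNet d L).dist x y ≤ R →
        k ^ (1 / 4 : ℝ) ≤ ‖G.1 x‖ ∧ k ^ (1 / 4 : ℝ) ≤ ‖G.2 x‖}) ∩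
      (⋂ x : boxS d L, {G | (boxNet d L).dist x y ≤ R + 1 →
        ‖G.1 x‖ ≤ k ^ (-(1 / 16) : ℝ) ∧ ‖G.2 x‖ ≤ k ^ (-(1 / 16) : ℝ)}) := by
    ext G
    simp only [RegG, Set.mem_ofPred_eq, Set.mem_inter_iff, Set.mem_iInter]
  rw [e]
  refine MeasurableSet.inter (MeasurableSet.iInter fun x => ?_) (MeasurableSet.iInter fun x => ?_)
  · by_cases hx : (boxNet d L).dist x y ≤ R
    · simp only [hx, true_imp_iff]
      exact (measurableSet_le measurable_const (n1 x)).inter
        (measurableSet_le measurable_const (n2 x))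
    · simp only [hx, false_imp_iff]
      exact MeasurableSet.univ
  · by_cases hx : (boxNet d L).dist x y ≤ R + 1
    · simp only [hx, true_imp_iff]
      exact (measurableSet_le (n1 x) measurable_const).inter
        (measurableSet_le (n2 x) measurable_const)
    · simp only [hx, false_imp_iff]
      exact MeasurableSet.univ

private theorem OccB_gd (S : PSys F β k) (h : ℝ) (L : ℕ) :
    MeasurableSet {a : boxS d L → S.Ωp | ∀ v, a v ∈ S.gd h} := by
  have e : {a : boxS d L → S.Ωp | ∀ v, a v ∈ S.gd h} =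
      ⋂ v : boxS d L, (fun a : boxS d L → S.Ωp => a v) ⁻¹' S.gd h := by
    ext a
    simp only [Set.mem_ofPred_eq, Set.mem_iInter, Set.mem_preimage]
  rw [e]
  exact MeasurableSet.iInter fun v => (measurable_pi_apply v) (S.mgd h)

end OccB_meas

theorem occ_iter (N d : ℕ) (hN : 3 ≤ N) (β : ℝ) (hβ : 0 < β) : ∃ y1 θ c1 C2 k0 : ℝ, 0 < θ ∧
    θ ≤ 1 ∧ 0 < c1 ∧ 0 < C2 ∧ 0 < k0 ∧ k0 < 1 ∧ ∀ (F : Fam d) (k : ℝ) (S : PSys F β k), 0 < k →
    k < k0 → BNoise N S.ν S.b S.gd → ∃ h0 : ℝ, 0 < h0 ∧ h0 ≤ 1 / 1000 ∧ ∀ h, 0 < h → h < h0 →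
    ∀ (L : ℕ) (y x : boxS d L) (R : ℕ), (boxNet d L).dist x y ≤ R →
    ∀ (n : ℕ) (G : (boxS d L → F.V) × (boxS d L → F.V)),
      ∫⁻ ω in {ω | ∀ j, j < n → (∀ v, ω j v ∈ S.gd h) ∧ RegG k y R (S.tr h L G ω j)},
          ENNReal.ofReal (Real.exp (-(θ * gO y1 (Real.log (mn (S.tr h L G ω n) x))) +
            ∑ j ∈ Finset.range n, h * (c1 - C2 *
              (if y1 - 1 < Real.log (mn (S.tr h L G ω j) x) then 1 else 0)))) ∂(PI (S.mu L)) ≤
        ENNReal.ofReal (Real.exp (-(θ * gO y1 (Real.log (mn G x))))) := by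
  classical
  obtain ⟨y1, θ, c1, C2, k0, hθ, hθ1, hc1, hC2, hk0, hk01, H⟩ := occ_step N d hN β hβ
  refine ⟨y1, θ, c1, C2, k0, hθ, hθ1, hc1, hC2, hk0, hk01, fun F k S hk hkk hB => ?_⟩
  obtain ⟨h0, hh0, hh01, H2⟩ := H F k S hk hkk hB
  refine ⟨h0, hh0, hh01, fun h hh hhh L y x R hxy n G => ?_⟩
  have H3 := H2 h hh hhh L
  let one : ((boxS d L → F.V) × (boxS d L → F.V)) → ℝ :=
    fun G => if y1 - 1 < Real.log (mn G x) then 1 else 0
  let W : ((boxS d L → F.V) × (boxS d L → F.V)) → ℝ≥0∞ :=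
    fun G => ENNReal.ofReal (Real.exp (h * (c1 - C2 * one G)))
  let Φ : ((boxS d L → F.V) × (boxS d L → F.V)) → ℝ≥0∞ :=
    fun G => ENNReal.ofReal (Real.exp (-(θ * gO y1 (Real.log (mn G x)))))
  have hlog : Measurable fun G : (boxS d L → F.V) × (boxS d L → F.V) => Real.log (mn G x) :=
    Real.measurable_log.comp (OccB_mn L x)
  have hone : Measurable one :=
    Measurable.ite (measurableSet_lt measurable_const hlog) measurable_const measurable_const
  have hW : Measurable W := ENNReal.measurable_ofReal.comp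
    (Real.measurable_exp.comp ((measurable_const.sub (hone.const_mul C2)).const_mul h))
  have hΦ : Measurable Φ := ENNReal.measurable_ofReal.comp
    (Real.measurable_exp.comp ((((measurable_gO y1).comp hlog).const_mul θ).neg))
  have hstep : ∀ s ∈ {G : (boxS d L → F.V) × (boxS d L → F.V) | RegG k y R G},
      W s * ∫⁻ a in {a : boxS d L → S.Ωp | ∀ v, a v ∈ S.gd h}, Φ (S.st h L s a) ∂(S.mu L) ≤
        Φ s := by
    intro s hs
    have hs' : RegG k y R s := hs
    have h1 := H3 s x (le_min (hs'.1 x hxy).1 (hs'.1 x hxy).2) (fun v hv => by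
      refine hs'.2 v ?_
      have := (boxNet d L).dist_tri v x y
      omega)
    calc W s * ∫⁻ a in {a : boxS d L → S.Ωp | ∀ v, a v ∈ S.gd h}, Φ (S.st h L s a) ∂(S.mu L)
        ≤ W s * ENNReal.ofReal (Real.exp (-(θ * gO y1 (Real.log (mn s x))) +
          h * (-c1 + C2 * one s))) := by
          gcongr
      _ = Φ s := by
          simp only [W, Φ]
          rw [← ENNReal.ofReal_mul (Real.exp_pos _).le, ← Real.exp_add]
          congr 2
          ring_nf
  have hmain := OccB_iter (S.mu L) (S.st h L) (S.mst h L) (OccB_Reg (k := k) L y R)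
    (OccB_gd S h L) W Φ hW hΦ hstep n G
  refine le_trans (le_of_eq ?_) hmain
  refine lintegral_congr fun ω => ?_
  simp only [W, Φ, one]
  rw [← ENNReal.ofReal_prod_of_nonneg (fun j _ => (Real.exp_pos _).le), ← Real.exp_sum,
    ← ENNReal.ofReal_mul (Real.exp_pos _).le, ← Real.exp_add, add_comm]
  rfl

private theorem OccB_ell {k : ℝ} (hk : 0 < k) : Real.exp (-ell k) = k := by
  unfold ell
  rw [one_div, Real.log_inv, neg_neg, Real.exp_log hk]

theorem occ_prob (N d : ℕ) (hN : 3 ≤ N) (β : ℝ) (hβ : 0 < β) : ∃ c0 C0 k0 : ℝ, 0 < c0 ∧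
    0 < C0 ∧ 0 < k0 ∧ k0 < 1 ∧ ∀ (F : Fam d) (k : ℝ) (S : PSys F β k), 0 < k →
    k < k0 → BNoise N S.ν S.b S.gd → ∃ h0 : ℝ, 0 < h0 ∧ h0 ≤ 1 / 1000 ∧ ∀ h, 0 < h → h < h0 →
    ∀ (L : ℕ) (y x : boxS d L) (R : ℕ), (boxNet d L).dist x y ≤ R →
    ∀ (n : ℕ) (G : (boxS d L → F.V) × (boxS d L → F.V)),
      PI (S.mu L) {ω | (∀ j, j < n → (∀ v, ω j v ∈ S.gd h) ∧ RegG k y R (S.tr h L G ω j)) ∧
        ∑ j ∈ Finset.range n, h * min 1 (mn (S.tr h L G ω j) x ^ β) < c0 * n * h - C0 * ell k} ≤
        ENNReal.ofReal k := by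
  classical
  obtain ⟨y1, θ, c1, C2, k1, hθ, hθ1, hc1, hC2, hk1, hk11, H⟩ := occ_iter N d hN β hβ
  set w : ℝ := min 1 (Real.exp (β * (y1 - 1))) with hw
  have hw0 : 0 < w := lt_min one_pos (Real.exp_pos _)
  set Cc : ℝ := θ * (y1 + 1 / 2) + θ * |y1| with hCc
  refine ⟨w * c1 / C2, w * (θ / 4 + 2) / C2, min k1 (Real.exp (-Cc)), by positivity, by positivity,
    lt_min hk1 (Real.exp_pos _), (min_le_left _ _).trans_lt hk11, fun F k S hk hkk hB => ?_⟩
  have hkk1 : k < k1 := hkk.trans_le (min_le_left _ _)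
  have hkk2 : k < Real.exp (-Cc) := hkk.trans_le (min_le_right _ _)
  obtain ⟨h0, hh0, hh01, H2⟩ := H F k S hk hkk1 hB
  refine ⟨h0, hh0, hh01, fun h hh hhh L y x R hxy n G => ?_⟩
  have H3 := H2 h hh hhh L y x R hxy n G
  have hell : 0 < ell k := by
    unfold ell
    exact Real.log_pos (by rw [lt_div_iff₀ hk]; linarith)
  set E : Set (ℕ → boxS d L → S.Ωp) := {ω | (∀ j, j < n → (∀ v, ω j v ∈ S.gd h) ∧
    RegG k y R (S.tr h L G ω j)) ∧ ∑ j ∈ Finset.range n, h * min 1 (mn (S.tr h L G ω j) x ^ β) <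
      w * c1 / C2 * n * h - w * (θ / 4 + 2) / C2 * ell k} with hE
  rcases Nat.eq_zero_or_pos n with hn | hn
  · have : E = ∅ := by
      rw [Set.eq_empty_iff_forall_notMem]
      rintro ω ⟨_, hω⟩
      rw [hn] at hω
      simp only [Finset.range_zero, Finset.sum_empty, Nat.cast_zero, mul_zero, zero_mul,
        zero_sub] at hω
      have : 0 < w * (θ / 4 + 2) / C2 * ell k := by positivity
      linarith
    rw [this, measure_empty]
    exact zero_le
  by_cases hG : RegG k y R G
  swap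
  · have : E = ∅ := by
      rw [Set.eq_empty_iff_forall_notMem]
      rintro ω ⟨hω, _⟩
      exact hG (hω 0 hn).2
    rw [this, measure_empty]
    exact zero_le
  have hmG : k ^ (1 / 4 : ℝ) ≤ mn G x := le_min (hG.1 x hxy).1 (hG.1 x hxy).2
  -- the exponent
  let Xf : (ℕ → boxS d L → S.Ωp) → ℝ := fun ω =>
    -(θ * gO y1 (Real.log (mn (S.tr h L G ω n) x))) +
      ∑ j ∈ Finset.range n, h * (c1 - C2 *
        (if y1 - 1 < Real.log (mn (S.tr h L G ω j) x) then 1 else 0))
  have hlog : ∀ j, Measurable fun ω : ℕ → boxS d L → S.Ωp =>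
      Real.log (mn (S.tr h L G ω j) x) := fun j =>
    Real.measurable_log.comp ((OccB_mn L x).comp
      ((measurable_tr S h L j).comp (measurable_const.prodMk measurable_id)))
  have hXm : Measurable Xf := by
    refine Measurable.add ((((measurable_gO y1).comp (hlog n)).const_mul θ).neg) ?_
    refine Finset.measurable_fun_sum _ fun j _ => ?_
    refine Measurable.const_mul (measurable_const.sub (Measurable.const_mul ?_ C2)) h
    exact Measurable.ite (measurableSet_lt measurable_const (hlog j)) measurable_const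
      measurable_const
  set L0 : ℝ := -(θ * (y1 + 1 / 2)) + (θ / 4 + 2) * ell k with hL0
  have hX : ∀ ω ∈ E, L0 ≤ Xf ω := by
    rintro ω ⟨h1, h2⟩
    have h3 : ∑ j ∈ Finset.range n, h * (w *
        (if y1 - 1 < Real.log (mn (S.tr h L G ω j) x) then 1 else 0)) ≤
        ∑ j ∈ Finset.range n, h * min 1 (mn (S.tr h L G ω j) x ^ β) := by
      refine Finset.sum_le_sum fun j hj => ?_
      refine mul_le_mul_of_nonneg_left ?_ hh.le
      have hr := (h1 j (Finset.mem_range.1 hj)).2
      have hm : 0 < mn (S.tr h L G ω j) x :=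
        lt_min ((Real.rpow_pos_of_pos hk _).trans_le (hr.1 x hxy).1)
          ((Real.rpow_pos_of_pos hk _).trans_le (hr.1 x hxy).2)
      split_ifs with hc
      · rw [mul_one, hw, Real.rpow_def_of_pos hm]
        refine min_le_min le_rfl (Real.exp_le_exp.2 ?_)
        nlinarith
      · rw [mul_zero]
        exact le_min zero_le_one (Real.rpow_nonneg hm.le _)
    have h4 : C2 * ∑ j ∈ Finset.range n, h *
        (if y1 - 1 < Real.log (mn (S.tr h L G ω j) x) then (1 : ℝ) else 0) <
        c1 * n * h - (θ / 4 + 2) * ell k := by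
      have h5 : w * ∑ j ∈ Finset.range n, h *
          (if y1 - 1 < Real.log (mn (S.tr h L G ω j) x) then (1 : ℝ) else 0) <
          w * c1 / C2 * n * h - w * (θ / 4 + 2) / C2 * ell k := by
        refine lt_of_le_of_lt (le_of_eq_of_le ?_ h3) h2
        rw [Finset.mul_sum]
        exact Finset.sum_congr rfl fun j _ => by ring
      have h6 : w * c1 / C2 * n * h - w * (θ / 4 + 2) / C2 * ell k =
          w * ((c1 * n * h - (θ / 4 + 2) * ell k) / C2) := by ring
      rw [h6] at h5
      have h7 := lt_of_mul_lt_mul_left h5 hw0.le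
      rw [lt_div_iff₀ hC2] at h7
      linarith
    have h8 : ∑ j ∈ Finset.range n, h * (c1 - C2 *
        (if y1 - 1 < Real.log (mn (S.tr h L G ω j) x) then (1 : ℝ) else 0)) =
        c1 * n * h - C2 * ∑ j ∈ Finset.range n, h *
        (if y1 - 1 < Real.log (mn (S.tr h L G ω j) x) then (1 : ℝ) else 0) := by
      rw [Finset.mul_sum]
      have e : ∀ j ∈ Finset.range n, h * (c1 - C2 *
          (if y1 - 1 < Real.log (mn (S.tr h L G ω j) x) then (1 : ℝ) else 0)) =
          h * c1 - C2 * (h *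
          (if y1 - 1 < Real.log (mn (S.tr h L G ω j) x) then (1 : ℝ) else 0)) := fun j _ => by ring
      rw [Finset.sum_congr rfl e, Finset.sum_sub_distrib, Finset.sum_const, Finset.card_range,
        nsmul_eq_mul]
      ring
    have h9 := mul_le_mul_of_nonneg_left (gO_le y1 (Real.log (mn (S.tr h L G ω n) x))) hθ.le
    change L0 ≤ -(θ * gO y1 (Real.log (mn (S.tr h L G ω n) x))) +
      ∑ j ∈ Finset.range n, h * (c1 - C2 *
        (if y1 - 1 < Real.log (mn (S.tr h L G ω j) x) then 1 else 0)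
      )
    rw [h8, hL0]
    linarith
  have hM : ENNReal.ofReal (Real.exp L0) * PI (S.mu L) E ≤
      ENNReal.ofReal (Real.exp (-(θ * gO y1 (Real.log (mn G x))))) := by
    calc ENNReal.ofReal (Real.exp L0) * PI (S.mu L) E
        = ∫⁻ _ in E, ENNReal.ofReal (Real.exp L0) ∂(PI (S.mu L)) := (setLIntegral_const _ _).symm
      _ ≤ ∫⁻ ω in E, ENNReal.ofReal (Real.exp (Xf ω)) ∂(PI (S.mu L)) := by
          refine setLIntegral_mono (ENNReal.measurable_ofReal.comp
            (Real.measurable_exp.comp hXm)) fun ω hω => ?_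
          exact ENNReal.ofReal_le_ofReal (Real.exp_le_exp.2 (hX ω hω))
      _ ≤ ∫⁻ ω in {ω | ∀ j, j < n → (∀ v, ω j v ∈ S.gd h) ∧ RegG k y R (S.tr h L G ω j)},
          ENNReal.ofReal (Real.exp (Xf ω)) ∂(PI (S.mu L)) :=
          lintegral_mono_set fun ω hω => hω.1
      _ ≤ _ := H3
  have hB0 : -(θ * gO y1 (Real.log (mn G x))) - L0 ≤ Cc - 2 * ell k := by
    have h1 : -(ell k / 4) ≤ Real.log (mn G x) := by
      have h2 : Real.log (k ^ (1 / 4 : ℝ)) ≤ Real.log (mn G x) :=
        Real.log_le_log (Real.rpow_pos_of_pos hk _) hmG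
      rw [Real.log_rpow hk] at h2
      have h3 : ell k = -Real.log k := by
        unfold ell
        rw [one_div, Real.log_inv]
      linarith
    have h2 := gO_low y1 (Real.log (mn G x))
    have h3 : -(ell k / 4) - |y1| ≤ min (Real.log (mn G x)) y1 := by
      refine le_min ?_ ?_
      · linarith [abs_nonneg y1]
      · linarith [neg_abs_le y1]
    have h4 := mul_le_mul_of_nonneg_left (h3.trans h2) hθ.le
    rw [hL0, hCc]
    nlinarith
  have hfin : PI (S.mu L) E ≤ ENNReal.ofReal (Real.exp (Cc - 2 * ell k)) := by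
    calc PI (S.mu L) E = ENNReal.ofReal (Real.exp (-L0)) *
          (ENNReal.ofReal (Real.exp L0) * PI (S.mu L) E) := by
          rw [← mul_assoc, ← ENNReal.ofReal_mul (Real.exp_pos _).le, ← Real.exp_add,
            neg_add_cancel, Real.exp_zero, ENNReal.ofReal_one, one_mul]
      _ ≤ ENNReal.ofReal (Real.exp (-L0)) *
          ENNReal.ofReal (Real.exp (-(θ * gO y1 (Real.log (mn G x))))) := by gcongr
      _ = ENNReal.ofReal (Real.exp (-(θ * gO y1 (Real.log (mn G x))) - L0)) := by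
          rw [← ENNReal.ofReal_mul (Real.exp_pos _).le, ← Real.exp_add]
          congr 2
          ring
      _ ≤ ENNReal.ofReal (Real.exp (Cc - 2 * ell k)) :=
          ENNReal.ofReal_le_ofReal (Real.exp_le_exp.2 hB0)
  refine hfin.trans (ENNReal.ofReal_le_ofReal ?_)
  have e1 : Real.exp (Cc - 2 * ell k) = Real.exp Cc * k * k := by
    have : Cc - 2 * ell k = Cc + -ell k + -ell k := by ring
    rw [this, Real.exp_add, Real.exp_add, OccB_ell hk]
  rw [e1]
  have e2 : Real.exp Cc * k ≤ 1 := by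
    calc Real.exp Cc * k ≤ Real.exp Cc * Real.exp (-Cc) := by gcongr
      _ = 1 := by rw [← Real.exp_add, add_neg_cancel, Real.exp_zero]
  calc Real.exp Cc * k * k ≤ 1 * k := by gcongr
    _ = k := one_mul k

private theorem OccB_ball (d L R : ℕ) (y : boxS d L) :
    ((Finset.univ.filter fun x : boxS d L => (boxNet d L).dist x y ≤ R).card : ℝ) ≤
      3 ^ d * 2 ^ R := by
  classical
  have h1 := (boxNet d L).sum_half y
  have h2 : ((Finset.univ.filter fun x : boxS d L => (boxNet d L).dist x y ≤ R).card : ℝ) *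
      (1 / 2 : ℝ) ^ R ≤ ∑ z, (1 / 2 : ℝ) ^ (boxNet d L).dist y z := by
    rw [← nsmul_eq_mul, ← Finset.sum_const]
    calc ∑ _x ∈ Finset.univ.filter fun x : boxS d L => (boxNet d L).dist x y ≤ R,
          (1 / 2 : ℝ) ^ R
        ≤ ∑ x ∈ Finset.univ.filter fun x : boxS d L => (boxNet d L).dist x y ≤ R,
          (1 / 2 : ℝ) ^ (boxNet d L).dist y x := by
          refine Finset.sum_le_sum fun x hx => ?_
          rw [(boxNet d L).dist_comm y x]
          exact pow_le_pow_of_le_one (by norm_num) (by norm_num) (Finset.mem_filter.1 hx).2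
      _ ≤ ∑ z, (1 / 2 : ℝ) ^ (boxNet d L).dist y z :=
          Finset.sum_le_sum_of_subset_of_nonneg (Finset.filter_subset _ _)
            fun z _ _ => by positivity
  have h3 := h2.trans h1
  have h4 : (1 / 2 : ℝ) ^ R * 2 ^ R = 1 := by
    rw [← mul_pow]
    norm_num
  calc ((Finset.univ.filter fun x : boxS d L => (boxNet d L).dist x y ≤ R).card : ℝ)
      = ((Finset.univ.filter fun x : boxS d L => (boxNet d L).dist x y ≤ R).card : ℝ) *
        (1 / 2 : ℝ) ^ R * 2 ^ R := by rw [mul_assoc, h4, mul_one]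
    _ ≤ 3 ^ d * 2 ^ R := by gcongr

/-- one pair of times, general starting time -/
private theorem OccB_pair {d : ℕ} {F : Fam d} {β k : ℝ} (S : PSys F β k) (h c0 C0 : ℝ) (L : ℕ)
    (y x : boxS d L) (R : ℕ)
    (H : ∀ (n : ℕ) (G : (boxS d L → F.V) × (boxS d L → F.V)),
      PI (S.mu L) {ω | (∀ j, j < n → (∀ v, ω j v ∈ S.gd h) ∧ RegG k y R (S.tr h L G ω j)) ∧
        ∑ j ∈ Finset.range n, h * min 1 (mn (S.tr h L G ω j) x ^ β) < c0 * n * h - C0 * ell k} ≤
        ENNReal.ofReal k)
    (s m : ℕ) (G : (boxS d L → F.V) × (boxS d L → F.V)) :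
    PI (S.mu L) {ω | (∀ j, j < s + m → (∀ v, ω j v ∈ S.gd h) ∧
        RegG k y R (S.tr h L G ω j)) ∧
      ∑ j ∈ Finset.Ico s (s + m), h * min 1 (mn (S.tr h L G ω j) x ^ β) <
        c0 * m * h - C0 * ell k} ≤ ENNReal.ofReal k := by
  classical
  set E : Set (ℕ → boxS d L → S.Ωp) := {ω | (∀ j, j < s + m → (∀ v, ω j v ∈ S.gd h) ∧
        RegG k y R (S.tr h L G ω j)) ∧
      ∑ j ∈ Finset.Ico s (s + m), h * min 1 (mn (S.tr h L G ω j) x ^ β) <
        c0 * m * h - C0 * ell k} with hE
  have hmm : ∀ j, Measurable fun ω : ℕ → boxS d L → S.Ωp => mn (S.tr h L G ω j) x := fun j =>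
    (OccB_mn L x).comp ((measurable_tr S h L j).comp (measurable_const.prodMk measurable_id))
  have hEm : MeasurableSet E := by
    have hs1 := OccB_A_meas (S.st h L) (S.mst h L) (OccB_Reg (k := k) L y R)
      (OccB_gd S h L) (s + m) G
    have hs2 : Measurable fun ω : ℕ → boxS d L → S.Ωp =>
        ∑ j ∈ Finset.Ico s (s + m), h * min 1 (mn (S.tr h L G ω j) x ^ β) := by
      refine Finset.measurable_fun_sum _ fun j _ => Measurable.const_mul ?_ h
      exact measurable_const.min ((hmm j).pow_const β)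
    have hs3 : MeasurableSet {ω : ℕ → boxS d L → S.Ωp |
        ∑ j ∈ Finset.Ico s (s + m), h * min 1 (mn (S.tr h L G ω j) x ^ β) <
        c0 * m * h - C0 * ell k} := measurableSet_lt hs2 measurable_const
    exact hs1.inter hs3
  rw [← lintegral_indicator_one hEm, lintegral_glue s _ (measurable_one.indicator hEm)]
  have key : ∀ a : ℕ → boxS d L → S.Ωp,
      ∫⁻ b, E.indicator 1 (glue s a b) ∂(PI (S.mu L)) ≤ ENNReal.ofReal k := by
    intro a
    set E' : Set (ℕ → boxS d L → S.Ωp) := {ω | (∀ j, j < m → (∀ v, ω j v ∈ S.gd h) ∧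
        RegG k y R (S.tr h L (traj (S.st h L) G a s) ω j)) ∧
        ∑ j ∈ Finset.range m, h * min 1 (mn (S.tr h L (traj (S.st h L) G a s) ω j) x ^ β) <
          c0 * m * h - C0 * ell k} with hE'
    have hmm' : ∀ j, Measurable fun ω : ℕ → boxS d L → S.Ωp =>
        mn (S.tr h L (traj (S.st h L) G a s) ω j) x := fun j =>
      (OccB_mn L x).comp ((measurable_tr S h L j).comp (measurable_const.prodMk measurable_id))
    have hEm' : MeasurableSet E' := by
      have hs1 := OccB_A_meas (S.st h L) (S.mst h L) (OccB_Reg (k := k) L y R)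
        (OccB_gd S h L) m (traj (S.st h L) G a s)
      have hs2 : Measurable fun ω : ℕ → boxS d L → S.Ωp =>
          ∑ j ∈ Finset.range m,
            h * min 1 (mn (S.tr h L (traj (S.st h L) G a s) ω j) x ^ β) := by
        refine Finset.measurable_fun_sum _ fun j _ => Measurable.const_mul ?_ h
        exact measurable_const.min ((hmm' j).pow_const β)
      have hs3 : MeasurableSet {ω : ℕ → boxS d L → S.Ωp |
          ∑ j ∈ Finset.range m,
            h * min 1 (mn (S.tr h L (traj (S.st h L) G a s) ω j) x ^ β) <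
          c0 * m * h - C0 * ell k} := measurableSet_lt hs2 measurable_const
      exact hs1.inter hs3
    calc ∫⁻ b, E.indicator 1 (glue s a b) ∂(PI (S.mu L))
        ≤ ∫⁻ b, E'.indicator 1 b ∂(PI (S.mu L)) := by
          refine lintegral_mono fun b => ?_
          by_cases hb : glue s a b ∈ E
          · have hb' : b ∈ E' := by
              refine ⟨OccB_A_glue (S.st h L)
                {G : (boxS d L → F.V) × (boxS d L → F.V) | RegG k y R G}
                {a : boxS d L → S.Ωp | ∀ v, a v ∈ S.gd h} s m G a b hb.1, ?_⟩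
              have h1 := hb.2
              rw [Finset.sum_Ico_eq_sum_range, Nat.add_sub_cancel_left] at h1
              refine lt_of_le_of_lt (le_of_eq ?_) h1
              refine Finset.sum_congr rfl fun j _ => ?_
              have e : S.tr h L G (glue s a b) (s + j) =
                  S.tr h L (traj (S.st h L) G a s) b j := traj_glue_add (S.st h L) G s a b j
              rw [e]
            rw [Set.indicator_of_mem hb, Set.indicator_of_mem hb']
            exact le_rfl
          · rw [Set.indicator_of_notMem hb]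
            exact zero_le
      _ = PI (S.mu L) E' := lintegral_indicator_one hEm'
      _ ≤ ENNReal.ofReal k := H m _
  calc ∫⁻ a, ∫⁻ b, E.indicator 1 (glue s a b) ∂(PI (S.mu L)) ∂(PI (S.mu L))
      ≤ ∫⁻ _, ENNReal.ofReal k ∂(PI (S.mu L)) := lintegral_mono key
    _ = ENNReal.ofReal k := by rw [lintegral_const, measure_univ, mul_one]

/-- reduction to multiples of `p` -/
private theorem OccB_grid (f : ℕ → ℝ) (hf : ∀ j, 0 ≤ f j) (c0 C0 h e : ℝ) (hc0 : 0 < c0)
    (hC0 : 0 < C0) (he : 4 * c0 ≤ e) (hh : 0 < h) (p : ℕ) (hp : 0 < p) (hph : p * h ≤ 2)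
    (s t n : ℕ) (hst : s ≤ t) (htn : t ≤ n)
    (hlt : ∑ j ∈ Finset.Ico s t, f j < c0 * ((t - s : ℕ) : ℝ) * h - (C0 + 1) * e) :
    ∃ i m, p * i + p * m ≤ n ∧
      ∑ j ∈ Finset.Ico (p * i) (p * i + p * m), f j < c0 * ((p * m : ℕ) : ℝ) * h - C0 * e := by
  have he0 : 0 < e := by linarith
  set i := (s + p - 1) / p with hi
  set i' := t / p with hi'
  have h1 : s ≤ p * i := by
    have := Nat.div_add_mod (s + p - 1) p
    have h2 := Nat.mod_lt (s + p - 1) hp
    rw [← hi] at this
    omega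
  have h2 : p * i < s + p := by
    have := Nat.mul_div_le (s + p - 1) p
    rw [← hi] at this
    omega
  have h3 : p * i' ≤ t := Nat.mul_div_le t p
  have h4 : t < p * i' + p := by
    have := Nat.div_add_mod t p
    have h2 := Nat.mod_lt t hp
    rw [← hi'] at this
    omega
  have hcast : ((t - s : ℕ) : ℝ) = (t : ℝ) - s := Nat.cast_sub hst
  rw [hcast] at hlt
  have hsum0 : 0 ≤ ∑ j ∈ Finset.Ico s t, f j := Finset.sum_nonneg fun j _ => hf j
  by_cases hii : i ≤ i'
  · refine ⟨i, i' - i, ?_, ?_⟩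
    · rw [← mul_add, Nat.add_sub_cancel' hii]
      omega
    · have e1 : p * i + p * (i' - i) = p * i' := by
        rw [← mul_add, Nat.add_sub_cancel' hii]
      rw [e1]
      have h5 : ∑ j ∈ Finset.Ico (p * i) (p * i'), f j ≤ ∑ j ∈ Finset.Ico s t, f j :=
        Finset.sum_le_sum_of_subset_of_nonneg (Finset.Ico_subset_Ico h1 h3) fun j _ _ => hf j
      have h6 : ((p * (i' - i) : ℕ) : ℝ) = (p * i' : ℕ) - (p * i : ℕ) := by
        rw [← Nat.cast_sub (Nat.mul_le_mul_left p hii), Nat.mul_sub]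
      have h7 : (t : ℝ) < (p * i' : ℕ) + p := by exact_mod_cast h4
      have h8 : ((p * i : ℕ) : ℝ) < s + p := by exact_mod_cast h2
      have h9 : (t : ℝ) - s ≤ ((p * (i' - i) : ℕ) : ℝ) + 2 * p := by
        rw [h6]; linarith
      have h10 : c0 * ((t : ℝ) - s) * h ≤ c0 * ((p * (i' - i) : ℕ) : ℝ) * h + e := by
        have h11 : c0 * ((t : ℝ) - s) * h ≤ c0 * (((p * (i' - i) : ℕ) : ℝ) + 2 * p) * h := by
          gcongr
        have h12 : c0 * (((p * (i' - i) : ℕ) : ℝ) + 2 * p) * h =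
            c0 * ((p * (i' - i) : ℕ) : ℝ) * h + 2 * c0 * (p * h) := by ring
        have h13 : 2 * c0 * (p * h) ≤ 2 * c0 * 2 := by gcongr
        linarith
      linarith
  · exfalso
    have h5 : p * i' + p ≤ p * i := by
      have : i' + 1 ≤ i := by omega
      calc p * i' + p = p * (i' + 1) := by ring
        _ ≤ p * i := Nat.mul_le_mul_left p this
    have h6 : t ≤ s + p := by omega
    have h7 : (t : ℝ) - s ≤ p := by
      have : (t : ℝ) ≤ s + p := by exact_mod_cast h6
      linarith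
    have h8 : c0 * ((t : ℝ) - s) * h ≤ c0 * p * h := by gcongr
    have h9 : c0 * p * h ≤ c0 * 2 := by
      rw [mul_assoc]; gcongr
    have h10 : 0 < C0 * e := by positivity
    linarith

theorem occ_all (N d : ℕ) (hN : 3 ≤ N) (β : ℝ) (hβ : 0 < β) : ∃ c0 C0 : ℝ, 0 < c0 ∧
    0 < C0 ∧ ∀ (T : ℝ) (R : ℕ), 1 ≤ T → ∃ k0 : ℝ, 0 < k0 ∧ k0 < 1 ∧
    ∀ (F : Fam d) (k : ℝ) (S : PSys F β k), 0 < k →
    k < k0 → BNoise N S.ν S.b S.gd → ∃ h0 : ℝ, 0 < h0 ∧ h0 ≤ 1 / 1000 ∧ ∀ h, 0 < h → h < h0 →
    ∀ (L : ℕ) (y : boxS d L) (n : ℕ) (G : (boxS d L → F.V) × (boxS d L → F.V)),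
      n * h ≤ T * ell k + 1 →
      PI (S.mu L) {ω | (∀ j, j < n → (∀ v, ω j v ∈ S.gd h) ∧ RegG k y R (S.tr h L G ω j)) ∧
        ∃ x, (boxNet d L).dist x y ≤ R ∧ ∃ s t, s ≤ t ∧ t ≤ n ∧
          ∑ j ∈ Finset.Ico s t, h * min 1 (mn (S.tr h L G ω j) x ^ β) <
            c0 * ((t - s : ℕ) : ℝ) * h - C0 * ell k} ≤
        ENNReal.ofReal (k ^ (1 / 2 : ℝ)) := by
  classical
  obtain ⟨c0, C0, k1, hc0, hC0, hk1, hk11, H⟩ := occ_prob N d hN β hβ
  refine ⟨c0, C0 + 1, hc0, by positivity, fun T R hT => ?_⟩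
  set M : ℝ := 3 ^ d * 2 ^ R * (8 * T + 3) ^ 2 with hM
  have hM0 : 0 < M := by positivity
  refine ⟨min k1 (min (Real.exp (-(4 * c0))) (M⁻¹ ^ 4)), by positivity,
    (min_le_left _ _).trans_lt hk11, fun F k S hk hkk hB => ?_⟩
  have hkk1 : k < k1 := hkk.trans_le (min_le_left _ _)
  have hkk2 : k < Real.exp (-(4 * c0)) :=
    hkk.trans_le ((min_le_right _ _).trans (min_le_left _ _))
  have hkk3 : k < M⁻¹ ^ 4 := hkk.trans_le ((min_le_right _ _).trans (min_le_right _ _))
  have hk1' : k < 1 := hkk1.trans hk11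
  obtain ⟨h0, hh0, hh01, H2⟩ := H F k S hk hkk1 hB
  refine ⟨h0, hh0, hh01, fun h hh hhh L y n G hn => ?_⟩
  have hell : 4 * c0 ≤ ell k := by
    have h1 : Real.exp (-ell k) ≤ Real.exp (-(4 * c0)) := by rw [OccB_ell hk]; exact hkk2.le
    have := Real.exp_le_exp.1 h1
    linarith
  have hell0 : 0 < ell k := by linarith
  have hell8 : ell k ≤ 8 * k ^ (-(1 / 8) : ℝ) := by
    have h1 := Real.log_le_rpow_div (x := 1 / k) (by positivity) (ε := 1 / 8) (by norm_num)
    unfold ell
    refine h1.trans (le_of_eq ?_)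
    rw [one_div k, Real.inv_rpow hk.le, ← Real.rpow_neg hk.le]
    ring
  have hkone : 1 ≤ k ^ (-(1 / 8) : ℝ) :=
    Real.one_le_rpow_of_pos_of_le_one_of_nonpos hk hk1'.le (by norm_num)
  -- the grid
  set p : ℕ := ⌈1 / h⌉₊ with hp
  have hp1 : 1 / h ≤ p := Nat.le_ceil _
  have hp0 : 0 < p := Nat.ceil_pos.2 (by positivity)
  have hph1 : 1 ≤ p * h := by
    rw [div_le_iff₀ hh] at hp1
    exact hp1
  have hph : p * h ≤ 2 := by
    have h1 : (p : ℝ) < 1 / h + 1 := Nat.ceil_lt_add_one (by positivity)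
    have h2 : (p : ℝ) * h ≤ (1 / h + 1) * h := by gcongr
    have h3 : (1 / h + 1) * h = 1 + h := by field_simp
    have h4 : h < 1 := by linarith
    linarith
  set q : ℕ := n / p with hq
  set Bx : Finset (boxS d L) := Finset.univ.filter fun x => (boxNet d L).dist x y ≤ R with hBx
  let Ev : boxS d L → ℕ → ℕ → Set (ℕ → boxS d L → S.Ωp) := fun x i m =>
    {ω | (∀ j, j < p * i + p * m → (∀ v, ω j v ∈ S.gd h) ∧ RegG k y R (S.tr h L G ω j)) ∧
      ∑ j ∈ Finset.Ico (p * i) (p * i + p * m), h * min 1 (mn (S.tr h L G ω j) x ^ β) <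
        c0 * ((p * m : ℕ) : ℝ) * h - C0 * ell k}
  have hsub : {ω | (∀ j, j < n → (∀ v, ω j v ∈ S.gd h) ∧ RegG k y R (S.tr h L G ω j)) ∧
        ∃ x, (boxNet d L).dist x y ≤ R ∧ ∃ s t, s ≤ t ∧ t ≤ n ∧
          ∑ j ∈ Finset.Ico s t, h * min 1 (mn (S.tr h L G ω j) x ^ β) <
            c0 * ((t - s : ℕ) : ℝ) * h - (C0 + 1) * ell k} ⊆
      ⋃ x ∈ Bx, ⋃ i ∈ Finset.range (q + 1), ⋃ m ∈ Finset.range (q + 1), Ev x i m := by
    rintro ω ⟨h1, x, hx, s, t, hst, htn, hlt⟩
    obtain ⟨i, m, him, hlt2⟩ := OccB_grid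
      (fun j => h * min 1 (mn (S.tr h L G ω j) x ^ β)) (fun j => mul_nonneg hh.le
        (le_min zero_le_one (Real.rpow_nonneg (le_min (norm_nonneg _) (norm_nonneg _)) _)))
      c0 C0 h (ell k) hc0 hC0 hell hh p hp0 hph s t n hst htn hlt
    have hi : i ≤ q := by
      rw [hq, Nat.le_div_iff_mul_le hp0]
      nlinarith [Nat.zero_le (p * m)]
    have hm : m ≤ q := by
      rw [hq, Nat.le_div_iff_mul_le hp0]
      nlinarith [Nat.zero_le (p * i)]
    simp only [Set.mem_iUnion]
    exact ⟨x, Finset.mem_filter.2 ⟨Finset.mem_univ _, hx⟩, i,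
      Finset.mem_range.2 (Nat.lt_succ_of_le hi), m, Finset.mem_range.2 (Nat.lt_succ_of_le hm),
      fun j hj => h1 j (by omega), hlt2⟩
  have hEv : ∀ x ∈ Bx, ∀ i m, PI (S.mu L) (Ev x i m) ≤ ENNReal.ofReal k := by
    intro x hx i m
    exact OccB_pair S h c0 C0 L y x R (fun n G => H2 h hh hhh L y x R
      (Finset.mem_filter.1 hx).2 n G) (p * i) (p * m) G
  have hbd : PI (S.mu L) (⋃ x ∈ Bx, ⋃ i ∈ Finset.range (q + 1),
      ⋃ m ∈ Finset.range (q + 1), Ev x i m) ≤
      ∑ _x ∈ Bx, ∑ _i ∈ Finset.range (q + 1), ∑ _m ∈ Finset.range (q + 1),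
        ENNReal.ofReal k := by
    refine (measure_biUnion_finset_le _ _).trans (Finset.sum_le_sum fun x hx => ?_)
    refine (measure_biUnion_finset_le _ _).trans (Finset.sum_le_sum fun i _ => ?_)
    refine (measure_biUnion_finset_le _ _).trans (Finset.sum_le_sum fun m _ => ?_)
    exact hEv x hx i m
  refine (measure_mono hsub).trans (hbd.trans ?_)
  have hsum : ∑ _x ∈ Bx, ∑ _i ∈ Finset.range (q + 1), ∑ _m ∈ Finset.range (q + 1),
        ENNReal.ofReal k =
      ENNReal.ofReal ((Bx.card : ℝ) * ((q + 1 : ℝ) * ((q + 1 : ℝ) * k))) := by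
    simp only [Finset.sum_const, Finset.card_range, nsmul_eq_mul]
    rw [ENNReal.ofReal_mul (Nat.cast_nonneg _), ENNReal.ofReal_mul (by positivity),
      ENNReal.ofReal_mul (by positivity), ENNReal.ofReal_natCast]
    have e : ENNReal.ofReal ((q : ℝ) + 1) = ((q + 1 : ℕ) : ℝ≥0∞) := by
      rw [← ENNReal.ofReal_natCast]
      push_cast
      rfl
    rw [e]
  rw [hsum]
  refine ENNReal.ofReal_le_ofReal ?_
  have hq1 : (q : ℝ) + 1 ≤ T * ell k + 3 := by
    have h1 : (q : ℝ) * p ≤ n := by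
      rw [hq]
      exact_mod_cast Nat.div_mul_le_self n p
    have h2 : (q : ℝ) ≤ n * h := by
      calc (q : ℝ) = q * 1 := (mul_one _).symm
        _ ≤ q * (p * h) := by gcongr
        _ = (q * p) * h := by ring
        _ ≤ n * h := by gcongr
    linarith
  have hq2 : (q : ℝ) + 1 ≤ (8 * T + 3) * k ^ (-(1 / 8) : ℝ) := by
    have h1 : T * ell k ≤ T * (8 * k ^ (-(1 / 8) : ℝ)) := by gcongr
    nlinarith
  have hball := OccB_ball d L R y
  rw [← hBx] at hball
  have hkk4 : k ^ (1 / 4 : ℝ) * M ≤ 1 := by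
    have h1 : k ^ (1 / 4 : ℝ) ≤ (M⁻¹ ^ 4) ^ (1 / 4 : ℝ) :=
      Real.rpow_le_rpow hk.le hkk3.le (by norm_num)
    have h2 : ((M⁻¹ ^ 4 : ℝ)) ^ (1 / 4 : ℝ) = M⁻¹ := by
      rw [← Real.rpow_natCast, ← Real.rpow_mul (by positivity)]
      norm_num
    rw [h2] at h1
    calc k ^ (1 / 4 : ℝ) * M ≤ M⁻¹ * M := by gcongr
      _ = 1 := inv_mul_cancel₀ hM0.ne'
  have hpw1 : k ^ (-(1 / 8) : ℝ) * k ^ (-(1 / 8) : ℝ) * k = k ^ (1 / 2 : ℝ) * k ^ (1 / 4 : ℝ) := by
    conv_lhs => rw [← Real.rpow_one k]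
    rw [← Real.rpow_mul hk.le, ← Real.rpow_add hk, ← Real.rpow_add hk, ← Real.rpow_add hk]
    norm_num
  calc (Bx.card : ℝ) * ((q + 1 : ℝ) * ((q + 1 : ℝ) * k))
      ≤ (3 ^ d * 2 ^ R) * (((8 * T + 3) * k ^ (-(1 / 8) : ℝ)) *
        (((8 * T + 3) * k ^ (-(1 / 8) : ℝ)) * k)) := by gcongr
    _ = M * (k ^ (-(1 / 8) : ℝ) * k ^ (-(1 / 8) : ℝ) * k) := by rw [hM]; ring
    _ = k ^ (1 / 2 : ℝ) * (k ^ (1 / 4 : ℝ) * M) := by rw [hpw1]; ring
    _ ≤ k ^ (1 / 2 : ℝ) * 1 := by gcongr
    _ = k ^ (1 / 2 : ℝ) := mul_one _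

end DynG
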