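import Pool.Agent.Lib_MP_36b788g.ZStep

/-!
# Deterministic lower bound of the weights

`σ 0 = 0`, `σ (j+1) x = min_z (σ j z + hχ_j z + dist x z·ℓ/2)`.

PROOF.
* `sig_path`: the minimum is attained (`upd_attained`); induction on `n`: for `n+1` and `x` take the minimizer `z'`, the path `z` for `(n, z')`, and set `z (n+1) = x` (redefine the path from
  `n+1` on, `Function.update`).
* `sig_seg`: for a path `z` (times `j < n` count) with values in `B`: `Σ_{j<n}hχ_j(z j) ≥ c n h - C0ℓ(m+1)`, `m` = total variation `Σ_{j<n-1} dist(z (j+1)) (z j)` (a natural number). Strong induction on `n`: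
  if `z` is constant on `[0,n)` use the hypothesis with `s = 0, t = n`; otherwise let `s` be minimal with `z` constant on `[s,n)`, `s ≥ 1`, the jump from `s-1` to `s` has distance `≥ 1` (`dist_pos`), use the
  hypothesis on `[s,n)` and the induction hypothesis on `[0,s)`, whose variation is `≤ m-1`. (`n = 0`: trivial, `C0ℓ ≥ 0`.)
* `sig_low`: take the path of `sig_path` for `(n,x)`, `V = Σ_{j<n}dist(z(j+1))(z j)` its total variation, `σ n x = Σ_{j<n}hχ_j(z j)+Vℓ/2`.
  (i) If all `z j`, `j < n`, are in `B`: `σ n x ≥ Vℓ/2` (`χ ≥ 0` on `B`) and `σ n x ≥ c n h-C0ℓ(V+1)+Vℓ/2 ≥ cnh-C0ℓ-C0ℓV`; multiply the first by `2C0/(2C0+1)`, the second by `1/(2C0+1)`: `σ n x ≥ (cnh-C0ℓ)/(2C0+1)`.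
  (ii) If some `z j ∉ B`: `V ≥ dist x (z j) ≥ dist (z j) y - dist x y > R-ρ0`, all `χ ≥ -C'`: `σ n x ≥ (R-ρ0)ℓ/2-C'nh`.
-/

open MeasureTheory ProbabilityTheory
open scoped ENNReal

namespace DynG

open Dyn DynS DynC

variable {ι : Type} [Fintype ι] {d : ℕ}

theorem sig_path (net : Net ι d) (ℓ h : ℝ) (χ σ : ℕ → ι → ℝ)
    (hσ : ∀ j x, σ (j + 1) x = upd net ℓ h (χ j) (σ j) x) (n : ℕ) (x : ι) :
    ∃ z : ℕ → ι, z n = x ∧ σ n x = σ 0 (z 0) +
      ∑ j ∈ Finset.range n, (h * χ j (z j) + net.dist (z (j + 1)) (z j) * (ℓ / 2)) := by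
  induction n generalizing x with
  | zero => exact ⟨fun _ => x, rfl, by simp⟩
  | succ n ih =>
    obtain ⟨z', hz'⟩ := upd_attained net ℓ h (χ n) (σ n) x
    obtain ⟨z, hz, hs⟩ := ih z'
    refine ⟨fun j => if j ≤ n then z j else x, by simp, ?_⟩
    rw [hσ n x, hz', hs, Finset.sum_range_succ]
    have e1 : ∑ j ∈ Finset.range n, (h * χ j (if j ≤ n then z j else x) +
        (net.dist (if j + 1 ≤ n then z (j + 1) else x) (if j ≤ n then z j else x) : ℝ) * (ℓ / 2)) =
        ∑ j ∈ Finset.range n, (h * χ j (z j) + (net.dist (z (j + 1)) (z j) : ℝ) * (ℓ / 2)) := by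
      refine Finset.sum_congr rfl fun j hj => ?_
      have hj' := Finset.mem_range.1 hj
      rw [if_pos hj'.le, if_pos (by omega : j + 1 ≤ n)]
    have a1 : (if n ≤ n then z n else x) = z' := by rw [if_pos le_rfl, hz]
    have a2 : (if n + 1 ≤ n then z (n + 1) else x) = x := if_neg (by omega)
    have a3 : (if 0 ≤ n then z 0 else x) = z 0 := if_pos (Nat.zero_le n)
    beta_reduce
    rw [e1, a1, a2, a3]
    ring

/-- triangle inequality along a path -/
private theorem Sig_tri (net : Net ι d) (z : ℕ → ι) (j n : ℕ) (hjn : j ≤ n) :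
    net.dist (z n) (z j) ≤ ∑ i ∈ Finset.Ico j n, net.dist (z (i + 1)) (z i) := by
  induction n, hjn using Nat.le_induction with
  | base => simp [net.dist_self]
  | succ n hn ih =>
    rw [Finset.sum_Ico_succ_top hn]
    have h1 := net.dist_tri (z (n + 1)) (z n) (z j)
    omega

theorem sig_seg (net : Net ι d) {ℓ h c C0 : ℝ} (hℓ : 0 ≤ ℓ) (hC0 : 0 ≤ C0) (χ : ℕ → ι → ℝ)
    (B : Set ι) (n : ℕ) (hocc : ∀ x ∈ B, ∀ s t, s ≤ t → t ≤ n →
      c * ((t - s : ℕ) : ℝ) * h - C0 * ℓ ≤ ∑ j ∈ Finset.Ico s t, h * χ j x)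
    (z : ℕ → ι) (hz : ∀ j, j < n → z j ∈ B) :
    c * n * h - C0 * ℓ * ((∑ j ∈ Finset.range (n - 1), net.dist (z (j + 1)) (z j) : ℕ) + 1) ≤
      ∑ j ∈ Finset.range n, h * χ j (z j) := by
  have hCl : 0 ≤ C0 * ℓ := mul_nonneg hC0 hℓ
  induction n using Nat.strong_induction_on with
  | _ n ih =>
    rcases Nat.eq_zero_or_pos n with rfl | hn
    · simp
      exact hCl
    classical
    have hex : ∃ s, s < n ∧ ∀ j, s ≤ j → j < n → z j = z (n - 1) :=
      ⟨n - 1, by omega, fun j h1 h2 => by rw [show j = n - 1 by omega]⟩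
    obtain ⟨hsn, hs⟩ := Nat.find_spec hex
    have hmin : ∀ m, m < Nat.find hex → ¬ (m < n ∧ ∀ j, m ≤ j → j < n → z j = z (n - 1)) :=
      fun m hm => Nat.find_min hex hm
    generalize Nat.find hex = s at hsn hs hmin
    have hzn : z (n - 1) ∈ B := hz _ (by omega)
    have h1 := hocc (z (n - 1)) hzn s n hsn.le le_rfl
    have h2 : ∑ j ∈ Finset.Ico s n, h * χ j (z (n - 1)) = ∑ j ∈ Finset.Ico s n, h * χ j (z j) := by
      refine Finset.sum_congr rfl fun j hj => ?_
      rw [Finset.mem_Ico] at hj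
      rw [hs j hj.1 hj.2]
    rw [h2] at h1
    have h3 : ∑ j ∈ Finset.range n, h * χ j (z j) =
        ∑ j ∈ Finset.range s, h * χ j (z j) + ∑ j ∈ Finset.Ico s n, h * χ j (z j) := by
      rw [Finset.sum_range_add_sum_Ico _ hsn.le]
    have h4 : ((n - s : ℕ) : ℝ) = n - s := by
      rw [Nat.cast_sub hsn.le]
    rw [h4] at h1
    rcases Nat.eq_zero_or_pos s with rfl | hs0
    · rw [h3]
      have h5 : (0 : ℝ) ≤ ((∑ j ∈ Finset.range (n - 1), net.dist (z (j + 1)) (z j) : ℕ) : ℝ) :=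
        Nat.cast_nonneg _
      simp only [Finset.range_zero, Finset.sum_empty, Nat.cast_zero, sub_zero, zero_add] at h1 ⊢
      nlinarith [mul_nonneg hCl h5]
    · -- a jump at `s - 1`
      have h5 := ih s hsn (fun x hx a b hab hb => hocc x hx a b hab (hb.trans hsn.le))
        (fun j hj => hz j (hj.trans hsn))
      have hjump : z (s - 1) ≠ z (n - 1) := by
        intro heq
        refine hmin (s - 1) (by omega) ⟨by omega, fun j hj1 hj2 => ?_⟩
        rcases Nat.lt_or_ge j s with h6 | h6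
        · rw [show j = s - 1 by omega]
          exact heq
        · exact hs j h6 hj2
      have h6 : 1 ≤ net.dist (z (s - 1 + 1)) (z (s - 1)) := by
        apply net.dist_pos
        rw [show s - 1 + 1 = s by omega, hs s le_rfl hsn]
        exact hjump.symm
      have h7 : ∑ j ∈ Finset.range (s - 1), net.dist (z (j + 1)) (z j) + 1 ≤
          ∑ j ∈ Finset.range (n - 1), net.dist (z (j + 1)) (z j) := by
        have h8 : Finset.range (s - 1 + 1) ⊆ Finset.range (n - 1) := by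
          rw [Finset.range_subset_range]
          omega
        have h9 := Finset.sum_le_sum_of_subset (f := fun j => net.dist (z (j + 1)) (z j)) h8
        rw [Finset.sum_range_succ] at h9
        omega
      have h8 : ((∑ j ∈ Finset.range (s - 1), net.dist (z (j + 1)) (z j) : ℕ) : ℝ) + 1 ≤
          ((∑ j ∈ Finset.range (n - 1), net.dist (z (j + 1)) (z j) : ℕ) : ℝ) := by
        exact_mod_cast h7
      rw [h3]
      nlinarith [mul_le_mul_of_nonneg_left h8 hCl]

theorem sig_low (net : Net ι d) {ℓ h c C0 C' : ℝ} (hℓ : 0 < ℓ) (hh : 0 < h) (hc : 0 < c)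
    (hC0 : 0 < C0) (hC' : 0 ≤ C') (χ σ : ℕ → ι → ℝ)
    (hσ : ∀ j x, σ (j + 1) x = upd net ℓ h (χ j) (σ j) x) (hσ0 : ∀ x, σ 0 x = 0) (n : ℕ)
    (y : ι) (R : ℕ)
    (hocc : ∀ x, net.dist x y ≤ R → ∀ s t, s ≤ t → t ≤ n →
      c * ((t - s : ℕ) : ℝ) * h - C0 * ℓ ≤ ∑ j ∈ Finset.Ico s t, h * χ j x)
    (hpos : ∀ j x, net.dist x y ≤ R → 0 ≤ χ j x) (hneg : ∀ j x, -C' ≤ χ j x)
    (ρ0 : ℝ) (x : ι) (hx : net.dist x y ≤ ρ0) :
    min ((c * n * h - C0 * ℓ) / (2 * C0 + 1)) ((R - ρ0) * (ℓ / 2) - C' * (n * h)) ≤ σ n x := by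
  obtain ⟨z, hzn, hz⟩ := sig_path net ℓ h χ σ hσ n x
  rw [hσ0, zero_add, Finset.sum_add_distrib, ← Finset.sum_mul, ← Nat.cast_sum] at hz
  have hV0 : (0 : ℝ) ≤ ((∑ i ∈ Finset.range n, net.dist (z (i + 1)) (z i) : ℕ) : ℝ) :=
    Nat.cast_nonneg _
  by_cases hall : ∀ j, j < n → net.dist (z j) y ≤ R
  · refine (min_le_left _ _).trans ?_
    have h1 := sig_seg net hℓ.le hC0.le χ {w | net.dist w y ≤ R} n hocc z hall
    have h2 : 0 ≤ ∑ j ∈ Finset.range n, h * χ j (z j) :=
      Finset.sum_nonneg fun j hj => mul_nonneg hh.le (hpos j _ (hall j (Finset.mem_range.1 hj)))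
    have h3 : ((∑ j ∈ Finset.range (n - 1), net.dist (z (j + 1)) (z j) : ℕ) : ℝ) ≤
        ((∑ i ∈ Finset.range n, net.dist (z (i + 1)) (z i) : ℕ) : ℝ) := by
      have h4 : Finset.range (n - 1) ⊆ Finset.range n := by
        rw [Finset.range_subset_range]
        omega
      have h5 := Finset.sum_le_sum_of_subset (f := fun j => net.dist (z (j + 1)) (z j)) h4
      exact_mod_cast h5
    have hpos' : 0 < 2 * C0 + 1 := by linarith
    rw [div_le_iff₀ hpos', hz]
    have hCl : 0 < C0 * ℓ := mul_pos hC0 hℓ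
    have h6 := mul_le_mul_of_nonneg_left h3 hCl.le
    have h7 := mul_nonneg hC0.le h2
    have h8 := mul_nonneg hV0 hℓ.le
    generalize ((∑ i ∈ Finset.range n, net.dist (z (i + 1)) (z i) : ℕ) : ℝ) = V at *
    generalize ((∑ j ∈ Finset.range (n - 1), net.dist (z (j + 1)) (z j) : ℕ) : ℝ) = V' at *
    generalize (∑ j ∈ Finset.range n, h * χ j (z j)) = A at *
    nlinarith
  · refine (min_le_right _ _).trans ?_
    push Not at hall
    obtain ⟨j, hj, hjR⟩ := hall
    have h1 : -(C' * (n * h)) ≤ ∑ j ∈ Finset.range n, h * χ j (z j) := by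
      have h2 : ∑ _j ∈ Finset.range n, (-(C' * h)) ≤ ∑ j ∈ Finset.range n, h * χ j (z j) :=
        Finset.sum_le_sum fun j _ => by nlinarith [hneg j (z j)]
      rw [Finset.sum_const, Finset.card_range, nsmul_eq_mul] at h2
      nlinarith
    have h2 := Sig_tri net z j n hj.le
    rw [hzn] at h2
    have h3 : ∑ i ∈ Finset.Ico j n, net.dist (z (i + 1)) (z i) ≤
        ∑ i ∈ Finset.range n, net.dist (z (i + 1)) (z i) := by
      apply Finset.sum_le_sum_of_subset
      intro i hi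
      rw [Finset.mem_Ico] at hi
      exact Finset.mem_range.2 hi.2
    have h4 := net.dist_tri (z j) x y
    rw [net.dist_comm (z j) x] at h4
    have h5 : (R : ℝ) ≤ net.dist x (z j) + net.dist x y := by exact_mod_cast (by omega)
    have h6 : (net.dist x (z j) : ℝ) ≤
        ((∑ i ∈ Finset.range n, net.dist (z (i + 1)) (z i) : ℕ) : ℝ) := by
      exact_mod_cast h2.trans h3
    rw [hz]
    have h7 : (R : ℝ) - ρ0 ≤ ((∑ i ∈ Finset.range n, net.dist (z (i + 1)) (z i) : ℕ) : ℝ) := by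
      linarith
    nlinarith [mul_le_mul_of_nonneg_right h7 (by linarith : (0 : ℝ) ≤ ℓ / 2)]

end DynG
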