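import Pool.Agent.Lib_MP_36b788g.ZIter
import Pool.Agent.Lib_MP_36b788g.Sig
import Pool.Agent.Lib_MP_36b788g.OccB

/-!
# Contraction along regular paths

PROOF of `path_contr`. `c, C'` from `z_iter`, `c0, C0` from `occ_all`; `A1 = cC0`, `a = c c0/(2A1+1)`, `A = A1/(2A1+1)`, `k < k0`, `S = PS3`. `σ_j = (traj est (G,0) ω j).2`, `χ_j = chi c β C' y R (tr j)`; `est_snd` gives the
recursion of `sig_low`, `est_fst` identifies the first component with `tr`.
(1) `z_iter` with `σ = 0`, `n = m`: `∫⁻_{good, RegG at j<m}YW(σ_m, tr m) ≤ (1+k^{1/4}h)^mQ² ≤ 2Q²` (`k^{1/4}(T ell+1) ≤ log 2`). Markov: outside probability `≤ 2k`: `YW(σ_m, tr m) ≤ k^{-1}Q²` (for `Q = 0`: `YW = 0` a.e. there, i.e. the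
exceptional set `{YW > 0}` is null).
(2) `occ_all`: outside probability `k^{1/2}`: for all `x'` in the ball and `s ≤ t ≤ m`: `Σ_{[s,t)}hχ_j x' ≥ c c0(t-s)h-cC0ell`.
(3) `sig_low` (`ℓ = ell k`, `c := c c0`, `C0 := A1`; `χ ≥ 0` in the ball; `χ ≥ -C'`): `σ_m x ≥ min(a m h-A ell, (R-ρ0)ell/2-C'mh)`.
(4) `x` is in the ball (`ρ0 ≤ R`), one term of `YW`: `e^{σ_m x}Zr ≤ k^{-1}Q²`, and `‖D x‖² = Zr·‖(tr m).1 x‖‖(tr m).2 x‖ ≤ k^{-1/8}Zr` (`RegG` at `m`; both are nonzero). So `‖D x‖² ≤ k^{-9/8}e^{-σ_m x}Q²`,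
`e^{-σ_m x} ≤ k^{min(a m h/ell-A, (R-ρ0)/2-C'mh/ell)}`, square root: `‖D x‖ ≤ k^{-9/16+min/2}Q ≤ k^{min/2-1}Q`. Exceptional probability `2k+k^{1/2} ≤ k^{1/4}`.
-/

open MeasureTheory ProbabilityTheory
open scoped ENNReal

namespace DynG

open Dyn DynS DynC

private theorem PathC3_exp {k a : ℝ} (hk : 0 < k) : k ^ a = Real.exp (-(a * ell k)) := by
  unfold ell
  rw [Real.rpow_def_of_pos hk, one_div, Real.log_inv]
  congr 1
  ring

private theorem PathC3_le {k a b : ℝ} (hk : 0 < k) (hk1 : k < 1) (h : b ≤ a) : k ^ a ≤ k ^ b :=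
  Real.rpow_le_rpow_of_exponent_ge hk hk1.le h

private theorem PathC3_small {k T : ℝ} (hk : 0 < k) (hk1 : k < 1) (hT : 1 ≤ T)
    (h8 : k ^ (1 / 8 : ℝ) ≤ 1 / (2 * (8 * T + 1))) :
    k ^ (1 / 4 : ℝ) * (T * ell k + 1) ≤ 1 / 2 := by
  have h1 : ell k ≤ 8 * k ^ (-(1 / 8) : ℝ) := by
    have h2 := Real.log_le_rpow_div (x := 1 / k) (by positivity) (ε := 1 / 8) (by norm_num)
    have h3 : (1 / k) ^ (1 / 8 : ℝ) = k ^ (-(1 / 8) : ℝ) := by
      rw [one_div, Real.inv_rpow hk.le, Real.rpow_neg hk.le]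
    rw [h3] at h2
    unfold ell
    linarith
  have h4 : k ^ (1 / 4 : ℝ) * k ^ (-(1 / 8) : ℝ) = k ^ (1 / 8 : ℝ) := by
    rw [← Real.rpow_add hk]
    norm_num
  have h5 : k ^ (1 / 4 : ℝ) ≤ k ^ (1 / 8 : ℝ) := PathC3_le hk hk1 (by norm_num)
  have h6 : 0 < k ^ (1 / 4 : ℝ) := Real.rpow_pos_of_pos hk _
  rw [le_div_iff₀ (by positivity)] at h8
  calc k ^ (1 / 4 : ℝ) * (T * ell k + 1)
      ≤ k ^ (1 / 4 : ℝ) * (T * (8 * k ^ (-(1 / 8) : ℝ)) + 1) := by
        refine mul_le_mul_of_nonneg_left ?_ h6.le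
        have := mul_le_mul_of_nonneg_left h1 (by linarith : (0 : ℝ) ≤ T)
        linarith
    _ = 8 * T * (k ^ (1 / 4 : ℝ) * k ^ (-(1 / 8) : ℝ)) + k ^ (1 / 4 : ℝ) := by ring
    _ ≤ 8 * T * k ^ (1 / 8 : ℝ) + k ^ (1 / 8 : ℝ) := by
        rw [h4]
        linarith
    _ ≤ 1 / 2 := by linarith

private theorem PathC3_markov {Ω : Type} [MeasurableSpace Ω] (μ : Measure Ω) (E : Set Ω)
    (f : Ω → ℝ) (hf : Measurable f) (k Q : ℝ) (hk : 0 < k) (hQ : 0 ≤ Q)
    (hint : ∫⁻ ω in E, ENNReal.ofReal (f ω) ∂μ ≤ ENNReal.ofReal (2 * Q ^ 2)) :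
    μ ({ω | k⁻¹ * Q ^ 2 < f ω} ∩ E) ≤ ENNReal.ofReal (2 * k) := by
  have hS : MeasurableSet {ω | k⁻¹ * Q ^ 2 < f ω} := measurableSet_lt measurable_const hf
  rw [← Measure.restrict_apply hS]
  rcases eq_or_lt_of_le hQ with h0 | h0
  · rw [← h0] at hint ⊢
    have h1 : ∫⁻ ω in E, ENNReal.ofReal (f ω) ∂μ = 0 := by
      refine le_antisymm (hint.trans ?_) bot_le
      simp
    have h2 := (lintegral_eq_zero_iff hf.ennreal_ofReal).1 h1
    have h3 : (μ.restrict E) {ω | k⁻¹ * (0 : ℝ) ^ 2 < f ω} = 0 := by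
      refine measure_mono_null ?_ h2
      intro ω hω hcon
      have h4 : 0 < f ω := by
        have h5 : k⁻¹ * (0 : ℝ) ^ 2 < f ω := hω
        simpa using h5
      have h6 : ENNReal.ofReal (f ω) = 0 := hcon
      rw [ENNReal.ofReal_eq_zero] at h6
      linarith
    rw [h3]
    exact bot_le
  · have ht : 0 < k⁻¹ * Q ^ 2 := by positivity
    have h1 := mul_meas_ge_le_lintegral (μ := μ.restrict E) hf.ennreal_ofReal
      (ENNReal.ofReal (k⁻¹ * Q ^ 2))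
    have hpos : ENNReal.ofReal (k⁻¹ * Q ^ 2) ≠ 0 := (ENNReal.ofReal_pos.2 ht).ne'
    have h3 : (μ.restrict E) {ω | ENNReal.ofReal (k⁻¹ * Q ^ 2) ≤ ENNReal.ofReal (f ω)} ≤
        ENNReal.ofReal (2 * Q ^ 2) / ENNReal.ofReal (k⁻¹ * Q ^ 2) := by
      rw [ENNReal.le_div_iff_mul_le (Or.inl hpos) (Or.inl ENNReal.ofReal_ne_top), mul_comm]
      exact h1.trans hint
    refine (measure_mono ?_).trans (h3.trans ?_)
    · intro ω hω
      exact ENNReal.ofReal_le_ofReal (le_of_lt hω)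
    · rw [← ENNReal.ofReal_div_of_pos ht]
      refine ENNReal.ofReal_le_ofReal (le_of_eq ?_)
      field_simp

private theorem PathC3_Zr {N : ℕ} (g g' : E N) : 0 ≤ Zr g g' := by
  unfold Zr
  positivity

private theorem PathC3_det {N d L : ℕ} {k : ℝ} (hk : 0 < k) (hk1 : k < 1) (y x : boxS d L) (R : ℕ)
    (σ : boxS d L → ℝ) (G : (boxS d L → E N) × (boxS d L → E N)) (hR : RegG k y R G)
    (hx : (boxNet d L).dist x y ≤ R) (Q M : ℝ) (hQ : 0 ≤ Q)
    (hY : YW y R σ G ≤ k⁻¹ * Q ^ 2) (hσ : M * ell k ≤ σ x) :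
    ‖G.1 x - G.2 x‖ ≤ k ^ (M / 2 - 1) * Q := by
  have h1 : Real.exp (σ x) * Zr (G.1 x) (G.2 x) ≤ YW y R σ G := by
    have h2 := Finset.single_le_sum
      (f := fun x => Real.exp (σ x) * (if (boxNet d L).dist x y ≤ R then Zr (G.1 x) (G.2 x)
        else ‖G.1 x - G.2 x‖ ^ 2))
      (fun v _ => by
        refine mul_nonneg (Real.exp_pos _).le ?_
        split_ifs
        · exact PathC3_Zr _ _
        · positivity) (Finset.mem_univ x)
    unfold YW
    refine le_trans ?_ h2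
    show _ ≤ Real.exp (σ x) * (if (boxNet d L).dist x y ≤ R then Zr (G.1 x) (G.2 x)
        else ‖G.1 x - G.2 x‖ ^ 2)
    rw [if_pos hx]
  obtain ⟨hl1, hl2⟩ := hR.1 x hx
  obtain ⟨hu1, hu2⟩ := hR.2 x (by omega)
  have hk4 : 0 < k ^ (1 / 4 : ℝ) := Real.rpow_pos_of_pos hk _
  have hp1 : 0 < ‖G.1 x‖ := lt_of_lt_of_le hk4 hl1
  have hp2 : 0 < ‖G.2 x‖ := lt_of_lt_of_le hk4 hl2
  have h3 : ‖G.1 x - G.2 x‖ ^ 2 = Zr (G.1 x) (G.2 x) * (‖G.1 x‖ * ‖G.2 x‖) := by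
    unfold Zr
    rw [div_mul_cancel₀]
    positivity
  have h4 : ‖G.1 x‖ * ‖G.2 x‖ ≤ k ^ (-(1 / 8) : ℝ) := by
    calc ‖G.1 x‖ * ‖G.2 x‖ ≤ k ^ (-(1 / 16) : ℝ) * k ^ (-(1 / 16) : ℝ) :=
          mul_le_mul hu1 hu2 hp2.le (Real.rpow_pos_of_pos hk _).le
      _ = k ^ (-(1 / 8) : ℝ) := by
          rw [← Real.rpow_add hk]
          norm_num
  have h5 : Zr (G.1 x) (G.2 x) ≤ k ^ M * (k⁻¹ * Q ^ 2) := by
    have h6 : Real.exp (σ x) * Zr (G.1 x) (G.2 x) ≤ k⁻¹ * Q ^ 2 := h1.trans hY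
    have h7 : Real.exp (-(σ x)) ≤ k ^ M := by
      rw [PathC3_exp hk]
      exact Real.exp_le_exp.2 (by linarith)
    calc Zr (G.1 x) (G.2 x) = Real.exp (-(σ x)) * (Real.exp (σ x) * Zr (G.1 x) (G.2 x)) := by
          rw [← mul_assoc, ← Real.exp_add, neg_add_cancel, Real.exp_zero, one_mul]
      _ ≤ Real.exp (-(σ x)) * (k⁻¹ * Q ^ 2) := mul_le_mul_of_nonneg_left h6 (Real.exp_pos _).le
      _ ≤ k ^ M * (k⁻¹ * Q ^ 2) := mul_le_mul_of_nonneg_right h7 (by positivity)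
  have h8 : ‖G.1 x - G.2 x‖ ^ 2 ≤ (k ^ (M / 2 - 1) * Q) ^ 2 := by
    have hM : 0 < k ^ M := Real.rpow_pos_of_pos hk _
    calc ‖G.1 x - G.2 x‖ ^ 2 = Zr (G.1 x) (G.2 x) * (‖G.1 x‖ * ‖G.2 x‖) := h3
      _ ≤ (k ^ M * (k⁻¹ * Q ^ 2)) * k ^ (-(1 / 8) : ℝ) :=
          mul_le_mul h5 h4 (by positivity) (by positivity)
      _ = k ^ (M + (-1) + (-(1 / 8) : ℝ)) * Q ^ 2 := by
          rw [Real.rpow_add hk, Real.rpow_add hk, Real.rpow_neg_one]
          ring
      _ ≤ k ^ (M - 2) * Q ^ 2 :=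
          mul_le_mul_of_nonneg_right (PathC3_le hk hk1 (by linarith)) (by positivity)
      _ = (k ^ (M / 2 - 1) * Q) ^ 2 := by
          rw [mul_pow, ← Real.rpow_natCast (k ^ (M / 2 - 1)), ← Real.rpow_mul hk.le]
          congr 2
          push_cast
          ring
  exact (sq_le_sq₀ (norm_nonneg _) (by positivity)).mp h8

theorem path_contr (N d : ℕ) (hN : 3 ≤ N) (β : ℝ) (hβ : 0 < β) : ∃ a A C' : ℝ, 0 < a ∧ a ≤ 1 ∧
    0 < A ∧ A ≤ 1 ∧ 0 < C' ∧ ∀ (T : ℝ) (R : ℕ), 1 ≤ T → ∃ k0 : ℝ, 0 < k0 ∧ k0 < 1 ∧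
    ∀ (k : ℝ) (hk : 0 < k), k < k0 → ∃ h0 : ℝ, 0 < h0 ∧ ∀ h, 0 < h → h < h0 →
    ∀ (L : ℕ) (G : (boxS d L → E N) × (boxS d L → E N)) (x y : boxS d L) (m : ℕ) (Q ρ0 : ℝ),
      m * h ≤ T * ell k + 1 → 0 ≤ Q → YW y R (fun _ => 0) G ≤ Q ^ 2 →
      (boxNet d L).dist x y ≤ ρ0 → ρ0 ≤ R →
      PI ((PS3 N d hN β k hβ hk.le).mu L) {ω | (∀ j, j < m → ∀ v, ω j v ∈ gdE hN h) ∧
        (∀ j, j ≤ m → RegG k y R ((PS3 N d hN β k hβ hk.le).tr h L G ω j)) ∧
        k ^ (min (a * (m * h) / ell k - A) ((R - ρ0) / 2 - C' * (m * h) / ell k) / 2 - 1) * Q <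
          ‖((PS3 N d hN β k hβ hk.le).tr h L G ω m).1 x -
            ((PS3 N d hN β k hβ hk.le).tr h L G ω m).2 x‖} ≤
        ENNReal.ofReal (k ^ (1 / 4 : ℝ)) := by
  classical
  obtain ⟨c, C', kz, hc, hc1, hC', hkz, hkz1, HZ⟩ := z_iter N d hN β hβ
  obtain ⟨c0, C0, hc0, hC0, HO⟩ := occ_all N d hN β hβ
  set A1 : ℝ := c * C0 with hA1
  have hA10 : 0 < A1 := by positivity
  set a' : ℝ := c * c0 / (2 * A1 + 1) with ha'
  have ha'0 : 0 < a' := by positivity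
  refine ⟨min 1 a', A1 / (2 * A1 + 1), C', by positivity, min_le_left _ _, by positivity, ?_, hC',
    ?_⟩
  · rw [div_le_one (by positivity)]
    linarith
  intro T R hT
  obtain ⟨ko, hko, hko1, HO1⟩ := HO T R hT
  refine ⟨min (min kz ko) (min ((1 / (2 * (8 * T + 1))) ^ (8 : ℕ)) ((1 / 2) ^ (4 : ℕ))),
    by positivity, (min_le_left _ _).trans_lt ((min_le_left _ _).trans_lt hkz1), ?_⟩
  intro k hk hkk
  have hkz' : k < kz := hkk.trans_le ((min_le_left _ _).trans (min_le_left _ _))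
  have hko' : k < ko := hkk.trans_le ((min_le_left _ _).trans (min_le_right _ _))
  have hk8' : k ≤ (1 / (2 * (8 * T + 1))) ^ (8 : ℕ) :=
    hkk.le.trans ((min_le_right _ _).trans (min_le_left _ _))
  have hk4' : k ≤ (1 / 2) ^ (4 : ℕ) :=
    hkk.le.trans ((min_le_right _ _).trans (min_le_right _ _))
  have hk1 : k < 1 := hkz'.trans hkz1
  have hell : 0 < ell k := ell_pos hk hk1
  have hk8 : k ^ (1 / 8 : ℝ) ≤ 1 / (2 * (8 * T + 1)) := by
    calc k ^ (1 / 8 : ℝ) ≤ ((1 / (2 * (8 * T + 1))) ^ (8 : ℕ)) ^ (1 / 8 : ℝ) :=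
          Real.rpow_le_rpow hk.le hk8' (by norm_num)
      _ = 1 / (2 * (8 * T + 1)) := by
          rw [← Real.rpow_natCast, ← Real.rpow_mul (by positivity)]
          norm_num
  have hk4 : k ^ (1 / 4 : ℝ) ≤ 1 / 2 := by
    calc k ^ (1 / 4 : ℝ) ≤ ((1 / 2 : ℝ) ^ (4 : ℕ)) ^ (1 / 4 : ℝ) :=
          Real.rpow_le_rpow hk.le hk4' (by norm_num)
      _ = 1 / 2 := by
          rw [← Real.rpow_natCast, ← Real.rpow_mul (by norm_num)]
          norm_num
  have hsmall := PathC3_small hk hk1 hT hk8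
  obtain ⟨h1, hh1, hh1', HZ1⟩ := HZ k hk hkz'
  obtain ⟨h2, hh2, hh2', HO2⟩ := HO1 (Fam1 N d β k) k (PS3 N d hN β k hβ hk.le) hk hko' (bnoise3 hN)
  refine ⟨min h1 h2, lt_min hh1 hh2, ?_⟩
  intro h hh hlt L G x y m Q ρ0 hm hQ hYQ hxy hρR
  have hlt1 : h < h1 := hlt.trans_le (min_le_left _ _)
  have hlt2 : h < h2 := hlt.trans_le (min_le_right _ _)
  have hxR : (boxNet d L).dist x y ≤ R := by exact_mod_cast hxy.trans hρR
  set μ : Measure (ℕ → boxS d L → E N) := PI (Measure.pi fun _ : boxS d L => stdGaussian (E N))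
    with hμ
  set s0 : ((boxS d L → E N) × (boxS d L → E N)) × (boxS d L → ℝ) := (G, fun _ => 0) with hs0
  set EE : Set (ℕ → boxS d L → E N) := {ω | ∀ j, j < m → (∀ x, ω j x ∈ gdE hN h) ∧
            RegG k y R (traj (st3 hN β k h L) G ω j)} with hEE
  set f : (ℕ → boxS d L → E N) → ℝ := fun ω => YW y R
    (traj (est hN c C' β k h L y R) s0 ω m).2 (traj (est hN c C' β k h L y R) s0 ω m).1 with hf
  have hfm : Measurable f := by
    have h3 : Measurable fun ω : ℕ → boxS d L → E N => traj (est hN c C' β k h L y R) s0 ω m :=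
      (measurable_traj (est hN c C' β k h L y R) (measurable_est hN c C' β k h L y R) m).comp
        (measurable_const.prodMk measurable_id)
    exact (measurable_YW y R).comp h3
  have hint : ∫⁻ ω in EE, ENNReal.ofReal (f ω) ∂μ ≤ ENNReal.ofReal (2 * Q ^ 2) := by
    refine (HZ1 h hh hlt1 L y R m G (fun _ => 0)).trans (ENNReal.ofReal_le_ofReal ?_)
    have h3 : (1 + k ^ (1 / 4 : ℝ) * h) ^ m ≤ 2 := by
      have h4 : 1 + k ^ (1 / 4 : ℝ) * h ≤ Real.exp (k ^ (1 / 4 : ℝ) * h) := by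
        have := Real.add_one_le_exp (k ^ (1 / 4 : ℝ) * h)
        linarith
      have h5 : 0 ≤ 1 + k ^ (1 / 4 : ℝ) * h := by positivity
      calc (1 + k ^ (1 / 4 : ℝ) * h) ^ m ≤ (Real.exp (k ^ (1 / 4 : ℝ) * h)) ^ m :=
            pow_le_pow_left₀ h5 h4 m
        _ = Real.exp (k ^ (1 / 4 : ℝ) * (m * h)) := by
            rw [← Real.exp_nat_mul]
            congr 1
            ring
        _ ≤ Real.exp (1 / 2) := by
            refine Real.exp_le_exp.2 (le_trans ?_ hsmall)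
            exact mul_le_mul_of_nonneg_left hm (Real.rpow_pos_of_pos hk _).le
        _ ≤ 2 := by
            have h6 := Real.add_one_le_exp (-(1 / 2) : ℝ)
            have h7 : Real.exp (1 / 2) * Real.exp (-(1 / 2)) = 1 := by
              rw [← Real.exp_add]
              norm_num
            have h8 := Real.exp_pos (1 / 2 : ℝ)
            nlinarith
    have h4 : 0 ≤ (1 + k ^ (1 / 4 : ℝ) * h) ^ m := by positivity
    exact mul_le_mul h3 hYQ (by
      unfold YW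
      refine Finset.sum_nonneg fun v _ => mul_nonneg (Real.exp_pos _).le ?_
      split_ifs
      · exact PathC3_Zr _ _
      · positivity) (by norm_num)
  have hM := PathC3_markov μ EE f hfm k Q hk hQ hint
  have hO := HO2 h hh hlt2 L y m G hm
  -- the event is contained in the union
  set S := PS3 N d hN β k hβ hk.le with hS
  have hsub : {ω : ℕ → boxS d L → E N | (∀ j, j < m → ∀ v, ω j v ∈ gdE hN h) ∧
        (∀ j, j ≤ m → RegG k y R (S.tr h L G ω j)) ∧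
        k ^ (min (min 1 a' * (m * h) / ell k - A1 / (2 * A1 + 1))
          ((R - ρ0) / 2 - C' * (m * h) / ell k) / 2 - 1) * Q <
          ‖(S.tr h L G ω m).1 x - (S.tr h L G ω m).2 x‖} ⊆
      ({ω | k⁻¹ * Q ^ 2 < f ω} ∩ EE) ∪
      {ω | (∀ j, j < m → (∀ v, ω j v ∈ S.gd h) ∧ RegG k y R (S.tr h L G ω j)) ∧
        ∃ x, (boxNet d L).dist x y ≤ R ∧ ∃ s t, s ≤ t ∧ t ≤ m ∧
          ∑ j ∈ Finset.Ico s t, h * min 1 (mn (S.tr h L G ω j) x ^ β) <
            c0 * ((t - s : ℕ) : ℝ) * h - C0 * ell k} := by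
    intro ω hω
    obtain ⟨hg, hr, hlt3⟩ := hω
    by_contra hcon
    rw [Set.mem_union, not_or] at hcon
    obtain ⟨hc1', hc2⟩ := hcon
    have hE : ω ∈ EE := fun j hj => ⟨hg j hj, hr j hj.le⟩
    have hfω : f ω ≤ k⁻¹ * Q ^ 2 := by
      by_contra h3
      exact hc1' ⟨not_le.1 h3, hE⟩
    have hocc : ∀ x, (boxNet d L).dist x y ≤ R → ∀ s t, s ≤ t → t ≤ m →
        c0 * ((t - s : ℕ) : ℝ) * h - C0 * ell k ≤
          ∑ j ∈ Finset.Ico s t, h * min 1 (mn (S.tr h L G ω j) x ^ β) := by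
      intro x' hx' s t hst htm
      by_contra h3
      exact hc2 ⟨fun j hj => ⟨hg j hj, hr j hj.le⟩, x', hx', s, t, hst, htm, not_le.1 h3⟩
    -- weights
    set σ : ℕ → boxS d L → ℝ := fun j => (traj (est hN c C' β k h L y R) s0 ω j).2 with hσdef
    set χ : ℕ → boxS d L → ℝ := fun j => chi c β C' y R (traj (st3 hN β k h L) G ω j) with hχdef
    have hmn : ∀ j x', 0 ≤ min 1 (mn (traj (st3 hN β k h L) G ω j) x' ^ β) := by
      intro j x'
      refine le_min zero_le_one (Real.rpow_nonneg ?_ _)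
      exact le_min (norm_nonneg _) (norm_nonneg _)
    have hpos : ∀ j x', (boxNet d L).dist x' y ≤ R → 0 ≤ χ j x' := by
      intro j x' hx'
      show 0 ≤ chi c β C' y R (traj (st3 hN β k h L) G ω j) x'
      unfold chi
      rw [if_pos hx']
      exact mul_nonneg hc.le (hmn j x')
    have hneg : ∀ j x', -C' ≤ χ j x' := by
      intro j x'
      by_cases hx' : (boxNet d L).dist x' y ≤ R
      · have := hpos j x' hx'
        linarith
      · show -C' ≤ chi c β C' y R (traj (st3 hN β k h L) G ω j) x'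
        unfold chi
        rw [if_neg hx']
    have hlow := sig_low (boxNet d L) hell hh (by positivity : 0 < c * c0) hA10 hC'.le χ σ
      (fun j x' => by
        have h3 := est_snd hN c C' β k h L y R s0 ω j
        exact congrFun h3 x') (fun x' => rfl) m y R
      (by
        intro x' hx' s t hst htm
        have h3 := mul_le_mul_of_nonneg_left (hocc x' hx' s t hst htm) hc.le
        have h4 : ∑ j ∈ Finset.Ico s t, h * χ j x' =
            c * ∑ j ∈ Finset.Ico s t, h * min 1 (mn (S.tr h L G ω j) x' ^ β) := by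
          rw [Finset.mul_sum]
          refine Finset.sum_congr rfl fun j _ => ?_
          show h * chi c β C' y R (traj (st3 hN β k h L) G ω j) x' = _
          unfold chi
          rw [if_pos hx']
          show h * (c * min 1 (mn (traj (st3 hN β k h L) G ω j) x' ^ β)) =
            c * (h * min 1 (mn (traj (st3 hN β k h L) G ω j) x' ^ β))
          ring
        rw [h4]
        refine le_trans (le_of_eq ?_) h3
        rw [hA1]
        ring) hpos hneg ρ0 x hxy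
    have hRm : RegG k y R (traj (est hN c C' β k h L y R) s0 ω m).1 := by
      rw [est_fst]
      exact hr m le_rfl
    have hdet := PathC3_det hk hk1 y x R (σ m) (traj (est hN c C' β k h L y R) s0 ω m).1 hRm hxR Q
      (min (min 1 a' * (m * h) / ell k - A1 / (2 * A1 + 1))
          ((R - ρ0) / 2 - C' * (m * h) / ell k)) hQ hfω ?_
    · rw [est_fst] at hdet
      exact absurd hlt3 (not_lt.2 hdet)
    · refine le_trans ?_ hlow
      refine le_min ?_ ?_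
      · have h3 : min (min 1 a' * (m * h) / ell k - A1 / (2 * A1 + 1))
          ((R - ρ0) / 2 - C' * (m * h) / ell k) ≤ a' * (m * h) / ell k - A1 / (2 * A1 + 1) := by
          refine (min_le_left _ _).trans ?_
          have h4 : min 1 a' * (m * h) / ell k ≤ a' * (m * h) / ell k := by
            refine div_le_div_of_nonneg_right ?_ hell.le
            exact mul_le_mul_of_nonneg_right (min_le_right _ _) (by positivity)
          linarith
        refine (mul_le_mul_of_nonneg_right h3 hell.le).trans (le_of_eq ?_)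
        rw [ha']
        field_simp
      · refine (mul_le_mul_of_nonneg_right (min_le_right _ _) hell.le).trans (le_of_eq ?_)
        field_simp
  refine (measure_mono hsub).trans ((measure_union_le _ _).trans ?_)
  refine (add_le_add hM hO).trans ?_
  rw [← ENNReal.ofReal_add (by positivity) (by positivity)]
  refine ENNReal.ofReal_le_ofReal ?_
  have h3 : k ^ (1 / 2 : ℝ) = k ^ (1 / 4 : ℝ) * k ^ (1 / 4 : ℝ) := by
    rw [← Real.rpow_add hk]
    norm_num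
  have h4 : k = k ^ (1 / 4 : ℝ) * k ^ (1 / 4 : ℝ) * (k ^ (1 / 4 : ℝ) * k ^ (1 / 4 : ℝ)) := by
    rw [← Real.rpow_add hk, ← Real.rpow_add hk]
    norm_num
  have h5 : 0 < k ^ (1 / 4 : ℝ) := Real.rpow_pos_of_pos hk _
  have h6 : k ^ (1 / 4 : ℝ) * k ^ (1 / 4 : ℝ) ≤ 1 / 2 * k ^ (1 / 4 : ℝ) :=
    mul_le_mul_of_nonneg_right hk4 h5.le
  have h7 : k ≤ 1 / 4 * k ^ (1 / 4 : ℝ) := by
    calc k = (k ^ (1 / 4 : ℝ) * k ^ (1 / 4 : ℝ)) * (k ^ (1 / 4 : ℝ) * k ^ (1 / 4 : ℝ)) := h4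
      _ ≤ (1 / 2 * k ^ (1 / 4 : ℝ)) * (1 / 2 * k ^ (1 / 4 : ℝ)) :=
          mul_le_mul h6 h6 (by positivity) (by positivity)
      _ = 1 / 4 * (k ^ (1 / 4 : ℝ) * k ^ (1 / 4 : ℝ)) := by ring
      _ ≤ 1 / 4 * (1 / 2 * k ^ (1 / 4 : ℝ)) := mul_le_mul_of_nonneg_left h6 (by norm_num)
      _ ≤ 1 / 4 * k ^ (1 / 4 : ℝ) := by linarith
  rw [h3]
  linarith

end DynG
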