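import Pool.Agent.Lib_MP_36b788g.GDefs
import Pool.Agent.Lib_MP_36b788g.BNoise3
import Pool.Agent.Lib_MP_36b788s.DLA

/-!
# Contraction of the relative distance by the hat step

Notation: `r = ‖g‖`, `r' = ‖g'‖`, `ξ = fr1 hN g ζ`; for `g, g' ≠ 0`: `unv = uni`, so `fr2 hN g g' ζ = rotQ (uni g) (uni g') ξ` and the pair
`(hat β h g (fr1 ζ), hat β h g' (fr2 ζ))` is `hat2 β h (g,g') ξ` (`hat_pair`).

PROOF.
* `Zr_split`: `Zr g g' = (r-r')²/(rr') + 2 sA (g,g')` (`‖g-g'‖² = (r-r')²+2rr'(1-cos)`), and `(r-r')²/(rr') = 4 sinh²(p/2)`, `p = log r - log r'`.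
* `sinh_contr`: `0 ≤ θ ≤ 1`, `|p⁺| ≤ θ|p|`: `4 sinh²(p⁺/2) ≤ θ·4 sinh²(p/2)` (`sinh(θa) ≤ θ sinh a` for `a ≥ 0`: convexity of `sinh` on `[0,∞)`, `sinh 0 = 0`; `θ² ≤ θ`).
* lower bound: on `gdE`, `h < 1/1000`: `‖uni g+√hξ‖ = ‖e1+√hζ‖ ∈ [9/10,11/10]`, `hat_half`: `‖hat‖ ≥ r·(9/10)/2 ≥ r/4`; same for the second component (`zeta_pair`).
* `z_hat`: on `gdE`: `dl_log` (`dL = |p|`): `|p⁺| ≤ θ|p|`, `θ = 1-(β/(2+β))h(min(r⁺,r'⁺))^β ≤ 1-(β/(2+β))4^{-β}h m^β`, `m = min(r,r')`, and `θ ≥ 0`. So the radial part is multiplied by at most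
  `1-c₁h m^β`. Angular part: `∫⁻_{gdE}ofReal(sA(hat2 (g,g') (fr1 ζ)))dγ ≤ ∫⁻ofReal(sA(hat2 (g,g') ξ))dnuT ≤ ofReal(1-h/2)ofReal(sA)` (`gd_nuT` with `Q = fr1 hN g`, `ang_drift`, `nuT_noise`). With
  `c = min(c₁, 1/2)`, `c min(1,m^β) ≤ c₁m^β` and `≤ 1/2`: total `≤ (1-ch min(1,m^β))Zr`.
-/

open MeasureTheory ProbabilityTheory
open scoped ENNReal

namespace DynG

open Dyn DynS DynC

variable {N : ℕ}

private theorem ZHat_unv (hN : 3 ≤ N) {g : E N} (hg : g ≠ 0) : unv hN g = uni g := by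
  unfold unv
  rw [if_neg hg]

theorem hat_pair (hN : 3 ≤ N) (β h : ℝ) {g g' : E N} (hg : g ≠ 0) (hg' : g' ≠ 0) (ζ : E N) :
    (hat β h g (fr1 hN g ζ), hat β h g' (fr2 hN g g' ζ)) = hat2 β h (g, g') (fr1 hN g ζ) := by
  unfold hat2 fr2
  rw [ZHat_unv hN hg, ZHat_unv hN hg']
  rfl

private theorem ZHat_sinh (x : ℝ) : 4 * Real.sinh (x / 2) ^ 2 = 2 * (Real.cosh x - 1) := by
  have h1 : Real.cosh x = Real.cosh (2 * (x / 2)) := by
    congr 1
    ring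
  have h2 := Real.cosh_sq (x / 2)
  rw [h1, Real.cosh_two_mul]
  linarith

theorem Zr_split {g g' : E N} (hg : g ≠ 0) (hg' : g' ≠ 0) :
    Zr g g' = 4 * Real.sinh ((Real.log ‖g‖ - Real.log ‖g'‖) / 2) ^ 2 + 2 * sA (g, g') := by
  have hr : 0 < ‖g‖ := norm_pos_iff.mpr hg
  have hr' : 0 < ‖g'‖ := norm_pos_iff.mpr hg'
  rw [ZHat_sinh, Real.cosh_eq, neg_sub, Real.exp_sub, Real.exp_sub, Real.exp_log hr,
    Real.exp_log hr']
  unfold Zr sA uni
  simp only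
  rw [real_inner_smul_left, real_inner_smul_right, norm_sub_sq_real]
  field_simp
  ring

theorem sinh_contr {θ p p' : ℝ} (h0 : 0 ≤ θ) (h1 : θ ≤ 1) (hp : |p'| ≤ θ * |p|) :
    4 * Real.sinh (p' / 2) ^ 2 ≤ θ * (4 * Real.sinh (p / 2) ^ 2) := by
  rw [ZHat_sinh, ZHat_sinh]
  have h2 : Real.cosh p' ≤ Real.cosh (θ * p) := by
    rw [Real.cosh_le_cosh, abs_mul, abs_of_nonneg h0]
    exact hp
  have h3 : Real.cosh (θ * p) ≤ θ * Real.cosh p + (1 - θ) := by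
    rw [Real.cosh_eq, Real.cosh_eq]
    have a1 := convexOn_exp.2 (Set.mem_univ p) (Set.mem_univ (0 : ℝ)) h0 (sub_nonneg.2 h1)
      (by ring)
    have a2 := convexOn_exp.2 (Set.mem_univ (-p)) (Set.mem_univ (0 : ℝ)) h0 (sub_nonneg.2 h1)
      (by ring)
    simp only [smul_eq_mul, mul_zero, add_zero, Real.exp_zero, mul_one, mul_neg] at a1 a2
    linarith
  linarith

private theorem ZHat_norm (hN : 3 ≤ N) {h : ℝ} {g : E N} (hg : g ≠ 0) (Q : E N ≃ₗᵢ[ℝ] E N)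
    (hQ : Q (e1v hN) = unv hN g) (ζ : E N) :
    ‖uni g + Real.sqrt h • Q ζ‖ = ‖e1v hN + Real.sqrt h • ζ‖ := by
  rw [← ZHat_unv hN hg, ← hQ, ← map_smul, ← map_add, LinearIsometryEquiv.norm_map]

private theorem ZHat_bd (hN : 3 ≤ N) {h : ℝ} (hh : 0 < h) (hh1 : h < 1 / 1000) {ζ : E N}
    (hζ : ζ ∈ gdE hN h) :
    9 / 10 ≤ ‖e1v hN + Real.sqrt h • ζ‖ ∧ ‖e1v hN + Real.sqrt h • ζ‖ ≤ 11 / 10 := by
  obtain ⟨hl0, hl1, -, -, -⟩ := LogZ_ell hh hh1
  have h1 : |‖e1v hN + Real.sqrt h • ζ‖ - 1| ≤ h ^ (3 / 8 : ℝ) := by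
    have h2 := abs_norm_sub_norm_le (e1v hN + Real.sqrt h • ζ) (e1v hN)
    rw [e1v_norm, add_sub_cancel_left, norm_smul, Real.norm_eq_abs,
      abs_of_nonneg (Real.sqrt_nonneg h)] at h2
    exact h2.trans hζ.2.1
  rw [abs_le] at h1
  constructor <;> linarith [h1.1, h1.2]

theorem hat_low (hN : 3 ≤ N) {β h : ℝ} (hβ : 0 < β) (hh : 0 < h) (hh1 : h < 1 / 1000)
    {g g' : E N} (hg : g ≠ 0) (hg' : g' ≠ 0) (hs : h * ‖g‖ ^ β ≤ 1) (hs' : h * ‖g'‖ ^ β ≤ 1)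
    {ζ : E N} (hζ : ζ ∈ gdE hN h) :
    ‖g‖ / 4 ≤ ‖hat β h g (fr1 hN g ζ)‖ ∧ ‖g'‖ / 4 ≤ ‖hat β h g' (fr2 hN g g' ζ)‖ := by
  obtain ⟨b1, b2⟩ := ZHat_bd hN hh hh1 hζ
  have n1 := ZHat_norm hN (h := h) hg (fr1 hN g) (fr1_map hN g) ζ
  have n2 := ZHat_norm hN (h := h) hg' (fr2 hN g g') (fr2_map hN g g') ζ
  have a1 := (hat_half hβ hh hg (by rw [n1]; linarith) (by rw [n1]; exact b2) hs).1
  have a2 := (hat_half hβ hh hg' (by rw [n2]; linarith) (by rw [n2]; exact b2) hs').1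
  rw [n1] at a1
  rw [n2] at a2
  have hr : 0 < ‖g‖ := norm_pos_iff.mpr hg
  have hr' : 0 < ‖g'‖ := norm_pos_iff.mpr hg'
  constructor
  · refine le_trans ?_ a1
    nlinarith
  · refine le_trans ?_ a2
    nlinarith

/-- pointwise bound on the good set -/
private theorem ZHat_pt (hN : 3 ≤ N) {β h : ℝ} (hβ : 0 < β) (hh : 0 < h) (hh1 : h < 1 / 1000)
    {g g' : E N} (hg : g ≠ 0) (hg' : g' ≠ 0) (hs : h * ‖g‖ ^ β ≤ 1) (hs' : h * ‖g'‖ ^ β ≤ 1)
    {ζ : E N} (hζ : ζ ∈ gdE hN h) :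
    Zr (hat β h g (fr1 hN g ζ)) (hat β h g' (fr2 hN g g' ζ)) ≤
      (1 - β / (2 + β) * (4 : ℝ) ^ (-β) * h * (min ‖g‖ ‖g'‖) ^ β) *
        (4 * Real.sinh ((Real.log ‖g‖ - Real.log ‖g'‖) / 2) ^ 2) +
      2 * sA (hat2 β h (g, g') (fr1 hN g ζ)) := by
  obtain ⟨b1, b2⟩ := ZHat_bd hN hh hh1 hζ
  obtain ⟨l1, l2⟩ := hat_low hN hβ hh hh1 hg hg' hs hs' hζ
  have n1 := ZHat_norm hN (h := h) hg (fr1 hN g) (fr1_map hN g) ζ
  have n2 := ZHat_norm hN (h := h) hg' (fr2 hN g g') (fr2_map hN g g') ζ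
  have hr : 0 < ‖g‖ := norm_pos_iff.mpr hg
  have hr' : 0 < ‖g'‖ := norm_pos_iff.mpr hg'
  have i1 := hat_inv hβ hh hg (ξ := fr1 hN g ζ) (by rw [n1]; linarith) (by rw [n1]; exact b2) hs
  have hp := hat_pair hN β h hg hg' ζ
  have hne1 : hat β h g (fr1 hN g ζ) ≠ 0 := norm_pos_iff.1 (by linarith)
  have hne2 : hat β h g' (fr2 hN g g' ζ) ≠ 0 := norm_pos_iff.1 (by linarith)
  have hdl := (dl_log hβ hh (q := (g, g')) hg hg' (ξ := fr1 hN g ζ)
    (by simp only; rw [n1]; linarith) (by simp only; rw [n1]; exact b2) hs hs').1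
  rw [Zr_split hne1 hne2, hp]
  rw [← hp] at hdl
  unfold dL at hdl
  simp only at hdl
  set a := ‖hat β h g (fr1 hN g ζ)‖ with ha
  set b := ‖hat β h g' (fr2 hN g g' ζ)‖ with hb
  have ha0 : 0 < a := by linarith
  have hb0 : 0 < b := by linarith
  have hm0 : 0 < min a b := lt_min ha0 hb0
  have hk0 : 0 < β / (2 + β) := by positivity
  have hk1 : β / (2 + β) ≤ 1 := by
    rw [div_le_one (by linarith)]
    linarith
  have hx1 : h * (min a b) ^ β ≤ 1 := by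
    refine le_trans ?_ i1
    exact mul_le_mul_of_nonneg_left (Real.rpow_le_rpow hm0.le (min_le_left _ _) hβ.le) hh.le
  have hx0 : 0 ≤ h * (min a b) ^ β := by positivity
  have hθ0 : 0 ≤ 1 - β / (2 + β) * (h * (min a b) ^ β) := by
    have : β / (2 + β) * (h * (min a b) ^ β) ≤ 1 * 1 := mul_le_mul hk1 hx1 hx0 (by norm_num)
    linarith
  have hθ1 : 1 - β / (2 + β) * (h * (min a b) ^ β) ≤ 1 := by
    have : 0 ≤ β / (2 + β) * (h * (min a b) ^ β) := by positivity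
    linarith
  have hc := sinh_contr hθ0 hθ1 hdl
  have hmm : (min ‖g‖ ‖g'‖) / 4 ≤ min a b := by
    refine le_min ?_ ?_
    · exact (div_le_div_of_nonneg_right (min_le_left _ _) (by norm_num)).trans l1
    · exact (div_le_div_of_nonneg_right (min_le_right _ _) (by norm_num)).trans l2
  have hmn : 0 < min ‖g‖ ‖g'‖ := lt_min hr hr'
  have hpw : (4 : ℝ) ^ (-β) * (min ‖g‖ ‖g'‖) ^ β ≤ (min a b) ^ β := by
    have e1 : (4 : ℝ) ^ (-β) * (min ‖g‖ ‖g'‖) ^ β = ((min ‖g‖ ‖g'‖) / 4) ^ β := by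
      rw [Real.div_rpow hmn.le (by norm_num), Real.rpow_neg (by norm_num)]
      field_simp
    rw [e1]
    exact Real.rpow_le_rpow (by positivity) hmm hβ.le
  have hth : 1 - β / (2 + β) * (h * (min a b) ^ β) ≤
      1 - β / (2 + β) * (4 : ℝ) ^ (-β) * h * (min ‖g‖ ‖g'‖) ^ β := by
    have : β / (2 + β) * (4 : ℝ) ^ (-β) * h * (min ‖g‖ ‖g'‖) ^ β =
        β / (2 + β) * h * ((4 : ℝ) ^ (-β) * (min ‖g‖ ‖g'‖) ^ β) := by ring
    rw [this]
    have h2 : β / (2 + β) * h * ((4 : ℝ) ^ (-β) * (min ‖g‖ ‖g'‖) ^ β) ≤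
        β / (2 + β) * h * (min a b) ^ β := mul_le_mul_of_nonneg_left hpw (by positivity)
    linarith
  have hR : 0 ≤ 4 * Real.sinh ((Real.log ‖g‖ - Real.log ‖g'‖) / 2) ^ 2 := by positivity
  have hfin := hc.trans (mul_le_mul_of_nonneg_right hth hR)
  linarith

theorem z_hat (hN : 3 ≤ N) (β : ℝ) (hβ : 0 < β) : ∃ c h0 : ℝ, 0 < c ∧ c ≤ 1 ∧ 0 < h0 ∧
    h0 ≤ 1 / 1000 ∧ ∀ h, 0 < h → h < h0 → ∀ g g' : E N, g ≠ 0 → g' ≠ 0 → h * ‖g‖ ^ β ≤ 1 →
      h * ‖g'‖ ^ β ≤ 1 →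
      ∫⁻ ζ in gdE hN h, ENNReal.ofReal (Zr (hat β h g (fr1 hN g ζ)) (hat β h g' (fr2 hN g g' ζ)))
          ∂(stdGaussian (E N)) ≤
        ENNReal.ofReal ((1 - c * h * min 1 ((min ‖g‖ ‖g'‖) ^ β)) * Zr g g') := by
  obtain ⟨h0, hh0, hno⟩ := nuT_noise N (by omega)
  set c₁ : ℝ := β / (2 + β) * (4 : ℝ) ^ (-β) with hc₁
  have hc₁0 : 0 < c₁ := by positivity
  refine ⟨min c₁ (1 / 2), min h0 (1 / 1000), lt_min hc₁0 (by norm_num),
    (min_le_right _ _).trans (by norm_num), lt_min hh0 (by norm_num), min_le_right _ _, ?_⟩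
  intro h hh hlt g g' hg hg' hs hs'
  have hlt0 : h < h0 := hlt.trans_le (min_le_left _ _)
  have hh1 : h < 1 / 1000 := hlt.trans_le (min_le_right _ _)
  have hν := hno h hh hlt0
  set m := min ‖g‖ ‖g'‖ with hm
  have hm0 : 0 < m := lt_min (norm_pos_iff.mpr hg) (norm_pos_iff.mpr hg')
  set R : ℝ := 4 * Real.sinh ((Real.log ‖g‖ - Real.log ‖g'‖) / 2) ^ 2 with hRd
  have hR : 0 ≤ R := by positivity
  have hsA := (sA_nonneg (g, g')).1
  set φ : E N → ℝ≥0∞ := fun ξ => ENNReal.ofReal (sA (hat2 β h (g, g') ξ)) with hφ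
  have hφm : Measurable φ := by
    have q0 : Measurable (fun ξ : E N => (((g, g') : E N × E N), ξ)) :=
      measurable_const.prodMk measurable_id
    have h1 := (measurable_hat2 (N := N) hβ hh.le).comp q0
    have h2 := measurable_sA.comp h1
    have h3 := h2.ennreal_ofReal
    exact h3
  have hang : ∫⁻ ζ in gdE hN h, φ (fr1 hN g ζ) ∂(stdGaussian (E N)) ≤
      ENNReal.ofReal (1 - h / 2) * ENNReal.ofReal (sA (g, g')) :=
    (gd_nuT hN hh hh1 hφm (fr1 hN g)).trans (ang_drift hN hβ hh hh1 hν hg hg')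
  calc ∫⁻ ζ in gdE hN h, ENNReal.ofReal (Zr (hat β h g (fr1 hN g ζ)) (hat β h g' (fr2 hN g g' ζ)))
          ∂(stdGaussian (E N))
      ≤ ∫⁻ ζ in gdE hN h, (ENNReal.ofReal ((1 - c₁ * h * m ^ β) * R) +
          ENNReal.ofReal 2 * φ (fr1 hN g ζ)) ∂(stdGaussian (E N)) := by
        refine setLIntegral_mono' (measurable_gdE hN h) fun ζ hζ => ?_
        have h1 := ZHat_pt hN hβ hh hh1 hg hg' hs hs' hζ
        refine (ENNReal.ofReal_le_ofReal h1).trans ?_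
        refine ENNReal.ofReal_add_le.trans ?_
        rw [ENNReal.ofReal_mul (by norm_num : (0 : ℝ) ≤ 2)]
    _ = ∫⁻ ζ in gdE hN h, ENNReal.ofReal ((1 - c₁ * h * m ^ β) * R) ∂(stdGaussian (E N)) +
          ∫⁻ ζ in gdE hN h, ENNReal.ofReal 2 * φ (fr1 hN g ζ) ∂(stdGaussian (E N)) :=
        lintegral_add_left measurable_const _
    _ ≤ ENNReal.ofReal ((1 - c₁ * h * m ^ β) * R) + ENNReal.ofReal 2 *
          (ENNReal.ofReal (1 - h / 2) * ENNReal.ofReal (sA (g, g'))) := by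
        refine add_le_add ?_ ?_
        · rw [setLIntegral_const]
          calc _ ≤ ENNReal.ofReal ((1 - c₁ * h * m ^ β) * R) * 1 := by
                gcongr
                exact prob_le_one
            _ = _ := mul_one _
        · rw [lintegral_const_mul' _ _ ENNReal.ofReal_ne_top]
          gcongr
    _ = ENNReal.ofReal ((1 - c₁ * h * m ^ β) * R) +
          ENNReal.ofReal (2 * ((1 - h / 2) * sA (g, g'))) := by
        rw [ENNReal.ofReal_mul (by norm_num : (0 : ℝ) ≤ 2),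
          ENNReal.ofReal_mul (by linarith : (0 : ℝ) ≤ 1 - h / 2)]
    _ = ENNReal.ofReal ((1 - c₁ * h * m ^ β) * R + 2 * ((1 - h / 2) * sA (g, g'))) := by
        have hcm : c₁ * h * m ^ β ≤ 1 := by
          have a1 : β / (2 + β) ≤ 1 := by
            rw [div_le_one (by linarith)]
            linarith
          have a2 : (4 : ℝ) ^ (-β) ≤ 1 :=
            Real.rpow_le_one_of_one_le_of_nonpos (by norm_num) (by linarith)
          have a3 : c₁ ≤ 1 := by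
            rw [hc₁]
            exact mul_le_one₀ a1 (by positivity) a2
          have a4 : h * m ^ β ≤ 1 := by
            refine le_trans ?_ hs
            exact mul_le_mul_of_nonneg_left (Real.rpow_le_rpow hm0.le (min_le_left _ _) hβ.le) hh.le
          rw [mul_assoc]
          exact mul_le_one₀ a3 (by positivity) a4
        rw [ENNReal.ofReal_add]
        · exact mul_nonneg (by linarith) hR
        · have : 0 ≤ 1 - h / 2 := by linarith
          positivity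
    _ ≤ _ := by
        refine ENNReal.ofReal_le_ofReal ?_
        rw [Zr_split hg hg', ← hRd]
        have hmb : 0 < m ^ β := by positivity
        have c1 : min c₁ (1 / 2) * min 1 (m ^ β) ≤ c₁ * m ^ β :=
          mul_le_mul (min_le_left _ _) (min_le_right _ _) (le_min (by norm_num) hmb.le) hc₁0.le
        have c2 : min c₁ (1 / 2) * min 1 (m ^ β) ≤ 1 / 2 * 1 :=
          mul_le_mul (min_le_right _ _) (min_le_left _ _) (le_min (by norm_num) hmb.le)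
            (by norm_num)
        have e1 : (1 - min c₁ (1 / 2) * h * min 1 (m ^ β)) * (R + 2 * sA (g, g')) =
            R - (min c₁ (1 / 2) * min 1 (m ^ β)) * (h * R) + 2 * sA (g, g') -
              (min c₁ (1 / 2) * min 1 (m ^ β)) * (2 * (h * sA (g, g'))) := by ring
        rw [e1]
        have p1 := mul_le_mul_of_nonneg_right c1 (mul_nonneg hh.le hR)
        have p2 := mul_le_mul_of_nonneg_right c2
          (mul_nonneg (by norm_num : (0 : ℝ) ≤ 2) (mul_nonneg hh.le hsA))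
        nlinarith

end DynG
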