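import Pool.Agent.Lib_MP_36b788g.ZStep
import Pool.Agent.Lib_MP_36b788c.Mom1

/-!
# Iteration of `z_step` along regular paths, the extended chain

PROOF.
* `est_fst`: induction on `n`.
* `measurable_est`: `measurable_st3`; `upd` is measurable in `(G, σ)`: a finite infimum of measurable functions (`Finset.measurable_inf'` or `Finset.inf'_apply`), `chi` measurable.
* `z_iter`: induction on `n` for all `(G, σ)`. `n = 0`: equality. `n+1`: if `G` is not `RegG` or for the bad first noise the set is empty. `lintegral_cons`: `ω = ζ :: ω'`,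
  `traj (est …) s (ζ :: ω') (j+1) = traj (est …) (est … s ζ) ω' j`, the set for `n+1` is {`ζ` good, `RegG G`} ∩ {set for `n` started at `est … s ζ`}. IH: inner integral `≤ ofReal((1+k^{1/4}h)^n YW(est s ζ))`,
  then `z_step` and `ofReal_mul`.
-/

open MeasureTheory ProbabilityTheory
open scoped ENNReal

namespace DynG

open Dyn DynS DynC

private theorem ZIter_meas_inf {ι δ : Type} [MeasurableSpace δ] (s : Finset ι) (hs : s.Nonempty)
    (f : ι → δ → ℝ) (hf : ∀ i ∈ s, Measurable (f i)) :
    Measurable (fun a => s.inf' hs (fun i => f i a)) := by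
  have h := Finset.inf'_induction hs f (p := fun g : δ → ℝ => Measurable g)
    (fun _ h1 _ h2 => h1.inf h2) hf
  have e : s.inf' hs f = fun a => s.inf' hs (fun i => f i a) := by
    funext a
    exact Finset.inf'_apply hs f a
  rw [e] at h
  exact h

private theorem ZIter_meas_mn {N d L : ℕ} (x : boxS d L) :
    Measurable (fun G : (boxS d L → E N) × (boxS d L → E N) => mn G x) := by
  unfold mn
  exact (((measurable_pi_apply x).comp measurable_fst).norm).min
    (((measurable_pi_apply x).comp measurable_snd).norm)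

private theorem ZIter_meas_chi {N d L : ℕ} (c β C' : ℝ) (y : boxS d L) (R : ℕ) (x : boxS d L) :
    Measurable (fun G : (boxS d L → E N) × (boxS d L → E N) => chi c β C' y R G x) := by
  unfold chi
  by_cases hx : (boxNet d L).dist x y ≤ R
  · simp only [hx, if_true]
    exact (measurable_const.min ((ZIter_meas_mn x).pow_const β)).const_mul c
  · simp only [hx, if_false]
    exact measurable_const

private theorem ZIter_meas_est2 {N d : ℕ} (c C' β k h : ℝ) (L : ℕ) (y : boxS d L) (R : ℕ) :
    Measurable (fun p : (((boxS d L → E N) × (boxS d L → E N)) × (boxS d L → ℝ)) ×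
      (boxS d L → E N) => upd (boxNet d L) (ell k) h (chi c β C' y R p.1.1) p.1.2) := by
  rw [measurable_pi_iff]
  intro x
  have hz : ∀ z : boxS d L, Measurable (fun p : (((boxS d L → E N) × (boxS d L → E N)) ×
      (boxS d L → ℝ)) × (boxS d L → E N) => p.1.2 z + h * chi c β C' y R p.1.1 z +
        ((boxNet d L).dist x z : ℝ) * (ell k / 2)) := by
    intro z
    refine Measurable.add (Measurable.add ?_ ?_) measurable_const
    · exact (measurable_pi_apply z).comp (measurable_snd.comp measurable_fst)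
    · exact ((ZIter_meas_chi c β C' y R z).comp
        (measurable_fst.comp measurable_fst)).const_mul h
  exact ZIter_meas_inf Finset.univ ⟨x, Finset.mem_univ x⟩
    (fun z (p : (((boxS d L → E N) × (boxS d L → E N)) ×
      (boxS d L → ℝ)) × (boxS d L → E N)) => p.1.2 z + h * chi c β C' y R p.1.1 z +
        ((boxNet d L).dist x z : ℝ) * (ell k / 2)) (fun z _ => hz z)

theorem measurable_est {N d : ℕ} (hN : 3 ≤ N) (c C' β k h : ℝ) (L : ℕ) (y : boxS d L) (R : ℕ) :
    Measurable (fun p : (((boxS d L → E N) × (boxS d L → E N)) × (boxS d L → ℝ)) ×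
      (boxS d L → E N) => est hN c C' β k h L y R p.1 p.2) := by
  have h0 : Measurable (fun p : (((boxS d L → E N) × (boxS d L → E N)) × (boxS d L → ℝ)) ×
      (boxS d L → E N) => (p.1.1, p.2)) :=
    (measurable_fst.comp measurable_fst).prodMk measurable_snd
  have h1 := Measurable.comp (g := fun q : ((boxS d L → E N) × (boxS d L → E N)) ×
      (boxS d L → E N) => st3 hN β k h L q.1 q.2)
    (f := fun p : (((boxS d L → E N) × (boxS d L → E N)) × (boxS d L → ℝ)) ×
      (boxS d L → E N) => (p.1.1, p.2)) (measurable_st3 hN β k h L) h0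
  have h2 := h1.prodMk (ZIter_meas_est2 c C' β k h L y R)
  exact h2

theorem measurable_YW {N d L : ℕ} (y : boxS d L) (R : ℕ) :
    Measurable (fun s : ((boxS d L → E N) × (boxS d L → E N)) × (boxS d L → ℝ) =>
      YW y R s.2 s.1) := by
  unfold YW
  refine Finset.measurable_sum _ fun x _ => ?_
  have h1 : Measurable (fun s : ((boxS d L → E N) × (boxS d L → E N)) × (boxS d L → ℝ) =>
      s.1.1 x) := (measurable_pi_apply x).comp (measurable_fst.comp measurable_fst)
  have h2 : Measurable (fun s : ((boxS d L → E N) × (boxS d L → E N)) × (boxS d L → ℝ) =>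
      s.1.2 x) := (measurable_pi_apply x).comp (measurable_snd.comp measurable_fst)
  have h3 : Measurable (fun s : ((boxS d L → E N) × (boxS d L → E N)) × (boxS d L → ℝ) =>
      s.2 x) := (measurable_pi_apply x).comp measurable_snd
  refine Measurable.mul (Real.measurable_exp.comp h3) ?_
  by_cases hx : (boxNet d L).dist x y ≤ R
  · simp only [hx, if_true]
    unfold Zr
    exact ((h1.sub h2).norm.pow_const 2).div (h1.norm.mul h2.norm)
  · simp only [hx, if_false]
    exact (h1.sub h2).norm.pow_const 2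

theorem measurableSet_RegG {N d L : ℕ} (k : ℝ) (y : boxS d L) (R : ℕ) :
    MeasurableSet {G : (boxS d L → E N) × (boxS d L → E N) | RegG k y R G} := by
  have h1 : ∀ x : boxS d L, Measurable (fun G : (boxS d L → E N) × (boxS d L → E N) =>
      ‖G.1 x‖) := fun x => ((measurable_pi_apply x).comp measurable_fst).norm
  have h2 : ∀ x : boxS d L, Measurable (fun G : (boxS d L → E N) × (boxS d L → E N) =>
      ‖G.2 x‖) := fun x => ((measurable_pi_apply x).comp measurable_snd).norm
  have e : {G : (boxS d L → E N) × (boxS d L → E N) | RegG k y R G} =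
      (⋂ x : boxS d L, {G : (boxS d L → E N) × (boxS d L → E N) |
        (boxNet d L).dist x y ≤ R → k ^ (1 / 4 : ℝ) ≤ ‖G.1 x‖ ∧ k ^ (1 / 4 : ℝ) ≤ ‖G.2 x‖}) ∩
      ⋂ x : boxS d L, {G : (boxS d L → E N) × (boxS d L → E N) |
        (boxNet d L).dist x y ≤ R + 1 →
          ‖G.1 x‖ ≤ k ^ (-(1 / 16) : ℝ) ∧ ‖G.2 x‖ ≤ k ^ (-(1 / 16) : ℝ)} := by
    ext G
    simp only [Set.mem_inter_iff, Set.mem_iInter, Set.mem_ofPred_eq]
    rfl
  rw [e]
  refine MeasurableSet.inter (MeasurableSet.iInter fun x => ?_)
    (MeasurableSet.iInter fun x => ?_)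
  · by_cases hx : (boxNet d L).dist x y ≤ R
    · simp only [hx, true_imp_iff]
      exact (measurableSet_le measurable_const (h1 x)).inter
        (measurableSet_le measurable_const (h2 x))
    · simp only [hx, false_imp_iff]
      exact MeasurableSet.univ
  · by_cases hx : (boxNet d L).dist x y ≤ R + 1
    · simp only [hx, true_imp_iff]
      exact (measurableSet_le (h1 x) measurable_const).inter
        (measurableSet_le (h2 x) measurable_const)
    · simp only [hx, false_imp_iff]
      exact MeasurableSet.univ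

theorem est_fst {N d : ℕ} (hN : 3 ≤ N) (c C' β k h : ℝ) (L : ℕ) (y : boxS d L) (R : ℕ)
    (s : ((boxS d L → E N) × (boxS d L → E N)) × (boxS d L → ℝ)) (ω : ℕ → boxS d L → E N)
    (n : ℕ) : (traj (est hN c C' β k h L y R) s ω n).1 = traj (st3 hN β k h L) s.1 ω n := by
  induction n with
  | zero => rfl
  | succ n ih =>
    show st3 hN β k h L (traj (est hN c C' β k h L y R) s ω n).1 (ω n) =
      st3 hN β k h L (traj (st3 hN β k h L) s.1 ω n) (ω n)
    rw [ih]

theorem est_snd {N d : ℕ} (hN : 3 ≤ N) (c C' β k h : ℝ) (L : ℕ) (y : boxS d L) (R : ℕ)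
    (s : ((boxS d L → E N) × (boxS d L → E N)) × (boxS d L → ℝ)) (ω : ℕ → boxS d L → E N)
    (n : ℕ) : (traj (est hN c C' β k h L y R) s ω (n + 1)).2 =
      upd (boxNet d L) (ell k) h (chi c β C' y R (traj (st3 hN β k h L) s.1 ω n))
        (traj (est hN c C' β k h L y R) s ω n).2 := by
  show upd (boxNet d L) (ell k) h
      (chi c β C' y R (traj (est hN c C' β k h L y R) s ω n).1)
        (traj (est hN c C' β k h L y R) s ω n).2 = _
  rw [est_fst]

private theorem ZIter_traj_cons {St X : Type} (f : St → X → St) (s : St) (a : X) (b : ℕ → X)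
    (j : ℕ) : traj f s (fun i => Nat.casesOn i a b) (j + 1) = traj f (f s a) b j := by
  induction j with
  | zero => rfl
  | succ j ih =>
    show f (traj f s (fun i => Nat.casesOn i a b) (j + 1)) (b j) = f (traj f (f s a) b j) (b j)
    rw [ih]

private theorem ZIter_set_meas {St X : Type} [MeasurableSpace St] [MeasurableSpace X]
    (f : St → X → St) (hf : Measurable (fun p : St × X => f p.1 p.2)) (Gd : Set X)
    (hGd : MeasurableSet Gd) (P : Set St) (hP : MeasurableSet P) (n : ℕ) (s : St) :
    MeasurableSet {ω : ℕ → X | ∀ j, j < n → ω j ∈ Gd ∧ traj f s ω j ∈ P} := by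
  have e : {ω : ℕ → X | ∀ j, j < n → ω j ∈ Gd ∧ traj f s ω j ∈ P} =
      ⋂ j ∈ Finset.range n, ({ω : ℕ → X | ω j ∈ Gd} ∩ {ω | traj f s ω j ∈ P}) := by
    ext ω
    simp
  rw [e]
  refine Finset.measurableSet_biInter _ fun j _ => MeasurableSet.inter ?_ ?_
  · exact measurable_pi_apply j hGd
  · exact ((measurable_traj f hf j).comp (measurable_const.prodMk measurable_id)) hP

private theorem ZIter_iter {St X : Type} [MeasurableSpace St] [MeasurableSpace X]
    (μ : Measure X) [IsProbabilityMeasure μ] (f : St → X → St)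
    (hf : Measurable (fun p : St × X => f p.1 p.2)) (Gd : Set X)
    (hGd : MeasurableSet Gd) (P : Set St) (hP : MeasurableSet P) (Φ : St → ℝ≥0∞)
    (hΦ : Measurable Φ) (A : ℝ≥0∞) (hstep : ∀ s ∈ P, ∫⁻ a in Gd, Φ (f s a) ∂μ ≤ A * Φ s)
    (n : ℕ) : ∀ s : St, ∫⁻ ω in {ω : ℕ → X | ∀ j, j < n → ω j ∈ Gd ∧ traj f s ω j ∈ P},
        Φ (traj f s ω n) ∂(PI μ) ≤ A ^ n * Φ s := by
  induction n with
  | zero =>
    intro s
    have e : {ω : ℕ → X | ∀ j, j < 0 → ω j ∈ Gd ∧ traj f s ω j ∈ P} = Set.univ := by
      ext ω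
      simp
    rw [e, Measure.restrict_univ]
    have e2 : ∀ ω : ℕ → X, Φ (traj f s ω 0) = Φ s := fun _ => rfl
    simp_rw [e2]
    simp
  | succ n ih =>
    intro s
    set S : Set (ℕ → X) := {ω : ℕ → X | ∀ j, j < n + 1 → ω j ∈ Gd ∧ traj f s ω j ∈ P} with hS
    have hSm : MeasurableSet S := ZIter_set_meas f hf Gd hGd P hP (n + 1) s
    have hFm : Measurable (fun ω : ℕ → X => Φ (traj f s ω (n + 1))) :=
      hΦ.comp ((measurable_traj f hf (n + 1)).comp (measurable_const.prodMk measurable_id))
    rw [← lintegral_indicator hSm, lintegral_cons _ (hFm.indicator hSm)]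
    classical
    have key : ∀ a : X, ∫⁻ b, S.indicator (fun ω : ℕ → X => Φ (traj f s ω (n + 1)))
        (fun i => Nat.casesOn i a b) ∂(PI μ) ≤
        Gd.indicator (fun a => if s ∈ P then A ^ n * Φ (f s a) else 0) a := by
      intro a
      by_cases ha : a ∈ Gd
      · by_cases hs : s ∈ P
        · rw [Set.indicator_of_mem ha, if_pos hs]
          refine le_trans (le_of_eq ?_) (ih (f s a))
          rw [← lintegral_indicator (ZIter_set_meas f hf Gd hGd P hP n (f s a))]
          refine lintegral_congr fun b => ?_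
          have hmem : (fun i => Nat.casesOn i a b : ℕ → X) ∈ S ↔
              b ∈ {ω : ℕ → X | ∀ j, j < n → ω j ∈ Gd ∧ traj f (f s a) ω j ∈ P} := by
            constructor
            · intro h j hj
              have h2 := h (j + 1) (by omega)
              rw [ZIter_traj_cons] at h2
              exact h2
            · intro h j hj
              rcases j with _ | j
              · exact ⟨ha, hs⟩
              · rw [ZIter_traj_cons]
                exact h j (by omega)
          by_cases hb : b ∈ {ω : ℕ → X | ∀ j, j < n → ω j ∈ Gd ∧ traj f (f s a) ω j ∈ P}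
          · rw [Set.indicator_of_mem hb, Set.indicator_of_mem (hmem.2 hb), ZIter_traj_cons]
          · rw [Set.indicator_of_notMem hb, Set.indicator_of_notMem (fun h => hb (hmem.1 h))]
        · rw [Set.indicator_of_mem ha, if_neg hs]
          refine le_of_eq ?_
          have : ∀ b : ℕ → X, S.indicator (fun ω : ℕ → X => Φ (traj f s ω (n + 1)))
              (fun i => Nat.casesOn i a b) = 0 := by
            intro b
            refine Set.indicator_of_notMem ?_ _
            intro h
            exact hs (h 0 (by omega)).2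
          simp_rw [this]
          simp
      · rw [Set.indicator_of_notMem ha]
        refine le_of_eq ?_
        have : ∀ b : ℕ → X, S.indicator (fun ω : ℕ → X => Φ (traj f s ω (n + 1)))
            (fun i => Nat.casesOn i a b) = 0 := by
          intro b
          refine Set.indicator_of_notMem ?_ _
          intro h
          exact ha (h 0 (by omega)).1
        simp_rw [this]
        simp
    refine (lintegral_mono key).trans ?_
    rw [lintegral_indicator hGd]
    by_cases hs : s ∈ P
    · simp only [if_pos hs]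
      have hm : Measurable (fun a : X => Φ (f s a)) :=
        hΦ.comp (hf.comp (measurable_const.prodMk measurable_id))
      rw [lintegral_const_mul _ hm]
      calc A ^ n * ∫⁻ a in Gd, Φ (f s a) ∂μ ≤ A ^ n * (A * Φ s) := by
            gcongr
            exact hstep s hs
        _ = A ^ (n + 1) * Φ s := by rw [pow_succ, mul_assoc]
    · simp only [if_neg hs]
      simp

theorem z_iter (N d : ℕ) (hN : 3 ≤ N) (β : ℝ) (hβ : 0 < β) : ∃ c C' k0 : ℝ, 0 < c ∧ c ≤ 1 ∧
    0 < C' ∧ 0 < k0 ∧ k0 < 1 ∧ ∀ k, 0 < k → k < k0 → ∃ h0 : ℝ, 0 < h0 ∧ h0 ≤ 1 / 1000 ∧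
    ∀ h, 0 < h → h < h0 → ∀ (L : ℕ) (y : boxS d L) (R n : ℕ)
      (G : (boxS d L → E N) × (boxS d L → E N)) (σ : boxS d L → ℝ),
      ∫⁻ ω in {ω | ∀ j, j < n → (∀ x, ω j x ∈ gdE hN h) ∧
            RegG k y R (traj (st3 hN β k h L) G ω j)},
          ENNReal.ofReal (YW y R (traj (est hN c C' β k h L y R) (G, σ) ω n).2
            (traj (est hN c C' β k h L y R) (G, σ) ω n).1)
          ∂(PI (Measure.pi fun _ : boxS d L => stdGaussian (E N))) ≤
        ENNReal.ofReal ((1 + k ^ (1 / 4 : ℝ) * h) ^ n * YW y R σ G) := by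
  obtain ⟨c, C', k0, hc, hc1, hC', hk0, hk01, H⟩ := z_step N d hN β hβ
  refine ⟨c, C', k0, hc, hc1, hC', hk0, hk01, fun k hk hk' => ?_⟩
  obtain ⟨h0, hh0, hh01, H2⟩ := H k hk hk'
  refine ⟨h0, hh0, hh01, fun h hh hh' L y R n G σ => ?_⟩
  have hA : (0 : ℝ) ≤ 1 + k ^ (1 / 4 : ℝ) * h := by positivity
  have hGd : MeasurableSet {ζ : boxS d L → E N | ∀ x, ζ x ∈ gdE hN h} := by
    have : {ζ : boxS d L → E N | ∀ x, ζ x ∈ gdE hN h} =
        ⋂ x, (fun ζ : boxS d L → E N => ζ x) ⁻¹' gdE hN h := by
      ext ζ
      simp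
    rw [this]
    exact MeasurableSet.iInter fun x => measurable_pi_apply x (measurable_gdE hN h)
  have hP : MeasurableSet {s : ((boxS d L → E N) × (boxS d L → E N)) × (boxS d L → ℝ) |
      RegG k y R s.1} := measurable_fst (measurableSet_RegG k y R)
  have key := ZIter_iter (Measure.pi fun _ : boxS d L => stdGaussian (E N))
    (est hN c C' β k h L y R) (measurable_est hN c C' β k h L y R)
    {ζ : boxS d L → E N | ∀ x, ζ x ∈ gdE hN h} hGd
    {s : ((boxS d L → E N) × (boxS d L → E N)) × (boxS d L → ℝ) | RegG k y R s.1} hP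
    (fun s => ENNReal.ofReal (YW y R s.2 s.1)) (measurable_YW y R).ennreal_ofReal
    (ENNReal.ofReal (1 + k ^ (1 / 4 : ℝ) * h)) (by
      intro s hs
      have h1 := H2 h hh hh' L y R s.1 s.2 hs
      rw [ENNReal.ofReal_mul hA] at h1
      exact h1) n (G, σ)
  rw [ENNReal.ofReal_mul (pow_nonneg hA n), ENNReal.ofReal_pow hA]
  have hset : {ω : ℕ → boxS d L → E N | ∀ j, j < n → (∀ x, ω j x ∈ gdE hN h) ∧
            RegG k y R (traj (st3 hN β k h L) G ω j)} =
      {ω : ℕ → boxS d L → E N | ∀ j, j < n →
        ω j ∈ {ζ : boxS d L → E N | ∀ x, ζ x ∈ gdE hN h} ∧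
        traj (est hN c C' β k h L y R) (G, σ) ω j ∈
          {s : ((boxS d L → E N) × (boxS d L → E N)) × (boxS d L → ℝ) | RegG k y R s.1}} := by
    ext ω
    simp only [Set.mem_ofPred_eq]
    refine forall_congr' fun j => imp_congr_right fun _ => and_congr Iff.rfl ?_
    rw [est_fst]
  rw [hset]
  exact key

end DynG
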