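import Pool.Agent.Lib_MP_36b788g.ZHat

/-!
# One step of the weighted sum `YW`

`B = {dist x y ≤ R}`, `D = G.1 - G.2`, `χ = chi c β C' y R G` with `c` from `z_hat` and `C' = N + 2`, `σ⁺ = upd net (ell k) h χ σ`, `e^{ell k} = 1/k`.

PROOF.
* `upd_le`: `σ⁺ x ≤ σ z + hχ z + dist x z·ell/2` for every `z`; so `σ⁺ x ≤ σ x + hχ x`, and for a neighbour `z`: `e^{σ⁺ x} ≤ 2k^{-1/2}e^{σ z}` (`hχ ≤ h ≤ log 2`).
* `cpl_sq`: `(cpl net D x)² ≤ 4d(Σ_{z∈nb x}D z² + 2d D x²)` (Cauchy-Schwarz, `nb_card ≤ 2d`).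
* `z_in` (`x ∈ B`, good noise): `H, H'` the hat steps, `‖H‖ ≥ r/4 ≥ k^{1/4}/4` (`hat_low`; `h r^β ≤ 1` since `r ≤ k^{-1/16}`, `h < h0(k)`). `r⁺ ≥ ‖H‖ - kh cpl(nrm G.1) x ≥ ‖H‖(1-hk^{1/2})` as
  `kh·4dk^{-1/16} ≤ hk^{1/2}k^{1/4}/4` for small `k`; the same for `r'⁺`. `|D⁺ x| ≤ ‖H-H'‖+kh cpl D x`, `(a+b)² ≤ (1+hk^{1/2})a²+(1+1/(hk^{1/2}))b²`, `(1+1/(hk^{1/2}))k²h² ≤ 2hk^{3/2}`. So
  `Zr⁺ ≤ (1+6hk^{1/2})Zr(H,H')+64hk^{3/2}(cpl D x)²/(rr')`, `1/(rr') ≤ k^{-1/2}`, `|D z|² ≤ k^{-1/8}Zr z` for `z ∈ B`, hence (`cpl_sq`)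
  `Zr⁺ x ≤ (1+6hk^{1/2})Zr(H,H')+256d(1+2d)hk^{7/8}(Σ_{z∈nb x∪{x}}W z)`, `W z = Zr z` in `B`, `|D z|²` outside.
* expectation: `z_hat`: `e^{σ⁺ x}E Zr⁺ ≤ e^{σ x}e^{hχ}((1+6hk^{1/2})(1-hχ)Zr x)+…`, `e^{hχ}(1-hχ) ≤ 1`; neighbour terms: `e^{σ⁺ x} ≤ 2k^{-1/2}e^{σ z}`: `≤ C_dhk^{3/8}e^{σ z}W z`.
* outside (`x ∉ B`): `dd`: `|D⁺ x| ≤ e^b|D x|+kh cpl D x`; `|D⁺ x|² ≤ (1+hk^{1/2})e^{2b}|D x|²+2hk^{3/2}(cpl D x)²`, `E_{gd}e^{2b} ≤ 1+(N+1)h` (`bnoise3.mgf`, `r = 2`, `lamN·2+2 = N`, `ε = 1`), so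
  `E|D⁺ x|² ≤ (1+(N+2)h)|D x|²+C_dhk^{3/2}k^{-1/8}ΣW z`, `e^{σ⁺ x} ≤ e^{σ x-(N+2)h}`, `(1+C'h)e^{-C'h} ≤ 1`.
* Sum over `x`; each `z` occurs at most `2d+1` times; total `≤ (1+6hk^{1/2}+C_dhk^{3/8})YW ≤ (1+hk^{1/4})YW` for small `k`.
  (`∫⁻` of a finite sum of nonnegative functions; the marginal of the product measure at `x`: the noise at the other sites only has to be good, drop it.)
-/

open MeasureTheory ProbabilityTheory
open scoped ENNReal

namespace DynG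

open Dyn DynS DynC

theorem upd_le {ι : Type} [Fintype ι] {d : ℕ} (net : Net ι d) (ℓ h : ℝ) (χ σ : ι → ℝ) (x z : ι) :
    upd net ℓ h χ σ x ≤ σ z + h * χ z + net.dist x z * (ℓ / 2) := by
  unfold upd
  exact Finset.inf'_le _ (Finset.mem_univ z)

theorem upd_attained {ι : Type} [Fintype ι] {d : ℕ} (net : Net ι d) (ℓ h : ℝ) (χ σ : ι → ℝ)
    (x : ι) : ∃ z, upd net ℓ h χ σ x = σ z + h * χ z + net.dist x z * (ℓ / 2) := by
  unfold upd
  obtain ⟨z, -, hz⟩ := Finset.exists_mem_eq_inf' ⟨x, Finset.mem_univ x⟩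
    (fun z => σ z + h * χ z + net.dist x z * (ℓ / 2))
  exact ⟨z, hz⟩

theorem cpl_sq {ι : Type} [Fintype ι] {d : ℕ} (net : Net ι d) (D : ι → ℝ) (x : ι) :
    (cpl net D x) ^ 2 ≤ 4 * d * (∑ z ∈ net.nb x, D z ^ 2 + 2 * d * D x ^ 2) := by
  unfold cpl
  have h1 : (∑ z ∈ net.nb x, D z) ^ 2 ≤ (net.nb x).card * ∑ z ∈ net.nb x, D z ^ 2 :=
    sq_sum_le_card_mul_sum_sq
  have h2 : ((net.nb x).card : ℝ) ≤ 2 * d := by
    have := net.nb_card x
    exact_mod_cast this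
  have h3 : 0 ≤ ∑ z ∈ net.nb x, D z ^ 2 := Finset.sum_nonneg fun z _ => sq_nonneg _
  have h4 : ((net.nb x).card : ℝ) * ∑ z ∈ net.nb x, D z ^ 2 ≤
      2 * d * ∑ z ∈ net.nb x, D z ^ 2 := mul_le_mul_of_nonneg_right h2 h3
  push_cast
  have h5 := sq_nonneg (∑ z ∈ net.nb x, D z - 2 * (d : ℝ) * D x)
  nlinarith

/-! ### the coupling term -/

private theorem ZStep_coup {N d L : ℕ} (net : Net (boxS d L) d) (G : boxS d L → E N)
    (x : boxS d L) : ‖coupV net G x‖ ≤ cpl net (nrm G) x := by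
  unfold coupV cpl nrm
  refine (norm_sub_le _ _).trans ?_
  refine add_le_add (norm_sum_le _ _) ?_
  rw [norm_smul, Real.norm_of_nonneg (Nat.cast_nonneg _)]

private theorem ZStep_coup_sub {N d L : ℕ} (net : Net (boxS d L) d) (G G' : boxS d L → E N)
    (x : boxS d L) : coupV net G x - coupV net G' x = coupV net (fun y => G y - G' y) x := by
  unfold coupV
  rw [Finset.sum_sub_distrib, smul_sub]
  abel

private theorem ZStep_coup_le {N d L : ℕ} (G : boxS d L → E N) (x : boxS d L) {M : ℝ}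
    (hM : ∀ z, (boxNet d L).dist x z ≤ 1 → ‖G z‖ ≤ M) :
    ‖coupV (boxNet d L) G x‖ ≤ 4 * d * M := by
  refine (ZStep_coup (boxNet d L) G x).trans ?_
  unfold cpl nrm
  have h0 : ‖G x‖ ≤ M := hM x (by rw [(boxNet d L).dist_self]; omega)
  have hM0 : 0 ≤ M := (norm_nonneg _).trans h0
  have h1 : ∑ z ∈ (boxNet d L).nb x, ‖G z‖ ≤ (((boxNet d L).nb x).card : ℝ) * M := by
    rw [← nsmul_eq_mul]
    exact Finset.sum_le_card_nsmul _ _ _ fun z hz => hM z ((boxNet d L).dist_nb x z hz).le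
  have h2 : (((boxNet d L).nb x).card : ℝ) ≤ 2 * d := by
    have := (boxNet d L).nb_card x
    exact_mod_cast this
  have h3 : (((boxNet d L).nb x).card : ℝ) * M ≤ 2 * d * M := mul_le_mul_of_nonneg_right h2 hM0
  have h4 : ((2 * d : ℕ) : ℝ) * ‖G x‖ ≤ 2 * d * M := by
    push_cast
    exact mul_le_mul_of_nonneg_left h0 (by positivity)
  linarith

/-! ### measure part -/

private theorem ZStep_mA {N d L : ℕ} (hN : 3 ≤ N) (h : ℝ) :
    MeasurableSet {ω : boxS d L → E N | ∀ x, ω x ∈ gdE hN h} := by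
  have h1 : {ω : boxS d L → E N | ∀ x, ω x ∈ gdE hN h} =
      ⋂ x : boxS d L, (fun ω : boxS d L → E N => ω x) ⁻¹' (gdE hN h) := by
    ext ω
    simp
  rw [h1]
  exact MeasurableSet.iInter fun x => measurable_pi_apply x (measurable_gdE hN h)

private theorem ZStep_marg {N d L : ℕ} (hN : 3 ≤ N) (h : ℝ) (x : boxS d L) {ψ : E N → ℝ≥0∞}
    (hψ : Measurable ψ) :
    ∫⁻ ω in {ω | ∀ x, ω x ∈ gdE hN h}, ψ (ω x)
        ∂(Measure.pi fun _ : boxS d L => stdGaussian (E N)) ≤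
      ∫⁻ ζ in gdE hN h, ψ ζ ∂(stdGaussian (E N)) := by
  have hi := hψ.indicator (measurable_gdE hN h)
  have e1 : ∫⁻ ω in {ω | ∀ x, ω x ∈ gdE hN h}, ψ (ω x)
        ∂(Measure.pi fun _ : boxS d L => stdGaussian (E N)) =
      ∫⁻ ω in {ω | ∀ x, ω x ∈ gdE hN h}, (gdE hN h).indicator ψ (ω x)
        ∂(Measure.pi fun _ : boxS d L => stdGaussian (E N)) := by
    refine setLIntegral_congr_fun (ZStep_mA hN h) fun ω hω => ?_
    have hω' : ω x ∈ gdE hN h := hω x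
    rw [Set.indicator_of_mem hω']
  rw [e1, ← lintegral_indicator (measurable_gdE hN h)]
  have e2 := (measurePreserving_eval (fun _ : boxS d L => stdGaussian (E N)) x).lintegral_comp hi
  rw [← e2]
  exact setLIntegral_le_lintegral _ _

private theorem ZStep_int {N d L : ℕ} (hN : 3 ≤ N) (h : ℝ) (x : boxS d L) {ψ : E N → ℝ}
    (hψ : Measurable ψ) {F : (boxS d L → E N) → ℝ} {a b v : ℝ} (ha : 0 ≤ a) (hb : 0 ≤ b)
    (hv : 0 ≤ v) (hψ0 : ∀ ζ, 0 ≤ ψ ζ)
    (hF : ∀ ω : boxS d L → E N, (∀ x, ω x ∈ gdE hN h) → F ω ≤ a * ψ (ω x) + b)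
    (hI : ∫⁻ ζ in gdE hN h, ENNReal.ofReal (ψ ζ) ∂(stdGaussian (E N)) ≤ ENNReal.ofReal v) :
    ∫⁻ ω in {ω | ∀ x, ω x ∈ gdE hN h}, ENNReal.ofReal (F ω)
        ∂(Measure.pi fun _ : boxS d L => stdGaussian (E N)) ≤ ENNReal.ofReal (a * v + b) := by
  calc ∫⁻ ω in {ω | ∀ x, ω x ∈ gdE hN h}, ENNReal.ofReal (F ω)
        ∂(Measure.pi fun _ : boxS d L => stdGaussian (E N))
      ≤ ∫⁻ ω in {ω | ∀ x, ω x ∈ gdE hN h}, (ENNReal.ofReal a * ENNReal.ofReal (ψ (ω x)) +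
          ENNReal.ofReal b) ∂(Measure.pi fun _ : boxS d L => stdGaussian (E N)) := by
        refine setLIntegral_mono' (ZStep_mA hN h) fun ω hω => ?_
        rw [← ENNReal.ofReal_mul ha, ← ENNReal.ofReal_add (mul_nonneg ha (hψ0 _)) hb]
        exact ENNReal.ofReal_le_ofReal (hF ω hω)
    _ = ENNReal.ofReal a * ∫⁻ ω in {ω | ∀ x, ω x ∈ gdE hN h}, ENNReal.ofReal (ψ (ω x))
          ∂(Measure.pi fun _ : boxS d L => stdGaussian (E N)) + ENNReal.ofReal b *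
          (Measure.pi fun _ : boxS d L => stdGaussian (E N))
            {ω | ∀ x, ω x ∈ gdE hN h} := by
        rw [lintegral_add_right _ measurable_const, lintegral_const_mul' _ _ ENNReal.ofReal_ne_top,
          setLIntegral_const]
    _ ≤ ENNReal.ofReal a * ENNReal.ofReal v + ENNReal.ofReal b * 1 := by
        refine add_le_add (mul_le_mul_right ?_ _) (mul_le_mul_right prob_le_one _)
        exact (ZStep_marg hN h x hψ.ennreal_ofReal).trans hI
    _ = ENNReal.ofReal (a * v + b) := by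
        rw [mul_one, ← ENNReal.ofReal_mul ha, ← ENNReal.ofReal_add (mul_nonneg ha hv) hb]

/-! ### algebra of one site -/

private theorem ZStep_sq {a b η : ℝ} (hη : 0 < η) (hη1 : η ≤ 1) :
    (a + b) ^ 2 ≤ (1 + η) * a ^ 2 + 2 / η * b ^ 2 := by
  have h1 : 0 ≤ (η * a - b) ^ 2 / η := by positivity
  have h2 : (η * a - b) ^ 2 / η = η * a ^ 2 - 2 * (a * b) + b ^ 2 / η := by
    field_simp
    ring
  have h3 : b ^ 2 ≤ b ^ 2 / η := by
    rw [le_div_iff₀ hη]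
    nlinarith [sq_nonneg b]
  have h4 : 2 / η * b ^ 2 = b ^ 2 / η + b ^ 2 / η := by ring
  rw [h4]
  nlinarith

private theorem ZStep_alg {a s η r r' H H' Rp Rp' Dp : ℝ} (hη : 0 < η) (hη1 : η ≤ 1 / 10)
    (hr : 0 < r) (hr' : 0 < r') (hH : r / 4 ≤ H) (hH' : r' / 4 ≤ H') (hR : H * (1 - η) ≤ Rp)
    (hR' : H' * (1 - η) ≤ Rp') (hs : 0 ≤ s) (hD : Dp ^ 2 ≤ (1 + η) * a ^ 2 + s) :
    Dp ^ 2 / (Rp * Rp') ≤ (1 + 6 * η) * (a ^ 2 / (H * H')) + 32 * s / (r * r') := by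
  have H0 : 0 < H := by linarith
  have H0' : 0 < H' := by linarith
  have h1 : 0 < 1 - η := by linarith
  have hHH : 0 < H * H' := mul_pos H0 H0'
  have hrr : 0 < r * r' := mul_pos hr hr'
  have hHR : H * H' * (1 - η) ^ 2 ≤ Rp * Rp' := by
    calc H * H' * (1 - η) ^ 2 = (H * (1 - η)) * (H' * (1 - η)) := by ring
      _ ≤ Rp * Rp' := mul_le_mul hR hR' (by positivity) ((by positivity : 0 ≤ H * (1 - η)).trans hR)
  have hpos : 0 < H * H' * (1 - η) ^ 2 := by positivity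
  have hnum : 0 ≤ (1 + η) * a ^ 2 + s := by positivity
  calc Dp ^ 2 / (Rp * Rp') ≤ ((1 + η) * a ^ 2 + s) / (H * H' * (1 - η) ^ 2) :=
        div_le_div₀ hnum hD hpos hHR
    _ = (1 + η) / (1 - η) ^ 2 * (a ^ 2 / (H * H')) + s / (H * H' * (1 - η) ^ 2) := by
        field_simp
    _ ≤ (1 + 6 * η) * (a ^ 2 / (H * H')) + 32 * s / (r * r') := by
        refine add_le_add (mul_le_mul_of_nonneg_right ?_ (by positivity)) ?_
        · rw [div_le_iff₀ (by positivity)]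
          nlinarith [sq_nonneg η, mul_pos hη hη, mul_pos (mul_pos hη hη) hη]
        · rw [div_le_div_iff₀ hpos hrr]
          have h2 : r * r' / 16 ≤ H * H' := by
            calc r * r' / 16 = (r / 4) * (r' / 4) := by ring
              _ ≤ H * H' := mul_le_mul hH hH' (by positivity) H0.le
          have h3 : (1 / 2 : ℝ) ≤ (1 - η) ^ 2 := by nlinarith
          have h4 : r * r' / 32 ≤ H * H' * (1 - η) ^ 2 := by
            calc r * r' / 32 = r * r' / 16 * (1 / 2) := by ring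
              _ ≤ H * H' * (1 - η) ^ 2 := mul_le_mul h2 h3 (by norm_num) hHH.le
          nlinarith

/-- terms of `YW` without the weights -/
private noncomputable def ZStepW {N d L : ℕ} (y : boxS d L) (R : ℕ)
    (G : (boxS d L → E N) × (boxS d L → E N)) (z : boxS d L) : ℝ :=
  if (boxNet d L).dist z y ≤ R then Zr (G.1 z) (G.2 z) else ‖G.1 z - G.2 z‖ ^ 2

private theorem ZStep_Zr0 {N : ℕ} (g g' : E N) : 0 ≤ Zr g g' := by
  unfold Zr
  positivity

private theorem ZStep_W0 {N d L : ℕ} (y : boxS d L) (R : ℕ)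
    (G : (boxS d L → E N) × (boxS d L → E N)) (z : boxS d L) : 0 ≤ ZStepW y R G z := by
  unfold ZStepW
  split_ifs
  · exact ZStep_Zr0 _ _
  · positivity

private theorem ZStep_D {N d L : ℕ} {k : ℝ} (hk : 0 < k) (hk1 : k < 1) {y : boxS d L} {R : ℕ}
    {G : (boxS d L → E N) × (boxS d L → E N)} (hG : RegG k y R G) (z : boxS d L) :
    ‖G.1 z - G.2 z‖ ^ 2 ≤ ((k ^ (1 / 16 : ℝ)) ^ 2)⁻¹ * ZStepW y R G z := by
  have hm : 0 < k ^ (1 / 16 : ℝ) := Real.rpow_pos_of_pos hk _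
  have hm1 : k ^ (1 / 16 : ℝ) ≤ 1 := Real.rpow_le_one hk.le hk1.le (by norm_num)
  have hneg : k ^ (-(1 / 16) : ℝ) = (k ^ (1 / 16 : ℝ))⁻¹ := Real.rpow_neg hk.le _
  set m := k ^ (1 / 16 : ℝ) with hmd
  unfold ZStepW
  split_ifs with hz
  · obtain ⟨h1, h2⟩ := hG.1 z hz
    obtain ⟨h3, h4⟩ := hG.2 z (by omega)
    have hk4 : 0 < k ^ (1 / 4 : ℝ) := Real.rpow_pos_of_pos hk _
    rw [hneg] at h3 h4
    have p1 : 0 < ‖G.1 z‖ := hk4.trans_le h1
    have p2 : 0 < ‖G.2 z‖ := hk4.trans_le h2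
    have h5 : ‖G.1 z‖ * ‖G.2 z‖ ≤ (m ^ 2)⁻¹ := by
      calc ‖G.1 z‖ * ‖G.2 z‖ ≤ m⁻¹ * m⁻¹ := mul_le_mul h3 h4 p2.le (by positivity)
        _ = (m ^ 2)⁻¹ := by rw [sq, mul_inv]
    have h6 : ‖G.1 z - G.2 z‖ ^ 2 = (‖G.1 z‖ * ‖G.2 z‖) * Zr (G.1 z) (G.2 z) := by
      unfold Zr
      field_simp
    rw [h6]
    exact mul_le_mul_of_nonneg_right h5 (ZStep_Zr0 _ _)
  · have h1 : 1 ≤ (m ^ 2)⁻¹ := by
      rw [one_le_inv₀ (by positivity)]
      exact pow_le_one₀ hm.le hm1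
    have h2 : 0 ≤ ‖G.1 z - G.2 z‖ ^ 2 := by positivity
    nlinarith

/-- sum over the neighbours and the point itself -/
private noncomputable def ZStepS {d L : ℕ} (f : boxS d L → ℝ) (x : boxS d L) : ℝ :=
  ∑ z ∈ (boxNet d L).nb x, f z + 2 * d * f x

private theorem ZStep_S0 {d L : ℕ} {f : boxS d L → ℝ} (hf : ∀ z, 0 ≤ f z) (x : boxS d L) :
    0 ≤ ZStepS f x := by
  unfold ZStepS
  have h1 : 0 ≤ ∑ z ∈ (boxNet d L).nb x, f z := Finset.sum_nonneg fun z _ => hf z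
  have h2 : 0 ≤ 2 * (d : ℝ) * f x := mul_nonneg (by positivity) (hf x)
  linarith

private theorem ZStep_Smono {d L : ℕ} {f g : boxS d L → ℝ} {c : ℝ} {x : boxS d L}
    (hfg : ∀ z, (boxNet d L).dist x z ≤ 1 → f z ≤ c * g z) :
    ZStepS f x ≤ c * ZStepS g x := by
  unfold ZStepS
  rw [mul_add, Finset.mul_sum]
  have h1 : ∑ z ∈ (boxNet d L).nb x, f z ≤ ∑ z ∈ (boxNet d L).nb x, c * g z :=
    Finset.sum_le_sum fun z hz => hfg z ((boxNet d L).dist_nb x z hz).le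
  have h2 := hfg x (by rw [(boxNet d L).dist_self]; omega)
  have h3 : 2 * (d : ℝ) * f x ≤ 2 * d * (c * g x) :=
    mul_le_mul_of_nonneg_left h2 (by positivity)
  linarith

private theorem ZStep_Ssum {d L : ℕ} {f : boxS d L → ℝ} (hf : ∀ z, 0 ≤ f z) :
    ∑ x, ZStepS f x ≤ 4 * d * ∑ x, f x := by
  unfold ZStepS
  rw [Finset.sum_add_distrib, ← Finset.mul_sum]
  have h1 : ∑ x : boxS d L, ∑ z ∈ (boxNet d L).nb x, f z =
      ∑ z : boxS d L, ∑ x ∈ (boxNet d L).nb z, f z := by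
    refine Finset.sum_comm' fun x z => ?_
    constructor
    · intro hx
      exact ⟨(boxNet d L).nb_symm x z hx.2, Finset.mem_univ _⟩
    · intro hx
      exact ⟨Finset.mem_univ _, (boxNet d L).nb_symm z x hx.1⟩
  rw [h1]
  have h2 : ∑ z : boxS d L, ∑ x ∈ (boxNet d L).nb z, f z ≤ ∑ z : boxS d L, 2 * d * f z := by
    refine Finset.sum_le_sum fun z _ => ?_
    rw [Finset.sum_const, nsmul_eq_mul]
    have h3 : (((boxNet d L).nb z).card : ℝ) ≤ 2 * d := by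
      have := (boxNet d L).nb_card z
      exact_mod_cast this
    exact mul_le_mul_of_nonneg_right h3 (hf z)
  rw [← Finset.mul_sum] at h2
  linarith

/-- coupling of the differences in terms of the weights -/
private theorem ZStep_cpl {N d L : ℕ} {k : ℝ} (hk : 0 < k) (hk1 : k < 1) {y : boxS d L} {R : ℕ}
    {G : (boxS d L → E N) × (boxS d L → E N)} (hG : RegG k y R G) (x : boxS d L) :
    (cpl (boxNet d L) (dif G.1 G.2) x) ^ 2 ≤
      4 * d * (((k ^ (1 / 16 : ℝ)) ^ 2)⁻¹ * ZStepS (ZStepW y R G) x) := by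
  refine (cpl_sq (boxNet d L) (dif G.1 G.2) x).trans ?_
  refine mul_le_mul_of_nonneg_left ?_ (by positivity)
  have h1 : ∀ z, (boxNet d L).dist x z ≤ 1 → (fun z => dif G.1 G.2 z ^ 2) z ≤
      ((k ^ (1 / 16 : ℝ)) ^ 2)⁻¹ * ZStepW y R G z := fun z _ => ZStep_D hk hk1 hG z
  exact ZStep_Smono h1

/-- weights -/
private theorem ZStep_exp {N d L : ℕ} {k h c β C' : ℝ} (hk : 0 < k) (hk1 : k < 1) (hh : 0 < h)
    (hh1 : h < 1 / 1000) (hc0 : 0 < c) (hc : c ≤ 1) (hC' : 0 < C') (y : boxS d L) (R : ℕ)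
    (G : (boxS d L → E N) × (boxS d L → E N)) (σ : boxS d L → ℝ) (x z : boxS d L)
    (hz : (boxNet d L).dist x z ≤ 1) :
    Real.exp (upd (boxNet d L) (ell k) h (chi c β C' y R G) σ x) ≤
      2 * ((k ^ (1 / 16 : ℝ)) ^ 8)⁻¹ * Real.exp (σ z) := by
  have h1 := upd_le (boxNet d L) (ell k) h (chi c β C' y R G) σ x z
  have h2 : chi c β C' y R G z ≤ 1 := by
    unfold chi
    split_ifs
    · have h3 : min 1 (mn G z ^ β) ≤ 1 := min_le_left _ _
      nlinarith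
    · linarith
  have h3 : h * chi c β C' y R G z ≤ 1 / 1000 := by nlinarith
  have hl : 0 ≤ ell k := by
    unfold ell
    exact Real.log_nonneg (by rw [le_div_iff₀ hk]; linarith)
  have h4 : ((boxNet d L).dist x z : ℝ) * (ell k / 2) ≤ ell k / 2 := by
    have : ((boxNet d L).dist x z : ℝ) ≤ 1 := by exact_mod_cast hz
    nlinarith
  have h5 : Real.exp (ell k / 2) = ((k ^ (1 / 16 : ℝ)) ^ 8)⁻¹ := by
    unfold ell
    rw [← Real.rpow_natCast, ← Real.rpow_mul hk.le, ← Real.rpow_neg hk.le,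
      Real.rpow_def_of_pos hk, one_div, Real.log_inv]
    congr 1
    norm_num
    ring
  have h6 : Real.exp (1 / 1000 : ℝ) ≤ 2 := by
    have := Real.exp_bound_div_one_sub_of_interval (by norm_num : (0 : ℝ) ≤ 1 / 1000)
      (by norm_num : (1 / 1000 : ℝ) < 1)
    refine this.trans (by norm_num)
  calc Real.exp (upd (boxNet d L) (ell k) h (chi c β C' y R G) σ x)
      ≤ Real.exp (1 / 1000 + ell k / 2 + σ z) := Real.exp_le_exp.2 (by linarith)
    _ = Real.exp (1 / 1000) * ((k ^ (1 / 16 : ℝ)) ^ 8)⁻¹ * Real.exp (σ z) := by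
        rw [Real.exp_add, Real.exp_add, h5]
    _ ≤ 2 * ((k ^ (1 / 16 : ℝ)) ^ 8)⁻¹ * Real.exp (σ z) := by
        have : 0 < k ^ (1 / 16 : ℝ) := Real.rpow_pos_of_pos hk _
        gcongr

private theorem ZStep_expS {N d L : ℕ} {k h c β C' : ℝ} (hk : 0 < k) (hk1 : k < 1) (hh : 0 < h)
    (hh1 : h < 1 / 1000) (hc0 : 0 < c) (hc : c ≤ 1) (hC' : 0 < C') (y : boxS d L) (R : ℕ)
    (G : (boxS d L → E N) × (boxS d L → E N)) (σ : boxS d L → ℝ) (x : boxS d L) :
    Real.exp (upd (boxNet d L) (ell k) h (chi c β C' y R G) σ x) * ZStepS (ZStepW y R G) x ≤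
      2 * ((k ^ (1 / 16 : ℝ)) ^ 8)⁻¹ *
        ZStepS (fun z => Real.exp (σ z) * ZStepW y R G z) x := by
  have e1 : Real.exp (upd (boxNet d L) (ell k) h (chi c β C' y R G) σ x) *
      ZStepS (ZStepW y R G) x = ZStepS (fun z =>
        Real.exp (upd (boxNet d L) (ell k) h (chi c β C' y R G) σ x) * ZStepW y R G z) x := by
    unfold ZStepS
    rw [mul_add, Finset.mul_sum]
    ring
  rw [e1]
  refine ZStep_Smono fun z hz => ?_
  rw [← mul_assoc]
  exact mul_le_mul_of_nonneg_right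
    (ZStep_exp hk hk1 hh hh1 hc0 hc hC' y R G σ x z hz) (ZStep_W0 y R G z)

private theorem ZStep_mst {N d L : ℕ} (hN : 3 ≤ N) (β k h : ℝ)
    (G : (boxS d L → E N) × (boxS d L → E N)) :
    Measurable fun ω : boxS d L → E N => st3 hN β k h L G ω := by
  have h1 : Measurable fun ω : boxS d L → E N => (G, ω) := measurable_const.prodMk measurable_id
  have h2 := (measurable_st3 (d := d) hN β k h L).comp h1
  exact h2

private theorem ZStep_hatc {N : ℕ} {β h : ℝ} (hβ : 0 < β) (hh : 0 ≤ h) (g : E N)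
    (Q : E N ≃ₗᵢ[ℝ] E N) : Continuous fun ζ : E N => hat β h g (Q ζ) := by
  have h1 : Continuous fun ζ : E N => (g, Q ζ) := continuous_const.prodMk Q.continuous
  have h2 := (hat_continuous (N := N) hβ hh).comp h1
  exact h2

private theorem ZStep_Zrm {N : ℕ} {X : Type} [MeasurableSpace X] {u v : X → E N}
    (hu : Measurable u) (hv : Measurable v) : Measurable fun x => Zr (u x) (v x) := by
  unfold Zr
  exact ((hu.sub hv).norm.pow_const 2).div (hu.norm.mul hv.norm)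

private theorem ZStep_mψ {N : ℕ} (hN : 3 ≤ N) {β h : ℝ} (hβ : 0 < β) (hh : 0 ≤ h) (g g' : E N) :
    Measurable fun ζ : E N =>
      Zr (hat β h g (fr1 hN g ζ)) (hat β h g' (fr2 hN g g' ζ)) := by
  have h1 := (ZStep_hatc hβ hh g (fr1 hN g)).measurable
  have h2 := (ZStep_hatc hβ hh g' (fr2 hN g g')).measurable
  exact ZStep_Zrm h1 h2

/-- a site inside the ball -/
private theorem ZStep_in {N d : ℕ} (hN : 3 ≤ N) {β k h c C' : ℝ} (hβ : 0 < β) (hk : 0 < k)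
    (hk1 : k < 1) (hkd : 16 * d * (k ^ (1 / 16 : ℝ)) ^ 3 ≤ 1) (hh : 0 < h) (hh1 : h < 1 / 1000)
    (hc0 : 0 < c) (hc : c ≤ 1) (hC' : 0 < C')
    (hz : ∀ g g' : E N, g ≠ 0 → g' ≠ 0 → h * ‖g‖ ^ β ≤ 1 → h * ‖g'‖ ^ β ≤ 1 →
      ∫⁻ ζ in gdE hN h, ENNReal.ofReal (Zr (hat β h g (fr1 hN g ζ)) (hat β h g' (fr2 hN g g' ζ)))
          ∂(stdGaussian (E N)) ≤
        ENNReal.ofReal ((1 - c * h * min 1 ((min ‖g‖ ‖g'‖) ^ β)) * Zr g g'))
    (hhk : h * (k ^ (-(1 / 16) : ℝ)) ^ β ≤ 1) (L : ℕ) (y : boxS d L) (R : ℕ)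
    (G : (boxS d L → E N) × (boxS d L → E N)) (σ : boxS d L → ℝ) (hG : RegG k y R G)
    (x : boxS d L) (hx : (boxNet d L).dist x y ≤ R) :
    ∫⁻ ω in {ω | ∀ x, ω x ∈ gdE hN h},
          ENNReal.ofReal (Real.exp (upd (boxNet d L) (ell k) h (chi c β C' y R G) σ x) *
            ZStepW y R (st3 hN β k h L G ω) x)
          ∂(Measure.pi fun _ : boxS d L => stdGaussian (E N)) ≤
      ENNReal.ofReal ((1 + 6 * (h * (k ^ (1 / 16 : ℝ)) ^ 8)) * (Real.exp (σ x) * ZStepW y R G x) +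
        512 * d * h * (k ^ (1 / 16 : ℝ)) ^ 6 *
          ZStepS (fun z => Real.exp (σ z) * ZStepW y R G z) x) := by
  have hm : 0 < k ^ (1 / 16 : ℝ) := Real.rpow_pos_of_pos hk _
  have hm1 : k ^ (1 / 16 : ℝ) ≤ 1 := Real.rpow_le_one hk.le hk1.le (by norm_num)
  have hneg : k ^ (-(1 / 16) : ℝ) = (k ^ (1 / 16 : ℝ))⁻¹ := Real.rpow_neg hk.le _
  have h4 : k ^ (1 / 4 : ℝ) = (k ^ (1 / 16 : ℝ)) ^ 4 := by
    rw [← Real.rpow_natCast, ← Real.rpow_mul hk.le]
    norm_num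
  have h16 : k = (k ^ (1 / 16 : ℝ)) ^ 16 := by
    rw [← Real.rpow_natCast, ← Real.rpow_mul hk.le]
    norm_num
  have hSc := ZStep_cpl hk hk1 hG x
  have hSe := ZStep_expS (β := β) hk hk1 hh hh1 hc0 hc hC' y R G σ x
  have hW0 : ∀ z, 0 ≤ ZStepW y R G z := ZStep_W0 y R G
  have hS0 := ZStep_S0 hW0 x
  obtain ⟨lo, up⟩ := hG
  obtain ⟨g1, g2⟩ := lo x hx
  obtain ⟨u1, u2⟩ := up x (by omega)
  have hx1 := upd_le (boxNet d L) (ell k) h (chi c β C' y R G) σ x x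
  rw [(boxNet d L).dist_self, Nat.cast_zero, zero_mul, add_zero] at hx1
  have hchi : chi c β C' y R G x = c * min 1 ((min ‖G.1 x‖ ‖G.2 x‖) ^ β) := by
    unfold chi mn
    rw [if_pos hx]
  have hWx : ZStepW y R G x = Zr (G.1 x) (G.2 x) := by
    unfold ZStepW
    rw [if_pos hx]
  set S := ZStepS (ZStepW y R G) x with hSd
  set Sf := ZStepS (fun z => Real.exp (σ z) * ZStepW y R G z) x with hSf
  set e := Real.exp (upd (boxNet d L) (ell k) h (chi c β C' y R G) σ x) with he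
  rw [hneg] at u1 u2 hhk
  rw [h4] at g1 g2
  have hup : ∀ z, (boxNet d L).dist x z ≤ 1 → ‖G.1 z‖ ≤ (k ^ (1 / 16 : ℝ))⁻¹ ∧
      ‖G.2 z‖ ≤ (k ^ (1 / 16 : ℝ))⁻¹ := by
    intro z hz
    have h1 := (boxNet d L).dist_tri z x y
    rw [(boxNet d L).dist_comm z x] at h1
    have h2 := up z (by omega)
    rw [hneg] at h2
    exact h2
  set m := k ^ (1 / 16 : ℝ) with hmd
  have hm4 : 0 < m ^ 4 := by positivity
  have p1 : 0 < ‖G.1 x‖ := hm4.trans_le g1
  have p2 : 0 < ‖G.2 x‖ := hm4.trans_le g2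
  have n1 : G.1 x ≠ 0 := norm_pos_iff.1 p1
  have n2 : G.2 x ≠ 0 := norm_pos_iff.1 p2
  have s1 : h * ‖G.1 x‖ ^ β ≤ 1 :=
    (mul_le_mul_of_nonneg_left (Real.rpow_le_rpow p1.le u1 hβ.le) hh.le).trans hhk
  have s2 : h * ‖G.2 x‖ ^ β ≤ 1 :=
    (mul_le_mul_of_nonneg_left (Real.rpow_le_rpow p2.le u2 hβ.le) hh.le).trans hhk
  have hI := hz (G.1 x) (G.2 x) n1 n2 s1 s2
  have hη : 0 < h * m ^ 8 := by positivity
  have hm8 : m ^ 8 ≤ 1 := pow_le_one₀ hm.le hm1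
  have hη1 : h * m ^ 8 ≤ 1 / 10 := by nlinarith
  have hchi0 : 0 ≤ chi c β C' y R G x := by
    rw [hchi]
    have : 0 ≤ (min ‖G.1 x‖ ‖G.2 x‖) ^ β := Real.rpow_nonneg (le_min p1.le p2.le) _
    have : 0 ≤ min 1 ((min ‖G.1 x‖ ‖G.2 x‖) ^ β) := le_min zero_le_one this
    positivity
  have hchi1 : chi c β C' y R G x ≤ 1 := by
    rw [hchi]
    have : min 1 ((min ‖G.1 x‖ ‖G.2 x‖) ^ β) ≤ 1 := min_le_left _ _
    nlinarith
  have hv : 0 ≤ (1 - h * chi c β C' y R G x) * Zr (G.1 x) (G.2 x) := by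
    have h1 : 0 ≤ 1 - h * chi c β C' y R G x := by nlinarith
    exact mul_nonneg h1 (ZStep_Zr0 _ _)
  have hfrac : 1 - c * h * min 1 ((min ‖G.1 x‖ ‖G.2 x‖) ^ β) = 1 - h * chi c β C' y R G x := by
    rw [hchi]
    ring
  rw [hfrac] at hI
  have he0 : 0 < e := Real.exp_pos _
  have hmψ : Measurable fun ζ : E N =>
      Zr (hat β h (G.1 x) (fr1 hN (G.1 x) ζ)) (hat β h (G.2 x) (fr2 hN (G.1 x) (G.2 x) ζ)) :=
    ZStep_mψ hN hβ hh.le (G.1 x) (G.2 x)
  have key : ∀ ω : boxS d L → E N, (∀ x, ω x ∈ gdE hN h) →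
      e * ZStepW y R (st3 hN β k h L G ω) x ≤
        e * (1 + 6 * (h * m ^ 8)) * Zr (hat β h (G.1 x) (fr1 hN (G.1 x) (ω x)))
          (hat β h (G.2 x) (fr2 hN (G.1 x) (G.2 x) (ω x))) + e * (256 * d * h * m ^ 14 * S) := by
    intro ω hω
    obtain ⟨l1, l2⟩ := hat_low hN hβ hh hh1 n1 n2 s1 s2 (hω x)
    set H := hat β h (G.1 x) (fr1 hN (G.1 x) (ω x)) with hHd
    set H' := hat β h (G.2 x) (fr2 hN (G.1 x) (G.2 x) (ω x)) with hHd'
    have e1 : (st3 hN β k h L G ω).1 x = H + (k * h) • coupV (boxNet d L) G.1 x := rfl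
    have e2 : (st3 hN β k h L G ω).2 x = H' + (k * h) • coupV (boxNet d L) G.2 x := rfl
    have c1 : ‖(k * h) • coupV (boxNet d L) G.1 x‖ ≤ h * m ^ 8 * (m ^ 4 / 4) := by
      rw [norm_smul, Real.norm_of_nonneg (by positivity)]
      have := ZStep_coup_le G.1 x (M := m⁻¹) (fun z hz => (hup z hz).1)
      calc k * h * ‖coupV (boxNet d L) G.1 x‖ ≤ k * h * (4 * d * m⁻¹) :=
            mul_le_mul_of_nonneg_left this (by positivity)
        _ = h * (16 * d * m ^ 3) * m ^ 12 / 4 := by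
            rw [h16]
            field_simp
            ring
        _ ≤ h * 1 * m ^ 12 / 4 := by gcongr
        _ = h * m ^ 8 * (m ^ 4 / 4) := by ring
    have c2 : ‖(k * h) • coupV (boxNet d L) G.2 x‖ ≤ h * m ^ 8 * (m ^ 4 / 4) := by
      rw [norm_smul, Real.norm_of_nonneg (by positivity)]
      have := ZStep_coup_le G.2 x (M := m⁻¹) (fun z hz => (hup z hz).2)
      calc k * h * ‖coupV (boxNet d L) G.2 x‖ ≤ k * h * (4 * d * m⁻¹) :=
            mul_le_mul_of_nonneg_left this (by positivity)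
        _ = h * (16 * d * m ^ 3) * m ^ 12 / 4 := by
            rw [h16]
            field_simp
            ring
        _ ≤ h * 1 * m ^ 12 / 4 := by gcongr
        _ = h * m ^ 8 * (m ^ 4 / 4) := by ring
    have r1 : ‖H‖ * (1 - h * m ^ 8) ≤ ‖(st3 hN β k h L G ω).1 x‖ := by
      rw [e1]
      have h1 := norm_sub_le (H + (k * h) • coupV (boxNet d L) G.1 x)
        ((k * h) • coupV (boxNet d L) G.1 x)
      rw [add_sub_cancel_right] at h1
      have h2 : h * m ^ 8 * (m ^ 4 / 4) ≤ h * m ^ 8 * ‖H‖ :=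
        mul_le_mul_of_nonneg_left (by linarith) hη.le
      linarith
    have r2 : ‖H'‖ * (1 - h * m ^ 8) ≤ ‖(st3 hN β k h L G ω).2 x‖ := by
      rw [e2]
      have h1 := norm_sub_le (H' + (k * h) • coupV (boxNet d L) G.2 x)
        ((k * h) • coupV (boxNet d L) G.2 x)
      rw [add_sub_cancel_right] at h1
      have h2 : h * m ^ 8 * (m ^ 4 / 4) ≤ h * m ^ 8 * ‖H'‖ :=
        mul_le_mul_of_nonneg_left (by linarith) hη.le
      linarith
    have d1 : ‖(st3 hN β k h L G ω).1 x - (st3 hN β k h L G ω).2 x‖ ≤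
        ‖H - H'‖ + k * h * cpl (boxNet d L) (dif G.1 G.2) x := by
      rw [e1, e2]
      have h1 : (H + (k * h) • coupV (boxNet d L) G.1 x) -
          (H' + (k * h) • coupV (boxNet d L) G.2 x) = (H - H') +
          (k * h) • coupV (boxNet d L) (fun y => G.1 y - G.2 y) x := by
        rw [← ZStep_coup_sub, smul_sub]
        abel
      rw [h1]
      refine (norm_add_le _ _).trans (add_le_add le_rfl ?_)
      rw [norm_smul, Real.norm_of_nonneg (by positivity)]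
      exact mul_le_mul_of_nonneg_left (ZStep_coup _ _ _) (by positivity)
    have d2 : ‖(st3 hN β k h L G ω).1 x - (st3 hN β k h L G ω).2 x‖ ^ 2 ≤
        (1 + h * m ^ 8) * ‖H - H'‖ ^ 2 +
          2 * h * m ^ 24 * (cpl (boxNet d L) (dif G.1 G.2) x) ^ 2 := by
      refine (pow_le_pow_left₀ (norm_nonneg _) d1 2).trans ?_
      refine (ZStep_sq hη (by linarith)).trans (le_of_eq ?_)
      congr 1
      rw [h16]
      field_simp
    have hs0 : 0 ≤ 2 * h * m ^ 24 * (cpl (boxNet d L) (dif G.1 G.2) x) ^ 2 := by positivity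
    have f1 := ZStep_alg hη hη1 p1 p2 l1 l2 r1 r2 hs0 d2
    have f2 : 32 * (2 * h * m ^ 24 * (cpl (boxNet d L) (dif G.1 G.2) x) ^ 2) /
        (‖G.1 x‖ * ‖G.2 x‖) ≤ 256 * d * h * m ^ 14 * S := by
      rw [div_le_iff₀ (mul_pos p1 p2)]
      have h1 : m ^ 8 ≤ ‖G.1 x‖ * ‖G.2 x‖ := by
        calc m ^ 8 = m ^ 4 * m ^ 4 := by ring
          _ ≤ ‖G.1 x‖ * ‖G.2 x‖ := mul_le_mul g1 g2 hm4.le p1.le
      calc 32 * (2 * h * m ^ 24 * (cpl (boxNet d L) (dif G.1 G.2) x) ^ 2)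
          ≤ 32 * (2 * h * m ^ 24 * (4 * d * ((m ^ 2)⁻¹ * S))) := by gcongr
        _ = 256 * d * h * m ^ 14 * S * m ^ 8 := by
            field_simp
            ring
        _ ≤ 256 * d * h * m ^ 14 * S * (‖G.1 x‖ * ‖G.2 x‖) :=
            mul_le_mul_of_nonneg_left h1 (by positivity)
    have f3 : ZStepW y R (st3 hN β k h L G ω) x ≤ (1 + 6 * (h * m ^ 8)) * Zr H H' +
        256 * d * h * m ^ 14 * S := by
      unfold ZStepW
      rw [if_pos hx]
      unfold Zr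
      linarith
    calc e * ZStepW y R (st3 hN β k h L G ω) x
        ≤ e * ((1 + 6 * (h * m ^ 8)) * Zr H H' + 256 * d * h * m ^ 14 * S) :=
          mul_le_mul_of_nonneg_left f3 he0.le
      _ = _ := by ring
  have main := ZStep_int (L := L) hN h x hmψ (a := e * (1 + 6 * (h * m ^ 8)))
    (b := e * (256 * d * h * m ^ 14 * S)) (by positivity) (by positivity) hv
    (fun ζ => ZStep_Zr0 _ _) key hI
  refine main.trans (ENNReal.ofReal_le_ofReal ?_)
  have t1 : e * (1 - h * chi c β C' y R G x) ≤ Real.exp (σ x) := by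
    have h1 : e ≤ Real.exp (σ x) * Real.exp (h * chi c β C' y R G x) := by
      rw [← Real.exp_add]
      exact Real.exp_le_exp.2 hx1
    have h2 : 0 ≤ 1 - h * chi c β C' y R G x := by nlinarith
    have h3 : 1 - h * chi c β C' y R G x ≤ Real.exp (-(h * chi c β C' y R G x)) := by
      have := Real.add_one_le_exp (-(h * chi c β C' y R G x))
      linarith
    calc e * (1 - h * chi c β C' y R G x)
        ≤ Real.exp (σ x) * Real.exp (h * chi c β C' y R G x) *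
          Real.exp (-(h * chi c β C' y R G x)) := mul_le_mul h1 h3 h2 (by positivity)
      _ = Real.exp (σ x) := by
          rw [mul_assoc, ← Real.exp_add, add_neg_cancel, Real.exp_zero, mul_one]
  have t2 : e * (1 + 6 * (h * m ^ 8)) * ((1 - h * chi c β C' y R G x) * Zr (G.1 x) (G.2 x)) ≤
      (1 + 6 * (h * m ^ 8)) * (Real.exp (σ x) * ZStepW y R G x) := by
    rw [hWx]
    calc e * (1 + 6 * (h * m ^ 8)) * ((1 - h * chi c β C' y R G x) * Zr (G.1 x) (G.2 x))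
        = (1 + 6 * (h * m ^ 8)) * ((e * (1 - h * chi c β C' y R G x)) * Zr (G.1 x) (G.2 x)) := by
          ring
      _ ≤ _ := mul_le_mul_of_nonneg_left (mul_le_mul_of_nonneg_right t1 (ZStep_Zr0 _ _))
          (by positivity)
  have t3 : e * (256 * d * h * m ^ 14 * S) ≤ 512 * d * h * m ^ 6 * Sf := by
    calc e * (256 * d * h * m ^ 14 * S) = 256 * d * h * m ^ 14 * (e * S) := by ring
      _ ≤ 256 * d * h * m ^ 14 * (2 * (m ^ 8)⁻¹ * Sf) :=
          mul_le_mul_of_nonneg_left hSe (by positivity)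
      _ = 512 * d * h * m ^ 6 * Sf := by
          field_simp
          ring
  linarith

/-- a site outside the ball -/
private theorem ZStep_out {N d : ℕ} (hN : 3 ≤ N) {β k h c : ℝ} (hβ : 0 < β) (hk : 0 < k)
    (hk1 : k < 1) (hk2 : (k ^ (1 / 16 : ℝ)) ^ 8 ≤ 1 / 2) (hh : 0 < h) (hh1 : h < 1 / 1000)
    (hc0 : 0 < c) (hc : c ≤ 1) (hNh : (N + 1) * h ≤ 1)
    (hz : ∫⁻ a in gdE hN h, ENNReal.ofReal (Real.exp (2 * bE hN h a)) ∂(stdGaussian (E N)) ≤
      ENNReal.ofReal (1 + (N + 1) * h)) (L : ℕ) (y : boxS d L) (R : ℕ)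
    (G : (boxS d L → E N) × (boxS d L → E N)) (σ : boxS d L → ℝ) (hG : RegG k y R G)
    (x : boxS d L) (hx : ¬ (boxNet d L).dist x y ≤ R) :
    ∫⁻ ω in {ω | ∀ x, ω x ∈ gdE hN h},
          ENNReal.ofReal (Real.exp (upd (boxNet d L) (ell k) h (chi c β (N + 2) y R G) σ x) *
            ZStepW y R (st3 hN β k h L G ω) x)
          ∂(Measure.pi fun _ : boxS d L => stdGaussian (E N)) ≤
      ENNReal.ofReal ((1 + 6 * (h * (k ^ (1 / 16 : ℝ)) ^ 8)) * (Real.exp (σ x) * ZStepW y R G x) +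
        512 * d * h * (k ^ (1 / 16 : ℝ)) ^ 6 *
          ZStepS (fun z => Real.exp (σ z) * ZStepW y R G z) x) := by
  have hm : 0 < k ^ (1 / 16 : ℝ) := Real.rpow_pos_of_pos hk _
  have hm1 : k ^ (1 / 16 : ℝ) ≤ 1 := Real.rpow_le_one hk.le hk1.le (by norm_num)
  have h16 : k = (k ^ (1 / 16 : ℝ)) ^ 16 := by
    rw [← Real.rpow_natCast, ← Real.rpow_mul hk.le]
    norm_num
  have hC' : (0 : ℝ) < N + 2 := by positivity
  have hSc := ZStep_cpl hk hk1 hG x
  have hSe := ZStep_expS (β := β) hk hk1 hh hh1 hc0 hc hC' y R G σ x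
  have hW0 : ∀ z, 0 ≤ ZStepW y R G z := ZStep_W0 y R G
  have hS0 := ZStep_S0 hW0 x
  have hSf0 := ZStep_S0 (f := fun z => Real.exp (σ z) * ZStepW y R G z)
    (fun z => mul_nonneg (Real.exp_pos _).le (hW0 z)) x
  have hx1 := upd_le (boxNet d L) (ell k) h (chi c β (N + 2) y R G) σ x x
  rw [(boxNet d L).dist_self, Nat.cast_zero, zero_mul, add_zero] at hx1
  have hchi : chi c β (N + 2) y R G x = -(N + 2 : ℝ) := by
    unfold chi
    rw [if_neg hx]
  rw [hchi] at hx1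
  have hWx : ZStepW y R G x = ‖G.1 x - G.2 x‖ ^ 2 := by
    unfold ZStepW
    rw [if_neg hx]
  set S := ZStepS (ZStepW y R G) x with hSd
  set Sf := ZStepS (fun z => Real.exp (σ z) * ZStepW y R G z) x with hSf
  set e := Real.exp (upd (boxNet d L) (ell k) h (chi c β (N + 2) y R G) σ x) with he
  set m := k ^ (1 / 16 : ℝ) with hmd
  have hη : 0 < h * m ^ 8 := by positivity
  have hη1 : h * m ^ 8 ≤ 1 / 10 := by nlinarith
  have he0 : 0 < e := Real.exp_pos _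
  have hmψ : Measurable fun ζ : E N => Real.exp (2 * bE hN h ζ) :=
    Real.measurable_exp.comp ((measurable_bE hN h).const_mul 2)
  set D := ‖G.1 x - G.2 x‖ with hDd
  have key : ∀ ω : boxS d L → E N, (∀ x, ω x ∈ gdE hN h) →
      e * ZStepW y R (st3 hN β k h L G ω) x ≤
        e * (1 + h * m ^ 8) * D ^ 2 * Real.exp (2 * bE hN h (ω x)) +
          e * (8 * d * h * m ^ 22 * S) := by
    intro ω hω
    have d1 : ‖(st3 hN β k h L G ω).1 x - (st3 hN β k h L G ω).2 x‖ ≤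
        Real.exp (bE hN h (ω x)) * D + k * h * cpl (boxNet d L) (dif G.1 G.2) x := by
      have h1 := (PS3 N d hN β k hβ hk.le).dd h L G ω hh
      have h2 := h1.up x
      exact h2
    have d2 : ‖(st3 hN β k h L G ω).1 x - (st3 hN β k h L G ω).2 x‖ ^ 2 ≤
        (1 + h * m ^ 8) * (Real.exp (bE hN h (ω x)) * D) ^ 2 +
          2 * h * m ^ 24 * (cpl (boxNet d L) (dif G.1 G.2) x) ^ 2 := by
      refine (pow_le_pow_left₀ (norm_nonneg _) d1 2).trans ?_
      refine (ZStep_sq hη (by linarith)).trans (le_of_eq ?_)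
      congr 1
      rw [h16]
      field_simp
    have f2 : 2 * h * m ^ 24 * (cpl (boxNet d L) (dif G.1 G.2) x) ^ 2 ≤
        8 * d * h * m ^ 22 * S := by
      calc 2 * h * m ^ 24 * (cpl (boxNet d L) (dif G.1 G.2) x) ^ 2
          ≤ 2 * h * m ^ 24 * (4 * d * ((m ^ 2)⁻¹ * S)) := by gcongr
        _ = 8 * d * h * m ^ 22 * S := by
            field_simp
            ring
    have f3 : ZStepW y R (st3 hN β k h L G ω) x ≤
        (1 + h * m ^ 8) * D ^ 2 * Real.exp (2 * bE hN h (ω x)) + 8 * d * h * m ^ 22 * S := by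
      unfold ZStepW
      rw [if_neg hx]
      have h3 : Real.exp (2 * bE hN h (ω x)) = Real.exp (bE hN h (ω x)) ^ 2 := by
        rw [two_mul, Real.exp_add, sq]
      rw [h3]
      have h4 : (1 + h * m ^ 8) * (Real.exp (bE hN h (ω x)) * D) ^ 2 =
          (1 + h * m ^ 8) * D ^ 2 * Real.exp (bE hN h (ω x)) ^ 2 := by ring
      linarith
    calc e * ZStepW y R (st3 hN β k h L G ω) x
        ≤ e * ((1 + h * m ^ 8) * D ^ 2 * Real.exp (2 * bE hN h (ω x)) +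
          8 * d * h * m ^ 22 * S) := mul_le_mul_of_nonneg_left f3 he0.le
      _ = _ := by ring
  have main := ZStep_int (L := L) hN h x hmψ (a := e * (1 + h * m ^ 8) * D ^ 2)
    (b := e * (8 * d * h * m ^ 22 * S)) (v := 1 + (N + 1) * h) (by positivity) (by positivity)
    (by positivity) (fun ζ => (Real.exp_pos _).le) key hz
  refine main.trans (ENNReal.ofReal_le_ofReal ?_)
  have t1 : e * ((1 + h * m ^ 8) * (1 + (N + 1) * h)) ≤ Real.exp (σ x) := by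
    have h1 : e ≤ Real.exp (σ x) * Real.exp (-((N + 2) * h)) := by
      rw [← Real.exp_add]
      exact Real.exp_le_exp.2 (by linarith)
    have h2 : (1 + h * m ^ 8) * (1 + (N + 1) * h) ≤ Real.exp ((N + 2) * h) := by
      have h3 := Real.add_one_le_exp ((N + 2 : ℝ) * h)
      have h4 : m ^ 8 * (1 + (N + 1) * h) ≤ 1 := by
        calc m ^ 8 * (1 + (N + 1) * h) ≤ 1 / 2 * (1 + 1) := by gcongr
          _ = 1 := by norm_num
      have h5 : h * (m ^ 8 * (1 + (N + 1) * h)) ≤ h * 1 := mul_le_mul_of_nonneg_left h4 hh.le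
      linarith
    calc e * ((1 + h * m ^ 8) * (1 + (N + 1) * h))
        ≤ (Real.exp (σ x) * Real.exp (-((N + 2) * h))) * Real.exp ((N + 2) * h) :=
          mul_le_mul h1 h2 (by positivity) (by positivity)
      _ = Real.exp (σ x) := by
          rw [mul_assoc, ← Real.exp_add, neg_add_cancel, Real.exp_zero, mul_one]
  have t2 : e * (1 + h * m ^ 8) * D ^ 2 * (1 + (N + 1) * h) ≤
      (1 + 6 * (h * m ^ 8)) * (Real.exp (σ x) * ZStepW y R G x) := by
    rw [hWx]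
    calc e * (1 + h * m ^ 8) * D ^ 2 * (1 + (N + 1) * h)
        = (e * ((1 + h * m ^ 8) * (1 + (N + 1) * h))) * D ^ 2 := by ring
      _ ≤ Real.exp (σ x) * D ^ 2 := mul_le_mul_of_nonneg_right t1 (by positivity)
      _ ≤ (1 + 6 * (h * m ^ 8)) * (Real.exp (σ x) * D ^ 2) := by
          have h1 : 0 ≤ Real.exp (σ x) * D ^ 2 := by positivity
          nlinarith
  have t3 : e * (8 * d * h * m ^ 22 * S) ≤ 512 * d * h * m ^ 6 * Sf := by
    calc e * (8 * d * h * m ^ 22 * S) = 8 * d * h * m ^ 22 * (e * S) := by ring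
      _ ≤ 8 * d * h * m ^ 22 * (2 * (m ^ 8)⁻¹ * Sf) :=
          mul_le_mul_of_nonneg_left hSe (by positivity)
      _ = (512 * d * h * m ^ 6 * Sf) * (m ^ 8 / 32) := by
          field_simp
          ring
      _ ≤ (512 * d * h * m ^ 6 * Sf) * 1 :=
          mul_le_mul_of_nonneg_left (by linarith) (by positivity)
      _ = 512 * d * h * m ^ 6 * Sf := mul_one _
  linarith

theorem z_step (N d : ℕ) (hN : 3 ≤ N) (β : ℝ) (hβ : 0 < β) : ∃ c C' k0 : ℝ, 0 < c ∧ c ≤ 1 ∧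
    0 < C' ∧ 0 < k0 ∧ k0 < 1 ∧ ∀ k, 0 < k → k < k0 → ∃ h0 : ℝ, 0 < h0 ∧ h0 ≤ 1 / 1000 ∧
    ∀ h, 0 < h → h < h0 → ∀ (L : ℕ) (y : boxS d L) (R : ℕ)
      (G : (boxS d L → E N) × (boxS d L → E N)) (σ : boxS d L → ℝ), RegG k y R G →
      ∫⁻ ω in {ω | ∀ x, ω x ∈ gdE hN h},
          ENNReal.ofReal (YW y R (upd (boxNet d L) (ell k) h (chi c β C' y R G) σ)
            (st3 hN β k h L G ω)) ∂(Measure.pi fun _ : boxS d L => stdGaussian (E N)) ≤
        ENNReal.ofReal ((1 + k ^ (1 / 4 : ℝ) * h) * YW y R σ G) := by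
  obtain ⟨c, h1, hc0, hc1, hh1, hh1', hz⟩ := z_hat hN β hβ
  obtain ⟨h2, hh2, hmgf⟩ := (bnoise3 hN).mgf 2 1 two_pos one_pos
  set m0 : ℝ := 1 / (2048 * ((d : ℝ) + 1) ^ 2) with hm0
  have hm0p : 0 < m0 := by positivity
  have hm01 : m0 ≤ 1 / 2048 := by
    rw [hm0]
    apply one_div_le_one_div_of_le (by norm_num)
    have h3 : (0 : ℝ) ≤ d := Nat.cast_nonneg d
    nlinarith
  refine ⟨c, N + 2, m0 ^ 16, hc0, hc1, by positivity, by positivity, ?_, fun k hk hkk => ?_⟩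
  · exact pow_lt_one₀ hm0p.le (by linarith) (by norm_num)
  have hk1 : k < 1 := hkk.trans (pow_lt_one₀ hm0p.le (by linarith) (by norm_num))
  have hm : 0 < k ^ (1 / 16 : ℝ) := Real.rpow_pos_of_pos hk _
  have hmlt : k ^ (1 / 16 : ℝ) < m0 := by
    have h3 := Real.rpow_lt_rpow hk.le hkk (by norm_num : (0 : ℝ) < 1 / 16)
    refine h3.trans_le (le_of_eq ?_)
    rw [← Real.rpow_natCast, ← Real.rpow_mul hm0p.le]
    norm_num
  have h4 : k ^ (1 / 4 : ℝ) = (k ^ (1 / 16 : ℝ)) ^ 4 := by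
    rw [← Real.rpow_natCast, ← Real.rpow_mul hk.le]
    norm_num
  have hp0 : 0 < (k ^ (-(1 / 16) : ℝ)) ^ β := Real.rpow_pos_of_pos (Real.rpow_pos_of_pos hk _) _
  refine ⟨min (min h1 (1 / 1000)) (min h2 (min (1 / ((N : ℝ) + 1))
    (1 / (k ^ (-(1 / 16) : ℝ)) ^ β))), ?_, ?_, ?_⟩
  · refine lt_min (lt_min hh1 (by norm_num)) (lt_min hh2 (lt_min (by positivity)
      (by positivity)))
  · exact (min_le_left _ _).trans (min_le_right _ _)
  intro h hh hlt L y R G σ hG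
  have a1 : h < h1 := hlt.trans_le ((min_le_left _ _).trans (min_le_left _ _))
  have a2 : h < 1 / 1000 := hlt.trans_le ((min_le_left _ _).trans (min_le_right _ _))
  have a3' := hlt.trans_le (min_le_right _ _)
  have a3 : h < h2 := a3'.trans_le (min_le_left _ _)
  have a4' := a3'.trans_le (min_le_right _ _)
  have a4 : h < 1 / ((N : ℝ) + 1) := a4'.trans_le (min_le_left _ _)
  have a5 : h < 1 / (k ^ (-(1 / 16) : ℝ)) ^ β := a4'.trans_le (min_le_right _ _)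
  have hNh : ((N : ℝ) + 1) * h ≤ 1 := by
    rw [lt_div_iff₀ (by positivity)] at a4
    linarith
  have hhk : h * (k ^ (-(1 / 16) : ℝ)) ^ β ≤ 1 := by
    rw [lt_div_iff₀ hp0] at a5
    exact a5.le
  have hzh := hz h hh a1
  have hbz : ∫⁻ a in gdE hN h, ENNReal.ofReal (Real.exp (2 * bE hN h a))
      ∂(stdGaussian (E N)) ≤ ENNReal.ofReal (1 + (N + 1) * h) := by
    have h5 := (hmgf h hh a3 2 (by norm_num)).1
    refine h5.trans (le_of_eq ?_)
    unfold lamN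
    congr 1
    ring
  rw [h4]
  set m := k ^ (1 / 16 : ℝ) with hmd
  have hd0 : (0 : ℝ) ≤ d := Nat.cast_nonneg d
  have hm1 : m ≤ 1 := by linarith
  have hmd1 : m * (2048 * ((d : ℝ) + 1) ^ 2) ≤ 1 := by
    rw [hm0, lt_div_iff₀ (by positivity)] at hmlt
    exact hmlt.le
  have hkd : 16 * d * m ^ 3 ≤ 1 := by
    have h5 : m ^ 3 ≤ m := by
      calc m ^ 3 = m * m ^ 2 := by ring
        _ ≤ m * 1 := mul_le_mul_of_nonneg_left (pow_le_one₀ hm.le hm1) hm.le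
        _ = m := mul_one m
    calc 16 * d * m ^ 3 ≤ 16 * d * m := mul_le_mul_of_nonneg_left h5 (by positivity)
      _ ≤ m * (2048 * ((d : ℝ) + 1) ^ 2) := by
          nlinarith [mul_nonneg hm.le hd0, mul_nonneg hm.le (mul_nonneg hd0 hd0)]
      _ ≤ 1 := hmd1
  have hk2 : m ^ 8 ≤ 1 / 2 := by
    calc m ^ 8 = m * m ^ 7 := by ring
      _ ≤ m * 1 := mul_le_mul_of_nonneg_left (pow_le_one₀ hm.le hm1) hm.le
      _ ≤ 1 / 2 := by linarith
  set σ' := upd (boxNet d L) (ell k) h (chi c β (N + 2) y R G) σ with hσ'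
  have hsite : ∀ x : boxS d L, ∫⁻ ω in {ω | ∀ x, ω x ∈ gdE hN h},
          ENNReal.ofReal (Real.exp (σ' x) * ZStepW y R (st3 hN β k h L G ω) x)
          ∂(Measure.pi fun _ : boxS d L => stdGaussian (E N)) ≤
      ENNReal.ofReal ((1 + 6 * (h * m ^ 8)) * (Real.exp (σ x) * ZStepW y R G x) +
        512 * d * h * m ^ 6 *
          ZStepS (fun z => Real.exp (σ z) * ZStepW y R G z) x) := by
    intro x
    by_cases hx : (boxNet d L).dist x y ≤ R
    · exact ZStep_in hN hβ hk hk1 hkd hh a2 hc0 hc1 (by positivity) hzh hhk L y R G σ hG x hx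
    · exact ZStep_out hN hβ hk hk1 hk2 hh a2 hc0 hc1 hNh hbz L y R G σ hG x hx
  have hW0 : ∀ z, 0 ≤ ZStepW y R G z := ZStep_W0 y R G
  have hf0 : ∀ z, 0 ≤ Real.exp (σ z) * ZStepW y R G z :=
    fun z => mul_nonneg (Real.exp_pos _).le (hW0 z)
  have hms : ∀ x : boxS d L, Measurable fun ω : boxS d L → E N =>
      ENNReal.ofReal (Real.exp (σ' x) * ZStepW y R (st3 hN β k h L G ω) x) := by
    intro x
    have m1 : Measurable fun ω : boxS d L → E N => (st3 hN β k h L G ω).1 x :=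
      (measurable_pi_apply x).comp (measurable_fst.comp (ZStep_mst hN β k h G))
    have m2 : Measurable fun ω : boxS d L → E N => (st3 hN β k h L G ω).2 x :=
      (measurable_pi_apply x).comp (measurable_snd.comp (ZStep_mst hN β k h G))
    have m3 : Measurable fun ω : boxS d L → E N => ZStepW y R (st3 hN β k h L G ω) x := by
      unfold ZStepW
      split_ifs
      · exact ZStep_Zrm m1 m2
      · exact (m1.sub m2).norm.pow_const 2
    exact (m3.const_mul _).ennreal_ofReal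
  have eY : ∀ ω : boxS d L → E N, ENNReal.ofReal (YW y R σ' (st3 hN β k h L G ω)) =
      ∑ x, ENNReal.ofReal (Real.exp (σ' x) * ZStepW y R (st3 hN β k h L G ω) x) := by
    intro ω
    rw [← ENNReal.ofReal_sum_of_nonneg fun x _ =>
      mul_nonneg (Real.exp_pos _).le (ZStep_W0 y R _ x)]
    rfl
  calc ∫⁻ ω in {ω | ∀ x, ω x ∈ gdE hN h}, ENNReal.ofReal (YW y R σ' (st3 hN β k h L G ω))
        ∂(Measure.pi fun _ : boxS d L => stdGaussian (E N))
      = ∑ x, ∫⁻ ω in {ω | ∀ x, ω x ∈ gdE hN h},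
          ENNReal.ofReal (Real.exp (σ' x) * ZStepW y R (st3 hN β k h L G ω) x)
          ∂(Measure.pi fun _ : boxS d L => stdGaussian (E N)) := by
        simp only [eY]
        rw [lintegral_finsetSum _ fun x _ => hms x]
    _ ≤ ∑ x, ENNReal.ofReal ((1 + 6 * (h * m ^ 8)) * (Real.exp (σ x) * ZStepW y R G x) +
        512 * d * h * m ^ 6 *
          ZStepS (fun z => Real.exp (σ z) * ZStepW y R G z) x) :=
        Finset.sum_le_sum fun x _ => hsite x
    _ = ENNReal.ofReal (∑ x, ((1 + 6 * (h * m ^ 8)) * (Real.exp (σ x) * ZStepW y R G x) +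
        512 * d * h * m ^ 6 *
          ZStepS (fun z => Real.exp (σ z) * ZStepW y R G z) x)) := by
        rw [ENNReal.ofReal_sum_of_nonneg]
        intro x _
        have h5 := hf0 x
        have h6 := ZStep_S0 hf0 x
        positivity
    _ ≤ ENNReal.ofReal ((1 + m ^ 4 * h) * YW y R σ G) := by
        refine ENNReal.ofReal_le_ofReal ?_
        rw [Finset.sum_add_distrib, ← Finset.mul_sum, ← Finset.mul_sum]
        have h5 := ZStep_Ssum hf0
        have h6 : ∑ x, Real.exp (σ x) * ZStepW y R G x = YW y R σ G := rfl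
        have h7 : 0 ≤ YW y R σ G := by
          rw [← h6]
          exact Finset.sum_nonneg fun x _ => hf0 x
        rw [h6] at h5 ⊢
        have h8 : 512 * d * h * m ^ 6 *
            ∑ x, ZStepS (fun z => Real.exp (σ z) * ZStepW y R G z) x ≤
            512 * d * h * m ^ 6 * (4 * d * YW y R σ G) :=
          mul_le_mul_of_nonneg_left h5 (by positivity)
        have h9 : 6 * m ^ 8 + 2048 * (d : ℝ) ^ 2 * m ^ 6 ≤ m ^ 4 := by
          have b1 : m ^ 4 ≤ m := by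
            calc m ^ 4 = m * m ^ 3 := by ring
              _ ≤ m * 1 := mul_le_mul_of_nonneg_left (pow_le_one₀ hm.le hm1) hm.le
              _ = m := mul_one m
          have b2 : m ^ 2 ≤ m := by
            calc m ^ 2 = m * m := by ring
              _ ≤ m * 1 := mul_le_mul_of_nonneg_left hm1 hm.le
              _ = m := mul_one m
          have b3 : 6 * m ^ 4 + 2048 * (d : ℝ) ^ 2 * m ^ 2 ≤ 1 := by
            have b4 : 2048 * (d : ℝ) ^ 2 * m ^ 2 ≤ 2048 * (d : ℝ) ^ 2 * m :=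
              mul_le_mul_of_nonneg_left b2 (by positivity)
            nlinarith [mul_nonneg hm.le hd0]
          calc 6 * m ^ 8 + 2048 * (d : ℝ) ^ 2 * m ^ 6 =
              m ^ 4 * (6 * m ^ 4 + 2048 * (d : ℝ) ^ 2 * m ^ 2) := by ring
            _ ≤ m ^ 4 * 1 := mul_le_mul_of_nonneg_left b3 (by positivity)
            _ = m ^ 4 := mul_one _
        have h10 : h * (6 * m ^ 8 + 2048 * (d : ℝ) ^ 2 * m ^ 6) * YW y R σ G ≤
            h * m ^ 4 * YW y R σ G :=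
          mul_le_mul_of_nonneg_right (mul_le_mul_of_nonneg_left h9 hh.le) h7
        nlinarith

end DynG
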